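import Pool.Agent.Lib.H45DA.Loc

/-!
# Project H45DA, chunk A3: integrals of functions of the sum over an orthant
-/

open MeasureTheory
open scoped Nat

namespace Pool.Agent.Lib.H45DA

private lemma A3_meas (ι : Type) [Fintype ι] : MeasurableSet {q : ι → ℝ | ∀ i, 0 ≤ q i} := by
  rw [Set.ofPred_forall]
  exact MeasurableSet.iInter fun i => measurableSet_le measurable_const (measurable_pi_apply i)

private lemma A3_pow (n : ℕ) {s : ℝ} (hs : 0 < s) :
    ∫⁻ r in Set.Ioc (0 : ℝ) s, ENNReal.ofReal (r ^ n / n !) =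
      ENNReal.ofReal (s ^ (n + 1) / (n + 1)!) := by
  have hc : Continuous fun r : ℝ => r ^ n / (n ! : ℝ) := by fun_prop
  rw [← ofReal_integral_eq_lintegral_ofReal]
  · rw [← intervalIntegral.integral_of_le hs.le, intervalIntegral.integral_div, integral_pow,
      Nat.factorial_succ]
    congr 1
    push_cast
    have h1 : (n ! : ℝ) ≠ 0 := by positivity
    have h2 : (n : ℝ) + 1 ≠ 0 := by positivity
    field_simp
    ring
  · exact (hc.integrableOn_Icc (a := 0) (b := s)).mono_set Set.Ioc_subset_Icc_self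
  · refine (ae_restrict_iff' measurableSet_Ioc).mpr (Filter.Eventually.of_forall fun r hr => ?_)
    have h0 : 0 < r := hr.1
    show 0 ≤ r ^ n / (n ! : ℝ)
    positivity

/-- Convolution with one more coordinate. -/
private lemma A3_step (g : ℝ → ENNReal) (hg : Measurable g) (n : ℕ) :
    ∫⁻ x in Set.Ici (0 : ℝ), ∫⁻ r in Set.Ioi (0 : ℝ), g (x + r) * ENNReal.ofReal (r ^ n / n !) =
      ∫⁻ s in Set.Ioi (0 : ℝ), g s * ENNReal.ofReal (s ^ (n + 1) / (n + 1)!) := by
  set w : ℝ → ENNReal := fun r => ENNReal.ofReal (r ^ n / n !) with hw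
  have hwm : Measurable w := by
    have : Measurable fun r : ℝ => r ^ n / (n ! : ℝ) := by fun_prop
    exact this.ennreal_ofReal
  set T : Set (ℝ × ℝ) := {p | 0 < p.1 ∧ p.1 ≤ p.2} with hT
  have hTm : MeasurableSet T :=
    (measurableSet_lt measurable_const measurable_fst).inter
      (measurableSet_le measurable_fst measurable_snd)
  set F : ℝ → ℝ → ENNReal := fun r s => T.indicator (fun p => g p.2 * w p.1) (r, s) with hF
  have hFm : Measurable (Function.uncurry F) := by
    have : Function.uncurry F = T.indicator (fun p => g p.2 * w p.1) := by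
      ext ⟨r, s⟩
      rfl
    rw [this]
    exact ((hg.comp measurable_snd).mul (hwm.comp measurable_fst)).indicator hTm
  have h1 : ∫⁻ x in Set.Ici (0 : ℝ), ∫⁻ r in Set.Ioi (0 : ℝ), g (x + r) * w r =
      ∫⁻ r in Set.Ioi (0 : ℝ), ∫⁻ x in Set.Ici (0 : ℝ), g (x + r) * w r := by
    refine lintegral_lintegral_swap ?_
    refine Measurable.aemeasurable ?_
    exact (hg.comp (measurable_fst.add measurable_snd)).mul (hwm.comp measurable_snd)
  have h2 : ∀ r : ℝ, (Set.Ioi (0 : ℝ)).indicator
      (fun r => ∫⁻ x in Set.Ici (0 : ℝ), g (x + r) * w r) r = ∫⁻ s, F r s := by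
    intro r
    by_cases hr : 0 < r
    · rw [Set.indicator_of_mem (Set.mem_Ioi.mpr hr), ← lintegral_indicator measurableSet_Ici]
      have h3 : ∀ x : ℝ, (Set.Ici (0 : ℝ)).indicator (fun x => g (x + r) * w r) x =
          (fun s => F r s) (x + r) := by
        intro x
        simp only [hF]
        by_cases hx : 0 ≤ x
        · rw [Set.indicator_of_mem (Set.mem_Ici.mpr hx), Set.indicator_of_mem
            (show (r, x + r) ∈ T from ⟨hr, by show r ≤ x + r; linarith⟩)]
        · rw [Set.indicator_of_notMem (by simpa using hx), Set.indicator_of_notMem]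
          rintro ⟨-, h⟩
          have h' : r ≤ x + r := h
          exact hx (by linarith)
      rw [lintegral_congr h3, lintegral_add_right_eq_self]
    · rw [Set.indicator_of_notMem (by simpa using hr)]
      have h3 : ∀ s, F r s = 0 := by
        intro s
        simp only [hF]
        rw [Set.indicator_of_notMem]
        rintro ⟨h, -⟩
        exact hr h
      simp [h3]
  have h4 : ∀ s : ℝ, ∫⁻ r, F r s =
      (Set.Ioi (0 : ℝ)).indicator (fun s => g s * ENNReal.ofReal (s ^ (n + 1) / (n + 1)!)) s := by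
    intro s
    by_cases hs : 0 < s
    · rw [Set.indicator_of_mem (Set.mem_Ioi.mpr hs), ← A3_pow n hs,
        ← lintegral_const_mul _ hwm, ← lintegral_indicator measurableSet_Ioc]
      refine lintegral_congr fun r => ?_
      simp only [hF]
      by_cases hr : r ∈ Set.Ioc (0 : ℝ) s
      · rw [Set.indicator_of_mem hr, Set.indicator_of_mem (show (r, s) ∈ T from hr)]
      · rw [Set.indicator_of_notMem hr, Set.indicator_of_notMem (show (r, s) ∉ T from hr)]
    · rw [Set.indicator_of_notMem (by simpa using hs)]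
      have h3 : ∀ r, F r s = 0 := by
        intro r
        simp only [hF]
        rw [Set.indicator_of_notMem]
        rintro ⟨h, h'⟩
        have e1 : 0 < r := h
        have e2 : r ≤ s := h'
        exact hs (by linarith)
      simp [h3]
  rw [h1, ← lintegral_indicator measurableSet_Ioi, lintegral_congr h2,
    lintegral_lintegral_swap hFm.aemeasurable, lintegral_congr h4,
    lintegral_indicator measurableSet_Ioi]

private lemma A3_fin (n : ℕ) : ∀ g : ℝ → ENNReal, Measurable g →
    ∫⁻ q in {q : Fin (n + 1) → ℝ | ∀ i, 0 ≤ q i}, g (∑ i, q i) =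
      ∫⁻ r in Set.Ioi (0 : ℝ), g r * ENNReal.ofReal (r ^ n / n !) := by
  induction n with
  | zero =>
    intro g hg
    have h1 : ∀ q : Fin 1 → ℝ, ({q : Fin 1 → ℝ | ∀ i, 0 ≤ q i}).indicator
        (fun q => g (∑ i, q i)) q =
        (Set.Ici (0 : ℝ)).indicator g (MeasurableEquiv.funUnique (Fin 1) ℝ q) := by
      intro q
      have h2 : MeasurableEquiv.funUnique (Fin 1) ℝ q = q 0 := rfl
      rw [h2]
      by_cases hq : 0 ≤ q 0
      · rw [Set.indicator_of_mem (show q ∈ {q : Fin 1 → ℝ | ∀ i, 0 ≤ q i} from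
          fun i => by rw [Subsingleton.elim i 0]; exact hq),
          Set.indicator_of_mem (Set.mem_Ici.mpr hq)]
        simp
      · rw [Set.indicator_of_notMem (show q ∉ {q : Fin 1 → ℝ | ∀ i, 0 ≤ q i} from
          fun h => hq (h 0)), Set.indicator_of_notMem (by simpa using hq)]
    have h3 : ∫⁻ q in {q : Fin 1 → ℝ | ∀ i, 0 ≤ q i}, g (∑ i, q i) =
        ∫⁻ r in Set.Ioi (0 : ℝ), g r * ENNReal.ofReal (r ^ 0 / 0 !) := by
      rw [← lintegral_indicator (A3_meas (Fin 1)), lintegral_congr h1]
      refine ((volume_preserving_funUnique (Fin 1) ℝ).lintegral_comp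
        (hg.indicator measurableSet_Ici)).trans ?_
      rw [lintegral_indicator measurableSet_Ici, ← setLIntegral_congr Ioi_ae_eq_Ici]
      simp
    exact h3
  | succ n ih =>
    intro g hg
    set S : Set (ℝ × (Fin (n + 1) → ℝ)) := {z | 0 ≤ z.1 ∧ ∀ i, 0 ≤ z.2 i} with hS
    have hSm : MeasurableSet S :=
      (measurableSet_le measurable_const measurable_fst).inter
        (measurable_snd (A3_meas (Fin (n + 1))))
    set F : ℝ × (Fin (n + 1) → ℝ) → ENNReal :=
      S.indicator (fun z => g (z.1 + ∑ i, z.2 i)) with hF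
    have hFm : Measurable F := by
      refine Measurable.indicator ?_ hSm
      refine hg.comp ?_
      fun_prop
    have h1 : ∀ q : Fin (n + 1 + 1) → ℝ, ({q : Fin (n + 1 + 1) → ℝ | ∀ i, 0 ≤ q i}).indicator
        (fun q => g (∑ i, q i)) q =
        F (MeasurableEquiv.piFinSuccAbove (fun _ : Fin (n + 1 + 1) => ℝ) 0 q) := by
      intro q
      have h2 : MeasurableEquiv.piFinSuccAbove (fun _ : Fin (n + 1 + 1) => ℝ) 0 q =
          (q 0, fun j => q j.succ) := rfl
      rw [h2, hF]
      by_cases hq : ∀ i, 0 ≤ q i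
      · rw [Set.indicator_of_mem (show q ∈ {q : Fin (n + 1 + 1) → ℝ | ∀ i, 0 ≤ q i} from hq),
          Set.indicator_of_mem (show (q 0, fun j : Fin (n + 1) => q j.succ) ∈ S from
            ⟨hq 0, fun i => hq i.succ⟩), Fin.sum_univ_succ]
      · rw [Set.indicator_of_notMem (show q ∉ {q : Fin (n + 1 + 1) → ℝ | ∀ i, 0 ≤ q i} from
          fun h => hq h), Set.indicator_of_notMem]
        rintro ⟨e1, e2⟩
        exact hq fun i => Fin.cases e1 e2 i
    rw [← lintegral_indicator (A3_meas (Fin (n + 1 + 1))), lintegral_congr h1,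
      (volume_preserving_piFinSuccAbove (fun _ : Fin (n + 1 + 1) => ℝ) 0).lintegral_comp hFm,
      Measure.volume_eq_prod, lintegral_prod _ hFm.aemeasurable, ← A3_step g hg n,
      ← lintegral_indicator measurableSet_Ici]
    refine lintegral_congr fun x => ?_
    by_cases hx : 0 ≤ x
    · rw [Set.indicator_of_mem (Set.mem_Ici.mpr hx),
        ← ih (fun r => g (x + r)) (hg.comp (measurable_const_add x)),
        ← lintegral_indicator (A3_meas (Fin (n + 1)))]
      refine lintegral_congr fun p => ?_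
      rw [hF]
      by_cases hp : ∀ i, 0 ≤ p i
      · rw [Set.indicator_of_mem (show (x, p) ∈ S from ⟨hx, hp⟩),
          Set.indicator_of_mem (show p ∈ {q : Fin (n + 1) → ℝ | ∀ i, 0 ≤ q i} from hp)]
      · rw [Set.indicator_of_notMem (show (x, p) ∉ S from fun h => hp h.2),
          Set.indicator_of_notMem (show p ∉ {q : Fin (n + 1) → ℝ | ∀ i, 0 ≤ q i} from
            fun h => hp h)]
    · rw [Set.indicator_of_notMem (by simpa using hx)]
      have h3 : ∀ p, F (x, p) = 0 := fun p => by
        rw [hF, Set.indicator_of_notMem (show (x, p) ∉ S from fun h => hx h.1)]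
      simp [h3]

/-- **Chunk A3** (M). `∫⁻ g(∑ q_i)` over the orthant of dimension `N ≥ 1` is
`∫⁻ r > 0, g(r) r^(N-1)/(N-1)!`.

Proof. `ι = Fin N` first (then `Fintype.equivFin`), by induction on `N ≥ 1`. `N = 1`: `volume` on
`Fin 1 → ℝ` (`MeasureTheory.volume_preserving_funUnique`), and `{0}` is a null set. Step: Fubini-Tonelli
(`volume_preserving_piFinSuccAbove`, `lintegral_prod`): the integral for `N + 1` is
`∫⁻ x in Ioi 0, ∫⁻ r in Ioi 0, g (x + r) r^(N-1)/(N-1)!` (induction for the function `r ↦ g (x + r)`)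
`= ∫⁻ s in Ioi 0, g s (∫⁻ r in Ioc 0 s, r^(N-1)/(N-1)!)` (Tonelli and the translation `s = x + r`)
`= ∫⁻ s in Ioi 0, g s s^N/N!`. -/
theorem lintegral_sum_orthant {ι : Type} [Fintype ι] [Nonempty ι] (g : ℝ → ENNReal)
    (hg : Measurable g) :
    ∫⁻ q in {q : ι → ℝ | ∀ i, 0 ≤ q i}, g (∑ i, q i) =
      ∫⁻ r in Set.Ioi (0 : ℝ), g r *
        ENNReal.ofReal (r ^ (Fintype.card ι - 1) / (Fintype.card ι - 1)!) := by
  obtain ⟨n, hn⟩ : ∃ n, Fintype.card ι = n + 1 :=
    ⟨Fintype.card ι - 1, (Nat.sub_add_cancel Fintype.card_pos).symm⟩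
  rw [hn, Nat.add_sub_cancel, ← A3_fin n g hg]
  let e : ι ≃ Fin (n + 1) := Fintype.equivFinOfCardEq hn
  have hGm : Measurable (({q : Fin (n + 1) → ℝ | ∀ i, 0 ≤ q i}).indicator
      (fun q => g (∑ i, q i))) := by
    refine Measurable.indicator ?_ (A3_meas (Fin (n + 1)))
    exact hg.comp (by fun_prop)
  rw [← lintegral_indicator (A3_meas (Fin (n + 1))), ← lintegral_indicator (A3_meas ι),
    ← (volume_measurePreserving_piCongrLeft (fun _ : Fin (n + 1) => ℝ) e).lintegral_comp hGm]
  refine lintegral_congr fun q => ?_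
  have h1 : ∀ i, MeasurableEquiv.piCongrLeft (fun _ : Fin (n + 1) => ℝ) e q (e i) = q i :=
    fun i => Equiv.piCongrLeft_apply_apply (fun _ : Fin (n + 1) => ℝ) e q i
  by_cases hq : ∀ i, 0 ≤ q i
  · rw [Set.indicator_of_mem (show q ∈ {q : ι → ℝ | ∀ i, 0 ≤ q i} from hq), Set.indicator_of_mem,
      ← Equiv.sum_comp e]
    · simp only [h1]
    · intro j
      obtain ⟨i, rfl⟩ := e.surjective j
      rw [h1]
      exact hq i
  · rw [Set.indicator_of_notMem (show q ∉ {q : ι → ℝ | ∀ i, 0 ≤ q i} from fun h => hq h),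
      Set.indicator_of_notMem]
    intro h
    apply hq
    intro i
    have := h (e i)
    rwa [h1] at this

end Pool.Agent.Lib.H45DA
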