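import Pool.Agent.Lib.H45DA.Loc
import Pool.Agent.Lib.H45DA.A3

/-!
# Project H45DA, chunk A1: the volume of a simplex
-/

open MeasureTheory
open scoped Nat

namespace Pool.Agent.Lib.H45DA

private lemma A1_meas (ι : Type) [Fintype ι] : MeasurableSet {q : ι → ℝ | ∀ i, 0 ≤ q i} := by
  rw [Set.ofPred_forall]
  exact MeasurableSet.iInter fun i => measurableSet_le measurable_const (measurable_pi_apply i)

/-- The standard simplex. -/
private lemma A1_std {ι : Type} [Fintype ι] [Nonempty ι] (t : ℝ) (ht : 0 ≤ t) :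
    volume {q : ι → ℝ | (∀ i, 0 ≤ q i) ∧ ∑ i, q i ≤ t} =
      ENNReal.ofReal (t ^ Fintype.card ι / (Fintype.card ι)!) := by
  obtain ⟨n, hn⟩ : ∃ n, Fintype.card ι = n + 1 :=
    ⟨Fintype.card ι - 1, (Nat.sub_add_cancel Fintype.card_pos).symm⟩
  have hgm : Measurable ((Set.Iic t).indicator (fun _ : ℝ => (1 : ENNReal))) :=
    measurable_const.indicator measurableSet_Iic
  have hsum : Measurable fun q : ι → ℝ => ∑ i, q i := by fun_prop
  have h1 : volume {q : ι → ℝ | (∀ i, 0 ≤ q i) ∧ ∑ i, q i ≤ t} =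
      ∫⁻ q in {q : ι → ℝ | ∀ i, 0 ≤ q i},
        (Set.Iic t).indicator (fun _ : ℝ => (1 : ENNReal)) (∑ i, q i) := by
    have e : ∀ q : ι → ℝ, (Set.Iic t).indicator (fun _ : ℝ => (1 : ENNReal)) (∑ i, q i) =
        ({q : ι → ℝ | ∑ i, q i ≤ t}).indicator (fun _ => (1 : ENNReal)) q := by
      intro q
      by_cases hq : ∑ i, q i ≤ t
      · rw [Set.indicator_of_mem (show ∑ i, q i ∈ Set.Iic t from hq),
          Set.indicator_of_mem (show q ∈ {q : ι → ℝ | ∑ i, q i ≤ t} from hq)]
      · rw [Set.indicator_of_notMem (show ∑ i, q i ∉ Set.Iic t from hq),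
          Set.indicator_of_notMem (show q ∉ {q : ι → ℝ | ∑ i, q i ≤ t} from hq)]
    have hm : MeasurableSet {q : ι → ℝ | ∑ i, q i ≤ t} :=
      measurableSet_le hsum measurable_const
    rw [lintegral_congr e, lintegral_indicator hm, setLIntegral_const, one_mul,
      Measure.restrict_apply hm]
    congr 1
    ext q
    exact and_comm
  rw [h1, lintegral_sum_orthant _ hgm, hn, Nat.add_sub_cancel]
  have h2 : ∀ r : ℝ, (Set.Iic t).indicator (fun _ : ℝ => (1 : ENNReal)) r *
      ENNReal.ofReal (r ^ n / n !) =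
      (Set.Iic t).indicator (fun r : ℝ => ENNReal.ofReal (r ^ n / n !)) r := by
    intro r
    by_cases hr : r ∈ Set.Iic t
    · rw [Set.indicator_of_mem hr, Set.indicator_of_mem hr, one_mul]
    · rw [Set.indicator_of_notMem hr, Set.indicator_of_notMem hr, zero_mul]
  rw [lintegral_congr h2, lintegral_indicator measurableSet_Iic,
    Measure.restrict_restrict measurableSet_Iic, Set.inter_comm, Set.Ioi_inter_Iic]
  have hc : Continuous fun r : ℝ => r ^ n / (n ! : ℝ) := by fun_prop
  rw [← ofReal_integral_eq_lintegral_ofReal]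
  · rw [← intervalIntegral.integral_of_le ht, intervalIntegral.integral_div, integral_pow,
      Nat.factorial_succ]
    congr 1
    push_cast
    have h3 : (n ! : ℝ) ≠ 0 := by positivity
    have h4 : (n : ℝ) + 1 ≠ 0 := by positivity
    field_simp
    ring
  · exact (hc.integrableOn_Icc (a := 0) (b := t)).mono_set Set.Ioc_subset_Icc_self
  · refine (ae_restrict_iff' measurableSet_Ioc).mpr (Filter.Eventually.of_forall fun r hr => ?_)
    have h0 : 0 < r := hr.1
    show 0 ≤ r ^ n / (n ! : ℝ)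
    positivity

/-- **Chunk A1** (M). The volume of the simplex `{q ≥ 0, ∑ β_i q_i ≤ t}` is `t^N / (N! ∏ β_i)`, `N = card ι`.

Proof. First `β = 1` and `ι = Fin N`, by induction on `N` (for `N = 0` both sides are `1`): by Fubini
(`MeasureTheory.volume_preserving_piFinSuccAbove`) the volume for `N + 1` is
`∫⁻ x in Icc 0 t, V_N (t - x)` with `V_N r = r^N / N!`, and `∫ x in 0..t, (t-x)^N / N! = t^(N+1)/(N+1)!`.
General `ι`: `Fintype.equivFin` (`volume_measurePreserving_piCongrLeft`). General `β`: the map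
`q ↦ (β_i q_i)` is linear with the determinant `∏ β_i`
(`Real.map_matrix_volume_pi_eq_smul_volume_pi`, `Real.smul_map_diagonal_volume_pi`, or
`Measure.addHaar_preimage_linearMap` with `Matrix.toLin' (Matrix.diagonal β)`), and the simplex for `β` is
the preimage of the simplex for `β = 1`. -/
theorem volume_simplex {ι : Type} [Fintype ι] (β : ι → ℝ) (hβ : ∀ i, 0 < β i) (t : ℝ) (ht : 0 ≤ t) :
    volume {q : ι → ℝ | (∀ i, 0 ≤ q i) ∧ ∑ i, β i * q i ≤ t} =
      ENNReal.ofReal (t ^ Fintype.card ι / ((Fintype.card ι)! * ∏ i, β i)) := by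
  classical
  rcases isEmpty_or_nonempty ι with hι | hι
  · have h1 : {q : ι → ℝ | (∀ i, 0 ≤ q i) ∧ ∑ i, β i * q i ≤ t} = Set.univ := by
      ext q
      simp [ht]
    have h2 : volume (Set.univ : Set (ι → ℝ)) = 1 := by
      rw [volume_pi, Measure.pi_of_empty]
      exact measure_univ
    rw [h1, h2]
    simp
  · have hdet : LinearMap.det (Matrix.toLin' (Matrix.diagonal β)) = ∏ i, β i := by
      rw [LinearMap.det_toLin', Matrix.det_diagonal]
    have hpos : 0 < ∏ i, β i := Finset.prod_pos fun i _ => hβ i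
    have hne : LinearMap.det (Matrix.toLin' (Matrix.diagonal β)) ≠ 0 := by
      rw [hdet]
      exact hpos.ne'
    have hpre : {q : ι → ℝ | (∀ i, 0 ≤ q i) ∧ ∑ i, β i * q i ≤ t} =
        (Matrix.toLin' (Matrix.diagonal β)) ⁻¹' {q : ι → ℝ | (∀ i, 0 ≤ q i) ∧ ∑ i, q i ≤ t} := by
      ext q
      have h2 : ∀ i, (Matrix.toLin' (Matrix.diagonal β)) q i = β i * q i := by
        intro i
        rw [Matrix.toLin'_apply, Matrix.mulVec_diagonal]
      simp only [Set.mem_preimage, Set.mem_ofPred_eq, h2]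
      refine and_congr (forall_congr' fun i => ?_) Iff.rfl
      exact (mul_nonneg_iff_of_pos_left (hβ i)).symm
    rw [hpre, Measure.addHaar_preimage_linearMap _ hne, hdet, A1_std t ht, abs_of_pos
      (inv_pos.mpr hpos), ← ENNReal.ofReal_mul (inv_pos.mpr hpos).le]
    congr 1
    have h3 : ((Fintype.card ι)! : ℝ) ≠ 0 := by positivity
    field_simp

end Pool.Agent.Lib.H45DA
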