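import Pool.Agent.Lib.H45DA.Loc

/-!
# Project H45DA, chunk A2: change of coordinates by an integral matrix
-/

open MeasureTheory

namespace Pool.Agent.Lib.H45DA

/-- **Chunk A2** (S). The volume of the set of the `z` with `(⟨b k, z⟩)_k ∈ S` is `volume S / |det b|`.

Proof. `z ↦ (⟨b k, z⟩)_k` is `Matrix.toLin' ((Matrix.of b).map (Int.cast : ℤ → ℝ))` (`Matrix.mulVec`); its
determinant is `((Matrix.of b).det : ℝ)` (`LinearMap.det_toLin'`, `Int.cast_det` or
`(Int.castRingHom ℝ).map_det`); use `Measure.addHaar_preimage_linearMap` (it holds for all sets `S`). -/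
theorem volume_preimage_basis {κ : Type} [Fintype κ] [DecidableEq κ] (b : κ → κ → ℤ)
    (hb : (Matrix.of b).det ≠ 0) (S : Set (κ → ℝ)) :
    volume ((fun (z : κ → ℝ) k => pr (b k) z) ⁻¹' S) =
      ENNReal.ofReal (1 / |((Matrix.of b).det : ℝ)|) * volume S := by
  have hdet : ((Matrix.of b).map (Int.cast : ℤ → ℝ)).det = ((Matrix.of b).det : ℝ) := by
    exact (Int.cast_det (Matrix.of b)).symm
  have hfun : (fun (z : κ → ℝ) k => pr (b k) z) =
      ⇑(Matrix.toLin' ((Matrix.of b).map (Int.cast : ℤ → ℝ))) := by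
    funext z k
    rw [Matrix.toLin'_apply]
    rfl
  have hne : LinearMap.det (Matrix.toLin' ((Matrix.of b).map (Int.cast : ℤ → ℝ))) ≠ 0 := by
    rw [LinearMap.det_toLin', hdet]
    exact_mod_cast hb
  rw [hfun, Measure.addHaar_preimage_linearMap volume hne S, LinearMap.det_toLin', hdet, abs_inv,
    one_div]

end Pool.Agent.Lib.H45DA
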