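import Pool.Agent.Lib.H45DA.Loc

/-!
# Project H45DA, chunk A4: volumes in cones by the Laplace transform
-/

open MeasureTheory
open scoped Nat Pointwise

namespace Pool.Agent.Lib.H45DA

/-- Homogeneity of the volumes of the sublevel sets. -/
theorem laplace_cone_scale {κ : Type} [Fintype κ] (S : Set (κ → ℝ))
    (hcone : ∀ r : ℝ, 0 < r → ∀ z ∈ S, r • z ∈ S) (f : (κ → ℝ) → ℝ)
    (hhom : ∀ r : ℝ, 0 < r → ∀ z, f (r • z) = r * f z) (r : ℝ) (hr : 0 < r) :
    volume {z | z ∈ S ∧ f z ≤ r} =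
      ENNReal.ofReal (r ^ Fintype.card κ) * volume {z | z ∈ S ∧ f z ≤ 1} := by
  have hset : {z | z ∈ S ∧ f z ≤ r} = r • {z | z ∈ S ∧ f z ≤ 1} := by
    ext z
    rw [Set.mem_smul_set_iff_inv_smul_mem₀ hr.ne']
    show (z ∈ S ∧ f z ≤ r) ↔ (r⁻¹ • z ∈ S ∧ f (r⁻¹ • z) ≤ 1)
    have hri : 0 < r⁻¹ := inv_pos.mpr hr
    rw [hhom _ hri]
    constructor
    · rintro ⟨h1, h2⟩
      refine ⟨hcone _ hri z h1, ?_⟩
      rw [inv_mul_le_iff₀ hr, mul_one]
      exact h2
    · rintro ⟨h1, h2⟩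
      refine ⟨?_, ?_⟩
      · have h3 := hcone r hr _ h1
        rwa [smul_inv_smul₀ hr.ne'] at h3
      · rw [inv_mul_le_iff₀ hr, mul_one] at h2
        exact h2
  rw [hset, Measure.addHaar_smul_of_nonneg _ hr.le, Module.finrank_fintype_fun_eq_card]

/-- `exp (-c)` as an integral over `r > 0`. -/
theorem laplace_cone_exp (c : ℝ) (hc : 0 ≤ c) :
    ENNReal.ofReal (Real.exp (-c)) =
      ∫⁻ r in Set.Ioi (0 : ℝ), (Set.Ici c).indicator (fun r => ENNReal.ofReal (Real.exp (-r))) r := by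
  rw [← integral_exp_neg_Ioi c, ofReal_integral_eq_lintegral_ofReal (integrableOn_exp_neg_Ioi c)
    (Filter.Eventually.of_forall fun x => (Real.exp_pos _).le)]
  rw [lintegral_indicator measurableSet_Ici, Measure.restrict_restrict measurableSet_Ici]
  have h1 : (Set.Ici c ∩ Set.Ioi (0 : ℝ) : Set ℝ) =ᵐ[volume] (Set.Ioi c : Set ℝ) := by
    rcases hc.eq_or_lt with h | h
    · rw [← h, Set.inter_eq_self_of_subset_right Set.Ioi_subset_Ici_self]
    · rw [Set.inter_eq_self_of_subset_left]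
      · exact Ioi_ae_eq_Ici.symm
      · intro x hx
        exact lt_of_lt_of_le h hx
  rw [Measure.restrict_congr_set h1]

/-- The Gamma integral. -/
theorem laplace_cone_gamma (N : ℕ) :
    ∫⁻ r in Set.Ioi (0 : ℝ), ENNReal.ofReal (Real.exp (-r)) * ENNReal.ofReal (r ^ N) =
      ((N ! : ℕ) : ENNReal) := by
  have h1 : (0 : ℝ) < (N : ℝ) + 1 := by positivity
  have h2 : ∫⁻ r in Set.Ioi (0 : ℝ), ENNReal.ofReal (Real.exp (-r)) * ENNReal.ofReal (r ^ N) =
      ∫⁻ r in Set.Ioi (0 : ℝ), ENNReal.ofReal (Real.exp (-r) * r ^ ((N : ℝ) + 1 - 1)) := by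
    refine setLIntegral_congr_fun measurableSet_Ioi fun r hr => ?_
    rw [← ENNReal.ofReal_mul (Real.exp_pos _).le]
    congr 2
    rw [add_sub_cancel_right, Real.rpow_natCast]
  rw [h2, ← ofReal_integral_eq_lintegral_ofReal (Real.GammaIntegral_convergent h1)]
  · rw [← Real.Gamma_eq_integral h1, Real.Gamma_nat_eq_factorial, ENNReal.ofReal_natCast]
  · refine (ae_restrict_iff' measurableSet_Ioi).mpr (Filter.Eventually.of_forall fun r hr => ?_)
    have : (0 : ℝ) < r := hr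
    show (0 : ℝ) ≤ _
    positivity

/-- **Chunk A4** (M). For a cone `S` and a function `f ≥ 0` on `S` homogeneous of degree one,
`N! vol {z ∈ S : f z ≤ t} = t^N ∫_S exp(-f)`, `N = card κ`.

Proof. Let `v = vol {z ∈ S : f z ≤ 1}`. For `r > 0`, `{z ∈ S : f z ≤ r} = r • {z ∈ S : f z ≤ 1}` has the volume
`r^N v` (`Measure.addHaar_smul`). For `z ∈ S`, `exp(-f z) = ∫⁻ r in Ioi 0, exp(-r) 1_{f z ≤ r}` (as `f z ≥ 0`; the
point `r = 0` does not matter), so by Tonelli (`lintegral_lintegral_swap`)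
`∫⁻_S exp(-f) = ∫⁻ r in Ioi 0, exp(-r) vol {z ∈ S : f z ≤ r} = v ∫⁻ exp(-r) r^N = v N!`
(`Real.Gamma_nat_eq_factorial`, `Real.GammaIntegral`; `ENNReal.ofReal` of the integral). Then multiply by
`t^N`. (`v = ∞` is not excluded.) -/
theorem laplace_cone {κ : Type} [Fintype κ] (S : Set (κ → ℝ)) (hS : MeasurableSet S)
    (hcone : ∀ r : ℝ, 0 < r → ∀ z ∈ S, r • z ∈ S) (f : (κ → ℝ) → ℝ) (hf : Measurable f)
    (hhom : ∀ r : ℝ, 0 < r → ∀ z, f (r • z) = r * f z) (hpos : ∀ z ∈ S, 0 ≤ f z) (t : ℝ) (ht : 0 < t) :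
    ((Fintype.card κ)! : ENNReal) * volume {z | z ∈ S ∧ f z ≤ t} =
      ENNReal.ofReal (t ^ Fintype.card κ) * ∫⁻ z in S, ENNReal.ofReal (Real.exp (-f z)) := by
  set v : ENNReal := volume {z | z ∈ S ∧ f z ≤ 1} with hv
  have h1 : ∫⁻ z in S, ENNReal.ofReal (Real.exp (-f z)) =
      ∫⁻ z in S, ∫⁻ r in Set.Ioi (0 : ℝ),
        (Set.Ici (f z)).indicator (fun r => ENNReal.ofReal (Real.exp (-r))) r :=
    setLIntegral_congr_fun hS fun z hz => laplace_cone_exp _ (hpos z hz)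
  have hmeas : Measurable (Function.uncurry fun (z : κ → ℝ) (r : ℝ) =>
      (Set.Ici (f z)).indicator (fun r => ENNReal.ofReal (Real.exp (-r))) r) := by
    have hE : MeasurableSet {p : (κ → ℝ) × ℝ | f p.1 ≤ p.2} :=
      measurableSet_le (hf.comp measurable_fst) measurable_snd
    have h2 : (Function.uncurry fun (z : κ → ℝ) (r : ℝ) =>
        (Set.Ici (f z)).indicator (fun r => ENNReal.ofReal (Real.exp (-r))) r) =
        {p : (κ → ℝ) × ℝ | f p.1 ≤ p.2}.indicator
          (fun p => ENNReal.ofReal (Real.exp (-p.2))) := by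
      funext p
      by_cases hp : f p.1 ≤ p.2
      · have h3 : p.2 ∈ Set.Ici (f p.1) := hp
        have h4 : p ∈ {p : (κ → ℝ) × ℝ | f p.1 ≤ p.2} := hp
        rw [Set.indicator_of_mem h4]
        show (Set.Ici (f p.1)).indicator (fun r => ENNReal.ofReal (Real.exp (-r))) p.2 = _
        rw [Set.indicator_of_mem h3]
      · have h3 : p.2 ∉ Set.Ici (f p.1) := hp
        have h4 : p ∉ {p : (κ → ℝ) × ℝ | f p.1 ≤ p.2} := hp
        rw [Set.indicator_of_notMem h4]
        show (Set.Ici (f p.1)).indicator (fun r => ENNReal.ofReal (Real.exp (-r))) p.2 = _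
        rw [Set.indicator_of_notMem h3]
    rw [h2]
    exact Measurable.indicator (by fun_prop) hE
  have h2 : ∫⁻ z in S, ∫⁻ r in Set.Ioi (0 : ℝ),
        (Set.Ici (f z)).indicator (fun r => ENNReal.ofReal (Real.exp (-r))) r =
      ∫⁻ r in Set.Ioi (0 : ℝ), ∫⁻ z in S,
        (Set.Ici (f z)).indicator (fun r => ENNReal.ofReal (Real.exp (-r))) r :=
    lintegral_lintegral_swap hmeas.aemeasurable
  have h3 : ∫⁻ r in Set.Ioi (0 : ℝ), ∫⁻ z in S,
        (Set.Ici (f z)).indicator (fun r => ENNReal.ofReal (Real.exp (-r))) r =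
      ∫⁻ r in Set.Ioi (0 : ℝ), ENNReal.ofReal (Real.exp (-r)) *
        ENNReal.ofReal (r ^ Fintype.card κ) * v := by
    refine setLIntegral_congr_fun measurableSet_Ioi fun r hr => ?_
    have hr' : (0 : ℝ) < r := hr
    have hE : MeasurableSet {z : κ → ℝ | f z ≤ r} := measurableSet_le hf measurable_const
    have h4 : (fun z : κ → ℝ =>
        (Set.Ici (f z)).indicator (fun r => ENNReal.ofReal (Real.exp (-r))) r) =
        {z : κ → ℝ | f z ≤ r}.indicator (fun _ => ENNReal.ofReal (Real.exp (-r))) := by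
      funext z
      by_cases hp : f z ≤ r
      · have h5 : r ∈ Set.Ici (f z) := hp
        have h6 : z ∈ {z : κ → ℝ | f z ≤ r} := hp
        rw [Set.indicator_of_mem h6, Set.indicator_of_mem h5]
      · have h5 : r ∉ Set.Ici (f z) := hp
        have h6 : z ∉ {z : κ → ℝ | f z ≤ r} := hp
        rw [Set.indicator_of_notMem h6, Set.indicator_of_notMem h5]
    show ∫⁻ z in S, (Set.Ici (f z)).indicator (fun r => ENNReal.ofReal (Real.exp (-r))) r = _
    rw [h4, lintegral_indicator_const hE, Measure.restrict_apply hE, mul_assoc]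
    congr 1
    rw [← laplace_cone_scale S hcone f hhom r hr']
    congr 1
    exact Set.inter_comm _ _
  have h4 : ∫⁻ r in Set.Ioi (0 : ℝ), ENNReal.ofReal (Real.exp (-r)) *
        ENNReal.ofReal (r ^ Fintype.card κ) * v = (((Fintype.card κ)! : ℕ) : ENNReal) * v := by
    rw [lintegral_mul_const _ (by fun_prop), laplace_cone_gamma]
  rw [h1, h2, h3, h4, laplace_cone_scale S hcone f hhom t ht, ← hv]
  ring

end Pool.Agent.Lib.H45DA
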