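import Mathlib

/-!
# Project H45DA (MP_d76efa_ag): Fano varieties with a torus action of complexity one

Let `X` be a Fano variety (klt, `-K_X` ample and `ℚ`-Cartier) of dimension `n = d + 1` with an effective
action of a torus `T` of dimension `d`; `M`, `N = ℤᵈ` are the character and cocharacter lattices. The
quotient curve is `ℙ¹`. The `T`-invariant prime divisors of `X` are the vertical ones, given by a point
`y` of `ℙ¹` and a vertex `v ∈ N_ℚ` of the slice over `y`, and the horizontal ones, given by rays `ρ ∈ N`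
(Altmann-Hausen, Petersen-Süß). This is all of the datum of `X` below.
-/

open MeasureTheory
open scoped Nat

namespace Pool.Agent.Lib.H45DA

/-- The pairing of an integral vector with a real vector. -/
def pr {ι : Type} [Fintype ι] (a : ι → ℤ) (u : ι → ℝ) : ℝ := ∑ i, (a i : ℝ) * u i

/-- The combinatorial datum of a Fano variety `X` with a torus action of complexity one: `m` points of
`ℙ¹` (among them all special ones), the rays `ρ ∈ ℤᵈ` of the horizontal divisors, and for each of the
`m` points the vertical divisors; that of the vertex `v = p / μ` (in lowest terms) is given by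
`(p, μ)`. -/
structure Datum (d m : ℕ) where
  ray : Finset (Fin d → ℤ)
  vert : Fin m → Finset ((Fin d → ℤ) × ℤ)

namespace Datum

variable {d m : ℕ} (X : Datum d m)

/-- The vertices over a point of `ℙ¹`: over all points but the `m` given ones (here called `none`)
there is one vertex, `0`. -/
def vertices : Option (Fin m) → Finset ((Fin d → ℤ) × ℤ)
  | none => {(0, 1)}
  | some y => X.vert y

/-- The concave function `Φ_y(u) = min (⟨v, u⟩ + 1 / μ(v))` over the vertices `v = p / μ` over `y`. -/
noncomputable def phi (y : Option (Fin m)) (u : Fin d → ℝ) : ℝ :=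
  sInf ((fun q : (Fin d → ℤ) × ℤ => (pr q.1 u + 1) / q.2) '' X.vertices y)

/-- The degree `Deg(u) = 2 + ∑_y (Φ_y(u) - 1)`. -/
noncomputable def degree (u : Fin d → ℝ) : ℝ := 2 + ∑ y : Fin m, (X.phi (some y) u - 1)

/-- The moment polytope of `(X, -K_X)`: `⟨ρ, u⟩ ≥ -1` for all rays `ρ`, and `Deg(u) ≥ 0`. -/
def box : Set (Fin d → ℝ) := {u | (∀ ρ ∈ X.ray, -1 ≤ pr ρ u) ∧ 0 ≤ X.degree u}

/-- The Newton-Okounkov body of `-K_X` for the point `y`: the sections of `-k K_X` of weight `k u` are
rational functions `f` on `ℙ¹`, and `f` gives the point `(u, x)` where `x` is the order of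
`f` at `y` divided by `k` (and shifted by the coefficient of the canonical divisor of `ℙ¹`). -/
def body (y : Option (Fin m)) : Set ((Fin d → ℝ) × ℝ) :=
  {z | z.1 ∈ X.box ∧ -X.phi y z.1 ≤ z.2 ∧ z.2 ≤ X.degree z.1 - X.phi y z.1}

/-- The anticanonical volume `(-K_X)ⁿ = n! ∫ Deg(u) du`, `n = d + 1`. -/
noncomputable def volume : ℝ := (d + 1)! * ∫ u in X.box, X.degree u

/-- The value of the `T`-invariant valuation `(y, w, h)`, where `y` is a point of `ℙ¹`, `w ∈ N_ℝ` and
`h ≥ 0`, on the section of the point `z` of the body (up to an additive constant): the valuation is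
`v(f χ^u) = ⟨w, u⟩ + h ord_y(f)`. -/
noncomputable def val (w : Fin d → ℝ) (h : ℝ) (z : (Fin d → ℝ) × ℝ) : ℝ := ∑ i, w i * z.1 i + h * z.2

/-- The log discrepancy `A(v)` of the valuation `v = (y, w, h)`: the sections which generate `-K_X` at
the centre of `v` are those with the least value, and their value is `-A(v)` in this normalisation. -/
noncomputable def logDiscrepancy (y : Option (Fin m)) (w : Fin d → ℝ) (h : ℝ) : ℝ :=
  -sInf (val w h '' X.body y)

/-- The expected vanishing order `S(v) = ∫ vol(-K_X - t v) dt / vol(-K_X)`: the mean value of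
`v` on the sections. -/
noncomputable def expectedOrder (y : Option (Fin m)) (w : Fin d → ℝ) (h : ℝ) : ℝ :=
  (∫ z in X.body y, (val w h z + X.logDiscrepancy y w h)) / (MeasureTheory.volume.real (X.body y))

/-- K-semistability, `S(v) ≤ A(v)`, for all `T`-invariant valuations `v = (y, w, h)`. -/
def IsKSemistable : Prop :=
  ∀ (y : Option (Fin m)) (w : Fin d → ℝ) (h : ℝ), 0 ≤ h → X.expectedOrder y w h ≤ X.logDiscrepancy y w h

/-- The datum is that of a Fano variety: the vectors are primitive, there is a vertex over each point,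
the polytope is bounded with interior points, and every ray and every vertex defines a facet. -/
structure IsFano : Prop where
  ray_primitive : ∀ ρ ∈ X.ray, ∀ k : ℤ, (∀ i, k ∣ ρ i) → IsUnit k
  vert_primitive : ∀ y, ∀ q ∈ X.vert y, 1 ≤ q.2 ∧ ∀ k : ℤ, k ∣ q.2 → (∀ i, k ∣ q.1 i) → IsUnit k
  vert_nonempty : ∀ y, (X.vert y).Nonempty
  bounded : Bornology.IsBounded X.box
  interior : ∃ u, (∀ ρ ∈ X.ray, -1 < pr ρ u) ∧ 0 < X.degree u
  ray_facet : ∀ ρ ∈ X.ray, ∃ u ∈ X.box, 0 < X.degree u ∧ pr ρ u = -1 ∧
    ∀ ρ' ∈ X.ray, ρ' ≠ ρ → -1 < pr ρ' u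
  vert_facet : ∀ y, ∀ q ∈ X.vert y, ∃ u ∈ X.box, 0 < X.degree u ∧ (∀ ρ ∈ X.ray, -1 < pr ρ u) ∧
    ∀ q' ∈ X.vert y, q' ≠ q → (pr q.1 u + 1) / q.2 < (pr q'.1 u + 1) / q'.2

/-- The generators of the cone of the toric (parabolic or hyperbolic) fixed point of `X` over `y ∈ ℙ¹`
which corresponds to the vertex `(u, -Φ_y(u))` of the body. -/
def toricGenerators (y : Option (Fin m)) (u : Fin d → ℝ) : Set ((Fin d → ℤ) × ℤ) :=
  {g | (g.1 ∈ X.ray ∧ g.2 = 0 ∧ pr g.1 u = -1) ∨
    (g ∈ X.vertices y ∧ (pr g.1 u + 1) / g.2 = X.phi y u)}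

/-- The divisors through the elliptic fixed point of `X` which corresponds to the vertex `u` of the
polytope, `Deg(u) = 0`, as vectors of `ℤᵈ × ℤᵐ`: `(ρ, 0)` for a ray `ρ`, and `(p, μ e_y)` for a
vertex `p / μ` over the point `y`. -/
def ellipticGenerators (u : Fin d → ℝ) : Set (Fin d ⊕ Fin m → ℤ) :=
  {e | (∃ ρ ∈ X.ray, e = Sum.elim ρ 0 ∧ pr ρ u = -1) ∨
    ∃ y, ∃ q ∈ X.vert y, e = Sum.elim q.1 (Pi.single y q.2) ∧ (pr q.1 u + 1) / q.2 = X.phi (some y) u}

/-- The point `y` is trivial for the elliptic fixed point of the vertex `u`: only one vertex over it is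
active at `u`, and this vertex is integral. -/
def IsTrivialAt (u : Fin d → ℝ) (y : Fin m) : Prop :=
  ∃ q ∈ X.vert y, q.2 = 1 ∧ ∀ q' ∈ X.vert y, (pr q'.1 u + 1) / q'.2 = X.phi (some y) u → q' = q

/-- All toric fixed points are smooth: the generators of their cones are a basis of `ℤᵈ × ℤ`. -/
def ToricPointsSmooth : Prop :=
  ∀ (y : Option (Fin m)) (u : Fin d → ℝ), u ∈ X.box → 0 < X.degree u →
    (u, -X.phi y u) ∈ Set.extremePoints ℝ (X.body y) →
    ∃ b : Module.Basis (Fin d ⊕ Unit) ℤ ((Fin d → ℤ) × ℤ), Set.range b = X.toricGenerators y u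

/-- All elliptic fixed points are smooth: at most two points of `ℙ¹` are not trivial (so `X` is toric
near the fixed point), and the generators of the cone are a basis of the lattice; in other words the
vectors `ellipticGenerators` and `(0, (1, …, 1))` form a basis of `ℤᵈ × ℤᵐ`. -/
def EllipticPointsSmooth : Prop :=
  ∀ u ∈ Set.extremePoints ℝ X.box, X.degree u = 0 →
    {y | ¬ X.IsTrivialAt u y}.ncard ≤ 2 ∧
    ∃ b : Module.Basis (Fin d ⊕ Fin m) ℤ (Fin d ⊕ Fin m → ℤ),
      Set.range b = insert (Sum.elim (0 : Fin d → ℤ) (1 : Fin m → ℤ)) (X.ellipticGenerators u)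

/-- `X` is smooth (it is enough to look at the fixed points of the torus). -/
def IsSmooth : Prop := X.ToricPointsSmooth ∧ X.EllipticPointsSmooth

end Datum

end Pool.Agent.Lib.H45DA
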