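import Pool.Agent.Lib.H45DA.Phi

/-!
# Project H45DA, chunk G1: the volume of the bodies
-/

open MeasureTheory
open scoped Nat

namespace Pool.Agent.Lib.H45DA.Datum

variable {d m : ℕ} {X : Datum d m}

/-- **Chunk G1** (M), three lemmas. (a) Fubini: the fibre of the body over `u ∈ box` is the interval
`[-Φ_y(u), Deg(u) - Φ_y(u)]`. For a function which does not depend on the second coordinate:

Proof. `X.body y = {z | z.1 ∈ box, …}` is compact (Phi: `isCompact_body`), `g` is continuous, so everything is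
integrable; `MeasureTheory.setIntegral_prod`-like: `∫_{body} g(z.1) = ∫_{u ∈ box} ∫_{x ∈ Icc} g(u) = ∫_{box} Deg(u) g(u)`
(`integral_prod` for the indicator function of the body on `volume.prod volume`). -/
theorem integral_body (hX : X.IsFano) (y : Option (Fin m)) (g : (Fin d → ℝ) → ℝ) (hg : Continuous g) :
    ∫ z in X.body y, g z.1 = ∫ u in X.box, X.degree u * g u := by
  have hm : MeasurableSet (X.body y) := (isClosed_body hX y).measurableSet
  have hmb : MeasurableSet X.box := (isClosed_box hX).measurableSet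
  have hint : IntegrableOn (fun z : (Fin d → ℝ) × ℝ => g z.1) (X.body y) :=
    (hg.comp continuous_fst).continuousOn.integrableOn_compact (isCompact_body hX y)
  rw [← integral_indicator hm, ← integral_indicator hmb, Measure.volume_eq_prod,
    integral_prod _ (by
      rw [← Measure.volume_eq_prod]
      exact (integrable_indicator_iff hm).mpr hint)]
  refine integral_congr_ae (Filter.Eventually.of_forall fun u => ?_)
  show ∫ x, (X.body y).indicator (fun z : (Fin d → ℝ) × ℝ => g z.1) (u, x) = _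
  by_cases hu : u ∈ X.box
  · have h1 : (fun x : ℝ => (X.body y).indicator (fun z : (Fin d → ℝ) × ℝ => g z.1) (u, x)) =
        (Set.Icc (-X.phi y u) (X.degree u - X.phi y u)).indicator (fun _ => g u) := by
      funext x
      by_cases hx : x ∈ Set.Icc (-X.phi y u) (X.degree u - X.phi y u)
      · rw [Set.indicator_of_mem hx, Set.indicator_of_mem (show (u, x) ∈ X.body y from ⟨hu, hx.1, hx.2⟩)]
      · rw [Set.indicator_of_notMem hx, Set.indicator_of_notMem]
        intro h
        exact hx ⟨h.2.1, h.2.2⟩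
    rw [h1, integral_indicator measurableSet_Icc, setIntegral_const, Set.indicator_of_mem hu,
      smul_eq_mul, Real.volume_real_Icc_of_le (by linarith [hu.2])]
    ring
  · rw [Set.indicator_of_notMem hu]
    have h1 : (fun x : ℝ => (X.body y).indicator (fun z : (Fin d → ℝ) × ℝ => g z.1) (u, x)) =
        fun _ => 0 := by
      funext x
      rw [Set.indicator_of_notMem]
      intro h
      exact hu h.1
    rw [h1, integral_zero]

/-- (b) (a) with `g = 1`. -/
theorem volume_eq (hX : X.IsFano) (y : Option (Fin m)) :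
    X.volume = (d + 1)! * MeasureTheory.volume.real (X.body y) := by
  have h := integral_body hX y (fun _ => 1) continuous_const
  rw [setIntegral_const, smul_eq_mul, mul_one] at h
  unfold Datum.volume
  rw [h]
  simp only [mul_one]

/-- (c) The volume is positive: `box` contains the open set `{u | ∀ ρ, -1 < ⟨ρ, u⟩, 0 < Deg(u)}`, nonempty by
`hX.interior`, on which `Deg > 0`; or the body contains a nonempty open set. -/
theorem volume_body_pos (hX : X.IsFano) (y : Option (Fin m)) :
    0 < MeasureTheory.volume.real (X.body y) := by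
  have hp := continuous_phi hX y
  have hd := continuous_degree hX
  have hO1 : IsOpen {u : Fin d → ℝ | ∀ ρ ∈ X.ray, -1 < pr ρ u} := by
    have : {u : Fin d → ℝ | ∀ ρ ∈ X.ray, -1 < pr ρ u} = ⋂ ρ ∈ X.ray, {u | -1 < pr ρ u} := by
      ext u
      simp
    rw [this]
    exact isOpen_biInter_finset fun ρ _ => isOpen_lt continuous_const (continuous_pr ρ)
  have hO : IsOpen {z : (Fin d → ℝ) × ℝ | z.1 ∈ {u : Fin d → ℝ | ∀ ρ ∈ X.ray, -1 < pr ρ u} ∧
      0 < X.degree z.1 ∧ -X.phi y z.1 < z.2 ∧ z.2 < X.degree z.1 - X.phi y z.1} := by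
    have h1 : IsOpen ((Prod.fst : (Fin d → ℝ) × ℝ → (Fin d → ℝ)) ⁻¹'
        {u : Fin d → ℝ | ∀ ρ ∈ X.ray, -1 < pr ρ u}) := hO1.preimage continuous_fst
    have h2 : IsOpen {z : (Fin d → ℝ) × ℝ | 0 < X.degree z.1} :=
      isOpen_lt continuous_const (by fun_prop)
    have h3 : IsOpen {z : (Fin d → ℝ) × ℝ | -X.phi y z.1 < z.2} :=
      isOpen_lt (by fun_prop) (by fun_prop)
    have h4 : IsOpen {z : (Fin d → ℝ) × ℝ | z.2 < X.degree z.1 - X.phi y z.1} :=
      isOpen_lt (by fun_prop) (by fun_prop)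
    exact h1.inter (h2.inter (h3.inter h4))
  obtain ⟨u, hu1, hu2⟩ := hX.interior
  have hne : ({z : (Fin d → ℝ) × ℝ | z.1 ∈ {u : Fin d → ℝ | ∀ ρ ∈ X.ray, -1 < pr ρ u} ∧
      0 < X.degree z.1 ∧ -X.phi y z.1 < z.2 ∧ z.2 < X.degree z.1 - X.phi y z.1}).Nonempty := by
    refine ⟨(u, X.degree u / 2 - X.phi y u), hu1, hu2, ?_, ?_⟩
    · show -X.phi y u < X.degree u / 2 - X.phi y u
      linarith
    · show X.degree u / 2 - X.phi y u < X.degree u - X.phi y u
      linarith
  have hpos := hO.measure_pos MeasureTheory.volume hne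
  have hsub : {z : (Fin d → ℝ) × ℝ | z.1 ∈ {u : Fin d → ℝ | ∀ ρ ∈ X.ray, -1 < pr ρ u} ∧
      0 < X.degree z.1 ∧ -X.phi y z.1 < z.2 ∧ z.2 < X.degree z.1 - X.phi y z.1} ⊆ X.body y := by
    rintro z ⟨h1, h2, h3, h4⟩
    exact ⟨⟨fun ρ hρ => (h1 ρ hρ).le, h2.le⟩, h3.le, h4.le⟩
  refine ENNReal.toReal_pos (lt_of_lt_of_le hpos (measure_mono hsub)).ne' ?_
  exact (isCompact_body hX y).measure_lt_top.ne

end Pool.Agent.Lib.H45DA.Datum
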