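import Pool.Agent.Lib.H45DA.G1

/-!
# Project H45DA, chunk G2: consequences of K-semistability
-/

open MeasureTheory
open scoped Nat

namespace Pool.Agent.Lib.H45DA.Datum

variable {d m : ℕ} {X : Datum d m}

/-- **Chunk G2** (M), two lemmas. (a) `S(v) ≤ A(v)` says `(∫_body (val + A))/V ≤ A`, so `∫_body val + A V ≤ A V`
(`volume_body_pos`; `val` is continuous, so integrable on the compact body). -/
theorem integral_val_nonpos (hX : X.IsFano) (hK : X.IsKSemistable) (y : Option (Fin m))
    (w : Fin d → ℝ) (h : ℝ) (hh : 0 ≤ h) : ∫ z in X.body y, val w h z ≤ 0 := by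
  have hV := volume_body_pos hX y
  have h1 := hK y w h hh
  unfold expectedOrder at h1
  rw [div_le_iff₀ hV] at h1
  have hcont : Continuous (val w h) := by
    unfold val
    fun_prop
  have hint : IntegrableOn (val w h) (X.body y) :=
    hcont.continuousOn.integrableOn_compact (isCompact_body hX y)
  have hc : IntegrableOn (fun _ => X.logDiscrepancy y w h) (X.body y) :=
    integrableOn_const (isCompact_body hX y).measure_lt_top.ne
  rw [integral_add hint hc, setIntegral_const, smul_eq_mul] at h1
  linarith

/-- (b) `Deg(0) > 0`.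

Proof. By (a) with `h = 0` for `w` and `-w` and G1 (a), `∫_box Deg(u) ⟨w, u⟩ du = 0` for all `w`. Choose
(`exists_phi_eq` at `u = 0`) `q_y ∈ X.vert y` with `1/μ_y = Φ_y(0)`; the affine function
`f(u) = 2 + ∑_y ((⟨p_y, u⟩ + 1)/μ_y - 1)` is `≥ Deg(u)` (`phi_le`) and `f(0) = Deg(0)`. So
`Deg(0) ∫_box Deg = ∫_box Deg(u) f(u) du ≥ ∫_box Deg² > 0`, and `∫_box Deg > 0` (G1: `volume_eq`,
`volume_body_pos`). (`∫_box Deg² > 0` as `Deg` is continuous, nonnegative on the box and positive on an open
subset; or: `Deg(0) ∫ Deg ≥ ∫ Deg² ≥ 0` and if `Deg(0) ≤ 0` then `∫_box Deg² = 0`, `Deg = 0` a.e. on the box.) -/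
theorem degree_zero_pos (hX : X.IsFano) (hK : X.IsKSemistable) : 0 < X.degree 0 := by
  have hDc := continuous_degree hX
  have hint : ∀ F : (Fin d → ℝ) → ℝ, Continuous F → IntegrableOn F X.box := fun F hF =>
    hF.continuousOn.integrableOn_compact (isCompact_box hX)
  -- linear functions
  have hlin : ∀ w : Fin d → ℝ, ∫ u in X.box, X.degree u * ∑ i, w i * u i ≤ 0 := by
    intro w
    have h1 := integral_val_nonpos hX hK none w 0 le_rfl
    have h2 : ∀ z : (Fin d → ℝ) × ℝ, val w 0 z = (fun u : Fin d → ℝ => ∑ i, w i * u i) z.1 := by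
      intro z
      unfold val
      rw [zero_mul, add_zero]
    simp only [h2] at h1
    rw [integral_body hX none (fun u : Fin d → ℝ => ∑ i, w i * u i) (by fun_prop)] at h1
    exact h1
  have hlin0 : ∀ w : Fin d → ℝ, ∫ u in X.box, X.degree u * ∑ i, w i * u i = 0 := by
    intro w
    refine le_antisymm (hlin w) ?_
    have h1 := hlin (-w)
    have h2 : ∀ u : Fin d → ℝ, X.degree u * ∑ i, (-w) i * u i =
        -(X.degree u * ∑ i, w i * u i) := by
      intro u
      rw [← mul_neg, ← Finset.sum_neg_distrib]
      congr 1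
      exact Finset.sum_congr rfl fun i _ => by rw [Pi.neg_apply, neg_mul]
    simp only [h2] at h1
    rw [integral_neg] at h1
    linarith
  -- the affine function
  choose q hq hq0 using fun y : Fin m => exists_phi_eq hX (some y) (0 : Fin d → ℝ)
  set w : Fin d → ℝ := fun i => ∑ y, ((q y).1 i : ℝ) / ((q y).2 : ℝ) with hw
  have hf : ∀ u : Fin d → ℝ, 2 + ∑ y : Fin m, ((pr (q y).1 u + 1) / ((q y).2 : ℝ) - 1) =
      X.degree 0 + ∑ i, w i * u i := by
    intro u
    have h1 : ∑ i, w i * u i = ∑ y : Fin m, pr (q y).1 u / ((q y).2 : ℝ) := by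
      rw [hw]
      simp only [Finset.sum_mul]
      rw [Finset.sum_comm]
      refine Finset.sum_congr rfl fun y _ => ?_
      unfold pr
      rw [Finset.sum_div]
      exact Finset.sum_congr rfl fun i _ => by ring
    have h2 : X.degree 0 = 2 + ∑ y : Fin m, (1 / ((q y).2 : ℝ) - 1) := by
      unfold degree
      congr 1
      refine Finset.sum_congr rfl fun y _ => ?_
      rw [← hq0 y]
      have : pr (q y).1 (0 : Fin d → ℝ) = 0 := by
        unfold pr
        simp
      rw [this, zero_add]
    rw [h1, h2, add_assoc, ← Finset.sum_add_distrib]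
    congr 1
    exact Finset.sum_congr rfl fun y _ => by ring
  have hle : ∀ u : Fin d → ℝ, X.degree u ≤ X.degree 0 + ∑ i, w i * u i := by
    intro u
    rw [← hf u]
    unfold degree
    gcongr with y _
    exact phi_le (hq y) u
  -- the integral of the degree
  have hI : 0 < ∫ u in X.box, X.degree u := by
    have h1 := volume_eq hX (none : Option (Fin m))
    have h2 := volume_body_pos hX (none : Option (Fin m))
    have h3 : (0 : ℝ) < ((d + 1)! : ℝ) := by exact_mod_cast Nat.factorial_pos _
    unfold volume at h1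
    have h4 : (0 : ℝ) < ((d + 1)! : ℝ) * ∫ u in X.box, X.degree u := by
      rw [h1]
      positivity
    exact (pos_iff_pos_of_mul_pos h4).1 h3
  set I : ℝ := ∫ u in X.box, X.degree u with hIdef
  by_contra hneg
  rw [not_lt] at hneg
  -- the integral of the square
  have hsq : ∫ u in X.box, X.degree u * X.degree u ≤ 0 := by
    have h1 : ∫ u in X.box, X.degree u * X.degree u ≤
        ∫ u in X.box, (X.degree 0 * X.degree u + X.degree u * ∑ i, w i * u i) := by
      refine setIntegral_mono_on (hint _ (by fun_prop)) (hint _ (by fun_prop))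
        (isClosed_box hX).measurableSet fun u hu => ?_
      have h2 := mul_le_mul_of_nonneg_left (hle u) hu.2
      linarith
    rw [integral_add (hint _ (by fun_prop)) (hint _ (by fun_prop)), hlin0 w, add_zero,
      integral_const_mul] at h1
    have h3 : X.degree 0 * ∫ u in X.box, X.degree u ≤ 0 :=
      mul_nonpos_of_nonpos_of_nonneg hneg hI.le
    linarith
  set v : ℝ := MeasureTheory.volume.real X.box with hv
  have hv0 : 0 ≤ v := measureReal_nonneg
  set ε : ℝ := I / (2 * (v + 1)) with hε
  have hε0 : 0 < ε := by positivity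
  have h1 : I ≤ ∫ u in X.box, (ε + 1 / (4 * ε) * (X.degree u * X.degree u)) := by
    refine setIntegral_mono_on (hint _ (by fun_prop)) (hint _ (by fun_prop))
      (isClosed_box hX).measurableSet fun u _ => ?_
    have h2 : 0 ≤ 1 / (4 * ε) * (X.degree u - 2 * ε) ^ 2 := by positivity
    have h3 : 1 / (4 * ε) * (X.degree u - 2 * ε) ^ 2 =
        ε + 1 / (4 * ε) * (X.degree u * X.degree u) - X.degree u := by
      field_simp
      ring
    linarith
  rw [integral_add (hint _ (by fun_prop)) (hint _ (by fun_prop)), setIntegral_const,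
    integral_const_mul, smul_eq_mul] at h1
  have h2 : 1 / (4 * ε) * ∫ u in X.box, X.degree u * X.degree u ≤ 0 :=
    mul_nonpos_of_nonneg_of_nonpos (by positivity) hsq
  have h3 : v * ε ≤ I / 2 := by
    rw [hε, mul_div_assoc', div_le_div_iff₀ (by positivity) (by norm_num)]
    nlinarith
  linarith

end Pool.Agent.Lib.H45DA.Datum
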