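import Mathlib

/-!
# Project H45DA, chunk G3: the bathtub inequality
-/

open MeasureTheory

namespace Pool.Agent.Lib.H45DA

private theorem G3_int {n : ℕ} {T c : ℝ} (hT : 0 < T) :
    ∫ r in Set.Ioc 0 T, c * (T - r) ^ n = c * T ^ (n + 1) / (n + 1) := by
  rw [← intervalIntegral.integral_of_le hT.le, intervalIntegral.integral_const_mul,
    intervalIntegral.integral_comp_sub_left (fun x => x ^ n) T, integral_pow]
  simp
  ring

private theorem G3_layer {α : Type} [MeasurableSpace α] (μ : Measure α) (K : Set α)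
    (hK : MeasurableSet K) (f : α → ℝ) (hf : Measurable f) (hpos : ∀ z ∈ K, 0 ≤ f z) (n : ℕ)
    (c : ℝ) (hc : 0 ≤ c)
    (hvol : ∀ t : ℝ, 0 ≤ t → μ (K ∩ {z | f z ≤ t}) ≤ ENNReal.ofReal (c * t ^ n))
    {T : ℝ} (hT : 0 < T) :
    ∫⁻ z in K, ENNReal.ofReal (max (T - f z) 0) ∂μ ≤
      ENNReal.ofReal (c * T ^ (n + 1) / (n + 1)) := by
  have hg : Measurable fun z => max (T - f z) 0 := (measurable_const.sub hf).max measurable_const
  have h0 := lintegral_eq_lintegral_meas_lt (μ.restrict K) (f := fun z => max (T - f z) 0)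
    (Filter.Eventually.of_forall fun z => le_max_right _ _) hg.aemeasurable
  rw [h0]
  have h1 : ∀ r ∈ Set.Ioi (0 : ℝ), (μ.restrict K) {z | r < max (T - f z) 0} ≤
      (Set.Ioc 0 T).indicator (fun r => ENNReal.ofReal (c * (T - r) ^ n)) r := by
    intro r hr
    have hr0 : 0 < r := hr
    have hm : MeasurableSet {z | r < max (T - f z) 0} := measurableSet_lt measurable_const hg
    rw [Measure.restrict_apply hm]
    by_cases hrT : r ≤ T
    · rw [Set.indicator_of_mem (show r ∈ Set.Ioc 0 T from ⟨hr0, hrT⟩)]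
      refine le_trans (measure_mono ?_) (hvol (T - r) (by linarith))
      rintro z ⟨hz, hzK⟩
      refine ⟨hzK, ?_⟩
      rcases lt_max_iff.1 (show r < max (T - f z) 0 from hz) with h | h
      · show f z ≤ T - r
        linarith
      · exact absurd h (not_lt.2 hr0.le)
    · rw [Set.indicator_of_notMem (fun h => hrT h.2)]
      refine le_of_eq ?_
      have h2 : {z | r < max (T - f z) 0} ∩ K = ∅ := by
        refine Set.eq_empty_iff_forall_notMem.2 ?_
        rintro z ⟨hz, hzK⟩
        have h3 := hpos z hzK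
        rcases lt_max_iff.1 (show r < max (T - f z) 0 from hz) with h | h
        · push Not at hrT
          linarith
        · exact absurd h (not_lt.2 hr0.le)
      rw [h2, measure_empty]
  have hcont : Continuous fun r : ℝ => c * (T - r) ^ n := by fun_prop
  calc ∫⁻ r in Set.Ioi 0, (μ.restrict K) {z | r < max (T - f z) 0}
      ≤ ∫⁻ r in Set.Ioi 0, (Set.Ioc 0 T).indicator
          (fun r => ENNReal.ofReal (c * (T - r) ^ n)) r := by
        refine setLIntegral_mono' measurableSet_Ioi h1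
    _ ≤ ∫⁻ r, (Set.Ioc 0 T).indicator (fun r => ENNReal.ofReal (c * (T - r) ^ n)) r :=
        setLIntegral_le_lintegral _ _
    _ = ∫⁻ r in Set.Ioc 0 T, ENNReal.ofReal (c * (T - r) ^ n) :=
        lintegral_indicator measurableSet_Ioc _
    _ = ENNReal.ofReal (∫ r in Set.Ioc 0 T, c * (T - r) ^ n) := by
        refine (ofReal_integral_eq_lintegral_ofReal ?_ ?_).symm
        · exact hcont.integrableOn_Icc.mono_set Set.Ioc_subset_Icc_self
        · refine (ae_restrict_iff' measurableSet_Ioc).2 (Filter.Eventually.of_forall ?_)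
          intro r hr
          exact mul_nonneg hc (pow_nonneg (by linarith [hr.2]) n)
    _ = ENNReal.ofReal (c * T ^ (n + 1) / (n + 1)) := by rw [G3_int hT]

private theorem G3_lin {α : Type} [MeasurableSpace α] (μ : Measure α) (K : Set α)
    (hK : MeasurableSet K) (hfin : μ K ≠ ⊤) (f : α → ℝ) (hf : Measurable f)
    (hint : IntegrableOn f K μ) (hpos : ∀ z ∈ K, 0 ≤ f z) (n : ℕ) (c A : ℝ) (hc : 0 ≤ c)
    (hvol : ∀ t : ℝ, 0 ≤ t → μ (K ∩ {z | f z ≤ t}) ≤ ENNReal.ofReal (c * t ^ n))
    (hmean : ∫ z in K, f z ∂μ ≤ A * μ.real K) {T : ℝ} (hT : 0 < T) :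
    (T - A) * μ.real K ≤ c * T ^ (n + 1) / (n + 1) := by
  have h1 : IntegrableOn (fun z => T - f z) K μ := by
    have h10 : IntegrableOn (fun _ : α => T) K μ := integrableOn_const hfin
    exact Integrable.sub h10 hint
  have h2 : IntegrableOn (fun z => max (T - f z) 0) K μ := h1.pos_part
  have h3 : ∫ z in K, (T - f z) ∂μ ≤ ∫ z in K, max (T - f z) 0 ∂μ :=
    integral_mono h1 h2 fun z => le_max_left _ _
  have h4 : ∫ z in K, (T - f z) ∂μ = T * μ.real K - ∫ z in K, f z ∂μ := by
    have h40 : IntegrableOn (fun _ : α => T) K μ := integrableOn_const hfin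
    rw [integral_sub h40 hint, setIntegral_const, smul_eq_mul, mul_comm]
  have h5 : ∫ z in K, max (T - f z) 0 ∂μ ≤ c * T ^ (n + 1) / (n + 1) := by
    have h6 := G3_layer μ K hK f hf hpos n c hc hvol hT
    rw [← ofReal_integral_eq_lintegral_ofReal h2
      (Filter.Eventually.of_forall fun z => le_max_right _ _)] at h6
    refine (ENNReal.ofReal_le_ofReal_iff ?_).1 h6
    positivity
  have h7 : (T - A) * μ.real K = T * μ.real K - A * μ.real K := by ring
  linarith

/-- **Chunk G3** (M). The inequality of Liu for sets: if the sublevel sets of `f ≥ 0` on `K` have volume at most `c tⁿ`, and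
the mean of `f` on `K` is at most `A`, then `vol K ≤ c (((n+1)/n) A)ⁿ`.

Proof. `V = μ K`. Let `T > 0`. `∫_K (T - f) ≤ ∫_K max (T - f) 0 = ∫_0^T μ(K ∩ {f ≤ s}) ds ≤ c T^(n+1)/(n+1)` (for `z ∈ K`,
`max (T - f z) 0 = ∫_0^T 1_{f z ≤ s} ds`, Tonelli; or `lintegral_eq_lintegral_meas_lt`-like layer cake for
the function `max (T - f) 0`: `μ {T - f > r} ≤ c (T - r)ⁿ`). So `T V - A V ≤ c T^(n+1)/(n+1)`. `A ≥ 0` may be assumed (if `V > 0` then
`0 ≤ ∫ f ≤ A V` gives it). If `A > 0`, `T = ((n+1)/n) A`: `V A/n ≤ c Tⁿ A/n`. If `A = 0`: `V ≤ c Tⁿ/(n+1)` for all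
`T > 0`, so `V ≤ 0`. If `V = 0` and `A < 0`: the right hand side could be negative, but then `0 ≤ ∫ f ≤ A * 0`; this case is
excluded by `hA`. -/
theorem bathtub {α : Type} [MeasurableSpace α] (μ : Measure α) (K : Set α) (hK : MeasurableSet K)
    (hfin : μ K ≠ ⊤) (f : α → ℝ) (hf : Measurable f) (hint : IntegrableOn f K μ)
    (hpos : ∀ z ∈ K, 0 ≤ f z) (n : ℕ) (hn : 1 ≤ n) (c A : ℝ) (hc : 0 ≤ c) (hA : 0 ≤ A)
    (hvol : ∀ t : ℝ, 0 ≤ t → μ (K ∩ {z | f z ≤ t}) ≤ ENNReal.ofReal (c * t ^ n))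
    (hmean : ∫ z in K, f z ∂μ ≤ A * μ.real K) :
    μ.real K ≤ c * (((n : ℝ) + 1) / n * A) ^ n := by
  have hV0 : 0 ≤ μ.real K := measureReal_nonneg
  have hn0 : (0 : ℝ) < n := by exact_mod_cast hn
  have key := fun {T : ℝ} (hT : 0 < T) =>
    G3_lin μ K hK hfin f hf hint hpos n c A hc hvol hmean hT
  rcases hA.eq_or_lt with hA0 | hA0
  · subst hA0
    rw [mul_zero, zero_pow (by omega), mul_zero]
    by_contra hV
    push Not at hV
    set V := μ.real K with hVdef
    set T : ℝ := min 1 (V / (c + 1)) with hT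
    have hc1 : 0 < c + 1 := by linarith
    have hT0 : 0 < T := lt_min one_pos (div_pos hV hc1)
    have hT1 : T ≤ 1 := min_le_left _ _
    have hT2 : T ≤ V / (c + 1) := min_le_right _ _
    have h1 := key hT0
    rw [sub_zero, pow_succ] at h1
    have h2 : T ^ n ≤ T := by
      obtain ⟨m, rfl⟩ : ∃ m, n = m + 1 := ⟨n - 1, by omega⟩
      rw [pow_succ]
      exact mul_le_of_le_one_left hT0.le (pow_le_one₀ hT0.le hT1)
    have h3 : c * (T ^ n * T) / ((n : ℝ) + 1) ≤ T * (c * T ^ n) := by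
      rw [div_le_iff₀ (by linarith)]
      have h4 : 0 ≤ T * (c * T ^ n) := by positivity
      nlinarith
    have h5 : T * V ≤ T * (c * T ^ n) := h1.trans h3
    have h6 : V ≤ c * T ^ n := le_of_mul_le_mul_left h5 hT0
    have h7 : c * T ^ n ≤ c * (V / (c + 1)) :=
      mul_le_mul_of_nonneg_left (h2.trans hT2) hc
    have h8 : c * (V / (c + 1)) < V := by
      rw [mul_div_assoc', div_lt_iff₀ hc1]
      nlinarith
    linarith
  · set T : ℝ := ((n : ℝ) + 1) / n * A with hT
    have hT0 : 0 < T := by positivity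
    have h1 := key hT0
    have h2 : T - A = A / n := by
      rw [hT]
      field_simp
      ring
    have h3 : c * T ^ (n + 1) / (n + 1) = A / n * (c * T ^ n) := by
      rw [pow_succ]
      have h4 : T / (n + 1) = A / n := by
        rw [hT]
        field_simp
      calc c * (T ^ n * T) / (n + 1) = T / (n + 1) * (c * T ^ n) := by ring
        _ = A / n * (c * T ^ n) := by rw [h4]
    rw [h2, h3] at h1
    exact le_of_mul_le_mul_left h1 (by positivity)

end Pool.Agent.Lib.H45DA
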