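import Pool.Agent.Lib.H45DA.Phi

/-!
# Project H45DA, chunk G4: the active vectors at an elliptic fixed point
-/

open MeasureTheory
open scoped Nat

namespace Pool.Agent.Lib.H45DA.Datum

variable {d m : ℕ} {X : Datum d m}

/-- The height function at the vertex `u`: `a = (-u, (Φ_y(u))_y)`. -/
noncomputable def height (X : Datum d m) (u : Fin d → ℝ) : Idx d m → ℝ :=
  Sum.elim (fun i => -u i) (fun y => X.phi (some y) u)

private theorem G4_finite (X : Datum d m) (u : Fin d → ℝ) : (X.ellipticGenerators u).Finite := by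
  classical
  refine Set.Finite.subset (Finset.finite_toSet
    (X.ray.image (fun ρ => (Sum.elim ρ 0 : Fin d ⊕ Fin m → ℤ)) ∪
      Finset.univ.biUnion fun y : Fin m => (X.vert y).image
        (fun q => (Sum.elim q.1 (Pi.single y q.2) : Fin d ⊕ Fin m → ℤ)))) ?_
  rintro e (⟨ρ, hρ, rfl, _⟩ | ⟨y, q, hq, rfl, _⟩)
  · refine Finset.mem_coe.2 (Finset.mem_union_left _ (Finset.mem_image.2 ⟨ρ, hρ, rfl⟩))
  · refine Finset.mem_coe.2 (Finset.mem_union_right _ (Finset.mem_biUnion.2
      ⟨y, Finset.mem_univ _, Finset.mem_image.2 ⟨q, hq, rfl⟩⟩))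

private theorem G4_vert {u : Fin d → ℝ} {e : Fin d ⊕ Fin m → ℤ} {y : Fin m}
    (he : e ∈ X.ellipticGenerators u) (h : e (Sum.inr y) ≠ 0) :
    ∃ q ∈ X.vert y, e = Sum.elim q.1 (Pi.single y q.2) ∧
      (pr q.1 u + 1) / q.2 = X.phi (some y) u := by
  rcases he with ⟨ρ, hρ, rfl, _⟩ | ⟨y', q, hq, rfl, hq2⟩
  · exact absurd rfl h
  · by_cases hy : y' = y
    · subst hy
      exact ⟨q, hq, rfl, hq2⟩
    · exfalso
      apply h
      show (Pi.single y' q.2 : Fin m → ℤ) y = 0
      exact Pi.single_eq_of_ne (Ne.symm hy) _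

private theorem G4_pr_single (y : Fin m) (k : ℤ) (f : Fin m → ℝ) :
    pr (Pi.single y k : Fin m → ℤ) f = k * f y := by
  unfold pr
  rw [Finset.sum_eq_single y]
  · rw [Pi.single_eq_same]
  · intro b _ hb
    rw [Pi.single_eq_of_ne hb]
    simp
  · intro h
    exact absurd (Finset.mem_univ y) h

private theorem G4_pr_zero (f : Fin m → ℝ) : pr (0 : Fin m → ℤ) f = 0 := by
  simp [pr]

private theorem G4_pr_vert (p : Fin d → ℤ) (y : Fin m) (k : ℤ) (z : Idx d m → ℝ) :
    pr (Sum.elim p (Pi.single y k) : Idx d m → ℤ) z =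
      pr p (fun i => z (Sum.inl i)) + k * z (Sum.inr y) := by
  rw [pr_elim, G4_pr_single]

private theorem G4_pr_ray (p : Fin d → ℤ) (z : Idx d m → ℝ) :
    pr (Sum.elim p 0 : Idx d m → ℤ) z = pr p (fun i => z (Sum.inl i)) := by
  rw [pr_elim, G4_pr_zero, add_zero]

/-- Along a direction orthogonal to the active vectors `Φ_y` is linear near `u`. -/
private theorem G4_phi (hX : X.IsFano) {u v : Fin d → ℝ} {y : Fin m} {t : ℝ}
    (h : ∀ q ∈ X.vert y, (pr q.1 u + 1) / q.2 = X.phi (some y) u → pr q.1 v + q.2 * t = 0) :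
    ∀ᶠ ε : ℝ in nhds 0, X.phi (some y) (u + ε • v) = X.phi (some y) u - ε * t := by
  have hval : ∀ q ∈ X.vert y, (pr q.1 u + 1) / q.2 = X.phi (some y) u → ∀ ε : ℝ,
      (pr q.1 (u + ε • v) + 1) / q.2 = X.phi (some y) u - ε * t := by
    intro q hq hq2 ε
    have h1 := h q hq hq2
    have h2 : (0 : ℝ) < q.2 := by
      have := (hX.vert_primitive y q hq).1
      exact_mod_cast this
    rw [← hq2, pr_add_right, pr_smul_right]
    have h3 : pr q.1 v = -(q.2 * t) := by linarith
    rw [h3]
    field_simp
    ring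
  have hge : ∀ᶠ ε : ℝ in nhds 0, ∀ q ∈ X.vert y,
      X.phi (some y) u - ε * t ≤ (pr q.1 (u + ε • v) + 1) / q.2 := by
    rw [Finset.eventually_all]
    intro q hq
    by_cases hq2 : (pr q.1 u + 1) / q.2 = X.phi (some y) u
    · exact Filter.Eventually.of_forall fun ε => (hval q hq hq2 ε).ge
    · have h1 : X.phi (some y) u < (pr q.1 u + 1) / q.2 :=
        lt_of_le_of_ne (phi_le (y := some y) hq u) (Ne.symm hq2)
      have c1 : Continuous fun ε : ℝ => X.phi (some y) u - ε * t := by fun_prop
      have c2 : Continuous fun ε : ℝ => (pr q.1 (u + ε • v) + 1) / (q.2 : ℝ) := by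
        have := continuous_pr (ι := Fin d) q.1
        fun_prop
      have h2 : (fun ε : ℝ => X.phi (some y) u - ε * t) 0 <
          (fun ε : ℝ => (pr q.1 (u + ε • v) + 1) / (q.2 : ℝ)) 0 := by
        simpa using h1
      exact (c1.continuousAt.eventually_lt c2.continuousAt h2).mono fun ε hε => le_of_lt hε
  refine hge.mono fun ε hε => ?_
  apply le_antisymm
  · obtain ⟨q, hq, hq2⟩ := exists_phi_eq hX (some y) u
    rw [← hval q hq hq2 ε]
    exact phi_le (y := some y) hq _
  · obtain ⟨q, hq, hq2⟩ := exists_phi_eq hX (some y) (u + ε • v)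
    rw [← hq2]
    exact hε q hq

/-- **Chunk G4** (M/L). The active vectors at an elliptic fixed point satisfy the local hypotheses.

Proof. `ellipticGenerators u` is finite (`X.ray`, `X.vert y` are). `elt`: clear (`1 ≤ q.2`). `full`: `exists_phi_eq`. `height`:
`⟨(ρ,0), a⟩ = -⟨ρ,u⟩ = 1`, `⟨(p, μ e_y), a⟩ = -⟨p,u⟩ + μ Φ_y(u) = 1`. `height_one`: `∑ Φ_y(u) = m - 2` as `Deg(u) = 0`. `klt`: an element of
the block of `y` is `(p, μ e_y)` with `(p, μ) ∈ X.vert y`, and `1/μ ≥ Φ_y(0)` (`phi_le` at `0`), so `∑ 1/μ_y ≥ ∑ Φ_y(0) = Deg(0) + m - 2`.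
`span`: let `ζ = (v, ξ) ≠ 0` with `∑ ξ = 0` be orthogonal to all active vectors. `v ≠ 0` (otherwise `μ ξ_y = 0` for all `y`). For small
`ε > 0` and `σ = ± 1` the point `u' = u + σ ε v` is in the box: inactive rays stay `> -1`, active ones have `⟨ρ, v⟩ = 0`; for each `y` the
minimum in `Φ_y(u')` is attained at active vertices (finitely many functions, continuity), where
`(⟨p, u'⟩ + 1)/μ = Φ_y(u) + σ ε ⟨p, v⟩/μ = Φ_y(u) - σ ε ξ_y`; the sum over `y` gives `Deg(u') = Deg(u) = 0`. So `u` is the
midpoint of two different points of the box, against `hu`. -/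
theorem loc_of_elliptic (hX : X.IsFano) (h0 : 0 < X.degree 0) (u : Fin d → ℝ)
    (hu : u ∈ Set.extremePoints ℝ X.box) (hdeg : X.degree u = 0) :
    ∃ E : Finset (Idx d m → ℤ), (E : Set (Idx d m → ℤ)) = X.ellipticGenerators u ∧
      Loc E (X.height u) ∧ ∀ y, Triv E y → X.IsTrivialAt u y := by
  classical
  have hmem : ∀ e, e ∈ (G4_finite X u).toFinset ↔ e ∈ X.ellipticGenerators u := fun e =>
    Set.Finite.mem_toFinset _
  have hqpos : ∀ y, ∀ q ∈ X.vert y, (0 : ℝ) < q.2 := by
    intro y q hq
    have := (hX.vert_primitive y q hq).1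
    exact_mod_cast this
  refine ⟨(G4_finite X u).toFinset, (G4_finite X u).coe_toFinset, ?_, ?_⟩
  · constructor
    · -- elt
      intro e he
      rw [hmem] at he
      rcases he with ⟨ρ, hρ, rfl, _⟩ | ⟨y, q, hq, rfl, _⟩
      · left
        intro y
        rfl
      · right
        refine ⟨y, ?_, ?_⟩
        · show 1 ≤ (Pi.single y q.2 : Fin m → ℤ) y
          rw [Pi.single_eq_same]
          exact (hX.vert_primitive y q hq).1
        · intro y' hy'
          show (Pi.single y q.2 : Fin m → ℤ) y' = 0
          exact Pi.single_eq_of_ne hy' _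
    · -- full
      intro y
      obtain ⟨q, hq, hq2⟩ := exists_phi_eq hX (some y) u
      refine ⟨Sum.elim q.1 (Pi.single y q.2), (hmem _).2 (Or.inr ⟨y, q, hq, rfl, hq2⟩), ?_⟩
      show (Pi.single y q.2 : Fin m → ℤ) y ≠ 0
      rw [Pi.single_eq_same]
      have := (hX.vert_primitive y q hq).1
      omega
    · -- height
      intro e he
      rw [hmem] at he
      rcases he with ⟨ρ, hρ, rfl, h1⟩ | ⟨y, q, hq, rfl, h1⟩
      · rw [G4_pr_ray]
        have e1 : (fun i => X.height u (Sum.inl i)) = -u := rfl
        rw [e1, pr_neg_right, h1, neg_neg]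
      · rw [G4_pr_vert]
        have e1 : (fun i => X.height u (Sum.inl i)) = -u := rfl
        have e2 : X.height u (Sum.inr y) = X.phi (some y) u := rfl
        have h2 := hqpos y q hq
        rw [e1, e2, pr_neg_right, ← h1]
        field_simp
        ring
    · -- height_one
      rw [pr_one]
      have e2 : ∀ y, X.height u (Sum.inr y) = X.phi (some y) u := fun y => rfl
      simp only [e2]
      have h1 : X.degree u = 2 + ∑ y : Fin m, (X.phi (some y) u - 1) := rfl
      rw [hdeg, Finset.sum_sub_distrib] at h1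
      simp only [Finset.sum_const, Finset.card_univ, Fintype.card_fin, nsmul_eq_mul, mul_one] at h1
      linarith
    · -- klt
      intro c hc
      have h1 : X.degree 0 = 2 + ∑ y : Fin m, (X.phi (some y) 0 - 1) := rfl
      rw [Finset.sum_sub_distrib] at h1
      simp only [Finset.sum_const, Finset.card_univ, Fintype.card_fin, nsmul_eq_mul, mul_one] at h1
      have h2 : ∑ y : Fin m, X.phi (some y) 0 ≤ ∑ y, 1 / (c y (Sum.inr y) : ℝ) := by
        refine Finset.sum_le_sum fun y _ => ?_
        obtain ⟨hc1, hc2⟩ := hc y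
        rw [hmem] at hc1
        obtain ⟨q, hq, hq1, hq2⟩ := G4_vert hc1 hc2
        have h3 : c y (Sum.inr y) = q.2 := by
          rw [hq1]
          show (Pi.single y q.2 : Fin m → ℤ) y = q.2
          rw [Pi.single_eq_same]
        rw [h3]
        have h4 := phi_le (X := X) (y := some y) hq 0
        rw [pr_zero_right, zero_add] at h4
        exact h4
      linarith
    · -- span
      intro z hz1 hz2
      rw [pr_one] at hz1
      set v : Fin d → ℝ := fun i => z (Sum.inl i) with hv
      have hvert : ∀ y, ∀ q ∈ X.vert y, (pr q.1 u + 1) / q.2 = X.phi (some y) u →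
          pr q.1 v + q.2 * z (Sum.inr y) = 0 := by
        intro y q hq hq2
        have h1 := hz2 _ ((hmem _).2 (Or.inr ⟨y, q, hq, rfl, hq2⟩))
        rw [G4_pr_vert] at h1
        exact h1
      have hv0 : v = 0 := by
        by_contra hv0
        -- the point stays in the box
        have ev1 : ∀ᶠ ε : ℝ in nhds 0, ∀ ρ ∈ X.ray, -1 ≤ pr ρ (u + ε • v) := by
          rw [Finset.eventually_all]
          intro ρ hρ
          by_cases h1 : pr ρ u = -1
          · have h2 := hz2 _ ((hmem _).2 (Or.inl ⟨ρ, hρ, rfl, h1⟩))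
            rw [G4_pr_ray] at h2
            refine Filter.Eventually.of_forall fun ε => ?_
            rw [pr_add_right, pr_smul_right, h1]
            have h3 : pr ρ v = 0 := h2
            rw [h3]
            simp
          · have h2 : -1 < pr ρ u := lt_of_le_of_ne (hu.1.1 ρ hρ) (Ne.symm h1)
            have c2 : Continuous fun ε : ℝ => pr ρ (u + ε • v) := by
              have := continuous_pr (ι := Fin d) ρ
              fun_prop
            have h3 : (-1 : ℝ) < (fun ε : ℝ => pr ρ (u + ε • v)) 0 := by
              simpa using h2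
            exact (c2.continuousAt.eventually_const_lt h3).mono fun ε hε => le_of_lt hε
        have ev2 : ∀ᶠ ε : ℝ in nhds 0, ∀ y : Fin m,
            X.phi (some y) (u + ε • v) = X.phi (some y) u - ε * z (Sum.inr y) := by
          rw [Filter.eventually_all]
          intro y
          exact G4_phi hX (hvert y)
        have ev3 : ∀ᶠ ε : ℝ in nhds 0, u + ε • v ∈ X.box := by
          filter_upwards [ev1, ev2] with ε h1 h2
          refine ⟨h1, ?_⟩
          have h3 : X.degree (u + ε • v) = X.degree u := by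
            unfold degree
            congr 1
            have h4 : ∀ y : Fin m, X.phi (some y) (u + ε • v) - 1 =
                (X.phi (some y) u - 1) - ε * z (Sum.inr y) := by
              intro y
              rw [h2 y]
              ring
            simp only [h4]
            rw [Finset.sum_sub_distrib, ← Finset.mul_sum, hz1, mul_zero, sub_zero]
          rw [h3, hdeg]
        rw [Metric.eventually_nhds_iff] at ev3
        obtain ⟨δ, hδ, hball⟩ := ev3
        have m1 : u + (δ / 2) • v ∈ X.box := by
          apply hball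
          rw [Real.dist_eq, sub_zero, abs_of_pos (by linarith)]
          linarith
        have m2 : u + (-(δ / 2)) • v ∈ X.box := by
          apply hball
          rw [Real.dist_eq, sub_zero, abs_neg, abs_of_pos (by linarith)]
          linarith
        have hseg : u ∈ openSegment ℝ (u + (δ / 2) • v) (u + (-(δ / 2)) • v) := by
          refine ⟨1 / 2, 1 / 2, by norm_num, by norm_num, by norm_num, ?_⟩
          funext i
          simp only [Pi.add_apply, Pi.smul_apply, smul_eq_mul]
          ring
        have h5 := (mem_extremePoints.1 hu).2 _ m1 _ m2 hseg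
        have h6 : (δ / 2) • v = 0 := by
          have := h5.1
          exact add_eq_left.1 this
        rcases smul_eq_zero.1 h6 with h7 | h7
        · linarith
        · exact hv0 h7
      funext i
      rcases i with i | y
      · exact congrFun hv0 i
      · obtain ⟨q, hq, hq2⟩ := exists_phi_eq hX (some y) u
        have h1 := hvert y q hq hq2
        rw [hv0, pr_zero_right, zero_add] at h1
        exact (mul_eq_zero.1 h1).resolve_left (hqpos y q hq).ne'
  · -- trivial blocks
    rintro y ⟨e, he, he1, he2⟩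
    rw [hmem] at he
    obtain ⟨q, hq, hq1, hq2⟩ := G4_vert he (by rw [he1]; exact one_ne_zero)
    refine ⟨q, hq, ?_, ?_⟩
    · rw [hq1] at he1
      have h1 : (Pi.single y q.2 : Fin m → ℤ) y = 1 := he1
      rwa [Pi.single_eq_same] at h1
    · intro q' hq' hq2'
      have h1 := he2 (Sum.elim q'.1 (Pi.single y q'.2))
        ((hmem _).2 (Or.inr ⟨y, q', hq', rfl, hq2'⟩)) (by
          show (Pi.single y q'.2 : Fin m → ℤ) y ≠ 0
          rw [Pi.single_eq_same]
          have := (hX.vert_primitive y q' hq').1
          omega)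
      rw [hq1] at h1
      refine Prod.ext ?_ ?_
      · funext i
        exact congrFun h1 (Sum.inl i)
      · have h2 := congrFun h1 (Sum.inr y)
        have h3 : (Pi.single y q'.2 : Fin m → ℤ) y = (Pi.single y q.2 : Fin m → ℤ) y := h2
        rwa [Pi.single_eq_same, Pi.single_eq_same] at h3

end Pool.Agent.Lib.H45DA.Datum
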