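import Pool.Agent.Lib.H45DA.G4

/-!
# Project H45DA, chunk G5: the body is contained in the cone at an elliptic fixed point
-/

open MeasureTheory
open scoped Nat

namespace Pool.Agent.Lib.H45DA.Datum

variable {d m : ℕ} {X : Datum d m}

/-- **Chunk G5** (M). The body minus its vertex is contained in the projection of the cone.

Proof. Let `z = (u', x)` be in the body. `x ≤ Deg(u') - Φ_y(u') = 2 - m + ∑_{z ≠ y} Φ_z(u')` and `0 = Deg(u) = 2 - m + ∑_z Φ_z(u)`, so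
`s = ∑_{z ≠ y} (Φ_z(u') - Φ_z(u)) - (x + Φ_y(u)) ≥ 0`. Let `ζ = (u' - u, ξ)`, `ξ_y = x + Φ_y(u)`, `ξ_z = -(Φ_z(u') - Φ_z(u)) + s/(m-1)` for `z ≠ y`; `∑ ξ = 0`.
For active rays `⟨ρ, u' - u⟩ ≥ 0`. For an active `(p, μ e_z)`, `Φ_z(u) = (⟨p,u⟩+1)/μ` and `Φ_z(u') ≤ (⟨p,u'⟩+1)/μ`, so
`⟨p, u'-u⟩ ≥ μ (Φ_z(u') - Φ_z(u)) ≥ -μ ξ_z` (for `z = y`: `x ≥ -Φ_y(u')`). -/
theorem body_subset_cone (hX : X.IsFano) (hm : 3 ≤ m) (u : Fin d → ℝ) (hu : u ∈ X.box)
    (hdeg : X.degree u = 0) (E : Finset (Idx d m → ℤ))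
    (hE : (E : Set (Idx d m → ℤ)) = X.ellipticGenerators u) (y : Fin m) (z : (Fin d → ℝ) × ℝ)
    (hz : z ∈ X.body (some y)) :
    ∃ ζ ∈ coneP E, proj y ζ = z - (u, -X.phi (some y) u) := by
  classical
  obtain ⟨hbox, hlow, hup⟩ := hz
  have hm1 : (0 : ℝ) < (m : ℝ) - 1 := by
    have h : (3 : ℝ) ≤ (m : ℝ) := by exact_mod_cast hm
    linarith
  -- the differences
  obtain ⟨Δ, hΔ⟩ : ∃ Δ : Fin m → ℝ, ∀ w, Δ w = X.phi (some w) z.1 - X.phi (some w) u :=
    ⟨_, fun _ => rfl⟩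
  have hsumΔ : X.degree z.1 = ∑ w, Δ w := by
    have h1 : X.degree z.1 - X.degree u = ∑ w, Δ w := by
      unfold Datum.degree
      rw [add_sub_add_left_eq_sub, ← Finset.sum_sub_distrib]
      refine Finset.sum_congr rfl fun w _ => ?_
      rw [hΔ]
      ring
    rw [hdeg, sub_zero] at h1
    exact h1
  have hsplit : ∑ w, Δ w = Δ y + ∑ w ∈ Finset.univ.erase y, Δ w :=
    (Finset.add_sum_erase _ _ (Finset.mem_univ y)).symm
  obtain ⟨s, hs⟩ : ∃ s : ℝ, s = ∑ w ∈ Finset.univ.erase y, Δ w - (z.2 + X.phi (some y) u) :=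
    ⟨_, rfl⟩
  have hs0 : 0 ≤ s := by
    have h1 := hΔ y
    rw [hsumΔ, hsplit] at hup
    rw [hs]
    linarith
  have hq0 : 0 ≤ s / ((m : ℝ) - 1) := div_nonneg hs0 hm1.le
  obtain ⟨ξ, hξ⟩ : ∃ ξ : Fin m → ℝ, ∀ w, ξ w =
      if w = y then z.2 + X.phi (some y) u else -Δ w + s / ((m : ℝ) - 1) := ⟨_, fun _ => rfl⟩
  have hξy : ξ y = z.2 + X.phi (some y) u := by rw [hξ, if_pos rfl]
  have hξn : ∀ w, w ≠ y → ξ w = -Δ w + s / ((m : ℝ) - 1) := fun w hw => by rw [hξ, if_neg hw]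
  have hξ0 : ∑ w, ξ w = 0 := by
    rw [← Finset.add_sum_erase _ _ (Finset.mem_univ y), hξy]
    have h1 : ∑ w ∈ Finset.univ.erase y, ξ w =
        ∑ w ∈ Finset.univ.erase y, (-Δ w + s / ((m : ℝ) - 1)) :=
      Finset.sum_congr rfl fun w hw => hξn w (Finset.ne_of_mem_erase hw)
    have h2 : (((Finset.univ : Finset (Fin m)).erase y).card : ℝ) = (m : ℝ) - 1 := by
      have h3 : ((Finset.univ : Finset (Fin m)).erase y).card + 1 =
          (Finset.univ : Finset (Fin m)).card := Finset.card_erase_add_one (Finset.mem_univ _)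
      rw [Finset.card_univ, Fintype.card_fin] at h3
      have h4 : ((((Finset.univ : Finset (Fin m)).erase y).card + 1 : ℕ) : ℝ) = (m : ℝ) := by
        rw [h3]
      rw [Nat.cast_add, Nat.cast_one] at h4
      linarith
    rw [h1, Finset.sum_add_distrib, Finset.sum_neg_distrib, Finset.sum_const, nsmul_eq_mul, h2,
      mul_div_cancel₀ _ hm1.ne', hs]
    ring
  refine ⟨Sum.elim (fun i => z.1 i - u i) ξ, ⟨?_, ?_⟩, ?_⟩
  · rw [pr_one]
    exact hξ0
  · intro e he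
    have he' : e ∈ X.ellipticGenerators u := by
      rw [← hE]
      exact he
    have hpr : ∀ p : Fin d → ℤ, pr p (fun i => z.1 i - u i) = pr p z.1 - pr p u :=
      fun p => pr_sub_right p z.1 u
    rcases he' with ⟨ρ, hρ, rfl, hρu⟩ | ⟨w, q, hq, rfl, hqu⟩
    · rw [pr_elim]
      have h1 : pr (0 : Fin m → ℤ) (fun w => Sum.elim (fun i => z.1 i - u i) ξ (Sum.inr w)) = 0 := by
        unfold pr
        refine Finset.sum_eq_zero fun w _ => ?_
        rw [Pi.zero_apply, Int.cast_zero, zero_mul]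
      rw [h1]
      have h2 : pr ρ (fun i => Sum.elim (fun i => z.1 i - u i) ξ (Sum.inl i)) =
          pr ρ z.1 - pr ρ u := hpr ρ
      rw [h2, hρu]
      have h3 := hbox.1 ρ hρ
      linarith
    · rw [pr_elim]
      have hq1 : (1 : ℝ) ≤ (q.2 : ℝ) := by exact_mod_cast (hX.vert_primitive w q hq).1
      have hq0' : (0 : ℝ) < (q.2 : ℝ) := by linarith
      have h1 : pr (Pi.single w q.2 : Fin m → ℤ)
          (fun w => Sum.elim (fun i => z.1 i - u i) ξ (Sum.inr w)) = q.2 * ξ w := by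
        unfold pr
        rw [Finset.sum_eq_single w]
        · rw [Pi.single_eq_same]
          rfl
        · intro w' _ hw'
          rw [Pi.single_eq_of_ne hw', Int.cast_zero, zero_mul]
        · intro h
          exact absurd (Finset.mem_univ w) h
      have h2 : pr q.1 (fun i => Sum.elim (fun i => z.1 i - u i) ξ (Sum.inl i)) =
          pr q.1 z.1 - pr q.1 u := hpr q.1
      rw [h1, h2]
      have h3 : X.phi (some w) z.1 ≤ (pr q.1 z.1 + 1) / q.2 := phi_le (y := some w) hq z.1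
      rw [le_div_iff₀ hq0'] at h3
      rw [div_eq_iff hq0'.ne'] at hqu
      have h4 : (q.2 : ℝ) * Δ w ≤ pr q.1 z.1 - pr q.1 u := by
        rw [hΔ]
        linarith
      by_cases hw : w = y
      · rw [hw] at h4 ⊢
        rw [hξy]
        have h5 : 0 ≤ (q.2 : ℝ) * (Δ y + (z.2 + X.phi (some y) u)) := by
          refine mul_nonneg hq0'.le ?_
          rw [hΔ]
          linarith
        linarith
      · rw [hξn w hw]
        have h5 : 0 ≤ (q.2 : ℝ) * (s / ((m : ℝ) - 1)) := mul_nonneg hq0'.le hq0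
        linarith
  · unfold proj
    refine Prod.ext ?_ ?_
    · funext i
      rfl
    · show ξ y = z.2 - (-X.phi (some y) u)
      rw [hξy]
      ring

end Pool.Agent.Lib.H45DA.Datum
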