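import Pool.Agent.Lib.H45DA.Loc

/-!
# Project H45DA, chunk MP: two measure preserving maps
-/

open MeasureTheory

namespace Pool.Agent.Lib.H45DA

variable {d : ℕ}

/-- A vector of `ℤᵈ × ℤ` as a function on `Fin d ⊕ Unit`. -/
def toFun (g : (Fin d → ℤ) × ℤ) : Fin d ⊕ Unit → ℤ := Sum.elim g.1 (fun _ => g.2)

/-- The same for real vectors. -/
def toFunR (z : (Fin d → ℝ) × ℝ) : Fin d ⊕ Unit → ℝ := Sum.elim z.1 (fun _ => z.2)

/-- **Chunk MP** (S/M), two lemmas. (a) `toFunR` preserves volumes (of all sets).
Proof. `MeasurableEquiv.sumPiEquivProdPi` and `volume_measurePreserving_sumPiEquivProdPi`, `volume_preserving_funUnique`;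
`MeasurePreserving.measure_preimage_equiv`. -/
theorem volume_preimage_toFunR (S : Set (Fin d ⊕ Unit → ℝ)) :
    volume (toFunR ⁻¹' S) = volume S := by
  let e : ((Fin d → ℝ) × ℝ) ≃ᵐ (Fin d ⊕ Unit → ℝ) :=
    (MeasurableEquiv.prodCongr (MeasurableEquiv.refl (Fin d → ℝ))
      (MeasurableEquiv.funUnique Unit ℝ).symm).trans
      (MeasurableEquiv.sumPiEquivProdPi (fun _ : Fin d ⊕ Unit => ℝ)).symm
  have he : (e : ((Fin d → ℝ) × ℝ) → (Fin d ⊕ Unit → ℝ)) = toFunR := by
    funext z
    funext i
    rcases i with i | i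
    · rfl
    · rfl
  have h1 : MeasurePreserving (MeasurableEquiv.prodCongr (MeasurableEquiv.refl (Fin d → ℝ))
      (MeasurableEquiv.funUnique Unit ℝ).symm) volume volume :=
    (MeasurePreserving.id volume).prod ((volume_preserving_funUnique Unit ℝ).symm _)
  have h2 : MeasurePreserving (MeasurableEquiv.sumPiEquivProdPi (fun _ : Fin d ⊕ Unit => ℝ)).symm
      volume volume :=
    (volume_measurePreserving_sumPiEquivProdPi (fun _ : Fin d ⊕ Unit => ℝ)).symm _
  have h3 : MeasurePreserving e volume volume := h2.comp h1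
  rw [← he]
  exact h3.measure_preimage_equiv S

/-- (b) `(u, x) ↦ (u, ⟨p, u⟩ - x)` preserves volumes.
Proof. It is linear, an involution, so its determinant is `± 1`; `Measure.addHaar_preimage_linearMap`. (Or Fubini for measurable
sets and measurable hulls.) -/
theorem volume_preimage_reflect (p : Fin d → ℤ) (S : Set ((Fin d → ℝ) × ℝ)) :
    volume ((fun z : (Fin d → ℝ) × ℝ => (z.1, pr p z.1 - z.2)) ⁻¹' S) = volume S := by
  have hpr : Measurable fun u : Fin d → ℝ => pr p u := by
    unfold pr
    fun_prop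
  have hf : Measurable fun z : (Fin d → ℝ) × ℝ => (z.1, pr p z.1 - z.2) := by
    refine measurable_fst.prodMk ?_
    exact (hpr.comp measurable_fst).sub measurable_snd
  let e : ((Fin d → ℝ) × ℝ) ≃ᵐ ((Fin d → ℝ) × ℝ) :=
    { toFun := fun z => (z.1, pr p z.1 - z.2)
      invFun := fun z => (z.1, pr p z.1 - z.2)
      left_inv := fun z => Prod.ext rfl (sub_sub_cancel _ _)
      right_inv := fun z => Prod.ext rfl (sub_sub_cancel _ _)
      measurable_toFun := hf
      measurable_invFun := hf }
  have h1 : MeasurePreserving (fun z : (Fin d → ℝ) × ℝ => (z.1, pr p z.1 - z.2)) volume volume := by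
    refine MeasurePreserving.skew_product (g := fun (u : Fin d → ℝ) (x : ℝ) => pr p u - x)
      (MeasurePreserving.id (volume : Measure (Fin d → ℝ))) ?_ ?_
    · exact (hpr.comp measurable_fst).sub measurable_snd
    · exact Filter.Eventually.of_forall fun u => (Measure.measurePreserving_sub_left volume (pr p u)).map_eq
  have h2 : MeasurePreserving e volume volume := h1
  exact h2.measure_preimage_equiv S

end Pool.Agent.Lib.H45DA
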