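import Pool.Agent.Lib.H45DA.Phi
import Pool.Agent.Lib.H45DA.MP

/-!
# Project H45DA, chunk G6: the generators at a toric fixed point
-/

open MeasureTheory
open scoped Nat

namespace Pool.Agent.Lib.H45DA.Datum

variable {d m : ℕ} {X : Datum d m}

private theorem G6_pr (g : (Fin d → ℤ) × ℤ) (z : (Fin d → ℝ) × ℝ) :
    pr (toFun g) (toFunR z) = pr g.1 z.1 + g.2 * z.2 := by
  simp [pr, toFun, toFunR]

private theorem G6_finite (X : Datum d m) (y : Option (Fin m)) (u : Fin d → ℝ) :
    (X.toricGenerators y u).Finite := by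
  refine ((X.ray.finite_toSet.image fun ρ => (ρ, (0 : ℤ))).union (X.vertices y).finite_toSet).subset ?_
  rintro g (⟨h1, h2, h3⟩ | ⟨h1, h2⟩)
  · exact Or.inl ⟨g.1, h1, Prod.ext rfl h2.symm⟩
  · exact Or.inr h1

/-- `ℤᵈ × ℤ` as functions. -/
private def G6_equiv (d : ℕ) : (Fin d ⊕ Unit → ℤ) ≃ₗ[ℤ] ((Fin d → ℤ) × ℤ) where
  toFun f := (fun i => f (Sum.inl i), f (Sum.inr ()))
  map_add' _ _ := rfl
  map_smul' _ _ := rfl
  invFun g := Pool.Agent.Lib.H45DA.toFun g
  left_inv f := by
    funext i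
    rcases i with i | i
    · rfl
    · rfl
  right_inv _ := rfl

private theorem G6_near (hX : X.IsFano) (y : Option (Fin m)) (u : Fin d → ℝ) (hu : u ∈ X.box)
    (hdeg : 0 < X.degree u) (v : Fin d → ℝ) (x : ℝ)
    (hv : ∀ g ∈ X.toricGenerators y u, pr g.1 v + g.2 * x = 0) :
    ∀ᶠ s : ℝ in nhds 0, (u + s • v, -X.phi y u + s * x) ∈ X.body y := by
  have hline : Continuous fun s : ℝ => u + s • v := by fun_prop
  have hphi := (continuous_phi hX y).comp hline
  have hdg := (continuous_degree hX).comp hline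
  have h0 : u + (0 : ℝ) • v = u := by rw [zero_smul, add_zero]
  have e1 : ∀ᶠ s : ℝ in nhds 0, ∀ ρ ∈ X.ray, -1 ≤ pr ρ (u + s • v) := by
    rw [Filter.eventually_all_finset]
    intro ρ hρ
    rcases (hu.1 ρ hρ).lt_or_eq with h | h
    · have hc : Continuous fun s : ℝ => pr ρ (u + s • v) := (continuous_pr ρ).comp hline
      have h1 := hc.continuousAt (x := 0)
      have h2 : (-1 : ℝ) < (fun s : ℝ => pr ρ (u + s • v)) 0 := by
        show (-1 : ℝ) < pr ρ (u + (0 : ℝ) • v)
        rw [h0]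
        exact h
      exact (h1.eventually (lt_mem_nhds h2)).mono fun s hs => le_of_lt hs
    · have h1 := hv (ρ, 0) (Or.inl ⟨hρ, rfl, h.symm⟩)
      simp only [Int.cast_zero, zero_mul, add_zero] at h1
      refine Filter.Eventually.of_forall fun s => ?_
      rw [pr_add_right, pr_smul_right, h1, mul_zero, add_zero]
      exact h.le
  have e2 : ∀ᶠ s : ℝ in nhds 0, 0 ≤ X.degree (u + s • v) := by
    have h1 := hdg.continuousAt (x := 0)
    have h2 : (0 : ℝ) < (X.degree ∘ fun s : ℝ => u + s • v) 0 := by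
      show (0 : ℝ) < X.degree (u + (0 : ℝ) • v)
      rw [h0]
      exact hdeg
    exact (h1.eventually (lt_mem_nhds h2)).mono fun s hs => le_of_lt hs
  have e3 : ∀ᶠ s : ℝ in nhds 0, ∀ q ∈ X.vertices y,
      X.phi y u - s * x ≤ (pr q.1 (u + s • v) + 1) / q.2 := by
    rw [Filter.eventually_all_finset]
    intro q hq
    have hq2 : (0 : ℝ) < q.2 := by
      have := one_le_of_mem_vertices hX hq
      exact_mod_cast this
    rcases (phi_le (X := X) hq u).lt_or_eq with h | h
    · have hc : Continuous fun s : ℝ => (pr q.1 (u + s • v) + 1) / (q.2 : ℝ) + s * x := by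
        have := (continuous_pr q.1).comp hline
        refine ((this.add continuous_const).div_const _).add (continuous_id.mul continuous_const)
      have h1 := hc.continuousAt (x := 0)
      have h2 : X.phi y u < (fun s : ℝ => (pr q.1 (u + s • v) + 1) / (q.2 : ℝ) + s * x) 0 := by
        show X.phi y u < (pr q.1 (u + (0 : ℝ) • v) + 1) / (q.2 : ℝ) + 0 * x
        rw [h0, zero_mul, add_zero]
        exact h
      refine (h1.eventually (lt_mem_nhds h2)).mono fun s hs => ?_
      have hs' : X.phi y u < (pr q.1 (u + s • v) + 1) / (q.2 : ℝ) + s * x := hs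
      linarith
    · have h1 := hv q (Or.inr ⟨hq, h.symm⟩)
      refine Filter.Eventually.of_forall fun s => le_of_eq ?_
      rw [h, pr_add_right, pr_smul_right]
      have h2 : pr q.1 v = -(q.2 * x) := by linarith
      rw [h2]
      field_simp
      ring
  have e4 : ∀ᶠ s : ℝ in nhds 0, -X.phi y u + s * x ≤ X.degree (u + s • v) - X.phi y (u + s • v) := by
    have hc : Continuous fun s : ℝ => X.degree (u + s • v) - X.phi y (u + s • v) + X.phi y u - s * x := by
      exact ((hdg.sub hphi).add continuous_const).sub (continuous_id.mul continuous_const)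
    have h1 := hc.continuousAt (x := 0)
    have h2 : (0 : ℝ) < (fun s : ℝ => X.degree (u + s • v) - X.phi y (u + s • v) + X.phi y u - s * x) 0 := by
      show (0 : ℝ) < X.degree (u + (0 : ℝ) • v) - X.phi y (u + (0 : ℝ) • v) + X.phi y u - 0 * x
      rw [h0]
      linarith
    refine (h1.eventually (lt_mem_nhds h2)).mono fun s hs => ?_
    have hs' : (0 : ℝ) < X.degree (u + s • v) - X.phi y (u + s • v) + X.phi y u - s * x := hs
    linarith
  filter_upwards [e1, e2, e3, e4] with s s1 s2 s3 s4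
  refine ⟨⟨s1, s2⟩, ?_, s4⟩
  obtain ⟨q, hq, h⟩ := exists_phi_eq hX y (u + s • v)
  have h1 := s3 q hq
  rw [h] at h1
  show -X.phi y (u + s • v) ≤ -X.phi y u + s * x
  linarith

/-- **Chunk G6** (M/L). The generators of the cone at a toric fixed point satisfy the hypotheses of `toric_bound`.

Proof. `G` = image of the finite set `toricGenerators y u` under `toFun`. Height: `⟨(ρ,0), a⟩ = -⟨ρ,u⟩ = 1`, `⟨(p,μ), a⟩ = -⟨p,u⟩ + μ Φ_y(u) = 1`. Spanning: if `ζ = (v, x) ≠ 0` is
orthogonal to all generators, then for small `ε > 0` and `σ = ± 1` the point `(u, -Φ_y(u)) + σ ε (v, x)` is in the body: active rays have `⟨ρ,v⟩ = 0`; `Deg > 0`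
near `u`; for the active vertices `q = (p, μ)` over `y`, `(⟨p, u + σ ε v⟩ + 1)/μ = Φ_y(u) + σ ε ⟨p,v⟩/μ = Φ_y(u) - σ ε x` (as `⟨p,v⟩ + μ x = 0`), and for small `ε` the minimum is attained at active
vertices, so `Φ_y(u + σ ε v) = Φ_y(u) - σ ε x`, and the second coordinate `-Φ_y(u) + σ ε x = -Φ_y(u + σ ε v)` is at the lower end; the upper inequality holds as `Deg ≥ 0`.
So the vertex is a midpoint, against `hext`. The body is in the cone: `z = (u', x) ∈ body`: `⟨ρ, u' - u⟩ ≥ 0` for active rays, and `⟨p, u'-u⟩ + μ(x + Φ_y(u)) ≥ 0` as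
`x ≥ -Φ_y(u') ≥ -(⟨p,u'⟩+1)/μ` and `Φ_y(u) = (⟨p,u⟩+1)/μ`. No basis: a basis `b` of `Fin d ⊕ Unit → ℤ` with the range `G` gives one of `(Fin d → ℤ) × ℤ` with the range
`toricGenerators` (linear equivalence `LinearEquiv.sumArrowLequivProdArrow` and `LinearEquiv.funUnique`). -/
theorem toric_point (hX : X.IsFano) (y : Option (Fin m)) (u : Fin d → ℝ) (hu : u ∈ X.box)
    (hdeg : 0 < X.degree u) (hext : (u, -X.phi y u) ∈ Set.extremePoints ℝ (X.body y))
    (hnot : ¬ ∃ b : Module.Basis (Fin d ⊕ Unit) ℤ ((Fin d → ℤ) × ℤ),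
      Set.range b = X.toricGenerators y u) :
    ∃ G : Finset (Fin d ⊕ Unit → ℤ),
      (∀ g ∈ G, pr g (toFunR (-u, X.phi y u)) = 1) ∧
      (∀ z : Fin d ⊕ Unit → ℝ, (∀ g ∈ G, pr g z = 0) → z = 0) ∧
      (¬ ∃ b : Module.Basis (Fin d ⊕ Unit) ℤ (Fin d ⊕ Unit → ℤ),
        Set.range b = (G : Set (Fin d ⊕ Unit → ℤ))) ∧
      (∀ g ∈ G, 0 ≤ g (Sum.inr ())) ∧
      ∀ z ∈ X.body y, ∀ g ∈ G, 0 ≤ pr g (toFunR (z - (u, -X.phi y u))) := by
  classical
  have hfin := G6_finite X y u
  have hmem : ∀ g, g ∈ hfin.toFinset.image (Pool.Agent.Lib.H45DA.toFun (d := d)) ↔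
      ∃ g' ∈ X.toricGenerators y u, Pool.Agent.Lib.H45DA.toFun g' = g := by
    intro g
    rw [Finset.mem_image]
    simp only [Set.Finite.mem_toFinset]
  refine ⟨hfin.toFinset.image (Pool.Agent.Lib.H45DA.toFun (d := d)), ?_, ?_, ?_, ?_, ?_⟩
  · -- heights
    intro g hg
    obtain ⟨g, hg', rfl⟩ := (hmem g).1 hg
    rw [G6_pr]
    show pr g.1 (-u) + g.2 * X.phi y u = 1
    rw [pr_neg_right]
    rcases hg' with ⟨h1, h2, h3⟩ | ⟨h1, h2⟩
    · rw [h2, h3, Int.cast_zero, zero_mul, neg_neg, add_zero]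
    · have hq2 : (0 : ℝ) < g.2 := by
        have := one_le_of_mem_vertices hX h1
        exact_mod_cast this
      rw [← h2]
      field_simp
      ring
  · -- spanning
    intro z hz
    set v : Fin d → ℝ := fun i => z (Sum.inl i) with hv
    set x : ℝ := z (Sum.inr ()) with hx
    have hzz : z = toFunR (v, x) := by
      funext i
      rcases i with i | i
      · rfl
      · rfl
    have hv0 : ∀ g ∈ X.toricGenerators y u, pr g.1 v + g.2 * x = 0 := by
      intro g hg
      have h1 := hz _ ((hmem _).2 ⟨g, hg, rfl⟩)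
      rw [hzz, G6_pr] at h1
      exact h1
    have hev := G6_near hX y u hu hdeg v x hv0
    have hev2 : ∀ᶠ s : ℝ in nhds 0, (u + (-s) • v, -X.phi y u + (-s) * x) ∈ X.body y := by
      have h1 : Filter.Tendsto (fun s : ℝ => -s) (nhds 0) (nhds 0) := by
        have := (continuous_neg (G := ℝ)).tendsto 0
        rwa [neg_zero] at this
      exact h1.eventually hev
    obtain ⟨ε, hε, hb⟩ := (hev.and hev2).exists_gt
    obtain ⟨hb1, hb2⟩ := hb
    rw [mem_extremePoints] at hext
    have hseg : (u, -X.phi y u) ∈ openSegment ℝ (u + ε • v, -X.phi y u + ε * x)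
        (u + (-ε) • v, -X.phi y u + (-ε) * x) := by
      refine ⟨1 / 2, 1 / 2, by norm_num, by norm_num, by norm_num, ?_⟩
      refine Prod.ext ?_ ?_
      · funext i
        simp only [Prod.smul_mk, Prod.mk_add_mk, Pi.add_apply, Pi.smul_apply, smul_eq_mul]
        ring
      · simp only [Prod.smul_mk, Prod.mk_add_mk, smul_eq_mul]
        ring
    have h1 := (hext.2 _ hb1 _ hb2 hseg).1
    have h2 := congrArg Prod.fst h1
    have h3 := congrArg Prod.snd h1
    simp only at h2 h3
    have hv1 : v = 0 := by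
      have h4 : ε • v = 0 := by
        have := add_eq_left.1 h2
        exact this
      exact (smul_eq_zero.1 h4).resolve_left hε.ne'
    have hx1 : x = 0 := by
      have h4 : ε * x = 0 := by linarith
      exact (mul_eq_zero.1 h4).resolve_left hε.ne'
    rw [hzz, hv1, hx1]
    funext i
    rcases i with i | i
    · rfl
    · rfl
  · -- no basis
    rintro ⟨b, hb⟩
    refine hnot ⟨b.map (G6_equiv d), ?_⟩
    ext g
    constructor
    · rintro ⟨i, rfl⟩
      have h1 : b i ∈ Set.range b := ⟨i, rfl⟩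
      rw [hb, Finset.mem_coe, hmem] at h1
      obtain ⟨g', hg', h2⟩ := h1
      rw [Module.Basis.map_apply, ← h2]
      exact hg'
    · intro hg
      have h1 : Pool.Agent.Lib.H45DA.toFun g ∈ Set.range b := by
        rw [hb, Finset.mem_coe, hmem]
        exact ⟨g, hg, rfl⟩
      obtain ⟨i, hi⟩ := h1
      refine ⟨i, ?_⟩
      rw [Module.Basis.map_apply, hi]
      rfl
  · -- the last coordinate
    intro g hg
    obtain ⟨g, hg', rfl⟩ := (hmem g).1 hg
    show 0 ≤ g.2
    rcases hg' with ⟨h1, h2, h3⟩ | ⟨h1, h2⟩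
    · rw [h2]
    · have := one_le_of_mem_vertices hX h1
      omega
  · -- the body is in the cone
    intro z hz g hg
    obtain ⟨g, hg', rfl⟩ := (hmem g).1 hg
    rw [G6_pr]
    have h0 : pr g.1 (z - (u, -X.phi y u)).1 = pr g.1 z.1 - pr g.1 u := pr_sub_right _ _ _
    have h0' : (z - (u, -X.phi y u)).2 = z.2 + X.phi y u := by
      show z.2 - -X.phi y u = _
      ring
    rw [h0, h0']
    rcases hg' with ⟨h1, h2, h3⟩ | ⟨h1, h2⟩
    · have h4 := hz.1.1 g.1 h1
      rw [h2, h3, Int.cast_zero, zero_mul]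
      linarith
    · have hq2 : (0 : ℝ) < g.2 := by
        have := one_le_of_mem_vertices hX h1
        exact_mod_cast this
      have h4 := phi_le (X := X) h1 z.1
      have h5 := hz.2.1
      have h6 : -z.2 ≤ (pr g.1 z.1 + 1) / g.2 := by linarith
      rw [le_div_iff₀ hq2] at h6
      rw [← h2]
      have h7 : (g.2 : ℝ) * (z.2 + (pr g.1 u + 1) / g.2) = g.2 * z.2 + (pr g.1 u + 1) := by
        field_simp
      rw [h7]
      linarith

end Pool.Agent.Lib.H45DA.Datum
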