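import Pool.Agent.Lib.H45DA.G2
import Pool.Agent.Lib.H45DA.G3
import Pool.Agent.Lib.H45DA.G5

/-!
# Project H45DA, chunk G7: the volume bound from a local bound at an elliptic fixed point
-/

open MeasureTheory
open scoped Nat

namespace Pool.Agent.Lib.H45DA.Datum

variable {d m : ℕ} {X : Datum d m}

/-- **Chunk G7** (M). The volume bound from `HasBound`.

Proof. `n = d + 1`, `HasBound E` gives `y`, `β`, `D`, `c`. Let `w_i = ∑ β_e e (inl i)`, `h = ∑ β_e e (inr y) - D ≥ 0`, `z₀ = (u, -Φ_y(u))`, and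
`f z = val w h (z - z₀) = val w h z - val w h z₀` on `K = body (some y)`. For `ζ` with `⟨𝟙, ζ⟩ = 0`: `val w h (proj y ζ) = ∑ β_e ⟨e, ζ⟩` (the coefficient of `ζ (inr z)` is `D` for
`z ≠ y` and `D + h` for `z = y`). By G5, for `z ∈ K`, `z - z₀ = proj y ζ` with `ζ ∈ coneP E`, so `f z ≥ 0`, and `K ∩ {f ≤ t}` is contained in the translate by `z₀` of the set in `HasBound`: volume `≤ c t^n`.
Mean: `∫_K f = ∫_K val - val w h z₀ V ≤ - val w h z₀ V` (G2 (a)), and `- val w h z₀ = ∑ β_e ⟨e, height u⟩ - D ⟨𝟙, height u⟩ = ∑ β - (m-2) D =: A` (`height`, `height_one`). `A ≥ 0`: `0 ≤ ∫_K f ≤ A V`, `V > 0`. The bathtub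
inequality gives `V ≤ c ((n+1)/n A)ⁿ`, so `n! V ≤ ((n+1)/n)ⁿ Aⁿ n! c ≤ ((n+1)/n)ⁿ 2 dⁿ = 2 ((n² - 1)/n)ⁿ`. (`volume_eq`.) -/
theorem volume_le_of_elliptic (hX : X.IsFano) (hK : X.IsKSemistable) (hm : 3 ≤ m) (u : Fin d → ℝ)
    (hu : u ∈ X.box) (hdeg : X.degree u = 0) (E : Finset (Idx d m → ℤ))
    (hE : (E : Set (Idx d m → ℤ)) = X.ellipticGenerators u) (hloc : Loc E (X.height u))
    (hB : HasBound E) :
    X.volume ≤ 2 * ((((d : ℝ) + 1) ^ 2 - 1) / (d + 1)) ^ (d + 1) := by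
  classical
  obtain ⟨y, β, D, c, hβ, hD, hDy, hc, hvol, hfin⟩ := hB
  obtain ⟨w, hw⟩ : ∃ w : Fin d → ℝ, w = fun i => ∑ e ∈ E, β e * e (Sum.inl i) := ⟨_, rfl⟩
  obtain ⟨h, hh⟩ : ∃ h : ℝ, h = ∑ e ∈ E, β e * e (Sum.inr y) - D := ⟨_, rfl⟩
  have hh0 : 0 ≤ h := by
    rw [hh]
    linarith
  -- the linear form
  have key : ∀ ζ : Idx d m → ℝ, ∑ e ∈ E, β e * pr e ζ =
      val w h (proj y ζ) + D * ∑ z, ζ (Sum.inr z) := by
    intro ζ
    have h1 : ∀ e : Idx d m → ℤ, pr e ζ =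
        ∑ i, (e (Sum.inl i) : ℝ) * ζ (Sum.inl i) + ∑ z, (e (Sum.inr z) : ℝ) * ζ (Sum.inr z) := by
      intro e
      simp [pr]
    have h2 : ∑ e ∈ E, β e * pr e ζ = ∑ i, (∑ e ∈ E, β e * e (Sum.inl i)) * ζ (Sum.inl i) +
        ∑ z, (∑ e ∈ E, β e * e (Sum.inr z)) * ζ (Sum.inr z) := by
      simp only [h1, mul_add, Finset.mul_sum, Finset.sum_add_distrib, Finset.sum_mul]
      rw [Finset.sum_comm, Finset.sum_comm (s := E) (t := (Finset.univ : Finset (Fin m)))]
      congr 1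
      · exact Finset.sum_congr rfl fun i _ => Finset.sum_congr rfl fun e _ => by ring
      · exact Finset.sum_congr rfl fun i _ => Finset.sum_congr rfl fun e _ => by ring
    have h3 : ∑ z, (∑ e ∈ E, β e * e (Sum.inr z)) * ζ (Sum.inr z) =
        h * ζ (Sum.inr y) + D * ∑ z, ζ (Sum.inr z) := by
      rw [Finset.mul_sum, ← Finset.add_sum_erase _ _ (Finset.mem_univ y),
        ← Finset.add_sum_erase _ (fun z => D * ζ (Sum.inr z)) (Finset.mem_univ y)]
      have h4 : ∑ z ∈ Finset.univ.erase y, (∑ e ∈ E, β e * e (Sum.inr z)) * ζ (Sum.inr z) =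
          ∑ z ∈ Finset.univ.erase y, D * ζ (Sum.inr z) :=
        Finset.sum_congr rfl fun z hz => by rw [hD z (Finset.ne_of_mem_erase hz)]
      rw [h4, hh]
      ring
    rw [h2, h3, hw]
    unfold val proj
    ring
  obtain ⟨z₀, hz₀⟩ : ∃ z₀ : (Fin d → ℝ) × ℝ, z₀ = (u, -X.phi (some y) u) := ⟨_, rfl⟩
  obtain ⟨A, hA⟩ : ∃ A : ℝ, A = ∑ e ∈ E, β e - ((m : ℝ) - 2) * D := ⟨_, rfl⟩
  have hz₀A : val w h z₀ = -A := by
    have h1 := key (X.height u)
    have h2 : ∑ e ∈ E, β e * pr e (X.height u) = ∑ e ∈ E, β e :=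
      Finset.sum_congr rfl fun e he => by rw [hloc.height e he, mul_one]
    have h3 : ∑ z, X.height u (Sum.inr z) = (m : ℝ) - 2 := by
      rw [← pr_one]
      exact hloc.height_one
    have h4 : val w h (proj y (X.height u)) = -val w h z₀ := by
      rw [hz₀]
      unfold val proj height
      simp only [Sum.elim_inl, Sum.elim_inr, mul_neg, Finset.sum_neg_distrib]
      ring
    rw [h2, h3, h4] at h1
    rw [hA]
    linarith
  have hval_sub : ∀ z z' : (Fin d → ℝ) × ℝ, val w h (z - z') = val w h z - val w h z' := by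
    intro z z'
    unfold val
    simp only [Prod.fst_sub, Prod.snd_sub, Pi.sub_apply, mul_sub, Finset.sum_sub_distrib]
    ring
  have hcont : Continuous (fun z : (Fin d → ℝ) × ℝ => val w h z) := by
    unfold val
    fun_prop
  have hKc : IsCompact (X.body (some y)) := isCompact_body hX (some y)
  have hKm : MeasurableSet (X.body (some y)) := hKc.isClosed.measurableSet
  have hKf : MeasureTheory.volume (X.body (some y)) ≠ ⊤ := hKc.measure_lt_top.ne
  have hint : IntegrableOn (fun z => val w h z) (X.body (some y)) :=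
    hcont.continuousOn.integrableOn_compact hKc
  have hcone : ∀ z ∈ X.body (some y), ∃ ζ ∈ coneP E, proj y ζ = z - z₀ ∧
      val w h z - val w h z₀ = ∑ e ∈ E, β e * pr e ζ := by
    intro z hz
    obtain ⟨ζ, hζ, hpz⟩ := body_subset_cone hX hm u hu hdeg E hE y z hz
    rw [← hz₀] at hpz
    refine ⟨ζ, hζ, hpz, ?_⟩
    have h1 := key ζ
    have h2 : ∑ z, ζ (Sum.inr z) = 0 := by
      rw [← pr_one]
      exact hζ.1
    rw [h1, h2, hpz, hval_sub, mul_zero, add_zero]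
  have hpos : ∀ z ∈ X.body (some y), 0 ≤ val w h z - val w h z₀ := by
    intro z hz
    obtain ⟨ζ, hζ, _, h2⟩ := hcone z hz
    rw [h2]
    exact Finset.sum_nonneg fun e he => mul_nonneg (hβ e he) (hζ.2 e he)
  have hV := volume_body_pos hX (some y)
  obtain ⟨V, hVdef⟩ : ∃ V : ℝ, V = MeasureTheory.volume.real (X.body (some y)) := ⟨_, rfl⟩
  rw [← hVdef] at hV
  have hint2 : IntegrableOn (fun z => val w h z - val w h z₀) (X.body (some y)) :=
    hint.sub (integrableOn_const hKf)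
  have hmean : ∫ z in X.body (some y), (val w h z - val w h z₀) ≤ A * V := by
    rw [integral_sub hint (integrableOn_const hKf), setIntegral_const, smul_eq_mul, ← hVdef, hz₀A]
    have h1 := integral_val_nonpos hX hK (some y) w h hh0
    linarith
  have hA0 : 0 ≤ A := by
    have h1 : 0 ≤ ∫ z in X.body (some y), (val w h z - val w h z₀) :=
      setIntegral_nonneg hKm hpos
    by_contra hneg
    have h2 : A * V < 0 := mul_neg_of_neg_of_pos (not_le.1 hneg) hV
    linarith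
  have hvol' : ∀ t : ℝ, 0 ≤ t → MeasureTheory.volume (X.body (some y) ∩
      {z | val w h z - val w h z₀ ≤ t}) ≤ ENNReal.ofReal (c * t ^ (d + 1)) := by
    intro t ht
    refine le_trans ?_ (hvol t ht)
    have hsub : X.body (some y) ∩ {z | val w h z - val w h z₀ ≤ t} ⊆
        (fun z => z + -z₀) ⁻¹' (proj y '' {z | z ∈ coneP E ∧ ∑ e ∈ E, β e * pr e z ≤ t}) := by
      rintro z ⟨hz1, hz2⟩
      obtain ⟨ζ, hζ, h1, h2⟩ := hcone z hz1
      refine ⟨ζ, ⟨hζ, ?_⟩, ?_⟩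
      · rw [← h2]
        exact hz2
      · rw [h1, sub_eq_add_neg]
    refine (measure_mono hsub).trans (le_of_eq ?_)
    have hHaar : (MeasureTheory.volume : Measure ((Fin d → ℝ) × ℝ)).IsAddHaarMeasure := by
      rw [Measure.volume_eq_prod]
      infer_instance
    exact measure_preimage_add_right _ _ _
  have hbath := bathtub MeasureTheory.volume (X.body (some y)) hKm hKf
    (fun z => val w h z - val w h z₀) (hcont.measurable.sub_const _) hint2 hpos (d + 1)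
    (Nat.succ_le_succ (Nat.zero_le d)) c A hc hA0 hvol' (by rw [← hVdef]; exact hmean)
  rw [← hVdef] at hbath
  rw [volume_eq hX (some y), ← hVdef]
  rw [← hA] at hfin
  have hn : (0 : ℝ) < (d : ℝ) + 1 := by positivity
  have hfac : (0 : ℝ) ≤ ((d + 1)! : ℝ) := Nat.cast_nonneg _
  have hq : (0 : ℝ) ≤ (((d : ℝ) + 1 + 1) / ((d : ℝ) + 1)) ^ (d + 1) := by positivity
  push_cast at hbath
  calc ((d + 1)! : ℝ) * V ≤ ((d + 1)! : ℝ) * (c * (((d : ℝ) + 1 + 1) / ((d : ℝ) + 1) * A) ^ (d + 1)) :=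
        mul_le_mul_of_nonneg_left hbath hfac
    _ = (((d : ℝ) + 1 + 1) / ((d : ℝ) + 1)) ^ (d + 1) * (A ^ (d + 1) * ((d + 1)! * c)) := by
        rw [mul_pow]
        ring
    _ ≤ (((d : ℝ) + 1 + 1) / ((d : ℝ) + 1)) ^ (d + 1) * (2 * (d : ℝ) ^ (d + 1)) :=
        mul_le_mul_of_nonneg_left hfin hq
    _ = 2 * ((((d : ℝ) + 1) ^ 2 - 1) / (d + 1)) ^ (d + 1) := by
        have h1 : (((d : ℝ) + 1) ^ 2 - 1) / (d + 1) = ((d : ℝ) + 1 + 1) / ((d : ℝ) + 1) * d := by
          field_simp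
          ring
        rw [h1, mul_pow]
        ring

end Pool.Agent.Lib.H45DA.Datum
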