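import Pool.Agent.Lib.H45DA.Loc

/-!
# Project H45DA, chunk T4: swapping a vector of a basis
-/

namespace Pool.Agent.Lib.H45DA

variable {κ : Type} [Fintype κ] [DecidableEq κ]

/-- **Chunk T4a** (S). Replacing `b k₀` by `∑ c_k b_k` multiplies the determinant by `c_(k₀)`.
Proof. `Matrix.det_updateRow_sum`. -/
theorem det_update (b : κ → κ → ℤ) (c : κ → ℤ) (k₀ : κ) :
    (Matrix.of (Function.update b k₀ (∑ k, c k • b k))).det = c k₀ * (Matrix.of b).det :=
  Matrix.det_updateRow_sum (Matrix.of b) k₀ c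

/-- **Chunk T4b** (S). If the determinant is `± 1`, then `b` is a `ℤ`-basis.
Proof. `Module.Basis.is_basis_iff_det` for the standard basis `Pi.basisFun ℤ κ`,
`Module.Basis.det` of the standard basis is the determinant of the (transposed) matrix, and
`Module.Basis.mk`. Or: `Matrix.toLinearEquiv'`/`Matrix.toLin'` of the transposed matrix, invertible as
its determinant is a unit. -/
theorem exists_basis_of_det (b : κ → κ → ℤ) (hb : |(Matrix.of b).det| = 1) :
    ∃ B : Module.Basis κ ℤ (κ → ℤ), ∀ k, B k = b k := by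
  have h1 : (Pi.basisFun ℤ κ).det b = (Matrix.of b).det := by
    rw [Pi.basisFun_det]
    rfl
  have h2 : IsUnit ((Pi.basisFun ℤ κ).det b) := by
    rw [h1, Int.isUnit_iff_abs_eq]
    exact hb
  obtain ⟨hli, hsp⟩ := (Module.Basis.is_basis_iff_det (Pi.basisFun ℤ κ)).2 h2
  exact ⟨Module.Basis.mk hli hsp.ge, fun k => Module.Basis.mk_apply hli hsp.ge k⟩

/-- **Chunk T4c** (S). The converse: a `ℤ`-basis has the determinant `± 1`. -/
theorem det_of_basis (B : Module.Basis κ ℤ (κ → ℤ)) : |(Matrix.of fun k => B k).det| = 1 := by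
  have h1 : (Pi.basisFun ℤ κ).det B = (Matrix.of fun k => B k).det := by
    rw [Pi.basisFun_det]
    rfl
  rw [← h1, ← Int.isUnit_iff_abs_eq]
  exact (Pi.basisFun ℤ κ).isUnit_det B

/-- **Chunk T4d** (S). If the determinant is not `0`, then `b` is orthogonal to no `z ≠ 0`.
Proof. `Matrix.eq_zero_of_mulVec_eq_zero` for the real matrix. -/
theorem eq_zero_of_det (b : κ → κ → ℤ) (hb : (Matrix.of b).det ≠ 0) (z : κ → ℝ)
    (hz : ∀ k, pr (b k) z = 0) : z = 0 := by
  have h1 : ((Matrix.of b).map (Int.castRingHom ℝ)).det ≠ 0 := by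
    rw [← RingHom.mapMatrix_apply, ← RingHom.map_det]
    simpa using hb
  refine Matrix.eq_zero_of_mulVec_eq_zero h1 ?_
  funext k
  have h2 := hz k
  simp only [pr] at h2
  simpa [Matrix.mulVec, dotProduct] using h2

end Pool.Agent.Lib.H45DA
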