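import Mathlib

/-!
# Project H45DA, chunks N1, N2, N3: numerical inequalities
-/

open scoped Nat

namespace Pool.Agent.Lib.H45DA

private lemma N1_key (n : ℕ) (hn : 2 ≤ n) :
    ((n : ℝ) + 1) ^ (n + 1) * ((n : ℝ) - 1) ^ n ≤ (n : ℝ) ^ (n + 1) * (n : ℝ) ^ n := by
  have hx : (2 : ℝ) ≤ n := by exact_mod_cast hn
  have hd : 0 < (n : ℝ) ^ 2 - 1 := by nlinarith
  have hB := one_add_mul_le_pow (R := ℝ) (a := 1 / ((n : ℝ) ^ 2 - 1)) (by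
    have : 0 < 1 / ((n : ℝ) ^ 2 - 1) := by positivity
    linarith) n
  have e1 : 1 + 1 / ((n : ℝ) ^ 2 - 1) = (n : ℝ) ^ 2 / ((n : ℝ) ^ 2 - 1) := by
    field_simp
    ring
  rw [e1, div_pow, le_div_iff₀ (by positivity)] at hB
  have h2 : (n : ℝ) + 1 ≤ (n : ℝ) * (1 + (n : ℝ) * (1 / ((n : ℝ) ^ 2 - 1))) := by
    have h3 : (n : ℝ) * (1 + (n : ℝ) * (1 / ((n : ℝ) ^ 2 - 1))) = (n : ℝ) + 1 + 1 / ((n : ℝ) ^ 2 - 1) := by
      field_simp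
      ring
    have : 0 < 1 / ((n : ℝ) ^ 2 - 1) := by positivity
    linarith
  have h4 : ((n : ℝ) + 1) ^ (n + 1) * ((n : ℝ) - 1) ^ n = ((n : ℝ) + 1) * ((n : ℝ) ^ 2 - 1) ^ n := by
    have : (n : ℝ) ^ 2 - 1 = ((n : ℝ) + 1) * ((n : ℝ) - 1) := by ring
    rw [this, mul_pow, pow_succ]
    ring
  have h5 : (n : ℝ) ^ (n + 1) * (n : ℝ) ^ n = (n : ℝ) * ((n : ℝ) ^ 2) ^ n := by
    rw [← pow_mul, pow_succ, two_mul, pow_add]
    ring
  rw [h4, h5]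
  calc ((n : ℝ) + 1) * ((n : ℝ) ^ 2 - 1) ^ n
      ≤ (n : ℝ) * (1 + (n : ℝ) * (1 / ((n : ℝ) ^ 2 - 1))) * ((n : ℝ) ^ 2 - 1) ^ n := by
        apply mul_le_mul_of_nonneg_right h2 (by positivity)
    _ = (n : ℝ) * ((1 + (n : ℝ) * (1 / ((n : ℝ) ^ 2 - 1))) * ((n : ℝ) ^ 2 - 1) ^ n) := by ring
    _ ≤ (n : ℝ) * ((n : ℝ) ^ 2) ^ n := by
        apply mul_le_mul_of_nonneg_left hB (by linarith)

private lemma N1_step (A B : ℝ) (hA : 0 ≤ A) (n : ℕ) (hn : 2 ≤ n)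
    (ih : A * (n : ℝ) ^ n ≤ B * ((n : ℝ) - 1) ^ n) :
    A * ((n + 1 : ℕ) : ℝ) ^ (n + 1) ≤ B * (((n + 1 : ℕ) : ℝ) - 1) ^ (n + 1) := by
  have hx : (2 : ℝ) ≤ n := by exact_mod_cast hn
  have hpos : 0 < ((n : ℝ) - 1) ^ n := by
    apply pow_pos
    linarith
  have hkey := N1_key n hn
  push_cast
  rw [show (n : ℝ) + 1 - 1 = n by ring]
  have h1 : A * ((n : ℝ) + 1) ^ (n + 1) * ((n : ℝ) - 1) ^ n ≤ B * (n : ℝ) ^ (n + 1) * ((n : ℝ) - 1) ^ n := by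
    calc A * ((n : ℝ) + 1) ^ (n + 1) * ((n : ℝ) - 1) ^ n
        = A * (((n : ℝ) + 1) ^ (n + 1) * ((n : ℝ) - 1) ^ n) := by ring
      _ ≤ A * ((n : ℝ) ^ (n + 1) * (n : ℝ) ^ n) := mul_le_mul_of_nonneg_left hkey hA
      _ = (n : ℝ) ^ (n + 1) * (A * (n : ℝ) ^ n) := by ring
      _ ≤ (n : ℝ) ^ (n + 1) * (B * ((n : ℝ) - 1) ^ n) := mul_le_mul_of_nonneg_left ih (by positivity)
      _ = B * (n : ℝ) ^ (n + 1) * ((n : ℝ) - 1) ^ n := by ring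
  exact le_of_mul_le_mul_right h1 hpos

private lemma N1_central (j : ℕ) (hj : 2 ≤ j) : (Nat.centralBinom j : ℝ) ≤ 3 / 8 * 4 ^ j := by
  induction j, hj using Nat.le_induction with
  | base =>
    have : Nat.centralBinom 2 = 6 := by decide
    rw [this]
    norm_num
  | succ j hj ih =>
    have h1 := Nat.succ_mul_centralBinom_succ j
    have h2 : ((j : ℝ) + 1) * (Nat.centralBinom (j + 1) : ℝ) = 2 * (2 * (j : ℝ) + 1) * (Nat.centralBinom j : ℝ) := by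
      exact_mod_cast h1
    have h3 : (0 : ℝ) < (j : ℝ) + 1 := by positivity
    have h4 : (Nat.centralBinom (j + 1) : ℝ) ≤ 4 * (Nat.centralBinom j : ℝ) := by
      have h5 : ((j : ℝ) + 1) * (Nat.centralBinom (j + 1) : ℝ) ≤ ((j : ℝ) + 1) * (4 * (Nat.centralBinom j : ℝ)) := by
        rw [h2]
        have : (0 : ℝ) ≤ (Nat.centralBinom j : ℝ) := Nat.cast_nonneg _
        nlinarith
      exact le_of_mul_le_mul_left h5 h3
    calc (Nat.centralBinom (j + 1) : ℝ) ≤ 4 * (Nat.centralBinom j : ℝ) := h4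
      _ ≤ 4 * (3 / 8 * 4 ^ j) := by linarith
      _ = 3 / 8 * 4 ^ (j + 1) := by ring

/-- **Chunk N1** (S). `nⁿ ≤ 4 (n-1)ⁿ` for `n ≥ 2`.

Proof. `(n/(n-1))ⁿ` is decreasing: it is enough that `a_n = (1 - 1/n)ⁿ` is increasing (Bernoulli:
`one_add_mul_le_pow`: `a_(n+1)/a_n = (1 - 1/(n+1)) ((1 - 1/(n+1))/(1 - 1/n))ⁿ = (n/(n+1)) (n²/(n²-1))ⁿ`
`≥ (n/(n+1)) (1 + n/(n²-1)) ≥ 1`), `a_2 = 1/4`. -/
theorem num_half (n : ℕ) (hn : 2 ≤ n) : (n : ℝ) ^ n ≤ 4 * ((n : ℝ) - 1) ^ n := by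
  have h : 1 * (n : ℝ) ^ n ≤ 4 * ((n : ℝ) - 1) ^ n := by
    induction n, hn using Nat.le_induction with
    | base => norm_num
    | succ n hn ih => exact N1_step 1 4 (by norm_num) n hn ih
  rwa [one_mul] at h

/-- **Chunk N2** (S). `(16/27) nⁿ ≤ 2 (n-1)ⁿ` for `n ≥ 3`: as `num_half`, `a_3 = 8/27`. -/
theorem num_third (n : ℕ) (hn : 3 ≤ n) : 16 / 27 * (n : ℝ) ^ n ≤ 2 * ((n : ℝ) - 1) ^ n := by
  induction n, hn using Nat.le_induction with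
  | base => norm_num
  | succ n hn ih => exact N1_step (16 / 27) 2 (by norm_num) n (by omega) ih

/-- **Chunk N3** (S/M). `binom(2k-2, k-1) (k/(2k-1))^(2k-1) ≤ 16/27` for `k ≥ 2`.

Proof. `k = 2`: `2 (2/3)³ = 16/27`. `k ≥ 3`: `binom(2k-2, k-1) ≤ (3/8) 4^(k-1)` by induction from `k = 3`
(`6 ≤ 6`; `Nat.succ_mul_centralBinom_succ`: `binom(2j+2, j+1) = (2(2j+1)/(j+1)) binom(2j,j) ≤ 4 binom(2j, j)`),
`(k/(2k-1))^(2k-1) = 2^(-(2k-1)) (1 + 1/(2k-1))^(2k-1) ≤ 2^(-(2k-1)) e` (`Real.add_one_le_exp`), so the product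
is at most `(3/8) (e/2) ≤ 0.5098 < 0.5925` (`Real.exp_one_lt_d9`; in recent Mathlib `Real.exp_one_lt_three` is
enough: `9/16 = 0.5625`). -/
theorem num_choose (k : ℕ) (hk : 2 ≤ k) :
    ((2 * k - 2).choose (k - 1) : ℝ) * ((k : ℝ) / (2 * k - 1)) ^ (2 * k - 1) ≤ 16 / 27 := by
  obtain ⟨j, rfl⟩ : ∃ j, k = j + 1 := ⟨k - 1, by omega⟩
  have e1 : 2 * (j + 1) - 2 = 2 * j := by omega
  have e2 : j + 1 - 1 = j := by omega
  have e3 : 2 * (j + 1) - 1 = 2 * j + 1 := by omega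
  rw [e1, e2, e3]
  push_cast
  have e4 : 2 * ((j : ℝ) + 1) - 1 = 2 * j + 1 := by ring
  rw [e4]
  rcases Nat.lt_or_ge j 2 with h | h
  · have hj : j = 1 := by omega
    subst hj
    norm_num [Nat.choose]
  · have hc := N1_central j h
    rw [Nat.centralBinom_eq_two_mul_choose] at hc
    have hj0 : (0 : ℝ) < 2 * (j : ℝ) + 1 := by positivity
    have h1 : ((j : ℝ) + 1) / (2 * j + 1) = 1 / 2 * (1 + 1 / (2 * j + 1)) := by
      field_simp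
      ring
    have h2 : (1 + 1 / (2 * (j : ℝ) + 1)) ^ (2 * j + 1) ≤ Real.exp 1 := by
      have h3 := Real.add_one_le_exp (1 / (2 * (j : ℝ) + 1))
      have h4 : (1 + 1 / (2 * (j : ℝ) + 1)) ^ (2 * j + 1) ≤ Real.exp (1 / (2 * (j : ℝ) + 1)) ^ (2 * j + 1) := by
        apply pow_le_pow_left₀ (by positivity)
        linarith
      refine h4.trans ?_
      rw [← Real.exp_nat_mul]
      apply Real.exp_le_exp.mpr
      push_cast
      rw [mul_one_div, div_self hj0.ne']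
    rw [h1, mul_pow]
    have h5 : (1 / 2 : ℝ) ^ (2 * j + 1) = 1 / 2 * (1 / 4) ^ j := by
      rw [pow_succ, pow_mul]
      norm_num
      ring
    have h6 : Real.exp 1 < 2.7182818286 := Real.exp_one_lt_d9
    have h7 : (0 : ℝ) ≤ ((2 * j).choose j : ℝ) := Nat.cast_nonneg _
    calc ((2 * j).choose j : ℝ) * ((1 / 2) ^ (2 * j + 1) * (1 + 1 / (2 * (j : ℝ) + 1)) ^ (2 * j + 1))
        ≤ (3 / 8 * 4 ^ j) * ((1 / 2) ^ (2 * j + 1) * Real.exp 1) := by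
          apply mul_le_mul hc _ (by positivity) (by positivity)
          exact mul_le_mul_of_nonneg_left h2 (by positivity)
      _ = 3 / 16 * Real.exp 1 * ((4 : ℝ) ^ j * (1 / 4) ^ j) := by
          rw [h5]
          ring
      _ = 3 / 16 * Real.exp 1 := by
          rw [← mul_pow]
          norm_num
      _ ≤ 16 / 27 := by
          linarith

end Pool.Agent.Lib.H45DA
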