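import Pool.Agent.Lib.H45DA.T5Defs
import Pool.Agent.Lib.H45DA.A1
import Pool.Agent.Lib.H45DA.A2
import Pool.Agent.Lib.H45DA.N1

/-!
# Project H45DA, chunk T5a: a simplicial cone of index at least two
-/

open MeasureTheory
open scoped Nat

namespace Pool.Agent.Lib.H45DA

/-- **Chunk T5a** (M). Some elements `b k` of `G` form a basis of index at least `2`.

Proof. `β = 1` on the range of `b`, `0` elsewhere, `c = 1/(2 n!)`. `b` is injective (`det ≠ 0`), so `∑_G β g ⟨g, z⟩ = ∑_k ⟨b k, z⟩`. The set is contained in `{z : ⟨b k, z⟩ ≥ 0, ∑ ⟨b k, z⟩ ≤ t}`, whose volume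
is `tⁿ/(n! |det b|)` (A2 and A1 with `β = 1`). `∑ β = n`, and `nⁿ/2 ≤ 2(n-1)ⁿ` is `num_half`. -/
theorem toricBound_of_index {κ : Type} [Fintype κ] [DecidableEq κ] (G : Finset (κ → ℤ))
    (hn : 2 ≤ Fintype.card κ) (b : κ → κ → ℤ) (hb : ∀ k, b k ∈ G) (hdet : 2 ≤ |(Matrix.of b).det|) :
    ToricBound G := by
  classical
  have hdet0 : (Matrix.of b).det ≠ 0 := by
    intro h0
    rw [h0, abs_zero] at hdet
    omega
  have hinj : Function.Injective b := by
    intro k k' hkk'
    by_contra hne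
    exact hdet0 (Matrix.det_zero_of_row_eq hne (by
      funext j
      simp [Matrix.of_apply, hkk']))
  have hsub : Finset.univ.image b ⊆ G := by
    intro g hg
    obtain ⟨k, -, rfl⟩ := Finset.mem_image.1 hg
    exact hb k
  have key : ∀ F : (κ → ℤ) → ℝ,
      ∑ g ∈ G, (if g ∈ Finset.univ.image b then (1 : ℝ) else 0) * F g = ∑ k, F (b k) := by
    intro F
    rw [← Finset.sum_subset hsub]
    · rw [Finset.sum_image fun _ _ _ _ h => hinj h]
      exact Finset.sum_congr rfl fun k _ => by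
        rw [if_pos (Finset.mem_image_of_mem _ (Finset.mem_univ k)), one_mul]
    · intro g _ hg
      rw [if_neg hg, zero_mul]
  have hfac : (0 : ℝ) < (Fintype.card κ)! := by exact_mod_cast Nat.factorial_pos _
  have hdetR : (2 : ℝ) ≤ |((Matrix.of b).det : ℝ)| := by
    have h1 : ((2 : ℤ) : ℝ) ≤ ((|(Matrix.of b).det| : ℤ) : ℝ) := by exact_mod_cast hdet
    rw [Int.cast_abs] at h1
    exact_mod_cast h1
  refine ⟨fun g => if g ∈ Finset.univ.image b then 1 else 0, 1 / (2 * (Fintype.card κ)!), ?_, ?_, ?_, ?_⟩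
  · intro g _
    dsimp only
    split_ifs
    · exact zero_le_one
    · exact le_rfl
  · positivity
  · intro t ht
    have hS : {z : κ → ℝ | (∀ g ∈ G, 0 ≤ pr g z) ∧
        ∑ g ∈ G, (if g ∈ Finset.univ.image b then (1 : ℝ) else 0) * pr g z ≤ t} ⊆
        (fun (z : κ → ℝ) k => pr (b k) z) ⁻¹'
          {q : κ → ℝ | (∀ i, 0 ≤ q i) ∧ ∑ i, (fun _ : κ => (1 : ℝ)) i * q i ≤ t} := by
      rintro z ⟨hz1, hz2⟩
      rw [key fun g => pr g z] at hz2
      refine ⟨fun k => hz1 _ (hb k), ?_⟩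
      simpa only [one_mul] using hz2
    refine (measure_mono hS).trans ?_
    rw [volume_preimage_basis b hdet0, volume_simplex (fun _ : κ => (1 : ℝ)) (fun _ => one_pos) t ht,
      ← ENNReal.ofReal_mul (by positivity)]
    refine ENNReal.ofReal_le_ofReal ?_
    rw [Finset.prod_const_one, mul_one]
    have h1 : 1 / |((Matrix.of b).det : ℝ)| ≤ 1 / 2 :=
      one_div_le_one_div_of_le two_pos hdetR
    have h2 : 0 ≤ t ^ Fintype.card κ / ((Fintype.card κ)! : ℝ) := by positivity
    calc 1 / |((Matrix.of b).det : ℝ)| * (t ^ Fintype.card κ / ((Fintype.card κ)! : ℝ))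
        ≤ 1 / 2 * (t ^ Fintype.card κ / ((Fintype.card κ)! : ℝ)) :=
          mul_le_mul_of_nonneg_right h1 h2
      _ = 1 / (2 * (Fintype.card κ)!) * t ^ Fintype.card κ := by
          field_simp
  · have h1 := key fun _ => (1 : ℝ)
    simp only [mul_one] at h1
    rw [h1, Finset.sum_const, Finset.card_univ, nsmul_eq_mul, mul_one]
    have h2 := num_half _ hn
    have h3 : ((Fintype.card κ)! : ℝ) * (1 / (2 * (Fintype.card κ)!)) = 1 / 2 := by
      field_simp
    rw [h3]
    linarith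

end Pool.Agent.Lib.H45DA
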