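import Pool.Agent.Lib.H45DA.A1
import Pool.Agent.Lib.H45DA.A3
import Pool.Agent.Lib.H45DA.A4

/-!
# Project H45DA, chunk T1: the volume for a circuit
-/

open MeasureTheory
open scoped Nat

namespace Pool.Agent.Lib.H45DA

private theorem t1_restrict (ι : Type) [Fintype ι] :
    (volume : Measure (ι → ℝ)).restrict {q | ∀ i, 0 ≤ q i} =
      Measure.pi fun _ : ι => (volume : Measure ℝ).restrict (Set.Ici 0) := by
  have : {q : ι → ℝ | ∀ i, 0 ≤ q i} = Set.univ.pi fun _ => Set.Ici 0 := by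
    ext q
    constructor
    · intro h i _
      exact h i
    · intro h i
      exact h i (Set.mem_univ i)
  rw [this, volume_pi, Measure.restrict_pi_pi]

private theorem t1_meas_orth (ι : Type) [Fintype ι] : MeasurableSet {q : ι → ℝ | ∀ i, 0 ≤ q i} := by
  rw [Set.ofPred_forall]
  exact MeasurableSet.iInter fun i => measurableSet_le measurable_const (measurable_pi_apply i)

private theorem t1_meas_sum (ι : Type) [Fintype ι] : Measurable fun q : ι → ℝ => ∑ i, q i :=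
  Finset.measurable_sum _ fun i _ => measurable_pi_apply i

/-- The simplex. -/
private theorem t1_simplex (ι : Type) [Fintype ι] {r : ℝ} (hr : 0 ≤ r) :
    (Measure.pi fun _ : ι => (volume : Measure ℝ).restrict (Set.Ici 0)) {y | ∑ i, y i ≤ r} =
      ENNReal.ofReal (r ^ Fintype.card ι / (Fintype.card ι)!) := by
  rw [← t1_restrict, Measure.restrict_apply (measurableSet_le (t1_meas_sum ι) measurable_const)]
  have h := volume_simplex (fun _ : ι => (1 : ℝ)) (fun _ => one_pos) r hr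
  simp only [one_mul, Finset.prod_const_one, mul_one] at h
  rw [← h]
  congr 1
  ext q
  constructor
  · rintro ⟨h1, h2⟩
    exact ⟨h2, h1⟩
  · rintro ⟨h1, h2⟩
    exact ⟨h2, h1⟩

/-- The integral over the free coordinates. -/
private theorem t1_free (ι : Type) [Fintype ι] :
    ∫⁻ q, ENNReal.ofReal (Real.exp (-∑ i, q i))
      ∂(Measure.pi fun _ : ι => (volume : Measure ℝ).restrict (Set.Ici 0)) = 1 := by
  rw [← t1_restrict]
  have h := laplace_cone {q : ι → ℝ | ∀ i, 0 ≤ q i} (t1_meas_orth ι)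
    (fun r hr z hz i => mul_nonneg hr.le (hz i)) (fun q => ∑ i, q i) (t1_meas_sum ι)
    (fun r _ z => by simp only [Pi.smul_apply, smul_eq_mul]; rw [Finset.mul_sum])
    (fun z hz => Finset.sum_nonneg fun i _ => hz i) 1 one_pos
  have h2 := volume_simplex (fun _ : ι => (1 : ℝ)) (fun _ => one_pos) 1 zero_le_one
  simp only [one_mul, Finset.prod_const_one, mul_one, one_pow] at h2
  have h3 : {z : ι → ℝ | z ∈ {q : ι → ℝ | ∀ i, 0 ≤ q i} ∧ ∑ i, z i ≤ 1} =
      {q | (∀ i, 0 ≤ q i) ∧ ∑ i, q i ≤ 1} := rfl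
  rw [h3, h2, one_pow, ENNReal.ofReal_one, one_mul] at h
  rw [← h]
  have hN : (0 : ℝ) < (Fintype.card ι)! := by exact_mod_cast Nat.factorial_pos _
  rw [← ENNReal.ofReal_natCast, ← ENNReal.ofReal_mul hN.le, mul_one_div, div_self hN.ne',
    ENNReal.ofReal_one]

/-- The one-dimensional integral. -/
private theorem t1_one (k : ℕ) (hk : 2 ≤ k) (s : ℝ) (hs : 0 < s) :
    ∫⁻ r in Set.Ioi (0 : ℝ), (ENNReal.ofReal (Real.exp (-(s * r))) *
        ENNReal.ofReal (r ^ (k - 1) / (k - 1)!)) * ENNReal.ofReal (r ^ (k - 1) / (k - 1)!) =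
      ENNReal.ofReal (((2 * k - 2).choose (k - 1) : ℝ) / s ^ (2 * k - 1)) := by
  have hF : (0 : ℝ) < (k - 1)! := by exact_mod_cast Nat.factorial_pos _
  have h1 : ∫⁻ r in Set.Ioi (0 : ℝ), (ENNReal.ofReal (Real.exp (-(s * r))) *
        ENNReal.ofReal (r ^ (k - 1) / (k - 1)!)) * ENNReal.ofReal (r ^ (k - 1) / (k - 1)!) =
      ∫⁻ r in Set.Ioi (0 : ℝ), ENNReal.ofReal (1 / ((k - 1)! : ℝ) ^ 2 *
        (r ^ (((2 * k - 1 : ℕ) : ℝ) - 1) * Real.exp (-(s * r)))) := by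
    refine setLIntegral_congr_fun measurableSet_Ioi fun r hr => ?_
    have hr0 : (0 : ℝ) < r := hr
    have h2 : (((2 * k - 1 : ℕ) : ℝ) - 1) = ((2 * (k - 1) : ℕ) : ℝ) := by
      have : 2 * k - 1 = 2 * (k - 1) + 1 := by omega
      rw [this]
      push_cast
      ring
    rw [h2, Real.rpow_natCast, ← ENNReal.ofReal_mul (Real.exp_pos _).le,
      ← ENNReal.ofReal_mul (by positivity)]
    congr 1
    rw [two_mul, pow_add]
    field_simp
  have hint := Real.integral_rpow_mul_exp_neg_mul_Ioi (a := ((2 * k - 1 : ℕ) : ℝ)) (r := s)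
    (by
      have : 0 < 2 * k - 1 := by omega
      exact_mod_cast this) hs
  have hG : Real.Gamma ((2 * k - 1 : ℕ) : ℝ) = ((2 * k - 2)! : ℝ) := by
    have : ((2 * k - 1 : ℕ) : ℝ) = ((2 * k - 2 : ℕ) : ℝ) + 1 := by
      have : 2 * k - 1 = (2 * k - 2) + 1 := by omega
      rw [this]
      push_cast
      ring
    rw [this, Real.Gamma_nat_eq_factorial]
  rw [hG, Real.rpow_natCast] at hint
  have hval : (0 : ℝ) < (1 / s) ^ (2 * k - 1) * ((2 * k - 2)! : ℝ) := by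
    have : (0 : ℝ) < (2 * k - 2)! := by exact_mod_cast Nat.factorial_pos _
    positivity
  have hintg : Integrable (fun t : ℝ => t ^ (((2 * k - 1 : ℕ) : ℝ) - 1) * Real.exp (-(s * t)))
      (volume.restrict (Set.Ioi 0)) := by
    by_contra hcon
    rw [integral_undef hcon] at hint
    exact hval.ne hint
  rw [h1, ← ofReal_integral_eq_lintegral_ofReal (hintg.const_mul _)]
  · rw [integral_const_mul, hint]
    congr 1
    have hch : ((2 * k - 2).choose (k - 1) : ℝ) * ((k - 1)! * (k - 1)!) = (2 * k - 2)! := by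
      have := Nat.choose_mul_factorial_mul_factorial (n := 2 * k - 2) (k := k - 1) (by omega)
      have h5 : 2 * k - 2 - (k - 1) = k - 1 := by omega
      rw [h5] at this
      rw [← mul_assoc]
      exact_mod_cast this
    rw [← hch, one_div_pow]
    field_simp
  · refine (ae_restrict_iff' measurableSet_Ioi).mpr (Filter.Eventually.of_forall fun r hr => ?_)
    have hr0 : (0 : ℝ) < r := hr
    have : 0 ≤ r ^ (((2 * k - 1 : ℕ) : ℝ) - 1) := Real.rpow_nonneg hr0.le _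
    simp only [Pi.zero_apply]
    positivity

/-- The integral over the two blocks. -/
private theorem t1_blocks (ι₁ ι₂ : Type) [Fintype ι₁] [Fintype ι₂] (k : ℕ) (hk : 2 ≤ k)
    (h1 : Fintype.card ι₁ = k) (h2 : Fintype.card ι₂ + 1 = k) (s : ℝ) (hs : 0 < s) :
    ∫⁻ z : (ι₁ → ℝ) × (ι₂ → ℝ), (if ∑ i, z.2 i ≤ ∑ i, z.1 i then
        ENNReal.ofReal (Real.exp (-(s * ∑ i, z.1 i))) else 0)
      ∂((Measure.pi fun _ : ι₁ => (volume : Measure ℝ).restrict (Set.Ici 0)).prod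
        (Measure.pi fun _ : ι₂ => (volume : Measure ℝ).restrict (Set.Ici 0))) =
      ENNReal.ofReal (((2 * k - 2).choose (k - 1) : ℝ) / s ^ (2 * k - 1)) := by
  have hne : Nonempty ι₁ := Fintype.card_pos_iff.mp (by omega)
  have hm1 : Measurable fun z : (ι₁ → ℝ) × (ι₂ → ℝ) => ∑ i, z.1 i :=
    (t1_meas_sum ι₁).comp measurable_fst
  have hm2 : Measurable fun z : (ι₁ → ℝ) × (ι₂ → ℝ) => ∑ i, z.2 i :=
    (t1_meas_sum ι₂).comp measurable_snd
  have hmE : Measurable fun r : ℝ => ENNReal.ofReal (Real.exp (-(s * r))) := by fun_prop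
  rw [lintegral_prod]
  · have hin : ∀ x : ι₁ → ℝ, ∫⁻ y : ι₂ → ℝ, (if ∑ i, y i ≤ ∑ i, x i then
        ENNReal.ofReal (Real.exp (-(s * ∑ i, x i))) else 0)
        ∂(Measure.pi fun _ : ι₂ => (volume : Measure ℝ).restrict (Set.Ici 0)) =
        ENNReal.ofReal (Real.exp (-(s * ∑ i, x i))) *
          (Measure.pi fun _ : ι₂ => (volume : Measure ℝ).restrict (Set.Ici 0))
            {y | ∑ i, y i ≤ ∑ i, x i} := by
      intro x
      rw [← lintegral_indicator_const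
        (measurableSet_le (t1_meas_sum ι₂) measurable_const)]
      refine lintegral_congr fun y => ?_
      rw [Set.indicator_apply]
      rfl
    simp only [hin]
    rw [← t1_restrict ι₁]
    have hcg : ∫⁻ x in {q : ι₁ → ℝ | ∀ i, 0 ≤ q i}, ENNReal.ofReal (Real.exp (-(s * ∑ i, x i))) *
          (Measure.pi fun _ : ι₂ => (volume : Measure ℝ).restrict (Set.Ici 0))
            {y | ∑ i, y i ≤ ∑ i, x i} =
        ∫⁻ x in {q : ι₁ → ℝ | ∀ i, 0 ≤ q i}, (fun r : ℝ => ENNReal.ofReal (Real.exp (-(s * r))) *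
          ENNReal.ofReal (r ^ (k - 1) / (k - 1)!)) (∑ i, x i) := by
      refine setLIntegral_congr_fun (t1_meas_orth ι₁) fun x hx => ?_
      have hx' : ∀ i, 0 ≤ x i := hx
      show _ * _ = _ * _
      rw [t1_simplex ι₂ (Finset.sum_nonneg fun i _ => hx' i)]
      have : Fintype.card ι₂ = k - 1 := by omega
      rw [this]
    rw [hcg, lintegral_sum_orthant (fun r : ℝ => ENNReal.ofReal (Real.exp (-(s * r))) *
          ENNReal.ofReal (r ^ (k - 1) / (k - 1)!)) (by fun_prop), h1]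
    exact t1_one k hk s hs
  · exact (Measurable.ite (measurableSet_le hm2 hm1) (hmE.comp hm1) measurable_const).aemeasurable

section sums

variable {κ : Type} [Fintype κ] {M : Type*} [AddCommMonoid M]

private theorem t1_sumI (P Q : κ → Prop) [DecidablePred P] [DecidablePred Q] (I : Finset κ)
    (hP : ∀ i, Q i → P i) (hQ : ∀ i, Q i ↔ i ∈ I) (f : κ → M) :
    ∑ i : {i' : {i // P i} // Q i'.1}, f i.1.1 = ∑ i ∈ I, f i :=
  Finset.sum_bij (fun i _ => i.1.1) (fun i _ => (hQ _).mp i.2)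
    (fun _ _ _ _ h => Subtype.ext (Subtype.ext h))
    (fun b hb => ⟨⟨⟨b, hP b ((hQ b).mpr hb)⟩, (hQ b).mpr hb⟩, Finset.mem_univ _, rfl⟩)
    (fun _ _ => rfl)

private theorem t1_sumJ (P Q : κ → Prop) [DecidablePred P] [DecidablePred Q] (J : Finset κ)
    (hJ : ∀ i, (P i ∧ ¬ Q i) ↔ i ∈ J) (f : κ → M) :
    ∑ i : {i' : {i // P i} // ¬ Q i'.1}, f i.1.1 = ∑ i ∈ J, f i :=
  Finset.sum_bij (fun i _ => i.1.1)
    (fun i _ => (hJ _).mp ⟨i.1.2, i.2⟩)
    (fun _ _ _ _ h => Subtype.ext (Subtype.ext h))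
    (fun b hb => ⟨⟨⟨b, ((hJ b).mpr hb).1⟩, ((hJ b).mpr hb).2⟩,
      Finset.mem_univ _, rfl⟩) (fun _ _ => rfl)

private theorem t1_sumO (P : κ → Prop) [DecidablePred P] (O : Finset κ)
    (hO : ∀ i, ¬ P i ↔ i ∈ O) (f : κ → M) :
    ∑ i : {i // ¬ P i}, f i.1 = ∑ i ∈ O, f i :=
  Finset.sum_bij (fun i _ => i.1) (fun i _ => (hO _).mp i.2)
    (fun _ _ _ _ h => Subtype.ext h)
    (fun b hb => ⟨⟨b, (hO b).mpr hb⟩, Finset.mem_univ _, rfl⟩) (fun _ _ => rfl)

end sums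

/-- The integral over the cone. -/
private theorem t1_cone' {κ : Type} [Fintype κ] (P Q : κ → Prop) [DecidablePred P]
    [DecidablePred Q] (I J O : Finset κ) (hP : ∀ i, Q i → P i) (hQ : ∀ i, Q i ↔ i ∈ I)
    (hJ' : ∀ i, (P i ∧ ¬ Q i) ↔ i ∈ J) (hO : ∀ i, ¬ P i ↔ i ∈ O)
    (k : ℕ) (hk : 2 ≤ k) (hI : I.card = k) (hJ : J.card + 1 = k) (s : ℝ)
    (hs : 0 < s) :
    ∫⁻ q : κ → ℝ, (if ∑ i ∈ J, q i ≤ ∑ i ∈ I, q i then
        ENNReal.ofReal (Real.exp (-(s * ∑ i ∈ I, q i))) else 0) *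
        ENNReal.ofReal (Real.exp (-∑ i ∈ O, q i))
      ∂(Measure.pi fun _ : κ => (volume : Measure ℝ).restrict (Set.Ici 0)) =
      ENNReal.ofReal (((2 * k - 2).choose (k - 1) : ℝ) / s ^ (2 * k - 1)) := by
  let A : ({i // P i} → ℝ) → ENNReal := fun u =>
    if ∑ i : {i' : {i // P i} // ¬ Q i'.1}, u i.1 ≤
        ∑ i : {i' : {i // P i} // Q i'.1}, u i.1 then
      ENNReal.ofReal (Real.exp (-(s * ∑ i : {i' : {i // P i} // Q i'.1}, u i.1))) else 0
  let B : ({i // ¬ P i} → ℝ) → ENNReal := fun w => ENNReal.ofReal (Real.exp (-∑ i, w i))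
  have hmA1 : Measurable fun u : {i // P i} → ℝ =>
      ∑ i : {i' : {i // P i} // ¬ Q i'.1}, u i.1 :=
    Finset.measurable_sum _ fun i _ => measurable_pi_apply _
  have hmA2 : Measurable fun u : {i // P i} → ℝ =>
      ∑ i : {i' : {i // P i} // Q i'.1}, u i.1 :=
    Finset.measurable_sum _ fun i _ => measurable_pi_apply _
  have hmE : Measurable fun r : ℝ => ENNReal.ofReal (Real.exp (-(s * r))) := by fun_prop
  have hmE' : Measurable fun r : ℝ => ENNReal.ofReal (Real.exp (-r)) := by fun_prop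
  have hmA : Measurable A :=
    Measurable.ite (measurableSet_le hmA1 hmA2) (hmE.comp hmA2) measurable_const
  have hmB : Measurable B := hmE'.comp (t1_meas_sum _)
  have hmp := measurePreserving_piEquivPiSubtypeProd
    (fun _ : κ => (volume : Measure ℝ).restrict (Set.Ici 0)) P
  have h1 : ∀ q : κ → ℝ, (if ∑ i ∈ J, q i ≤ ∑ i ∈ I, q i then
        ENNReal.ofReal (Real.exp (-(s * ∑ i ∈ I, q i))) else 0) *
        ENNReal.ofReal (Real.exp (-∑ i ∈ O, q i)) =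
      (fun z : ({i // P i} → ℝ) × ({i // ¬ P i} → ℝ) => A z.1 * B z.2)
        (MeasurableEquiv.piEquivPiSubtypeProd (fun _ : κ => ℝ) P q) := by
    intro q
    rw [← t1_sumI P Q I hP hQ q, ← t1_sumJ P Q J hJ' q, ← t1_sumO P O hO q]
    rfl
  rw [lintegral_congr h1]
  have hc1 := hmp.lintegral_comp (f := fun z : ({i // P i} → ℝ) × ({i // ¬ P i} → ℝ) =>
    A z.1 * B z.2) ((hmA.comp measurable_fst).mul (hmB.comp measurable_snd))
  rw [hc1, lintegral_prod_mul hmA.aemeasurable hmB.aemeasurable]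
  have hB : ∫⁻ w, B w ∂(Measure.pi fun _ : {i // ¬ P i} =>
      (volume : Measure ℝ).restrict (Set.Ici 0)) = 1 := t1_free _
  rw [hB, mul_one]
  have hmp2 := measurePreserving_piEquivPiSubtypeProd
    (fun _ : {i // P i} => (volume : Measure ℝ).restrict (Set.Ici 0)) (fun i => Q i.1)
  have h2 : ∀ u : {i // P i} → ℝ, A u =
      (fun z : ({i' : {i // P i} // Q i'.1} → ℝ) × ({i' : {i // P i} // ¬ Q i'.1} → ℝ) =>
        if ∑ i, z.2 i ≤ ∑ i, z.1 i then
          ENNReal.ofReal (Real.exp (-(s * ∑ i, z.1 i))) else 0)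
        (MeasurableEquiv.piEquivPiSubtypeProd (fun _ : {i // P i} => ℝ)
          (fun i => Q i.1) u) := by
    intro u
    rfl
  rw [lintegral_congr h2]
  refine (hmp2.lintegral_comp (f := fun z : ({i' : {i // P i} // Q i'.1} → ℝ) ×
      ({i' : {i // P i} // ¬ Q i'.1} → ℝ) => if ∑ i, z.2 i ≤ ∑ i, z.1 i then
          ENNReal.ofReal (Real.exp (-(s * ∑ i, z.1 i))) else 0) ?_).trans ?_
  rotate_left
  · refine t1_blocks _ _ k hk ?_ ?_ s hs
    · rw [Fintype.card_eq_sum_ones, t1_sumI P Q I hP hQ (fun _ => 1), Finset.sum_const,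
        smul_eq_mul, mul_one, hI]
    · rw [Fintype.card_eq_sum_ones, t1_sumJ P Q J hJ' (fun _ => 1), Finset.sum_const,
        smul_eq_mul, mul_one, hJ]
  · exact Measurable.ite (measurableSet_le ((t1_meas_sum _).comp measurable_snd)
      ((t1_meas_sum _).comp measurable_fst)) (hmE.comp ((t1_meas_sum _).comp measurable_fst))
      measurable_const

private theorem t1_cone {κ : Type} [Fintype κ] [DecidableEq κ] (I J : Finset κ)
    (hIJ : Disjoint I J) (k : ℕ) (hk : 2 ≤ k) (hI : I.card = k) (hJ : J.card + 1 = k) (s : ℝ)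
    (hs : 0 < s) :
    ∫⁻ q : κ → ℝ, (if ∑ i ∈ J, q i ≤ ∑ i ∈ I, q i then
        ENNReal.ofReal (Real.exp (-(s * ∑ i ∈ I, q i))) else 0) *
        ENNReal.ofReal (Real.exp (-∑ i ∈ (I ∪ J)ᶜ, q i))
      ∂(Measure.pi fun _ : κ => (volume : Measure ℝ).restrict (Set.Ici 0)) =
      ENNReal.ofReal (((2 * k - 2).choose (k - 1) : ℝ) / s ^ (2 * k - 1)) := by
  refine t1_cone' (fun i => i ∈ I ∪ J) (fun i => i ∈ I) I J _
    (fun i hi => Finset.mem_union_left _ hi) (fun _ => Iff.rfl) (fun i => ?_)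
    (fun i => Finset.mem_compl.symm) k hk hI hJ s hs
  constructor
  · rintro ⟨h1, h2⟩
    exact (Finset.mem_union.mp h1).resolve_left h2
  · intro h
    exact ⟨Finset.mem_union_right _ h, fun h' => Finset.disjoint_left.mp hIJ h' h⟩

/-- **Chunk T1** (L). The volume of the set of the `q ≥ 0` with `∑_J q ≤ ∑_I q` and `s ∑_I q + ∑_O q ≤ t`,
`O` the complement of `I ∪ J`, `|I| = k`, `|J| = k - 1`.

Proof. For `t = 0` the set is contained in `{q : ∀ i ∈ I, q i = 0}`, a null set (if the right hand side is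
`0`; `I` is nonempty), so let `t > 0`. The set is `{z ∈ S : f z ≤ t}` for the cone `S = {q ≥ 0, ∑_J q ≤ ∑_I q}` and
`f = s ∑_I q + ∑_O q`, homogeneous and `≥ 0` on `S`: by `laplace_cone` it is enough that
`∫⁻_S exp(-f) = binom(2k-2, k-1) / s^(2k-1)`. Split `κ` into `I`, `J`, `O`
(`MeasurableEquiv.piEquivPiSubtypeProd`, `volume_preserving_piEquivPiSubtypeProd`). The integral over
`q_O` is `∏ ∫_0^∞ exp(-x) = 1` (`lintegral_fintype_prod` or A3). Let `ρ_k r = r^(k-1)/(k-1)!`. The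
integral over `q_J` of `1_{∑ q_J ≤ r}` is `∫_0^r ρ_(k-1) = r^(k-1)/(k-1)!` (A3 with `card J = k - 1 ≥ 1`,
or A1), and the integral over `q_I` of `exp(-s r) r^(k-1)/(k-1)!`, `r = ∑ q_I`, is (A3)
`∫_0^∞ exp(-s r) (r^(k-1)/(k-1)!)² dr = (2k-2)!/((k-1)!² s^(2k-1)) = binom(2k-2,k-1)/s^(2k-1)`
(`Real.integral_rpow_mul_exp_neg_mul_Ioi` or `integral_rpow_mul_exp_neg_mul_Ioi`, `Nat.choose`). Equality
holds for `t > 0`. -/
theorem volume_circuit {κ : Type} [Fintype κ] [DecidableEq κ] (I J : Finset κ) (hIJ : Disjoint I J)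
    (k : ℕ) (hk : 2 ≤ k) (hI : I.card = k) (hJ : J.card + 1 = k) (s t : ℝ) (hs : 0 < s) (ht : 0 ≤ t) :
    volume {q : κ → ℝ | (∀ i, 0 ≤ q i) ∧ ∑ i ∈ J, q i ≤ ∑ i ∈ I, q i ∧
        s * ∑ i ∈ I, q i + ∑ i ∈ (I ∪ J)ᶜ, q i ≤ t} ≤
      ENNReal.ofReal (((2 * k - 2).choose (k - 1) : ℝ) * t ^ Fintype.card κ /
        ((Fintype.card κ)! * s ^ (2 * k - 1))) := by
  rcases ht.eq_or_lt with rfl | ht0
  · -- t = 0
    obtain ⟨i₀, hi₀⟩ : I.Nonempty := Finset.card_pos.mp (by omega)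
    have hsub : {q : κ → ℝ | (∀ i, 0 ≤ q i) ∧ ∑ i ∈ J, q i ≤ ∑ i ∈ I, q i ∧
        s * ∑ i ∈ I, q i + ∑ i ∈ (I ∪ J)ᶜ, q i ≤ 0} ⊆ {q | q i₀ = 0} := by
      rintro q ⟨h1, -, h3⟩
      have h4 : 0 ≤ ∑ i ∈ I, q i := Finset.sum_nonneg fun i _ => h1 i
      have h5 : 0 ≤ ∑ i ∈ (I ∪ J)ᶜ, q i := Finset.sum_nonneg fun i _ => h1 i
      have h6 : q i₀ ≤ ∑ i ∈ I, q i := Finset.single_le_sum (fun i _ => h1 i) hi₀
      have h7 : s * ∑ i ∈ I, q i ≤ 0 := by linarith
      have h8 : ∑ i ∈ I, q i ≤ 0 := by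
        by_contra hcon
        have := mul_pos hs (not_le.mp hcon)
        linarith
      exact le_antisymm (h6.trans h8) (h1 i₀)
    have hz : volume {q : κ → ℝ | q i₀ = 0} = 0 := by
      rw [volume_pi]
      exact Measure.pi_hyperplane _ i₀ 0
    exact (measure_mono hsub).trans (hz.le.trans zero_le)
  · have hmI : Measurable fun q : κ → ℝ => ∑ i ∈ I, q i :=
      Finset.measurable_sum _ fun i _ => measurable_pi_apply i
    have hmJ : Measurable fun q : κ → ℝ => ∑ i ∈ J, q i :=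
      Finset.measurable_sum _ fun i _ => measurable_pi_apply i
    have hmO : Measurable fun q : κ → ℝ => ∑ i ∈ (I ∪ J)ᶜ, q i :=
      Finset.measurable_sum _ fun i _ => measurable_pi_apply i
    have hmC : MeasurableSet {q : κ → ℝ | ∑ i ∈ J, q i ≤ ∑ i ∈ I, q i} := measurableSet_le hmJ hmI
    have hL := laplace_cone ({q : κ → ℝ | ∑ i ∈ J, q i ≤ ∑ i ∈ I, q i} ∩ {q | ∀ i, 0 ≤ q i})
      (hmC.inter (t1_meas_orth κ))
      (fun r hr z hz => by
        refine ⟨?_, fun i => mul_nonneg hr.le (hz.2 i)⟩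
        show ∑ i ∈ J, r * z i ≤ ∑ i ∈ I, r * z i
        rw [← Finset.mul_sum, ← Finset.mul_sum]
        exact mul_le_mul_of_nonneg_left hz.1 hr.le)
      (fun q => s * ∑ i ∈ I, q i + ∑ i ∈ (I ∪ J)ᶜ, q i) ((hmI.const_mul s).add hmO)
      (fun r _ z => by
        simp only [Pi.smul_apply, smul_eq_mul]
        rw [← Finset.mul_sum, ← Finset.mul_sum]
        ring)
      (fun z hz => by
        have h4 : 0 ≤ ∑ i ∈ I, z i := Finset.sum_nonneg fun i _ => hz.2 i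
        have h5 : 0 ≤ ∑ i ∈ (I ∪ J)ᶜ, z i := Finset.sum_nonneg fun i _ => hz.2 i
        positivity) t ht0
    have hint : ∫⁻ z in ({q : κ → ℝ | ∑ i ∈ J, q i ≤ ∑ i ∈ I, q i} ∩ {q | ∀ i, 0 ≤ q i}),
        ENNReal.ofReal (Real.exp (-(s * ∑ i ∈ I, z i + ∑ i ∈ (I ∪ J)ᶜ, z i))) =
        ENNReal.ofReal (((2 * k - 2).choose (k - 1) : ℝ) / s ^ (2 * k - 1)) := by
      rw [← Measure.restrict_restrict hmC, t1_restrict, ← lintegral_indicator hmC,
        ← t1_cone I J hIJ k hk hI hJ s hs]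
      refine lintegral_congr fun q => ?_
      rw [Set.indicator_apply]
      have hmem : (q ∈ {q : κ → ℝ | ∑ i ∈ J, q i ≤ ∑ i ∈ I, q i}) ↔
          ∑ i ∈ J, q i ≤ ∑ i ∈ I, q i := Iff.rfl
      by_cases hq : ∑ i ∈ J, q i ≤ ∑ i ∈ I, q i
      · rw [if_pos (hmem.mpr hq), if_pos hq, ← ENNReal.ofReal_mul (Real.exp_pos _).le,
          ← Real.exp_add]
        congr 2
        ring
      · rw [if_neg (fun h => hq (hmem.mp h)), if_neg hq, zero_mul]
    have hset : {q : κ → ℝ | (∀ i, 0 ≤ q i) ∧ ∑ i ∈ J, q i ≤ ∑ i ∈ I, q i ∧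
        s * ∑ i ∈ I, q i + ∑ i ∈ (I ∪ J)ᶜ, q i ≤ t} =
        {z | z ∈ ({q : κ → ℝ | ∑ i ∈ J, q i ≤ ∑ i ∈ I, q i} ∩ {q | ∀ i, 0 ≤ q i}) ∧
          (fun q : κ → ℝ => s * ∑ i ∈ I, q i + ∑ i ∈ (I ∪ J)ᶜ, q i) z ≤ t} := by
      ext q
      constructor
      · rintro ⟨h1, h2, h3⟩
        exact ⟨⟨h2, h1⟩, h3⟩
      · rintro ⟨⟨h2, h1⟩, h3⟩
        exact ⟨h1, h2, h3⟩
    rw [hset]
    have hN : (0 : ℝ) < (Fintype.card κ)! := by exact_mod_cast Nat.factorial_pos _
    have hL2 : ((Fintype.card κ)! : ENNReal) *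
        volume {z | z ∈ ({q : κ → ℝ | ∑ i ∈ J, q i ≤ ∑ i ∈ I, q i} ∩ {q | ∀ i, 0 ≤ q i}) ∧
          (fun q : κ → ℝ => s * ∑ i ∈ I, q i + ∑ i ∈ (I ∪ J)ᶜ, q i) z ≤ t} =
        ((Fintype.card κ)! : ENNReal) *
        ENNReal.ofReal (((2 * k - 2).choose (k - 1) : ℝ) * t ^ Fintype.card κ /
          ((Fintype.card κ)! * s ^ (2 * k - 1))) := by
      rw [hL, hint, ← ENNReal.ofReal_mul (by positivity), ← ENNReal.ofReal_natCast
        (Fintype.card κ)!, ← ENNReal.ofReal_mul hN.le]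
      congr 1
      field_simp
    have hne0 : ((Fintype.card κ)! : ENNReal) ≠ 0 := by
      exact_mod_cast (Nat.factorial_pos _).ne'
    have hnet : ((Fintype.card κ)! : ENNReal) ≠ ⊤ := ENNReal.natCast_ne_top _
    exact ((ENNReal.mul_right_inj hne0 hnet).mp hL2).le

end Pool.Agent.Lib.H45DA
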