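import Pool.Agent.Lib.H45DA.T5Defs
import Pool.Agent.Lib.H45DA.T1
import Pool.Agent.Lib.H45DA.A2
import Pool.Agent.Lib.H45DA.N1

/-!
# Project H45DA, chunk T5b: a unimodular circuit
-/

open MeasureTheory
open scoped Nat

namespace Pool.Agent.Lib.H45DA

/-- the weight of the basis vector `b k` -/
private noncomputable def T5b_w (s : ℝ) (c : ℤ) : ℝ := if c = 1 then s else if c = -1 then 0 else 1

private theorem T5b_w_nonneg {s : ℝ} (hs : 0 ≤ s) (c : ℤ) : 0 ≤ T5b_w s c := by
  unfold T5b_w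
  split_ifs
  · exact hs
  · exact le_rfl
  · exact zero_le_one

/-- sums over the generators with the weights concentrated on the range of `b` -/
private theorem T5b_sum {κ : Type} [Fintype κ] [DecidableEq κ] (G : Finset (κ → ℤ))
    (b : κ → κ → ℤ) (hb : ∀ k, b k ∈ G) (γ : κ → ℝ) (F : (κ → ℤ) → ℝ) :
    ∑ g ∈ G, (∑ k, if b k = g then γ k else 0) * F g = ∑ k, γ k * F (b k) := by
  simp only [Finset.sum_mul]
  rw [Finset.sum_comm]
  refine Finset.sum_congr rfl fun k _ => ?_
  rw [Finset.sum_eq_single (b k)]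
  · rw [if_pos rfl]
  · intro g _ hg
    rw [if_neg (Ne.symm hg), zero_mul]
  · intro h
    exact absurd (hb k) h

private theorem T5b_split {κ : Type} [Fintype κ] [DecidableEq κ] (c : κ → ℤ) (s : ℝ)
    (q : κ → ℝ) :
    ∑ k, T5b_w s (c k) * q k = s * ∑ i ∈ Finset.univ.filter (fun k => c k = 1), q i +
      ∑ i ∈ (Finset.univ.filter (fun k => c k = 1) ∪ Finset.univ.filter (fun k => c k = -1))ᶜ,
        q i := by
  have h : (Finset.univ.filter (fun k => c k = 1) ∪ Finset.univ.filter (fun k => c k = -1))ᶜ =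
      Finset.univ.filter (fun k => ¬ (c k = 1 ∨ c k = -1)) := by
    ext k
    simp
  rw [h, Finset.sum_filter, Finset.sum_filter, Finset.mul_sum, ← Finset.sum_add_distrib]
  refine Finset.sum_congr rfl fun k _ => ?_
  unfold T5b_w
  by_cases h1 : c k = 1
  · rw [if_pos h1, if_pos h1, if_neg (by simp [h1]), add_zero]
  · by_cases h2 : c k = -1
    · rw [if_neg h1, if_pos h2, if_neg h1, if_neg (by simp [h2])]
      ring
    · rw [if_neg h1, if_neg h2, if_neg h1, if_pos (by simp [h1, h2])]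
      ring

private theorem T5b_pm {κ : Type} [Fintype κ] [DecidableEq κ] (c : κ → ℤ)
    (hc1 : ∀ k, c k = 0 ∨ c k = 1 ∨ c k = -1) (q : κ → ℝ) :
    ∑ k, (c k : ℝ) * q k = ∑ i ∈ Finset.univ.filter (fun k => c k = 1), q i -
      ∑ i ∈ Finset.univ.filter (fun k => c k = -1), q i := by
  rw [Finset.sum_filter, Finset.sum_filter, ← Finset.sum_sub_distrib]
  refine Finset.sum_congr rfl fun k _ => ?_
  rcases hc1 k with h | h | h <;> rw [h] <;> norm_num

/-- **Chunk T5b** (M/L). The unimodular circuit `x = ∑ c_k b_k`, `c_k ∈ {0, 1, -1}`, `∑ c_k = 1`.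

Proof. `I = {c = 1}`, `J = {c = -1}`, `|I| = |J| + 1 =: k`. `k ≥ 2`, since `k = 1` gives `x = b_i`. `|I| + |J| = 2k - 1 ≤ n`, so `n ≥ 3`. Let `s = (2k-1)/k`, `β (b i) = s` for `i ∈ I`, `0` for `i ∈ J`, `1` for the other
`i`, and `β = 0` outside of the range of `b` (`b` is injective, as `det ≠ 0`). Then `∑_G β = k s + n - (2k-1) = n` and `∑_G β g ⟨g, z⟩ = s ∑_I q + ∑_O q` with `q_k = ⟨b k, z⟩`. In the coordinates `q` (A2, `|det| = 1`) the
set is contained in that of T1 (`0 ≤ ⟨x, z⟩ = ∑_I q - ∑_J q`), so its volume is at most `c tⁿ` with `c = binom(2k-2,k-1)/(n! s^(2k-1))`, and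
`nⁿ n! c = nⁿ binom(2k-2,k-1) (k/(2k-1))^(2k-1) ≤ (16/27) nⁿ ≤ 2(n-1)ⁿ` (`num_choose`, `num_third`). -/
theorem toricBound_of_circuit {κ : Type} [Fintype κ] [DecidableEq κ] (G : Finset (κ → ℤ))
    (b : κ → κ → ℤ) (hb : ∀ k, b k ∈ G) (hdet : |(Matrix.of b).det| = 1) (x : κ → ℤ) (hx : x ∈ G)
    (hxb : ∀ k, x ≠ b k) (c : κ → ℤ) (hc : x = ∑ k, c k • b k)
    (hc1 : ∀ k, c k = 0 ∨ c k = 1 ∨ c k = -1) (hsum : ∑ k, c k = 1) : ToricBound G := by
  obtain ⟨I, hI⟩ : ∃ I : Finset κ, I = Finset.univ.filter (fun k => c k = 1) := ⟨_, rfl⟩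
  obtain ⟨J, hJ⟩ : ∃ J : Finset κ, J = Finset.univ.filter (fun k => c k = -1) := ⟨_, rfl⟩
  obtain ⟨k, hk⟩ : ∃ k : ℕ, k = I.card := ⟨_, rfl⟩
  have hcard : J.card + 1 = k := by
    have h1 := T5b_pm c hc1 (fun _ => (1 : ℝ))
    simp only [mul_one, Finset.sum_const, nsmul_eq_mul] at h1
    rw [← hI, ← hJ, ← hk] at h1
    have h2 : ((∑ k, c k : ℤ) : ℝ) = 1 := by rw [hsum]; simp
    rw [Int.cast_sum] at h2
    rw [h2] at h1
    have h3 : ((J.card + 1 : ℕ) : ℝ) = (k : ℝ) := by
      push_cast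
      linarith
    exact_mod_cast h3
  have hIJ : Disjoint I J := by
    rw [Finset.disjoint_left]
    intro i hi hj
    rw [hI, Finset.mem_filter] at hi
    rw [hJ, Finset.mem_filter] at hj
    rw [hi.2] at hj
    exact absurd hj.2 (by norm_num)
  have hk2 : 2 ≤ k := by
    by_contra hcon
    have hk1 : k = 1 := by omega
    have hJ0 : J = ∅ := by
      rw [← Finset.card_eq_zero]
      omega
    have hI1 : I.card = 1 := by omega
    obtain ⟨i, hi⟩ := Finset.card_eq_one.mp hI1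
    apply hxb i
    rw [hc, Finset.sum_eq_single i]
    · have h1 : i ∈ I := by rw [hi]; exact Finset.mem_singleton_self i
      rw [hI, Finset.mem_filter] at h1
      rw [h1.2, one_smul]
    · intro j _ hj
      rcases hc1 j with h | h | h
      · rw [h, zero_smul]
      · have h1 : j ∈ I := by rw [hI, Finset.mem_filter]; exact ⟨Finset.mem_univ _, h⟩
        rw [hi, Finset.mem_singleton] at h1
        exact absurd h1 hj
      · have h1 : j ∈ J := by rw [hJ, Finset.mem_filter]; exact ⟨Finset.mem_univ _, h⟩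
        rw [hJ0] at h1
        exact absurd h1 (Finset.notMem_empty j)
    · intro h
      exact absurd (Finset.mem_univ i) h
  have hn : 2 * k - 1 ≤ Fintype.card κ := by
    have h1 : (I ∪ J).card ≤ Fintype.card κ := Finset.card_le_univ _
    rw [Finset.card_union_of_disjoint hIJ, ← hk] at h1
    omega
  have hn3 : 3 ≤ Fintype.card κ := by omega
  have hkR : (2 : ℝ) ≤ k := by exact_mod_cast hk2
  have hk0 : (0 : ℝ) < k := by linarith
  obtain ⟨s, hs⟩ : ∃ s : ℝ, s = (2 * k - 1) / k := ⟨_, rfl⟩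
  have hs0 : 0 < s := by
    rw [hs]
    exact div_pos (by linarith) hk0
  obtain ⟨A, hA⟩ : ∃ A : ℝ, A = ((2 * k - 2).choose (k - 1) : ℝ) /
    ((Fintype.card κ)! * s ^ (2 * k - 1)) := ⟨_, rfl⟩
  have hfac : (0 : ℝ) < (Fintype.card κ)! := by exact_mod_cast Nat.factorial_pos _
  refine ⟨fun g => ∑ j, if b j = g then T5b_w s (c j) else 0, A, ?_, ?_, ?_, ?_⟩
  · intro g _
    refine Finset.sum_nonneg fun j _ => ?_
    split_ifs
    · exact T5b_w_nonneg hs0.le _
    · exact le_rfl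
  · rw [hA]
    positivity
  · intro t ht
    have hdet0 : (Matrix.of b).det ≠ 0 := by
      intro h
      rw [h] at hdet
      norm_num at hdet
    have hvol := volume_preimage_basis b hdet0
      {q : κ → ℝ | (∀ i, 0 ≤ q i) ∧ ∑ i ∈ J, q i ≤ ∑ i ∈ I, q i ∧
        s * ∑ i ∈ I, q i + ∑ i ∈ (I ∪ J)ᶜ, q i ≤ t}
    have habs : |((Matrix.of b).det : ℝ)| = 1 := by
      rw [← Int.cast_abs, hdet, Int.cast_one]
    rw [habs, div_one, ENNReal.ofReal_one, one_mul] at hvol
    refine (measure_mono ?_).trans (hvol.le.trans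
      ((volume_circuit I J hIJ k hk2 hk.symm hcard s t hs0 ht).trans (le_of_eq ?_)))
    · rintro z ⟨hz1, hz2⟩
      rw [T5b_sum G b hb (fun j => T5b_w s (c j)) (fun g => pr g z), T5b_split c s, ← hI,
        ← hJ] at hz2
      refine ⟨fun i => hz1 _ (hb i), ?_, hz2⟩
      have h1 := hz1 x hx
      rw [hc, pr_sum] at h1
      simp only [pr_zsmul] at h1
      rw [T5b_pm c hc1 (fun j => pr (b j) z), ← hI, ← hJ] at h1
      exact sub_nonneg.mp h1
    · congr 1
      rw [hA]
      ring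
  · have hsumβ : ∑ g ∈ G, (∑ j, if b j = g then T5b_w s (c j) else 0) = (Fintype.card κ : ℝ) := by
      have h1 := T5b_sum G b hb (fun j => T5b_w s (c j)) (fun _ => (1 : ℝ))
      simp only [mul_one] at h1
      rw [h1]
      have h2 := T5b_split c s (fun _ => (1 : ℝ))
      simp only [mul_one, Finset.sum_const, nsmul_eq_mul] at h2
      rw [h2, ← hI, ← hJ, ← hk, Finset.card_compl, Finset.card_union_of_disjoint hIJ, ← hk,
        Nat.cast_sub (by
          have h1 : (I ∪ J).card ≤ Fintype.card κ := Finset.card_le_univ _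
          rw [Finset.card_union_of_disjoint hIJ, ← hk] at h1
          exact h1)]
      have h3 : (J.card : ℝ) + 1 = k := by exact_mod_cast hcard
      have h4 : s * k = 2 * k - 1 := by
        rw [hs, div_mul_cancel₀ _ hk0.ne']
      push_cast
      linarith
    rw [hsumβ]
    have h1 := num_choose k hk2
    have h2 := num_third (Fintype.card κ) hn3
    have h3 : (Fintype.card κ)! * A =
        ((2 * k - 2).choose (k - 1) : ℝ) * ((k : ℝ) / (2 * k - 1)) ^ (2 * k - 1) := by
      have h4 : ((k : ℝ) / (2 * k - 1)) ^ (2 * k - 1) = (s ^ (2 * k - 1))⁻¹ := by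
        rw [← inv_pow, hs, inv_div]
      rw [h4, hA, ← mul_div_assoc, mul_div_mul_left _ _ hfac.ne', div_eq_mul_inv]
    rw [h3]
    calc (Fintype.card κ : ℝ) ^ Fintype.card κ *
          (((2 * k - 2).choose (k - 1) : ℝ) * ((k : ℝ) / (2 * k - 1)) ^ (2 * k - 1))
        ≤ (Fintype.card κ : ℝ) ^ Fintype.card κ * (16 / 27) :=
          mul_le_mul_of_nonneg_left h1 (by positivity)
      _ = 16 / 27 * (Fintype.card κ : ℝ) ^ Fintype.card κ := by ring
      _ ≤ _ := h2

end Pool.Agent.Lib.H45DA
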