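import Pool.Agent.Lib.H45DA.T3
import Pool.Agent.Lib.H45DA.T4
import Pool.Agent.Lib.H45DA.T5a
import Pool.Agent.Lib.H45DA.T5b

/-!
# Project H45DA, chunk T5: the toric lemma
-/

open MeasureTheory
open scoped Nat

namespace Pool.Agent.Lib.H45DA

/-- **Chunk T5** (M). The local bound at a singular toric point. `G` is the set of the generators of the cone, `a` the log discrepancy function.

Proof. Take `b` from `exists_basis_extend` (with `S = ∅`). If `|det b'| ≥ 2` for some `b'` with all `b' k ∈ G` and `det b' ≠ 0`: T5a. Otherwise `|det b'| = 1` for all such `b'`. By T4b `b` is a `ℤ`-basis; the range of `b` is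
not all of `G` (by `hnot`), so let `x ∈ G` not in the range, `x = ∑ c_k b_k` with integers `c_k`. If `c_k ≠ 0`, then `Function.update b k x` is again such a family, of determinant `c_k det b` (T4a), so `|c_k| = 1`. Pair with
`a`: `∑ c_k = 1`. T5b. -/
theorem toric_bound {κ : Type} [Fintype κ] [DecidableEq κ] (G : Finset (κ → ℤ)) (a : κ → ℝ)
    (ha : ∀ g ∈ G, pr g a = 1) (hspan : ∀ z : κ → ℝ, (∀ g ∈ G, pr g z = 0) → z = 0)
    (hn : 2 ≤ Fintype.card κ)
    (hnot : ¬ ∃ b : Module.Basis κ ℤ (κ → ℤ), Set.range b = (G : Set (κ → ℤ))) : ToricBound G := by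
  classical
  have hind : LinearIndependent ℝ
      (fun g : (∅ : Finset (κ → ℤ)) => fun i => ((g : κ → ℤ) i : ℝ)) :=
    linearIndependent_empty_type
  obtain ⟨b, hb, hdet, -⟩ := exists_basis_extend G ∅ (Finset.empty_subset _) hind hspan
  by_cases h2 : ∃ b' : κ → κ → ℤ, (∀ k, b' k ∈ G) ∧ 2 ≤ |(Matrix.of b').det|
  · obtain ⟨b', hb', hd'⟩ := h2
    exact toricBound_of_index G hn b' hb' hd'
  have hone : ∀ b' : κ → κ → ℤ, (∀ k, b' k ∈ G) → (Matrix.of b').det ≠ 0 →
      |(Matrix.of b').det| = 1 := by
    intro b' hb' hd'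
    have h3 : ¬ 2 ≤ |(Matrix.of b').det| := fun h => h2 ⟨b', hb', h⟩
    have h4 : 0 < |(Matrix.of b').det| := abs_pos.2 hd'
    omega
  have hb1 := hone b hb hdet
  obtain ⟨B, hB⟩ := exists_basis_of_det b hb1
  have hBb : Set.range B = Set.range b := by
    congr 1
    exact funext hB
  have hex : ∃ x ∈ G, ∀ k, x ≠ b k := by
    by_contra hcon
    push Not at hcon
    apply hnot
    refine ⟨B, ?_⟩
    rw [hBb]
    ext x
    constructor
    · rintro ⟨k, rfl⟩
      exact hb k
    · intro hx
      obtain ⟨k, hk⟩ := hcon x hx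
      exact ⟨k, hk.symm⟩
  obtain ⟨x, hx, hxb⟩ := hex
  have hc : x = ∑ k, B.repr x k • b k := by
    have h5 := B.sum_repr x
    rw [Finset.sum_congr rfl fun k _ => congrArg (B.repr x k • ·) (hB k)] at h5
    exact h5.symm
  have hc1 : ∀ k, B.repr x k = 0 ∨ B.repr x k = 1 ∨ B.repr x k = -1 := by
    intro k
    by_cases hk : B.repr x k = 0
    · exact Or.inl hk
    · right
      have h6 := det_update b (fun k => B.repr x k) k
      rw [← hc] at h6
      have h7 : (Matrix.of (Function.update b k x)).det ≠ 0 := by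
        rw [h6]
        exact mul_ne_zero hk hdet
      have h8 : ∀ k', Function.update b k x k' ∈ G := by
        intro k'
        by_cases hkk : k' = k
        · rw [hkk, Function.update_self]
          exact hx
        · rw [Function.update_of_ne hkk]
          exact hb k'
      have h9 := hone _ h8 h7
      rw [h6, abs_mul, hb1, mul_one] at h9
      exact eq_or_eq_neg_of_abs_eq h9
  have hsum : ∑ k, B.repr x k = 1 := by
    have h10 := ha x hx
    have h11 : pr x a = ∑ k, (B.repr x k : ℝ) * pr (b k) a := by
      unfold pr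
      have h12 : ∀ i, (x i : ℝ) = ∑ k, (B.repr x k : ℝ) * (b k i : ℝ) := by
        intro i
        have h13 : x i = ∑ k, B.repr x k * b k i := by
          have h14 := congrFun hc i
          rw [Finset.sum_apply] at h14
          exact h14
        rw [h13]
        push_cast
        rfl
      rw [Finset.sum_congr rfl fun i _ => congrArg (· * a i) (h12 i)]
      simp only [Finset.sum_mul, Finset.mul_sum]
      rw [Finset.sum_comm]
      refine Finset.sum_congr rfl fun k _ => Finset.sum_congr rfl fun i _ => ?_
      ring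
    rw [h11, Finset.sum_congr rfl fun k _ => by rw [ha (b k) (hb k), mul_one]] at h10
    exact_mod_cast h10
  exact toricBound_of_circuit G b hb hb1 x hx hxb (fun k => B.repr x k) hc hc1 hsum

end Pool.Agent.Lib.H45DA
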