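import Pool.Agent.Lib.H45DA.G2
import Pool.Agent.Lib.H45DA.G3
import Pool.Agent.Lib.H45DA.G6
import Pool.Agent.Lib.H45DA.T5

/-!
# Project H45DA, chunk G8: the volume bound at a singular toric fixed point
-/

open MeasureTheory
open scoped Nat

namespace Pool.Agent.Lib.H45DA.Datum

variable {d m : ℕ} {X : Datum d m}

/-- **Chunk G8** (M). The volume bound at a singular toric fixed point.

Proof. G6 gives `G`; `toric_bound` (T5, `card (Fin d ⊕ Unit) = d + 1 ≥ 2`) gives `β`, `c`. Let `w_i = ∑_G β_g g (inl i)`, `h = ∑_G β_g g (inr ()) ≥ 0`, `z₀ = (u, -Φ_y(u))`,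
`f z = val w h (z - z₀) = ∑_G β_g ⟨g, toFunR (z - z₀)⟩ ≥ 0` on the body. The volume of `K ∩ {f ≤ t}` is at most `c t^n` (chunk MP (a) and translation). Mean: `∫_K f ≤ -val w h z₀ V = (∑_G β) V` by G2 (a) and the
height one. Then the bathtub inequality and `volume_eq` as in G7. -/
theorem volume_le_of_toric (hX : X.IsFano) (hK : X.IsKSemistable) (hd : 1 ≤ d) (y : Option (Fin m))
    (u : Fin d → ℝ) (hu : u ∈ X.box) (hdeg : 0 < X.degree u)
    (hext : (u, -X.phi y u) ∈ Set.extremePoints ℝ (X.body y))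
    (hnot : ¬ ∃ b : Module.Basis (Fin d ⊕ Unit) ℤ ((Fin d → ℤ) × ℤ),
      Set.range b = X.toricGenerators y u) :
    X.volume ≤ 2 * ((((d : ℝ) + 1) ^ 2 - 1) / (d + 1)) ^ (d + 1) := by
  classical
  obtain ⟨G, hG1, hG2, hG3, hG4, hG5⟩ := toric_point hX y u hu hdeg hext hnot
  have hcard : Fintype.card (Fin d ⊕ Unit) = d + 1 := by
    rw [Fintype.card_sum, Fintype.card_fin, Fintype.card_unit]
  obtain ⟨β, c, hβ, hc, hvol, hfin⟩ := toric_bound G (toFunR (-u, X.phi y u)) hG1 hG2 (by omega) hG3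
  rw [hcard] at hvol hfin
  have hcast : ((d + 1 : ℕ) : ℝ) - 1 = d := by
    push_cast
    ring
  rw [hcast] at hfin
  obtain ⟨w, hw⟩ : ∃ w : Fin d → ℝ, w = fun i => ∑ e ∈ G, β e * e (Sum.inl i) := ⟨_, rfl⟩
  obtain ⟨h, hh⟩ : ∃ h : ℝ, h = ∑ e ∈ G, β e * e (Sum.inr ()) := ⟨_, rfl⟩
  have hh0 : 0 ≤ h := by
    rw [hh]
    refine Finset.sum_nonneg fun e he => mul_nonneg (hβ e he) ?_
    exact_mod_cast hG4 e he
  -- the linear form
  have key : ∀ z : (Fin d → ℝ) × ℝ, ∑ e ∈ G, β e * pr e (toFunR z) = val w h z := by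
    intro z
    have h1 : ∀ e : Fin d ⊕ Unit → ℤ, pr e (toFunR z) =
        ∑ i, (e (Sum.inl i) : ℝ) * z.1 i + (e (Sum.inr ()) : ℝ) * z.2 := by
      intro e
      simp [pr, toFunR]
    have h2 : ∑ e ∈ G, β e * pr e (toFunR z) = ∑ i, (∑ e ∈ G, β e * e (Sum.inl i)) * z.1 i +
        (∑ e ∈ G, β e * e (Sum.inr ())) * z.2 := by
      simp only [h1, mul_add, Finset.mul_sum, Finset.sum_add_distrib, Finset.sum_mul]
      rw [Finset.sum_comm]
      congr 1
      · exact Finset.sum_congr rfl fun i _ => Finset.sum_congr rfl fun e _ => by ring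
      · exact Finset.sum_congr rfl fun e _ => by ring
    rw [h2, hw, hh]
    rfl
  obtain ⟨z₀, hz₀⟩ : ∃ z₀ : (Fin d → ℝ) × ℝ, z₀ = (u, -X.phi y u) := ⟨_, rfl⟩
  obtain ⟨A, hA⟩ : ∃ A : ℝ, A = ∑ e ∈ G, β e := ⟨_, rfl⟩
  have hz₀A : val w h z₀ = -A := by
    have h1 := key (-u, X.phi y u)
    have h2 : ∑ e ∈ G, β e * pr e (toFunR (-u, X.phi y u)) = ∑ e ∈ G, β e :=
      Finset.sum_congr rfl fun e he => by rw [hG1 e he, mul_one]
    have h4 : val w h (-u, X.phi y u) = -val w h z₀ := by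
      rw [hz₀]
      unfold val
      simp only [Pi.neg_apply, mul_neg, Finset.sum_neg_distrib]
      ring
    rw [h2, h4] at h1
    rw [hA]
    linarith
  have hval_sub : ∀ z z' : (Fin d → ℝ) × ℝ, val w h (z - z') = val w h z - val w h z' := by
    intro z z'
    unfold val
    simp only [Prod.fst_sub, Prod.snd_sub, Pi.sub_apply, mul_sub, Finset.sum_sub_distrib]
    ring
  have hcont : Continuous (fun z : (Fin d → ℝ) × ℝ => val w h z) := by
    unfold val
    fun_prop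
  have hKc : IsCompact (X.body y) := isCompact_body hX y
  have hKm : MeasurableSet (X.body y) := hKc.isClosed.measurableSet
  have hKf : MeasureTheory.volume (X.body y) ≠ ⊤ := hKc.measure_lt_top.ne
  have hint : IntegrableOn (fun z => val w h z) (X.body y) :=
    hcont.continuousOn.integrableOn_compact hKc
  have hcone : ∀ z : (Fin d → ℝ) × ℝ, val w h z - val w h z₀ = ∑ e ∈ G, β e * pr e (toFunR (z - z₀)) := by
    intro z
    rw [key, hval_sub]
  have hpos : ∀ z ∈ X.body y, 0 ≤ val w h z - val w h z₀ := by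
    intro z hz
    rw [hcone z]
    refine Finset.sum_nonneg fun e he => mul_nonneg (hβ e he) ?_
    rw [hz₀]
    exact hG5 z hz e he
  have hV := volume_body_pos hX y
  obtain ⟨V, hVdef⟩ : ∃ V : ℝ, V = MeasureTheory.volume.real (X.body y) := ⟨_, rfl⟩
  rw [← hVdef] at hV
  have hint2 : IntegrableOn (fun z => val w h z - val w h z₀) (X.body y) :=
    hint.sub (integrableOn_const hKf)
  have hmean : ∫ z in X.body y, (val w h z - val w h z₀) ≤ A * V := by
    rw [integral_sub hint (integrableOn_const hKf), setIntegral_const, smul_eq_mul, ← hVdef, hz₀A]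
    have h1 := integral_val_nonpos hX hK y w h hh0
    linarith
  have hA0 : 0 ≤ A := by
    rw [hA]
    exact Finset.sum_nonneg hβ
  have hvol' : ∀ t : ℝ, 0 ≤ t → MeasureTheory.volume (X.body y ∩
      {z | val w h z - val w h z₀ ≤ t}) ≤ ENNReal.ofReal (c * t ^ (d + 1)) := by
    intro t ht
    refine le_trans ?_ (hvol t ht)
    have hsub : X.body y ∩ {z | val w h z - val w h z₀ ≤ t} ⊆
        (fun z => z + -z₀) ⁻¹' (toFunR ⁻¹' {z : Fin d ⊕ Unit → ℝ | (∀ g ∈ G, 0 ≤ pr g z) ∧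
          ∑ g ∈ G, β g * pr g z ≤ t}) := by
      rintro z ⟨hz1, hz2⟩
      have h1 : z + -z₀ = z - z₀ := (sub_eq_add_neg z z₀).symm
      show (∀ g ∈ G, 0 ≤ pr g (toFunR (z + -z₀))) ∧ ∑ g ∈ G, β g * pr g (toFunR (z + -z₀)) ≤ t
      rw [h1]
      refine ⟨fun g hg => ?_, ?_⟩
      · rw [hz₀]
        exact hG5 z hz1 g hg
      · rw [← hcone z]
        exact hz2
    refine (measure_mono hsub).trans (le_of_eq ?_)
    have hHaar : (MeasureTheory.volume : Measure ((Fin d → ℝ) × ℝ)).IsAddHaarMeasure := by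
      rw [Measure.volume_eq_prod]
      infer_instance
    rw [measure_preimage_add_right, volume_preimage_toFunR]
  have hbath := bathtub MeasureTheory.volume (X.body y) hKm hKf
    (fun z => val w h z - val w h z₀) (hcont.measurable.sub_const _) hint2 hpos (d + 1)
    (Nat.succ_le_succ (Nat.zero_le d)) c A hc hA0 hvol' (by rw [← hVdef]; exact hmean)
  rw [← hVdef] at hbath
  rw [volume_eq hX y, ← hVdef]
  rw [← hA] at hfin
  have hn : (0 : ℝ) < (d : ℝ) + 1 := by positivity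
  have hfac : (0 : ℝ) ≤ ((d + 1)! : ℝ) := Nat.cast_nonneg _
  have hq : (0 : ℝ) ≤ (((d : ℝ) + 1 + 1) / ((d : ℝ) + 1)) ^ (d + 1) := by positivity
  push_cast at hbath
  calc ((d + 1)! : ℝ) * V ≤ ((d + 1)! : ℝ) * (c * (((d : ℝ) + 1 + 1) / ((d : ℝ) + 1) * A) ^ (d + 1)) :=
        mul_le_mul_of_nonneg_left hbath hfac
    _ = (((d : ℝ) + 1 + 1) / ((d : ℝ) + 1)) ^ (d + 1) * (A ^ (d + 1) * ((d + 1)! * c)) := by
        rw [mul_pow]
        ring
    _ ≤ (((d : ℝ) + 1 + 1) / ((d : ℝ) + 1)) ^ (d + 1) * (2 * (d : ℝ) ^ (d + 1)) :=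
        mul_le_mul_of_nonneg_left hfin hq
    _ = 2 * ((((d : ℝ) + 1) ^ 2 - 1) / (d + 1)) ^ (d + 1) := by
        have h1 : (((d : ℝ) + 1) ^ 2 - 1) / (d + 1) = ((d : ℝ) + 1 + 1) / ((d : ℝ) + 1) * d := by
          field_simp
          ring
        rw [h1, mul_pow]
        ring

end Pool.Agent.Lib.H45DA.Datum
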