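import Pool.Agent.Lib.H45DA.Loc

/-!
# Project H45DA, chunk K0
-/

namespace Pool.Agent.Lib.H45DA

variable {d m : ℕ}

/-- **Chunk K0** (S). A spanning set has at least `d + m - 1` elements.
Proof. The linear map `z ↦ (⟨𝟙, z⟩, (⟨e, z⟩)_e)` from `Idx d m → ℝ` to `ℝ × (C → ℝ)` is injective;
`LinearMap.finrank_le_finrank_of_injective`. -/
theorem card_of_spans {C : Finset (Idx d m → ℤ)} (hC : Spans C) : d + m ≤ C.card + 1 := by
  classical
  let L : (Idx d m → ℝ) →ₗ[ℝ] (Option C → ℝ) :=
    { toFun := fun z o => pr (match o with | none => one d m | some e => (e : Idx d m → ℤ)) z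
      map_add' := by
        intro u v
        funext o
        exact pr_add_right _ u v
      map_smul' := by
        intro r u
        funext o
        exact pr_smul_right _ r u }
  have hL : Function.Injective L := by
    rw [← LinearMap.ker_eq_bot, LinearMap.ker_eq_bot']
    intro z hz
    refine hC z ?_ ?_
    · exact congrFun hz none
    · intro e he
      exact congrFun hz (some ⟨e, he⟩)
  have h := LinearMap.finrank_le_finrank_of_injective hL
  rw [Module.finrank_pi, Module.finrank_pi] at h
  simpa [Fintype.card_option, Fintype.card_coe] using h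

end Pool.Agent.Lib.H45DA
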