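import Pool.Agent.Lib.H45DA.Defs

/-!
# Project H45DA (MP_d76efa_ag): the local objects
-/

open MeasureTheory
open scoped Nat

namespace Pool.Agent.Lib.H45DA

variable {d m : ℕ}

/-- The index set of the coordinates of `ℤᵈ × ℤᵐ`. -/
abbrev Idx (d m : ℕ) : Type := Fin d ⊕ Fin m

/-- The vector `𝟙 = (0; 1, …, 1)` of `ℤᵈ × ℤᵐ`. -/
def one (d m : ℕ) : Idx d m → ℤ := Sum.elim (0 : Fin d → ℤ) (1 : Fin m → ℤ)

/-- `e` is a ray `(ρ, 0)` or a vertex `(p, μ e_y)`, `μ ≥ 1`. -/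
def IsElt (e : Idx d m → ℤ) : Prop :=
  (∀ y, e (Sum.inr y) = 0) ∨ ∃ y, 1 ≤ e (Sum.inr y) ∧ ∀ y' ≠ y, e (Sum.inr y') = 0

/-- The hypotheses on the set `E` of active vectors at an elliptic fixed point. The block of `y` is the
set of the `e ∈ E` with `e (inr y) ≠ 0`. -/
structure Loc (E : Finset (Idx d m → ℤ)) (a : Idx d m → ℝ) : Prop where
  elt : ∀ e ∈ E, IsElt e
  full : ∀ y : Fin m, ∃ e ∈ E, e (Sum.inr y) ≠ 0
  height : ∀ e ∈ E, pr e a = 1
  height_one : pr (one d m) a = (m : ℝ) - 2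
  klt : ∀ c : Fin m → (Idx d m → ℤ), (∀ y, c y ∈ E ∧ c y (Sum.inr y) ≠ 0) →
    (m : ℝ) - 2 < ∑ y, 1 / (c y (Sum.inr y) : ℝ)
  span : ∀ z : Idx d m → ℝ, pr (one d m) z = 0 → (∀ e ∈ E, pr e z = 0) → z = 0

/-- The cone `P(C)`. -/
def coneP (C : Finset (Idx d m → ℤ)) : Set (Idx d m → ℝ) :=
  {z | pr (one d m) z = 0 ∧ ∀ e ∈ C, 0 ≤ pr e z}

/-- The projection `(u, ξ) ↦ (u, ξ_y)`. -/
def proj (y : Fin m) (z : Idx d m → ℝ) : (Fin d → ℝ) × ℝ := (fun i => z (Sum.inl i), z (Sum.inr y))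

/-- `C` is full: it has an element in each block. -/
def Full (C : Finset (Idx d m → ℤ)) : Prop := ∀ y : Fin m, ∃ e ∈ C, e (Sum.inr y) ≠ 0

/-- `C ∪ {𝟙}` spans `ℝᵈ × ℝᵐ`. -/
def Spans (C : Finset (Idx d m → ℤ)) : Prop :=
  ∀ z : Idx d m → ℝ, pr (one d m) z = 0 → (∀ e ∈ C, pr e z = 0) → z = 0

/-- `C ∪ {𝟙}` is a `ℤ`-basis of `ℤᵈ × ℤᵐ`. -/
def IsZBasis (C : Finset (Idx d m → ℤ)) : Prop :=
  ∃ b : Module.Basis (Idx d m) ℤ (Idx d m → ℤ), Set.range b = insert (one d m) (C : Set (Idx d m → ℤ))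

/-- The block of `y` in `C` is trivial: it has one element, and this one has `μ = 1`. -/
def Triv (C : Finset (Idx d m → ℤ)) (y : Fin m) : Prop :=
  ∃ e ∈ C, e (Sum.inr y) = 1 ∧ ∀ e' ∈ C, e' (Sum.inr y) ≠ 0 → e' = e

/-- There is a valuation with centre at the fixed point with `Aⁿ vol(v) ≤ 2 (n-1)ⁿ`, `n = d + 1`, given by
weights on `C`. -/
def HasBound (C : Finset (Idx d m → ℤ)) : Prop :=
  ∃ (y : Fin m) (β : (Idx d m → ℤ) → ℝ) (D c : ℝ), (∀ e ∈ C, 0 ≤ β e) ∧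
    (∀ z ≠ y, ∑ e ∈ C, β e * e (Sum.inr z) = D) ∧ D ≤ ∑ e ∈ C, β e * e (Sum.inr y) ∧ 0 ≤ c ∧
    (∀ t : ℝ, 0 ≤ t → volume (proj y '' {z | z ∈ coneP C ∧ ∑ e ∈ C, β e * pr e z ≤ t}) ≤
      ENNReal.ofReal (c * t ^ (d + 1))) ∧
    (∑ e ∈ C, β e - ((m : ℝ) - 2) * D) ^ (d + 1) * ((d + 1)! * c) ≤ 2 * (d : ℝ) ^ (d + 1)

theorem HasBound.mono {C E : Finset (Idx d m → ℤ)} (h : C ⊆ E) (hC : HasBound C) : HasBound E := by
  classical
  obtain ⟨y, β, D, c, h1, h2, h3, h4, h5, h6⟩ := hC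
  have key : ∀ f : (Idx d m → ℤ) → ℝ,
      ∑ e ∈ E, (if e ∈ C then β e else 0) * f e = ∑ e ∈ C, β e * f e := by
    intro f
    rw [← Finset.sum_subset h]
    · exact Finset.sum_congr rfl fun e he => by rw [if_pos he]
    · intro e _ he
      rw [if_neg he, zero_mul]
  refine ⟨y, fun e => if e ∈ C then β e else 0, D, c, ?_, ?_, ?_, h4, ?_, ?_⟩
  · intro e _
    dsimp only
    split_ifs with he
    · exact h1 e he
    · exact le_rfl
  · intro z hz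
    rw [key fun e => (e (Sum.inr z) : ℝ)]
    exact h2 z hz
  · rw [key fun e => (e (Sum.inr y) : ℝ)]
    exact h3
  · intro t ht
    refine (measure_mono ?_).trans (h5 t ht)
    refine Set.image_mono ?_
    rintro z ⟨⟨hz1, hz2⟩, hz3⟩
    refine ⟨⟨hz1, fun e he => hz2 e (h he)⟩, ?_⟩
    rw [key fun e => pr e z] at hz3
    exact hz3
  · have h7 := key fun _ => (1 : ℝ)
    simp only [mul_one] at h7
    rw [h7]
    exact h6

/-- A full spanning subset satisfies the same hypotheses. -/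
theorem Loc.mono {C E : Finset (Idx d m → ℤ)} {a : Idx d m → ℝ} (hE : Loc E a) (h : C ⊆ E)
    (hfull : Full C) (hspan : Spans C) : Loc C a where
  elt e he := hE.elt e (h he)
  full := hfull
  height e he := hE.height e (h he)
  height_one := hE.height_one
  klt c hc := hE.klt c fun y => ⟨h (hc y).1, (hc y).2⟩
  span := hspan

theorem pr_add {ι : Type} [Fintype ι] (a b : ι → ℤ) (u : ι → ℝ) : pr (a + b) u = pr a u + pr b u := by
  simp [pr, add_mul, Finset.sum_add_distrib]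

theorem pr_sub {ι : Type} [Fintype ι] (a b : ι → ℤ) (u : ι → ℝ) : pr (a - b) u = pr a u - pr b u := by
  simp [pr, sub_mul, Finset.sum_sub_distrib]

theorem pr_neg {ι : Type} [Fintype ι] (a : ι → ℤ) (u : ι → ℝ) : pr (-a) u = - pr a u := by
  simp [pr]

theorem pr_zsmul {ι : Type} [Fintype ι] (k : ℤ) (a : ι → ℤ) (u : ι → ℝ) :
    pr (k • a) u = k * pr a u := by
  simp [pr, mul_assoc, Finset.mul_sum]

theorem pr_sum {ι κ : Type} [Fintype ι] (s : Finset κ) (a : κ → ι → ℤ) (u : ι → ℝ) :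
    pr (∑ k ∈ s, a k) u = ∑ k ∈ s, pr (a k) u := by
  simp only [pr, Finset.sum_apply, Int.cast_sum, Finset.sum_mul]
  exact Finset.sum_comm

theorem pr_add_right {ι : Type} [Fintype ι] (a : ι → ℤ) (u v : ι → ℝ) : pr a (u + v) = pr a u + pr a v := by
  simp [pr, mul_add, Finset.sum_add_distrib]

theorem pr_sub_right {ι : Type} [Fintype ι] (a : ι → ℤ) (u v : ι → ℝ) : pr a (u - v) = pr a u - pr a v := by
  simp [pr, mul_sub, Finset.sum_sub_distrib]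

theorem pr_neg_right {ι : Type} [Fintype ι] (a : ι → ℤ) (u : ι → ℝ) : pr a (-u) = -pr a u := by
  simp [pr]

theorem pr_smul_right {ι : Type} [Fintype ι] (a : ι → ℤ) (r : ℝ) (u : ι → ℝ) :
    pr a (r • u) = r * pr a u := by
  simp only [pr, Pi.smul_apply, smul_eq_mul, Finset.mul_sum]
  exact Finset.sum_congr rfl fun i _ => by ring

theorem pr_zero_right {ι : Type} [Fintype ι] (a : ι → ℤ) : pr a (0 : ι → ℝ) = 0 := by
  simp [pr]

theorem pr_one (z : Idx d m → ℝ) : pr (one d m) z = ∑ y, z (Sum.inr y) := by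
  simp [pr, one]

theorem pr_elim (p : Fin d → ℤ) (q : Fin m → ℤ) (z : Idx d m → ℝ) :
    pr (Sum.elim p q) z = pr p (fun i => z (Sum.inl i)) + pr q (fun y => z (Sum.inr y)) := by
  simp [pr]

theorem continuous_pr {ι : Type} [Fintype ι] (a : ι → ℤ) : Continuous (pr a) := by
  unfold pr
  fun_prop

end Pool.Agent.Lib.H45DA
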