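import Pool.Agent.Lib.H45DA.Y6
import Pool.Agent.Lib.H45DA.G7
import Pool.Agent.Lib.H45DA.G8

/-!
# Project H45DA: the main theorem
-/

namespace Pool.Agent.Lib.H45DA.Datum

variable {d m : ℕ} {X : Datum d m}

/-- **Main theorem.** A singular K-semistable Fano variety of dimension `n = d + 1 ≥ 2` with a torus action of
complexity one has the anticanonical volume at most `2 ((n² - 1)/n)ⁿ`. -/
theorem volume_le (hd : 1 ≤ d) (hm : 3 ≤ m) (hX : X.IsFano) (hK : X.IsKSemistable)
    (hs : ¬ X.IsSmooth) : X.volume ≤ 2 * ((((d : ℝ) + 1) ^ 2 - 1) / (d + 1)) ^ (d + 1) := by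
  by_cases ht : X.ToricPointsSmooth
  · have he : ¬ X.EllipticPointsSmooth := fun he => hs ⟨ht, he⟩
    unfold EllipticPointsSmooth at he
    push Not at he
    obtain ⟨u, hu, hdeg, he⟩ := he
    obtain ⟨E, hE, hloc, htriv⟩ := loc_of_elliptic hX (degree_zero_pos hX hK) u hu hdeg
    refine volume_le_of_elliptic hX hK hm u (extremePoints_subset hu) hdeg E hE hloc
      (elliptic_bound hd hm hloc ?_)
    rintro ⟨h1, b, hb⟩
    refine he ?_ b ?_
    · refine (Set.ncard_le_ncard ?_ (Set.toFinite _)).trans h1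
      intro y hy hy'
      exact hy (htriv y hy')
    · rw [hb, hE]
      rfl
  · unfold ToricPointsSmooth at ht
    push Not at ht
    obtain ⟨y, u, hu, hdeg, hext, hnot⟩ := ht
    exact volume_le_of_toric hX hK hd y u hu hdeg hext (fun ⟨b, hb⟩ => hnot b hb)

end Pool.Agent.Lib.H45DA.Datum
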