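import Pool.Agent.Lib.H45DA.N1

/-!
# Project H45DA, chunks N4 - N6: the function `E(t) = e^(t-1)/t`
-/

namespace Pool.Agent.Lib.H45DA

/-- `E(t) = e^(t-1)/t`. -/
noncomputable def EE (t : ℝ) : ℝ := Real.exp (t - 1) / t

/-- **Chunk N4** (S/M), four lemmas. (a) `E ≥ 1` (`Real.add_one_le_exp`). -/
theorem one_le_EE (t : ℝ) (ht : 0 < t) : 1 ≤ EE t := by
  unfold EE
  rw [one_le_div ht]
  have := Real.add_one_le_exp (t - 1)
  linarith

/-- (b) `E` is increasing on `[1, ∞)`: `s = t r`, `E(s)/E(t) = e^(t(r-1))/r ≥ e^(r-1)/r ≥ 1`. -/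
theorem EE_mono (t s : ℝ) (ht : 1 ≤ t) (hs : t ≤ s) : EE t ≤ EE s := by
  unfold EE
  have ht0 : 0 < t := by linarith
  have hs0 : 0 < s := by linarith
  rw [div_le_div_iff₀ ht0 hs0]
  have h1 : Real.exp (s - 1) = Real.exp (s - t) * Real.exp (t - 1) := by
    rw [← Real.exp_add]; congr 1; ring
  rw [h1]
  have h2 := Real.add_one_le_exp (s - t)
  have h3 : s ≤ Real.exp (s - t) * t := by
    have h4 : (s - t + 1) * t ≤ Real.exp (s - t) * t := mul_le_mul_of_nonneg_right h2 ht0.le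
    nlinarith [mul_nonneg (sub_nonneg.2 hs) (sub_nonneg.2 ht)]
  have h5 := mul_le_mul_of_nonneg_left h3 (Real.exp_pos (t - 1)).le
  calc Real.exp (t - 1) * s ≤ Real.exp (t - 1) * (Real.exp (s - t) * t) := h5
    _ = Real.exp (s - t) * Real.exp (t - 1) * t := by ring

private theorem n4_pow (δ k : ℕ) (D : ℝ) (hδ : 2 ≤ δ) (hD : (δ : ℝ) ≤ D) (hk : k ≤ δ) :
    EE (D / δ) ^ k ≤ EE D * (D * Real.exp (1 - δ) * ((δ : ℝ) / D) ^ δ) := by
  have hδ0 : (0 : ℝ) < δ := by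
    have : 0 < δ := by omega
    exact_mod_cast this
  have hD0 : 0 < D := by linarith
  have hx : 0 < D / δ := div_pos hD0 hδ0
  calc EE (D / δ) ^ k ≤ EE (D / δ) ^ δ := pow_le_pow_right₀ (one_le_EE _ hx) hk
    _ = Real.exp (D - δ) * ((δ : ℝ) / D) ^ δ := by
        unfold EE
        rw [div_pow, ← Real.exp_nat_mul, div_eq_mul_inv, ← inv_pow, inv_div]
        congr 2
        field_simp
    _ = EE D * (D * Real.exp (1 - δ) * ((δ : ℝ) / D) ^ δ) := by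
        unfold EE
        have h1 : Real.exp (D - δ) = Real.exp (D - 1) * Real.exp (1 - δ) := by
          rw [← Real.exp_add]; congr 1; ring
        rw [h1]
        field_simp

private theorem n4_EE_pos (D : ℝ) (hD : 0 < D) : 0 < EE D := div_pos (Real.exp_pos _) hD

private theorem n4_bound (δ : ℕ) (D : ℝ) (hδ : 1 ≤ δ) (hD : (δ : ℝ) ≤ D) :
    D * Real.exp (1 - δ) * ((δ : ℝ) / D) ^ δ ≤ δ * Real.exp (1 - δ) := by
  have hδ0 : (0 : ℝ) < δ := by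
    have : 0 < δ := by omega
    exact_mod_cast this
  have hD0 : 0 < D := by linarith
  have h1 : ((δ : ℝ) / D) ^ δ ≤ (δ : ℝ) / D := by
    have h2 : ((δ : ℝ) / D) ^ δ ≤ ((δ : ℝ) / D) ^ 1 :=
      pow_le_pow_of_le_one (div_nonneg hδ0.le hD0.le) ((div_le_one hD0).2 hD) hδ
    rwa [pow_one] at h2
  have h3 := mul_le_mul_of_nonneg_left h1 (mul_pos hD0 (Real.exp_pos (1 - δ))).le
  refine h3.trans (le_of_eq ?_)
  field_simp

/-- (c) `E(D/δ)^k ≤ E(D/δ)^δ = e^(D-δ) (δ/D)^δ = E(D) e^(1-δ) δ (δ/D)^(δ-1) ≤ E(D) δ e^(1-δ) ≤ E(D) (2/e)`; the last step: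
`δ e^(1-δ) ≤ 2 e^(-1)` for `δ ≥ 2`, as `e^(δ-2) ≥ 1 + (δ-2) ≥ δ/2`. -/
theorem EE_pow_le (δ k : ℕ) (D : ℝ) (hδ : 2 ≤ δ) (hD : (δ : ℝ) ≤ D) (hk : k ≤ δ) :
    EE (D / δ) ^ k ≤ 2 / Real.exp 1 * EE D := by
  have hδ2 : (2 : ℝ) ≤ δ := by exact_mod_cast hδ
  have hD0 : 0 < D := by linarith
  refine (n4_pow δ k D hδ hD hk).trans ?_
  rw [mul_comm]
  refine mul_le_mul_of_nonneg_right ?_ (n4_EE_pos D hD0).le
  refine (n4_bound δ D (by omega) hD).trans ?_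
  rw [le_div_iff₀ (Real.exp_pos 1), mul_assoc, ← Real.exp_add]
  have h1 := Real.add_one_le_exp ((δ : ℝ) - 2)
  have h2 : Real.exp (1 - (δ : ℝ) + 1) * Real.exp ((δ : ℝ) - 2) = 1 := by
    rw [← Real.exp_add]
    rw [show 1 - (δ : ℝ) + 1 + ((δ : ℝ) - 2) = 0 by ring, Real.exp_zero]
  have h3 : (δ : ℝ) ≤ 2 * Real.exp ((δ : ℝ) - 2) := by linarith
  calc (δ : ℝ) * Real.exp (1 - δ + 1) ≤ 2 * Real.exp ((δ : ℝ) - 2) * Real.exp (1 - δ + 1) :=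
        mul_le_mul_of_nonneg_right h3 (Real.exp_pos _).le
    _ = 2 * (Real.exp (1 - (δ : ℝ) + 1) * Real.exp ((δ : ℝ) - 2)) := by ring
    _ = 2 := by rw [h2, mul_one]

/-- (d) As (c); `δ = 2`: `e^(-1) 2 (2/D) ≤ 4/(3e) ≤ 1/2`; `δ ≥ 3`: `δ e^(1-δ) ≤ 3 e^(-2) ≤ 1/2` (`e^(δ-3) ≥ δ/3`).
(`Real.exp_one_gt_d9`.) -/
theorem EE_pow_le_half (δ k : ℕ) (D : ℝ) (hδ : 2 ≤ δ) (hD : (δ : ℝ) ≤ D) (h3 : 3 ≤ D) (hk : k ≤ δ) :
    EE (D / δ) ^ k ≤ 1 / 2 * EE D := by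
  have hD0 : 0 < D := by linarith
  refine (n4_pow δ k D hδ hD hk).trans ?_
  rw [mul_comm]
  refine mul_le_mul_of_nonneg_right ?_ (n4_EE_pos D hD0).le
  have he := Real.exp_one_gt_d9
  by_cases h : δ = 2
  · subst h
    have h1 : Real.exp (1 - ((2 : ℕ) : ℝ)) * Real.exp 1 = 1 := by
      rw [← Real.exp_add]
      norm_num
    have h2 : D * Real.exp (1 - ((2 : ℕ) : ℝ)) * ((((2 : ℕ) : ℝ)) / D) ^ 2 =
        4 / D * Real.exp (1 - ((2 : ℕ) : ℝ)) := by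
      push_cast
      field_simp
      norm_num
    rw [h2]
    have h4 : 4 / D ≤ 4 / 3 := div_le_div_of_nonneg_left (by norm_num) (by norm_num) h3
    have h5 : Real.exp (1 - ((2 : ℕ) : ℝ)) ≤ 3 / 8 := by
      by_contra hcon
      rw [not_le] at hcon
      have h6 : (3 : ℝ) / 8 * Real.exp 1 < 1 := by
        calc (3 : ℝ) / 8 * Real.exp 1 < Real.exp (1 - ((2 : ℕ) : ℝ)) * Real.exp 1 :=
              mul_lt_mul_of_pos_right hcon (Real.exp_pos 1)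
          _ = 1 := h1
      linarith
    calc 4 / D * Real.exp (1 - ((2 : ℕ) : ℝ)) ≤ 4 / 3 * (3 / 8) :=
          mul_le_mul h4 h5 (Real.exp_pos _).le (by norm_num)
      _ = 1 / 2 := by norm_num
  · have hδ3 : 3 ≤ δ := by omega
    have hδ3' : (3 : ℝ) ≤ δ := by exact_mod_cast hδ3
    refine (n4_bound δ D (by omega) hD).trans ?_
    have h1 := Real.add_one_le_exp ((δ : ℝ) - 3)
    have h2 : Real.exp (1 - (δ : ℝ)) * (Real.exp ((δ : ℝ) - 3) * (Real.exp 1 * Real.exp 1)) = 1 := by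
      rw [← Real.exp_add, ← Real.exp_add, ← Real.exp_add]
      rw [show 1 - (δ : ℝ) + ((δ : ℝ) - 3 + (1 + 1)) = 0 by ring, Real.exp_zero]
    have h4 : (6 : ℝ) ≤ Real.exp 1 * Real.exp 1 := by nlinarith
    have h5 : 2 * (δ : ℝ) ≤ Real.exp ((δ : ℝ) - 3) * (Real.exp 1 * Real.exp 1) := by
      calc 2 * (δ : ℝ) ≤ (δ - 3 + 1) * 6 := by linarith
        _ ≤ Real.exp ((δ : ℝ) - 3) * (Real.exp 1 * Real.exp 1) :=
            mul_le_mul h1 h4 (by norm_num) (Real.exp_pos _).le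
    have h6 := mul_le_mul_of_nonneg_left h5 (Real.exp_pos (1 - (δ : ℝ))).le
    rw [h2] at h6
    linarith

end Pool.Agent.Lib.H45DA
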