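import Pool.Agent.Lib.H45DA.N4

/-!
# Project H45DA, chunk N5
-/

namespace Pool.Agent.Lib.H45DA

/-- **Chunk N5** (S), two lemmas. (a) `4/e² ≤ 16/27` (`Real.exp_one_gt_d9`). -/
theorem two_div_exp_sq : (2 / Real.exp 1) ^ 2 ≤ 16 / 27 := by
  have h1 := Real.exp_one_gt_d9
  have h0 : (0 : ℝ) < Real.exp 1 := Real.exp_pos 1
  rw [div_pow, div_le_div_iff₀ (by positivity) (by norm_num)]
  nlinarith

/-- (b) With `γ = n/(n-1)`: `E(γ)^(n+1) = e^((n+1)/(n-1)) γ^(-(n+1))` and `E(2γ) = e^((n+1)/(n-1))/(2γ)`. -/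
theorem EE_final (n : ℕ) (hn : 2 ≤ n) :
    EE ((n : ℝ) / (n - 1)) ^ (n + 1) =
      2 * (((n : ℝ) - 1) / n) ^ n * EE (2 * ((n : ℝ) / (n - 1))) := by
  have hn2 : (2 : ℝ) ≤ (n : ℝ) := by exact_mod_cast hn
  have hn0 : (n : ℝ) ≠ 0 := by linarith
  have hn1 : (n : ℝ) - 1 ≠ 0 := by linarith
  unfold EE
  have e1 : (n : ℝ) / (n - 1) - 1 = 1 / (n - 1) := by field_simp; ring
  have e2 : 2 * ((n : ℝ) / (n - 1)) - 1 = ((n + 1 : ℕ) : ℝ) * (1 / (n - 1)) := by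
    push_cast
    field_simp
    ring
  rw [e1, e2, div_pow, ← Real.exp_nat_mul, div_pow, div_pow]
  generalize Real.exp (((n + 1 : ℕ) : ℝ) * (1 / ((n : ℝ) - 1))) = E
  have h3 : (n : ℝ) ^ n ≠ 0 := pow_ne_zero n hn0
  have h4 : ((n : ℝ) - 1) ^ n ≠ 0 := pow_ne_zero n hn1
  rw [pow_succ, pow_succ]
  field_simp

end Pool.Agent.Lib.H45DA
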