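import Pool.Agent.Lib.H45DA.N5

/-!
# Project H45DA, chunk N6: the choice of the weights
-/

namespace Pool.Agent.Lib.H45DA

private lemma N6_EE_one : EE 1 = 1 := by
  unfold EE
  simp

/-- **Chunk N6** (M/L). The choice of the weights for at least three non-trivial blocks (`T`), with the numbers
`N z` of elements and the degrees `δ z`.

Proof. Let `y ∈ T` have the largest `δ`, and `x ∈ T.erase y` the largest `δ` in `T.erase y`; `S = (T.erase y).erase x`,
`T.card - 2` elements, `δ z ≤ δ x ≤ δ y` for `z ∈ S`.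
Case `T.card ≥ 4`, `D = δ x`, `η = 1`: the factor of `x` is `E(1)^(N x) = 1`, that of `y` is `E(1)^(N y) = 1`, each `z ∈ S` gives at most
`(2/e) E(D)` (N4 (c)); the product is `≤ (2/e)^(T.card-2) E(D)^(T.card-2)`, `(2/e)^(T.card-2) ≤ (2/e)² ≤ 16/27 ≤ 2((n-1)/n)ⁿ`
(N5 (a), `num_third`, `n ≥ 3`).
Case `T.card = 3`, `δ x ≥ 3`, `D = δ x`, `η = 1`: one factor `≤ E(D)/2` (N4 (d)), `1/2 ≤ 2((n-1)/n)ⁿ` (`num_half`).
Case `T.card = 3`, `δ x = 2`: `S = {z}`, `δ z = 2`. `γ = n/(n-1)`, `D = 2γ`, `η = max 1 (D/δ y)`, `1 ≤ η ≤ γ` as `δ y ≥ 2`. The product is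
`E(γ)^(N x + N z) E(η)^(N y) ≤ E(γ)^(N x + N z + N y) ≤ E(γ)^(n+1)` (N4 (a), (b), `htot`), and N5 (b). -/
theorem numeric_choice (n : ℕ) (hn : 2 ≤ n) {ι : Type} [DecidableEq ι] (T : Finset ι) (hT : 3 ≤ T.card)
    (N δ : ι → ℕ) (hδ : ∀ z ∈ T, 2 ≤ δ z) (hN : ∀ z ∈ T, N z ≤ δ z)
    (htot : ∑ z ∈ T, N z + 2 ≤ n + T.card) (hc : 4 ≤ T.card → 3 ≤ n) :
    ∃ y ∈ T, ∃ D η : ℝ, 0 < D ∧ 0 < η ∧ D ≤ η * δ y ∧
      (∏ z ∈ T.erase y, EE (D / δ z) ^ N z) * EE η ^ N y ≤
        2 * (((n : ℝ) - 1) / n) ^ n * EE D ^ (T.card - 2) := by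
  have hn0 : (0 : ℝ) < n := by
    have : 0 < n := by omega
    exact_mod_cast this
  have hn1 : (0 : ℝ) < (n : ℝ) - 1 := by
    have : (2 : ℝ) ≤ n := by exact_mod_cast hn
    linarith
  obtain ⟨y, hy, hymax⟩ := Finset.exists_max_image T δ (Finset.card_pos.1 (by omega))
  have hcy : (T.erase y).card = T.card - 1 := Finset.card_erase_of_mem hy
  obtain ⟨x, hx, hxmax⟩ := Finset.exists_max_image (T.erase y) δ
    (Finset.card_pos.1 (by omega))
  have hxT : x ∈ T := Finset.mem_of_mem_erase hx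
  set S := (T.erase y).erase x with hS
  have hcS : S.card = T.card - 2 := by
    rw [hS, Finset.card_erase_of_mem hx, hcy]
    omega
  have hST : ∀ z ∈ S, z ∈ T := fun z hz =>
    Finset.mem_of_mem_erase (Finset.mem_of_mem_erase hz)
  have hSx : ∀ z ∈ S, δ z ≤ δ x := fun z hz => hxmax z (Finset.mem_of_mem_erase hz)
  have hxy : δ x ≤ δ y := hymax x hxT
  have hprod : ∀ D : ℝ, ∏ z ∈ T.erase y, EE (D / δ z) ^ N z =
      EE (D / δ x) ^ N x * ∏ z ∈ S, EE (D / δ z) ^ N z := fun D =>
    (Finset.mul_prod_erase _ _ hx).symm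
  have hEEpos : ∀ t : ℝ, 0 < t → 0 ≤ EE t := fun t ht => zero_le_one.trans (one_le_EE t ht)
  have hδx0 : (0 : ℝ) < δ x := by
    have := hδ x hxT
    have : 0 < δ x := by omega
    exact_mod_cast this
  refine ⟨y, hy, ?_⟩
  rcases Nat.lt_or_ge 3 T.card with h4 | h3
  · -- at least four blocks
    have hn3 := hc h4
    refine ⟨δ x, 1, hδx0, one_pos, ?_, ?_⟩
    · rw [one_mul]
      exact_mod_cast hxy
    · rw [hprod, div_self hδx0.ne', N6_EE_one, one_pow, one_pow, one_mul, mul_one]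
      have hD0 := hEEpos _ hδx0
      have he0 : (0 : ℝ) ≤ 2 / Real.exp 1 := by positivity
      have he1 : 2 / Real.exp 1 ≤ 1 := by
        rw [div_le_one (Real.exp_pos _)]
        have := Real.add_one_le_exp (1 : ℝ)
        linarith
      have h1 : ∏ z ∈ S, EE ((δ x : ℝ) / δ z) ^ N z ≤ ∏ _z ∈ S, (2 / Real.exp 1 * EE (δ x)) := by
        refine Finset.prod_le_prod (fun z hz => ?_) fun z hz => ?_
        · have : (0 : ℝ) < δ z := by
            have := hδ z (hST z hz)
            have : 0 < δ z := by omega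
            exact_mod_cast this
          exact pow_nonneg (hEEpos _ (div_pos hδx0 this)) _
        · exact EE_pow_le (δ z) (N z) (δ x) (hδ z (hST z hz)) (by exact_mod_cast hSx z hz)
            (hN z (hST z hz))
      rw [Finset.prod_const, hcS, mul_pow] at h1
      refine h1.trans (mul_le_mul_of_nonneg_right ?_ (pow_nonneg hD0 _))
      have h2 : (2 / Real.exp 1) ^ (T.card - 2) ≤ (2 / Real.exp 1) ^ 2 :=
        pow_le_pow_of_le_one he0 he1 (by omega)
      have h3 := two_div_exp_sq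
      have h5 : (16 / 27 : ℝ) ≤ 2 * (((n : ℝ) - 1) / n) ^ n := by
        rw [div_pow, ← mul_div_assoc, le_div_iff₀ (by positivity)]
        exact num_third n hn3
      linarith
  · -- three blocks
    have hT3 : T.card = 3 := le_antisymm h3 hT
    have hS1 : S.card = 1 := by omega
    obtain ⟨z, hz⟩ := Finset.card_eq_one.1 hS1
    have hzS : z ∈ S := by rw [hz]; exact Finset.mem_singleton_self z
    have hzT := hST z hzS
    have hzx := hSx z hzS
    have hz2 := hδ z hzT
    have hx2 := hδ x hxT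
    have hy2 := hδ y hy
    have hprodS : ∀ D : ℝ, ∏ z ∈ S, EE (D / δ z) ^ N z = EE (D / δ z) ^ N z := fun D => by
      rw [hz, Finset.prod_singleton]
    have hcard2 : T.card - 2 = 1 := by omega
    rcases Nat.lt_or_ge 2 (δ x) with hx3 | hx3
    · refine ⟨δ x, 1, hδx0, one_pos, ?_, ?_⟩
      · rw [one_mul]
        exact_mod_cast hxy
      · rw [hprod, hprodS, div_self hδx0.ne', N6_EE_one, one_pow, one_pow, one_mul, mul_one, hcard2,
          pow_one]
        have h1 := EE_pow_le_half (δ z) (N z) (δ x) hz2 (by exact_mod_cast hzx)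
          (by exact_mod_cast hx3) (hN z hzT)
        refine h1.trans (mul_le_mul_of_nonneg_right ?_ (hEEpos _ hδx0))
        rw [div_pow, ← mul_div_assoc, le_div_iff₀ (by positivity)]
        have := num_half n hn
        linarith
    · have hxe : δ x = 2 := by omega
      have hze : δ z = 2 := by omega
      set γ : ℝ := (n : ℝ) / (n - 1) with hγ
      have hγ1 : 1 ≤ γ := by
        rw [hγ, le_div_iff₀ hn1]
        linarith
      have hγ0 : 0 < γ := by linarith
      have hδy0 : (0 : ℝ) < δ y := by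
        have : 0 < δ y := by omega
        exact_mod_cast this
      have hδy2 : (2 : ℝ) ≤ δ y := by exact_mod_cast hy2
      refine ⟨2 * γ, max 1 (2 * γ / δ y), by linarith, lt_max_of_lt_left one_pos, ?_, ?_⟩
      · have h1 : 2 * γ / δ y ≤ max 1 (2 * γ / δ y) := le_max_right _ _
        calc 2 * γ = 2 * γ / δ y * δ y := (div_mul_cancel₀ _ hδy0.ne').symm
          _ ≤ max 1 (2 * γ / δ y) * δ y := mul_le_mul_of_nonneg_right h1 hδy0.le
      · have e2 : 2 * γ / ((2 : ℕ) : ℝ) = γ := by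
          push_cast
          field_simp
        rw [hprod, hprodS, hxe, hze, e2, hcard2, pow_one, ← EE_final n hn]
        have hη : max 1 (2 * γ / δ y) ≤ γ := by
          refine max_le hγ1 ?_
          rw [div_le_iff₀ hδy0]
          nlinarith
        have h1 : EE (max 1 (2 * γ / δ y)) ≤ EE γ := EE_mono _ _ (le_max_left _ _) hη
        have hη0 : 0 ≤ EE (max 1 (2 * γ / δ y)) := hEEpos _ (lt_max_of_lt_left one_pos)
        have h2 : EE (max 1 (2 * γ / δ y)) ^ N y ≤ EE γ ^ N y := pow_le_pow_left₀ hη0 h1 _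
        have hγE := one_le_EE γ hγ0
        have hsum : N x + N z + N y ≤ n + 1 := by
          have h5 : ∑ w ∈ T, N w = N y + (N x + N z) := by
            rw [← Finset.add_sum_erase T N hy, ← Finset.add_sum_erase (T.erase y) N hx, ← hS, hz,
              Finset.sum_singleton]
          omega
        calc EE γ ^ N x * EE γ ^ N z * EE (max 1 (2 * γ / δ y)) ^ N y
            ≤ EE γ ^ N x * EE γ ^ N z * EE γ ^ N y :=
              mul_le_mul_of_nonneg_left h2 (by positivity)
          _ = EE γ ^ (N x + N z + N y) := by rw [pow_add, pow_add]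
          _ ≤ EE γ ^ (n + 1) := pow_le_pow_right₀ hγE hsum

end Pool.Agent.Lib.H45DA
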