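import Pool.Agent.Lib.H45DA.Loc

/-!
# Project H45DA: basic facts on `Φ_y` and the degree
-/

open MeasureTheory
open scoped Nat

namespace Pool.Agent.Lib.H45DA

namespace Datum

variable {d m : ℕ} {X : Datum d m}

theorem vertices_nonempty (hX : X.IsFano) (y : Option (Fin m)) : (X.vertices y).Nonempty := by
  cases y with
  | none => exact Finset.singleton_nonempty _
  | some y => exact hX.vert_nonempty y

theorem one_le_of_mem_vertices (hX : X.IsFano) {y : Option (Fin m)} {q : (Fin d → ℤ) × ℤ}
    (hq : q ∈ X.vertices y) : 1 ≤ q.2 := by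
  cases y with
  | none =>
    have h : q = (0, 1) := Finset.mem_singleton.1 hq
    rw [h]
  | some y => exact (hX.vert_primitive y q hq).1

theorem phi_le {y : Option (Fin m)} {q : (Fin d → ℤ) × ℤ} (hq : q ∈ X.vertices y) (u : Fin d → ℝ) :
    X.phi y u ≤ (pr q.1 u + 1) / q.2 := by
  refine csInf_le ?_ ⟨q, hq, rfl⟩
  exact ((X.vertices y).finite_toSet.image _).bddBelow

theorem exists_phi_eq (hX : X.IsFano) (y : Option (Fin m)) (u : Fin d → ℝ) :
    ∃ q ∈ X.vertices y, (pr q.1 u + 1) / q.2 = X.phi y u := by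
  have h := Set.Nonempty.csInf_mem
    (s := (fun q : (Fin d → ℤ) × ℤ => (pr q.1 u + 1) / (q.2 : ℝ)) '' X.vertices y)
    ((Finset.coe_nonempty.2 (vertices_nonempty hX y)).image _) ((X.vertices y).finite_toSet.image _)
  obtain ⟨q, hq, h⟩ := h
  exact ⟨q, hq, h⟩

theorem phi_none (u : Fin d → ℝ) : X.phi none u = 1 := by
  unfold phi vertices
  simp [pr]

theorem phi_eq_inf' (hX : X.IsFano) (y : Option (Fin m)) (u : Fin d → ℝ) :
    X.phi y u = (X.vertices y).inf' (vertices_nonempty hX y) fun q => (pr q.1 u + 1) / (q.2 : ℝ) := by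
  refine le_antisymm (Finset.le_inf' _ _ fun q hq => phi_le hq u) ?_
  obtain ⟨q, hq, h⟩ := exists_phi_eq hX y u
  rw [← h]
  exact Finset.inf'_le _ hq

theorem continuous_phi (hX : X.IsFano) (y : Option (Fin m)) : Continuous (X.phi y) := by
  have h : X.phi y = fun u => (X.vertices y).inf' (vertices_nonempty hX y)
      fun q => (pr q.1 u + 1) / (q.2 : ℝ) := funext fun u => phi_eq_inf' hX y u
  rw [h]
  refine Continuous.finset_inf'_apply _ fun q _ => ?_
  have := continuous_pr (ι := Fin d) q.1
  fun_prop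

theorem continuous_degree (hX : X.IsFano) : Continuous X.degree := by
  unfold degree
  have := fun y => continuous_phi hX (some y)
  fun_prop

/-- `Φ_y` is concave. -/
theorem concaveOn_phi (hX : X.IsFano) (y : Option (Fin m)) : ConcaveOn ℝ Set.univ (X.phi y) := by
  refine ⟨convex_univ, fun u _ v _ a b ha hb hab => ?_⟩
  obtain ⟨q, hq, h⟩ := exists_phi_eq hX y (a • u + b • v)
  rw [← h]
  have h1 := phi_le (X := X) hq u
  have h2 := phi_le (X := X) hq v
  have h3 : (pr q.1 (a • u + b • v) + 1) / (q.2 : ℝ) =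
      a * ((pr q.1 u + 1) / q.2) + b * ((pr q.1 v + 1) / q.2) := by
    rw [pr_add_right, pr_smul_right, pr_smul_right]
    have : (1 : ℝ) = a + b := hab.symm
    rw [show a * pr q.1 u + b * pr q.1 v + 1 = a * (pr q.1 u + 1) + b * (pr q.1 v + 1) by linarith]
    ring
  rw [h3, smul_eq_mul, smul_eq_mul]
  gcongr

theorem concaveOn_degree (hX : X.IsFano) : ConcaveOn ℝ Set.univ X.degree := by
  refine ⟨convex_univ, fun u _ v _ a b ha hb hab => ?_⟩
  have h : ∀ y : Fin m, a * (X.phi (some y) u - 1) + b * (X.phi (some y) v - 1) ≤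
      X.phi (some y) (a • u + b • v) - 1 := by
    intro y
    have h := (concaveOn_phi hX (some y)).2 (Set.mem_univ u) (Set.mem_univ v) ha hb hab
    simp only [smul_eq_mul] at h
    have : (1 : ℝ) = a + b := hab.symm
    linarith
  have h' := Finset.sum_le_sum fun y (_ : y ∈ (Finset.univ : Finset (Fin m))) => h y
  rw [Finset.sum_add_distrib, ← Finset.mul_sum, ← Finset.mul_sum] at h'
  simp only [degree, smul_eq_mul]
  have : (2 : ℝ) = a * 2 + b * 2 := by rw [← add_mul, hab, one_mul]
  linarith

theorem isClosed_box (hX : X.IsFano) : IsClosed X.box := by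
  have h1 : X.box = (⋂ ρ ∈ X.ray, {u | -1 ≤ pr ρ u}) ∩ {u | 0 ≤ X.degree u} := by
    ext u
    simp [box]
  rw [h1]
  refine IsClosed.inter ?_ (isClosed_le continuous_const (continuous_degree hX))
  exact isClosed_biInter fun ρ _ => isClosed_le continuous_const (continuous_pr ρ)

theorem isCompact_box (hX : X.IsFano) : IsCompact X.box :=
  Metric.isCompact_of_isClosed_isBounded (isClosed_box hX) hX.bounded

theorem convex_box (hX : X.IsFano) : Convex ℝ X.box := by
  intro u hu v hv a b ha hb hab
  refine ⟨fun ρ hρ => ?_, ?_⟩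
  · rw [pr_add_right, pr_smul_right, pr_smul_right]
    have h1 := hu.1 ρ hρ
    have h2 := hv.1 ρ hρ
    have h3 : a * (-1) ≤ a * pr ρ u := mul_le_mul_of_nonneg_left h1 ha
    have h4 : b * (-1) ≤ b * pr ρ v := mul_le_mul_of_nonneg_left h2 hb
    linarith
  · have h := (concaveOn_degree hX).2 (Set.mem_univ u) (Set.mem_univ v) ha hb hab
    simp only [smul_eq_mul] at h
    have h1 := hu.2
    have h2 := hv.2
    have h3 : 0 ≤ a * X.degree u := mul_nonneg ha h1
    have h4 : 0 ≤ b * X.degree v := mul_nonneg hb h2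
    linarith

theorem isClosed_body (hX : X.IsFano) (y : Option (Fin m)) : IsClosed (X.body y) := by
  have h1 : X.body y = {z | z.1 ∈ X.box} ∩ ({z | -X.phi y z.1 ≤ z.2} ∩
      {z | z.2 ≤ X.degree z.1 - X.phi y z.1}) := by
    ext z
    rfl
  rw [h1]
  have hp := continuous_phi hX y
  have hd := continuous_degree hX
  refine ((isClosed_box hX).preimage continuous_fst).inter
    ((isClosed_le (by fun_prop) (by fun_prop)).inter (isClosed_le (by fun_prop) (by fun_prop)))

theorem isCompact_body (hX : X.IsFano) (y : Option (Fin m)) : IsCompact (X.body y) := by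
  have hp := continuous_phi hX y
  have hd := continuous_degree hX
  obtain ⟨A, hA⟩ := (isCompact_box hX).exists_bound_of_continuousOn (hp.continuousOn)
  obtain ⟨B, hB⟩ := (isCompact_box hX).exists_bound_of_continuousOn (hd.continuousOn)
  refine IsCompact.of_isClosed_subset ((isCompact_box hX).prod (isCompact_Icc (a := -A) (b := B + A)))
    (isClosed_body hX y) ?_
  rintro ⟨u, x⟩ ⟨h1, h2, h3⟩
  have h4 := hA u h1
  have h5 := hB u h1
  rw [Real.norm_eq_abs, abs_le] at h4 h5
  exact ⟨h1, by constructor <;> simp only at * <;> linarith [h4.1, h4.2, h5.1, h5.2]⟩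

end Datum

end Pool.Agent.Lib.H45DA
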