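import Pool.Agent.Lib.H45DA.Loc

/-!
# Project H45DA, chunk T3: extending an independent set of integral vectors to a basis
-/

namespace Pool.Agent.Lib.H45DA

/-- **Chunk T3** (M). Let `G` be a finite set of vectors of `ℤ^κ` such that no `z ≠ 0` is orthogonal to all of them,
and `S ⊆ G` linearly independent over `ℝ`. Then some elements of `G`, enumerated by `κ`, form a basis of
`ℝ^κ` which contains `S`.

Proof. The real span of `G` is everything (a proper subspace of `κ → ℝ` has a nonzero orthogonal vector: e.g.
`Submodule.exists_le_ker_of_lt_top` gives a nonzero linear form vanishing on it, and a linear form on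
`κ → ℝ` is `x ↦ ∑ z_i x_i` with `z_i` its value at `Pi.single i 1`). Extend `S` inside the image of `G` to
a basis (`exists_linearIndependent_extension`, or `LinearIndepOn.extend`): a linearly independent set
`T`, `S ⊆ T ⊆ G`, spanning `κ → ℝ`; its cardinality is `card κ` (`Module.finrank_fintype_fun_eq_card`,
`Module.finrank_eq_card_basis`), so there is a bijection `κ ≃ T`; the determinant of the matrix is not `0`
(`Matrix.linearIndependent_rows_iff_isUnit` over `ℝ` and `Int.cast` of the determinant,
`(Int.castRingHom ℝ).map_det`). The map `ℤ^κ → ℝ^κ` (coordinatewise cast) is injective. -/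
theorem exists_basis_extend {κ : Type} [Fintype κ] [DecidableEq κ] (G S : Finset (κ → ℤ)) (hS : S ⊆ G)
    (hind : LinearIndependent ℝ (fun g : S => fun i => ((g : κ → ℤ) i : ℝ)))
    (hspan : ∀ z : κ → ℝ, (∀ g ∈ G, pr g z = 0) → z = 0) :
    ∃ b : κ → κ → ℤ, (∀ k, b k ∈ G) ∧ (Matrix.of b).det ≠ 0 ∧ ∀ g ∈ S, g ∈ Set.range b := by
  classical
  set v : (κ → ℤ) → (κ → ℝ) := fun g i => (g i : ℝ) with hv
  have hvinj : Function.Injective v := by
    intro g g' h
    funext i
    have h1 : (g i : ℝ) = (g' i : ℝ) := congrFun h i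
    exact_mod_cast h1
  have hindS : LinearIndepOn ℝ v (S : Set (κ → ℤ)) := hind
  obtain ⟨T, hTG, hST, hspT, hindT⟩ := exists_linearIndepOn_extension hindS
    (t := (G : Set (κ → ℤ))) (by exact_mod_cast hS)
  have htop : Submodule.span ℝ (v '' T) = ⊤ := by
    by_contra hne
    obtain ⟨f, hf0, hf⟩ := Submodule.exists_le_ker_of_lt_top _ (lt_top_iff_ne_top.mpr hne)
    apply hf0
    have hfz : ∀ x : κ → ℝ, f x = ∑ i, x i * f (Pi.single i 1) := by
      intro x
      conv_lhs => rw [pi_eq_sum_univ' x]
      rw [map_sum]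
      refine Finset.sum_congr rfl fun i _ => ?_
      rw [map_smul, smul_eq_mul]
    have hz := hspan (fun i => f (Pi.single i 1)) (by
      intro g hg
      have h1 : v g ∈ Submodule.span ℝ (v '' T) := hspT ⟨g, by exact_mod_cast hg, rfl⟩
      have h2 : f (v g) = 0 := hf h1
      rw [hfz] at h2
      exact h2)
    refine LinearMap.ext fun x => ?_
    rw [hfz x]
    simp only [LinearMap.zero_apply]
    refine Finset.sum_eq_zero fun i _ => ?_
    have h3 : f (Pi.single i 1) = 0 := congrFun hz i
    rw [h3, mul_zero]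
  have hTfin : T.Finite := G.finite_toSet.subset hTG
  have : Fintype T := hTfin.fintype
  have hindT' : LinearIndependent ℝ (fun x : T => v x) := hindT
  have hrange : Set.range (fun x : T => v x) = v '' T := by
    ext y
    simp
  let B : Module.Basis T ℝ (κ → ℝ) := Module.Basis.mk hindT' (by rw [hrange, htop])
  have hcard : Fintype.card κ = Fintype.card T := by
    rw [← Module.finrank_fintype_fun_eq_card (R := ℝ) (η := κ), Module.finrank_eq_card_basis B]
  obtain ⟨φ⟩ : Nonempty (κ ≃ T) := Fintype.card_eq.mp hcard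
  refine ⟨fun k => (φ k : κ → ℤ), fun k => by exact_mod_cast hTG (φ k).2, ?_, ?_⟩
  · have hrows : LinearIndependent ℝ (fun k : κ => v (φ k)) := hindT'.comp φ φ.injective
    have hunit : IsUnit (Matrix.of (fun k : κ => v (φ k))) :=
      Matrix.linearIndependent_rows_iff_isUnit.mp hrows
    have hdet : (Matrix.of (fun k : κ => v (φ k))).det ≠ 0 :=
      ((Matrix.isUnit_iff_isUnit_det _).mp hunit).ne_zero
    intro h0
    apply hdet
    have e : Matrix.of (fun k : κ => v (φ k)) =
        (Int.castRingHom ℝ).mapMatrix (Matrix.of (fun k : κ => ((φ k : T) : κ → ℤ))) := by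
      ext i j
      rfl
    rw [e, ← RingHom.map_det, h0, map_zero]
  · intro g hg
    have h1 : g ∈ T := hST (by exact_mod_cast hg)
    refine ⟨φ.symm ⟨g, h1⟩, ?_⟩
    simp

end Pool.Agent.Lib.H45DA
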