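import Pool.Agent.Lib.H45DA.Loc

/-!
# Project H45DA: the local bound for a toric cone
-/

open MeasureTheory
open scoped Nat

namespace Pool.Agent.Lib.H45DA

/-- There is a toric valuation with `Aⁿ vol(v) ≤ 2 (n-1)ⁿ`, `n = card κ`; `G` is the set of the generators of the cone. -/
def ToricBound {κ : Type} [Fintype κ] (G : Finset (κ → ℤ)) : Prop :=
  ∃ (β : (κ → ℤ) → ℝ) (c : ℝ), (∀ g ∈ G, 0 ≤ β g) ∧ 0 ≤ c ∧
    (∀ t : ℝ, 0 ≤ t → volume {z : κ → ℝ | (∀ g ∈ G, 0 ≤ pr g z) ∧ ∑ g ∈ G, β g * pr g z ≤ t} ≤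
      ENNReal.ofReal (c * t ^ Fintype.card κ)) ∧
    (∑ g ∈ G, β g) ^ Fintype.card κ * ((Fintype.card κ)! * c) ≤
      2 * ((Fintype.card κ : ℝ) - 1) ^ Fintype.card κ

end Pool.Agent.Lib.H45DA
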