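import Pool.Agent.Lib.H45DA.Loc

/-!
# Project H45DA: the projection to the toric lattice

`C` is a set of vectors with trivial blocks for all `z ≠ y₁, y₂`, with the elements `f z`. The map `θ` is
`ℤᵈ × ℤᵐ → ℤᵈ × ℤ`, surjective with the kernel spanned by `𝟙` and the `f z`.
-/

namespace Pool.Agent.Lib.H45DA

variable {d m : ℕ}

/-- The points other than `y₁`, `y₂`. -/
def rest (y₁ y₂ : Fin m) : Finset (Fin m) := (Finset.univ.erase y₁).erase y₂

/-- The map `θ`. -/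
def theta (y₁ y₂ : Fin m) (f : Fin m → (Idx d m → ℤ)) (e : Idx d m → ℤ) : Fin d ⊕ Unit → ℤ :=
  Sum.elim
    (fun i => e (Sum.inl i) - ∑ z ∈ rest y₁ y₂, (e (Sum.inr z) - e (Sum.inr y₂)) * f z (Sum.inl i))
    (fun _ => e (Sum.inr y₁) - e (Sum.inr y₂))

/-- `f z` is the only element of the block of `z`, with `μ = 1`, for all `z ≠ y₁, y₂`. -/
def IsRest (C : Finset (Idx d m → ℤ)) (y₁ y₂ : Fin m) (f : Fin m → (Idx d m → ℤ)) : Prop :=
  ∀ z ∈ rest y₁ y₂, f z ∈ C ∧ f z (Sum.inr z) = 1 ∧ ∀ e ∈ C, e (Sum.inr z) ≠ 0 → e = f z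

/-- The elements of `C` other than the `f z`. -/
def toricPart (C : Finset (Idx d m → ℤ)) (y₁ y₂ : Fin m) : Finset (Idx d m → ℤ) :=
  C.filter fun e => ∀ z ∈ rest y₁ y₂, e (Sum.inr z) = 0

/-- The generators of the toric cone. -/
def toricGen (C : Finset (Idx d m → ℤ)) (y₁ y₂ : Fin m) (f : Fin m → (Idx d m → ℤ)) :
    Finset (Fin d ⊕ Unit → ℤ) := by
  classical exact (toricPart C y₁ y₂).image (theta y₁ y₂ f)

end Pool.Agent.Lib.H45DA
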