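import Pool.Agent.Lib.H45DA.Loc

/-!
# Project H45DA, chunk V2: thickening
-/

open MeasureTheory
open scoped Nat

namespace Pool.Agent.Lib.H45DA

variable {d m : ℕ}

/-- The coordinates `(u, ξ_y)` and `ξ_z`, `z ≠ y`. -/
private def V2_psi (y : Fin m) (ζ : Idx d m → ℝ) : ((Fin d → ℝ) × ℝ) × ({z : Fin m // ¬ z = y} → ℝ) :=
  (proj y ζ, fun z => ζ (Sum.inr z.1))

private theorem V2_mp (y : Fin m) : MeasurePreserving (V2_psi (d := d) y) volume volume := by
  have h1 : MeasurePreserving (MeasurableEquiv.sumPiEquivProdPi (fun _ : Fin d ⊕ Fin m => ℝ))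
      volume volume := volume_measurePreserving_sumPiEquivProdPi _
  have h2 : MeasurePreserving (MeasurableEquiv.piEquivPiSubtypeProd (fun _ : Fin m => ℝ)
      (fun z => z = y)) volume volume := by
    have h := volume_preserving_piEquivPiSubtypeProd (fun _ : Fin m => ℝ) (fun z => z = y)
    have hi : (Subtype.fintype fun z : Fin m => z = y) = Fintype.subtypeEq y :=
      Subsingleton.elim _ _
    rw [hi] at h
    exact h
  have h3 : MeasurePreserving (MeasurableEquiv.funUnique {z : Fin m // z = y} ℝ) volume volume :=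
    volume_preserving_funUnique _ _
  have h4 : MeasurePreserving (MeasurableEquiv.prodAssoc.symm :
      (Fin d → ℝ) × ℝ × ({z : Fin m // ¬ z = y} → ℝ) ≃ᵐ
        ((Fin d → ℝ) × ℝ) × ({z : Fin m // ¬ z = y} → ℝ)) volume volume :=
    (volume_preserving_prodAssoc (α₁ := Fin d → ℝ) (β₁ := ℝ) (γ₁ := {z : Fin m // ¬ z = y} → ℝ)).symm _
  have h5 : MeasurePreserving (Prod.map (MeasurableEquiv.funUnique {z : Fin m // z = y} ℝ)
      (id : ({z : Fin m // ¬ z = y} → ℝ) → _)) volume volume := h3.prod (MeasurePreserving.id _)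
  have h6 : MeasurePreserving (Prod.map (id : (Fin d → ℝ) → _) (fun x => Prod.map
      (MeasurableEquiv.funUnique {z : Fin m // z = y} ℝ) (id : ({z : Fin m // ¬ z = y} → ℝ) → _)
        (MeasurableEquiv.piEquivPiSubtypeProd (fun _ : Fin m => ℝ) (fun z => z = y) x)))
      volume volume := (MeasurePreserving.id _).prod (h5.comp h2)
  exact (h4.comp h6).comp h1

/-- **Chunk V2** (M). Fubini: `ζ = (u, ξ)` is given by `proj y ζ = (u, ξ_y)` and the `ξ_z`, `z ≠ y`; for fixed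
`u` and `ξ_y` the conditions `⟨c z, ζ⟩ = ⟨p_z, u⟩ + μ_z ξ_z ∈ [0, 1]` define a box with the sides `1/μ_z`.

Proof. `(Fin d ⊕ Fin m → ℝ) ≃ᵐ (Fin d → ℝ) × (Fin m → ℝ)` (`MeasurableEquiv.sumPiEquivProdPi`,
`volume_measurePreserving_sumPiEquivProdPi`), `(Fin m → ℝ) ≃ᵐ ℝ × ({z // z ≠ y} → ℝ)`
(`MeasurableEquiv.piEquivPiSubtypeProd` or `MeasurableEquiv.piFinSuccAbove`-like), then
`Measure.prod_apply`; the section over `v = (u, x)` is a product of intervals (`Real.volume_pi_Icc`) of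
volume `∏ 1/μ_z` if `v ∈ Q`, and empty otherwise. As `c z` is `IsElt` with `c z (inr z) ≥ 1`, its other
coordinates in `Fin m` are `0`. -/
theorem volume_thick (y : Fin m) (c : Fin m → (Idx d m → ℤ))
    (hc : ∀ z ≠ y, 1 ≤ c z (Sum.inr z) ∧ ∀ z' ≠ z, c z (Sum.inr z') = 0)
    (Q : Set ((Fin d → ℝ) × ℝ)) (hQ : MeasurableSet Q) :
    volume Q = ENNReal.ofReal (∏ z ∈ Finset.univ.erase y, (c z (Sum.inr z) : ℝ)) *
      volume {ζ : Idx d m → ℝ | proj y ζ ∈ Q ∧ ∀ z ≠ y, pr (c z) ζ ∈ Set.Icc (0 : ℝ) 1} := by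
  classical
  have hμ : ∀ z : {z : Fin m // ¬ z = y}, (1 : ℝ) ≤ (c z (Sum.inr z.1) : ℝ) := fun z => by
    exact_mod_cast (hc z.1 z.2).1
  set S' : Set (((Fin d → ℝ) × ℝ) × ({z : Fin m // ¬ z = y} → ℝ)) :=
    {p | p.1 ∈ Q ∧ ∀ z : {z : Fin m // ¬ z = y},
      (∑ i, (c z (Sum.inl i) : ℝ) * p.1.1 i) + c z (Sum.inr z.1) * p.2 z ∈ Set.Icc (0 : ℝ) 1} with hS'
  have hpr : ∀ (ζ : Idx d m → ℝ) (z : Fin m), z ≠ y → pr (c z) ζ =
      (∑ i, (c z (Sum.inl i) : ℝ) * ζ (Sum.inl i)) + c z (Sum.inr z) * ζ (Sum.inr z) := by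
    intro ζ z hz
    rw [pr, Fintype.sum_sum_type]
    congr 1
    refine Finset.sum_eq_single z (fun z' _ hz' => ?_) (fun h => absurd (Finset.mem_univ _) h)
    rw [(hc z hz).2 z' hz']
    simp
  have hpre : {ζ : Idx d m → ℝ | proj y ζ ∈ Q ∧ ∀ z ≠ y, pr (c z) ζ ∈ Set.Icc (0 : ℝ) 1} =
      V2_psi y ⁻¹' S' := by
    ext ζ
    simp only [Set.mem_setOf_eq, Set.mem_preimage, hS', V2_psi, proj]
    refine and_congr Iff.rfl ⟨fun h z => ?_, fun h z hz => ?_⟩
    · have := h z.1 z.2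
      rw [hpr ζ z.1 z.2] at this
      exact this
    · rw [hpr ζ z hz]
      exact h ⟨z, hz⟩
  have hmeas : MeasurableSet S' := by
    have h1 : MeasurableSet {p : ((Fin d → ℝ) × ℝ) × ({z : Fin m // ¬ z = y} → ℝ) | p.1 ∈ Q} :=
      measurable_fst hQ
    have h2 : ∀ z : {z : Fin m // ¬ z = y}, MeasurableSet
        {p : ((Fin d → ℝ) × ℝ) × ({z : Fin m // ¬ z = y} → ℝ) |
          (∑ i, (c z (Sum.inl i) : ℝ) * p.1.1 i) + c z (Sum.inr z.1) * p.2 z ∈ Set.Icc (0 : ℝ) 1} := by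
      intro z
      have h3 : Continuous fun p : ((Fin d → ℝ) × ℝ) × ({z : Fin m // ¬ z = y} → ℝ) =>
          (∑ i, (c z (Sum.inl i) : ℝ) * p.1.1 i) + c z (Sum.inr z.1) * p.2 z := by fun_prop
      exact h3.measurable measurableSet_Icc
    have h4 : S' = {p | p.1 ∈ Q} ∩ ⋂ z : {z : Fin m // ¬ z = y}, {p |
          (∑ i, (c z (Sum.inl i) : ℝ) * p.1.1 i) + c z (Sum.inr z.1) * p.2 z ∈ Set.Icc (0 : ℝ) 1} := by
      ext p
      simp only [hS', Set.mem_setOf_eq, Set.mem_inter_iff, Set.mem_iInter]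
    rw [h4]
    exact h1.inter (MeasurableSet.iInter h2)
  have hsec : ∀ v : (Fin d → ℝ) × ℝ, volume (Prod.mk v ⁻¹' S') =
      Q.indicator (fun _ => ∏ z : {z : Fin m // ¬ z = y},
        ENNReal.ofReal (1 / (c z (Sum.inr z.1) : ℝ))) v := by
    intro v
    by_cases hv : v ∈ Q
    · rw [Set.indicator_of_mem hv]
      have h1 : Prod.mk v ⁻¹' S' = Set.pi Set.univ fun z : {z : Fin m // ¬ z = y} =>
          Set.Icc ((0 - ∑ i, (c z (Sum.inl i) : ℝ) * v.1 i) / c z (Sum.inr z.1))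
            ((1 - ∑ i, (c z (Sum.inl i) : ℝ) * v.1 i) / c z (Sum.inr z.1)) := by
        ext w
        simp only [hS', Set.mem_preimage, Set.mem_setOf_eq, hv, true_and, Set.mem_pi, Set.mem_univ,
          forall_true_left, Set.mem_Icc]
        refine forall_congr' fun z => ?_
        have h2 : (0 : ℝ) < c z (Sum.inr z.1) := by linarith [hμ z]
        rw [div_le_iff₀ h2, le_div_iff₀ h2]
        constructor
        · rintro ⟨h3, h4⟩
          constructor
          · linarith [mul_comm (w z) (c z (Sum.inr z.1) : ℝ)]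
          · linarith [mul_comm (w z) (c z (Sum.inr z.1) : ℝ)]
        · rintro ⟨h3, h4⟩
          constructor
          · linarith [mul_comm (w z) (c z (Sum.inr z.1) : ℝ)]
          · linarith [mul_comm (w z) (c z (Sum.inr z.1) : ℝ)]
      rw [h1, volume_pi, Measure.pi_pi]
      refine Finset.prod_congr rfl fun z _ => ?_
      rw [Real.volume_Icc]
      congr 1
      rw [← sub_div]
      congr 1
      ring
    · rw [Set.indicator_of_notMem hv]
      have h1 : Prod.mk v ⁻¹' S' = ∅ := by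
        ext w
        simp only [hS', Set.mem_preimage, Set.mem_setOf_eq, hv, false_and, Set.mem_empty_iff_false]
      rw [h1, measure_empty]
  have hS : volume S' = ∫⁻ v, volume (Prod.mk v ⁻¹' S') := Measure.prod_apply hmeas
  rw [hpre, (V2_mp y).measure_preimage hmeas.nullMeasurableSet, hS]
  simp only [hsec]
  rw [lintegral_indicator hQ, setLIntegral_const, ← mul_assoc]
  have h1 : ENNReal.ofReal (∏ z ∈ Finset.univ.erase y, (c z (Sum.inr z) : ℝ)) *
      ∏ z : {z : Fin m // ¬ z = y}, ENNReal.ofReal (1 / (c z (Sum.inr z.1) : ℝ)) = 1 := by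
    have h2 : ∏ z ∈ Finset.univ.erase y, (c z (Sum.inr z) : ℝ) =
        ∏ z : {z : Fin m // ¬ z = y}, (c z.1 (Sum.inr z.1) : ℝ) :=
      Finset.prod_subtype _ (fun z => by simp) _
    rw [h2, ENNReal.ofReal_prod_of_nonneg (fun z _ => by linarith [hμ z]), ← Finset.prod_mul_distrib]
    refine Finset.prod_eq_one fun z _ => ?_
    rw [← ENNReal.ofReal_mul (by linarith [hμ z]), mul_one_div_cancel (by linarith [hμ z]),
      ENNReal.ofReal_one]
  rw [h1, one_mul]

end Pool.Agent.Lib.H45DA
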