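import Pool.Agent.Lib.H45DA.A1

/-!
# Project H45DA, chunk V3: a sheared product of a cube and a simplex
-/

open MeasureTheory
open scoped Nat

namespace Pool.Agent.Lib.H45DA

private theorem V3_aux {κ : Type} [Fintype κ] [DecidableEq κ] (K : Finset κ) (p : κ → Prop)
    [DecidablePred p] (hp : ∀ k, k ∈ K ↔ p k) (L : κ → κ → ℝ)
    (β : κ → ℝ) (hβ : ∀ k ∉ K, 0 < β k) (t : ℝ) (ht : 0 ≤ t) :
    volume {q : κ → ℝ | (∀ k ∈ K, q k ∈ Set.Icc (0 : ℝ) 1) ∧
        (∀ k ∉ K, 0 ≤ q k + ∑ j ∈ K, L k j * q j) ∧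
        ∑ k ∈ Kᶜ, β k * (q k + ∑ j ∈ K, L k j * q j) ≤ t} =
      ENNReal.ofReal (t ^ Kᶜ.card / (Kᶜ.card ! * ∏ k ∈ Kᶜ, β k)) := by
  have hnp : ∀ k, k ∈ Kᶜ ↔ ¬ p k := fun k => by rw [Finset.mem_compl, hp]
  set N : ℕ := Kᶜ.card with hN
  set c : ENNReal := ENNReal.ofReal (t ^ N / (N ! * ∏ k ∈ Kᶜ, β k)) with hc
  let X := {k : κ // p k} → ℝ
  let Y := {k : κ // ¬ p k} → ℝ
  let ell : X → Y := fun a k => ∑ j : {j : κ // p j}, L k j * a j
  let B : Set Y := {b | (∀ k, 0 ≤ b k) ∧ ∑ k : {k : κ // ¬ p k}, β k * b k ≤ t}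
  let C : Set X := Set.pi Set.univ fun _ => Set.Icc (0 : ℝ) 1
  let S' : Set (X × Y) := {z | z.1 ∈ C ∧ z.2 + ell z.1 ∈ B}
  let e : (κ → ℝ) ≃ᵐ X × Y := MeasurableEquiv.piEquivPiSubtypeProd (fun _ : κ => ℝ) p
  have he : MeasurePreserving e volume volume :=
    volume_preserving_piEquivPiSubtypeProd (fun _ : κ => ℝ) p
  have hsumK : ∀ (k : κ) (q : κ → ℝ), ∑ j ∈ K, L k j * q j =
      ∑ j : {j : κ // p j}, L k j * q j := fun k q =>
    Finset.sum_subtype K hp (fun j => L k j * q j)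
  have hset : {q : κ → ℝ | (∀ k ∈ K, q k ∈ Set.Icc (0 : ℝ) 1) ∧
        (∀ k ∉ K, 0 ≤ q k + ∑ j ∈ K, L k j * q j) ∧
        ∑ k ∈ Kᶜ, β k * (q k + ∑ j ∈ K, L k j * q j) ≤ t} = e ⁻¹' S' := by
    ext q
    have e3 : ∀ k : {k : κ // ¬ p k}, ((e q).2 + ell (e q).1) k =
        q k + ∑ j ∈ K, L k j * q j := by
      intro k
      rw [hsumK]
      rfl
    have e4 : ∑ k ∈ Kᶜ, β k * (q k + ∑ j ∈ K, L k j * q j) =
        ∑ k : {k : κ // ¬ p k}, β k * ((e q).2 + ell (e q).1) k := by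
      rw [Finset.sum_subtype Kᶜ hnp (fun k => β k * (q k + ∑ j ∈ K, L k j * q j))]
      exact Finset.sum_congr rfl fun k _ => by rw [e3]
    constructor
    · rintro ⟨h1, h2, h3⟩
      refine ⟨fun k _ => h1 k ((hp k).mpr k.2), fun k => ?_, ?_⟩
      · rw [e3]
        exact h2 k fun hk => k.2 ((hp k).mp hk)
      · rw [← e4]
        exact h3
    · rintro ⟨h1, h2, h3⟩
      refine ⟨fun k hk => h1 ⟨k, (hp k).mp hk⟩ (Set.mem_univ _), fun k hk => ?_, ?_⟩
      · have := h2 ⟨k, fun h => hk ((hp k).mpr h)⟩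
        rw [e3] at this
        exact this
      · rw [e4]
        exact h3
  have hell : Measurable ell := by
    refine measurable_pi_lambda _ fun k => ?_
    refine Finset.measurable_sum _ fun j _ => ?_
    exact (measurable_pi_apply j).const_mul _
  have hBm : MeasurableSet B := by
    have e5 : B = (⋂ k, {b : Y | 0 ≤ b k}) ∩
        {b : Y | ∑ k : {k : κ // ¬ p k}, β k * b k ≤ t} := by
      ext b
      simp only [B, Set.mem_ofPred_eq, Set.mem_inter_iff, Set.mem_iInter]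
    rw [e5]
    refine MeasurableSet.inter ?_ ?_
    · exact MeasurableSet.iInter fun k => measurableSet_le measurable_const (measurable_pi_apply k)
    · exact measurableSet_le (Finset.measurable_sum _ fun k _ =>
        (measurable_pi_apply k).const_mul _) measurable_const
  have hCm : MeasurableSet C := MeasurableSet.univ_pi fun _ => measurableSet_Icc
  have hS' : MeasurableSet S' := by
    refine MeasurableSet.inter (hCm.preimage measurable_fst) ?_
    exact hBm.preimage (measurable_snd.add (hell.comp measurable_fst))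
  have hB : volume B = c := by
    have h := volume_simplex (ι := {k : κ // ¬ p k}) (fun k => β k)
      (fun k => hβ k fun hk => k.2 ((hp k).mp hk)) t ht
    have hcard : Fintype.card {k : κ // ¬ p k} = N := by
      rw [hN]
      exact Fintype.card_of_subtype Kᶜ hnp
    have hprod : ∏ k : {k : κ // ¬ p k}, β k = ∏ k ∈ Kᶜ, β k :=
      (Finset.prod_subtype Kᶜ hnp β).symm
    rw [hcard, hprod] at h
    exact h
  have hsec : ∀ a : X, volume (Prod.mk a ⁻¹' S') = C.indicator (fun _ => c) a := by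
    intro a
    by_cases ha : a ∈ C
    · rw [Set.indicator_of_mem ha]
      have : Prod.mk a ⁻¹' S' = (fun b : Y => b + ell a) ⁻¹' B := by
        ext b
        exact ⟨fun h => h.2, fun h => ⟨ha, h⟩⟩
      rw [this, measure_preimage_add_right, hB]
    · rw [Set.indicator_of_notMem ha]
      have : Prod.mk a ⁻¹' S' = ∅ := by
        ext b
        exact ⟨fun h => ha h.1, fun h => h.elim⟩
      rw [this, measure_empty]
  have hCv : volume C = 1 := by
    rw [volume_pi_pi]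
    simp
  rw [hset, he.measure_preimage hS'.nullMeasurableSet, Measure.volume_eq_prod,
    Measure.prod_apply hS', lintegral_congr hsec, lintegral_indicator_const hCm, hCv, mul_one]

/-- **Chunk V3** (M). Proof. `κ → ℝ ≃ᵐ ({k // k ∈ K} → ℝ) × ({k // k ∉ K} → ℝ)`
(`MeasurableEquiv.piEquivPiSubtypeProd`, `volume_preserving_piEquivPiSubtypeProd`), `Measure.prod_apply`:
for fixed coordinates in `K` (in the cube `[0,1]^K`, of volume `1`) the section is a translate of the simplex of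
A1 (`measure_preimage_add_right`), of volume `t^N/(N! ∏ β)`, `N = card Kᶜ`. -/
theorem volume_shear {κ : Type} [Fintype κ] [DecidableEq κ] (K : Finset κ) (L : κ → κ → ℝ)
    (β : κ → ℝ) (hβ : ∀ k ∉ K, 0 < β k) (t : ℝ) (ht : 0 ≤ t) :
    volume {q : κ → ℝ | (∀ k ∈ K, q k ∈ Set.Icc (0 : ℝ) 1) ∧
        (∀ k ∉ K, 0 ≤ q k + ∑ j ∈ K, L k j * q j) ∧
        ∑ k ∈ Kᶜ, β k * (q k + ∑ j ∈ K, L k j * q j) ≤ t} =
      ENNReal.ofReal (t ^ Kᶜ.card / (Kᶜ.card ! * ∏ k ∈ Kᶜ, β k)) := by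
  exact V3_aux K (fun k => k ∈ K) (fun _ => Iff.rfl) L β hβ t ht

end Pool.Agent.Lib.H45DA
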