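import Pool.Agent.Lib.H45DA.Loc

/-!
# Project H45DA: coordinates on a piece
-/

open MeasureTheory
open scoped Nat

namespace Pool.Agent.Lib.H45DA

variable {d m : ℕ}

/-- `⟨e|_d, u⟩`. -/
def rp (e : Idx d m → ℤ) (u : Fin d → ℝ) : ℝ := pr (fun i => e (Sum.inl i)) u

/-- `p'_e(v) = ⟨e|_d, u⟩ + e_y x - ∑_{z ≠ y} (e_z/(c z)_z) ⟨(c z)|_d, u⟩`, `v = (u, x)`. -/
noncomputable def pp (y : Fin m) (c : Fin m → (Idx d m → ℤ)) (e : Idx d m → ℤ) (v : (Fin d → ℝ) × ℝ) : ℝ :=
  rp e v.1 + e (Sum.inr y) * v.2 -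
    ∑ z ∈ Finset.univ.erase y, (e (Sum.inr z) : ℝ) / c z (Sum.inr z) * rp (c z) v.1

/-- `τ(v) = ∑_{z ≠ y} ⟨(c z)|_d, u⟩/(c z)_z - x`. -/
noncomputable def tau (y : Fin m) (c : Fin m → (Idx d m → ℤ)) (v : (Fin d → ℝ) × ℝ) : ℝ :=
  ∑ z ∈ Finset.univ.erase y, rp (c z) v.1 / c z (Sum.inr z) - v.2

/-- The elements of `C` which are not chosen. -/
def unchosen (C : Finset (Idx d m → ℤ)) (y : Fin m) (c : Fin m → (Idx d m → ℤ)) :
    Finset (Idx d m → ℤ) := C \ (Finset.univ.erase y).image c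

/-- The simplex which contains the piece. -/
def QSet (C : Finset (Idx d m → ℤ)) (y : Fin m) (c : Fin m → (Idx d m → ℤ))
    (β : (Idx d m → ℤ) → ℝ) (D t : ℝ) : Set ((Fin d → ℝ) × ℝ) :=
  {v | (∀ e ∈ unchosen C y c, 0 ≤ pp y c e v) ∧ 0 ≤ tau y c v ∧
    ∑ e ∈ unchosen C y c, β e * pp y c e v + D * tau y c v ≤ t}

theorem rp_add_right (e : Idx d m → ℤ) (u v : Fin d → ℝ) : rp e (u + v) = rp e u + rp e v :=
  pr_add_right _ _ _

theorem continuous_rp (e : Idx d m → ℤ) : Continuous (rp e) := continuous_pr _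

theorem pr_eq_rp (e : Idx d m → ℤ) (ζ : Idx d m → ℝ) :
    pr e ζ = rp e (fun i => ζ (Sum.inl i)) + ∑ z, (e (Sum.inr z) : ℝ) * ζ (Sum.inr z) := by
  simp [pr, rp]

theorem measurableSet_QSet (C : Finset (Idx d m → ℤ)) (y : Fin m) (c : Fin m → (Idx d m → ℤ))
    (β : (Idx d m → ℤ) → ℝ) (D t : ℝ) : MeasurableSet (QSet C y c β D t) := by
  have h1 : ∀ e, Continuous (pp y c e) := by
    intro e
    unfold pp
    have h := continuous_rp (m := m) (d := d)
    refine ((h e).comp continuous_fst |>.add (continuous_const.mul continuous_snd)).sub ?_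
    exact continuous_finset_sum _ fun z _ => continuous_const.mul ((h (c z)).comp continuous_fst)
  have h2 : Continuous (tau y c) := by
    unfold tau
    have h := continuous_rp (m := m) (d := d)
    refine Continuous.sub ?_ continuous_snd
    exact continuous_finset_sum _ fun z _ => ((h (c z)).comp continuous_fst).div_const _
  have h3 : QSet C y c β D t = (⋂ e ∈ unchosen C y c, {v | 0 ≤ pp y c e v}) ∩ ({v | 0 ≤ tau y c v} ∩
      {v | ∑ e ∈ unchosen C y c, β e * pp y c e v + D * tau y c v ≤ t}) := by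
    ext v
    simp [QSet]
  rw [h3]
  refine IsClosed.measurableSet ?_
  refine IsClosed.inter (isClosed_biInter fun e _ => isClosed_le continuous_const (h1 e)) ?_
  refine IsClosed.inter (isClosed_le continuous_const h2) (isClosed_le ?_ continuous_const)
  refine Continuous.add ?_ (continuous_const.mul h2)
  exact continuous_finset_sum _ fun e _ => continuous_const.mul (h1 e)

end Pool.Agent.Lib.H45DA
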