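import Pool.Agent.Lib.H45DA.V4Defs

/-!
# Project H45DA, chunk V4a: the coordinates of a piece
-/

namespace Pool.Agent.Lib.H45DA

variable {d m : ℕ}

private theorem V4a_pr_c {y : Fin m} {c : Fin m → (Idx d m → ℤ)}
    (hc : ∀ z ≠ y, 1 ≤ c z (Sum.inr z) ∧ ∀ z' ≠ z, c z (Sum.inr z') = 0) (ζ : Idx d m → ℝ)
    {z : Fin m} (hz : z ≠ y) :
    pr (c z) ζ = rp (c z) (fun i => ζ (Sum.inl i)) + (c z (Sum.inr z) : ℝ) * ζ (Sum.inr z) := by
  rw [pr_eq_rp, Finset.sum_eq_single z]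
  · intro z' _ hz'
    rw [(hc z hz).2 z' hz']
    simp
  · intro h
    exact absurd (Finset.mem_univ z) h

private theorem V4a_ne {y : Fin m} {c : Fin m → (Idx d m → ℤ)}
    (hc : ∀ z ≠ y, 1 ≤ c z (Sum.inr z) ∧ ∀ z' ≠ z, c z (Sum.inr z') = 0)
    {z : Fin m} (hz : z ≠ y) : (0 : ℝ) < (c z (Sum.inr z) : ℝ) := by
  have h := (hc z hz).1
  have : (1 : ℝ) ≤ (c z (Sum.inr z) : ℝ) := by exact_mod_cast h
  linarith


/-- **Chunk V4a** (M), three lemmas. (a) `⟨c z, ζ⟩ = rp (c z) u + (c z)_z ζ_z` (the other block coordinates of `c z` are `0`), so the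
terms with `ζ_z`, `z ≠ y`, cancel. -/
theorem pp_proj (y : Fin m) (c : Fin m → (Idx d m → ℤ))
    (hc : ∀ z ≠ y, 1 ≤ c z (Sum.inr z) ∧ ∀ z' ≠ z, c z (Sum.inr z') = 0) (e : Idx d m → ℤ)
    (ζ : Idx d m → ℝ) :
    pp y c e (proj y ζ) =
      pr e ζ - ∑ z ∈ Finset.univ.erase y, (e (Sum.inr z) : ℝ) / c z (Sum.inr z) * pr (c z) ζ := by
  classical
  rw [pr_eq_rp e ζ, ← Finset.add_sum_erase Finset.univ
    (fun z => (e (Sum.inr z) : ℝ) * ζ (Sum.inr z)) (Finset.mem_univ y)]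
  have h1 : ∑ z ∈ Finset.univ.erase y, (e (Sum.inr z) : ℝ) / c z (Sum.inr z) * pr (c z) ζ =
      ∑ z ∈ Finset.univ.erase y, (e (Sum.inr z) : ℝ) / c z (Sum.inr z) *
        rp (c z) (fun i => ζ (Sum.inl i)) +
      ∑ z ∈ Finset.univ.erase y, (e (Sum.inr z) : ℝ) * ζ (Sum.inr z) := by
    rw [← Finset.sum_add_distrib]
    refine Finset.sum_congr rfl fun z hz => ?_
    have hz' := Finset.ne_of_mem_erase hz
    rw [V4a_pr_c hc ζ hz']
    have := (V4a_ne hc hz').ne'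
    field_simp
  rw [h1]
  unfold pp proj
  simp only
  ring

/-- (b) The same for `τ`. -/
theorem tau_proj (y : Fin m) (c : Fin m → (Idx d m → ℤ))
    (hc : ∀ z ≠ y, 1 ≤ c z (Sum.inr z) ∧ ∀ z' ≠ z, c z (Sum.inr z') = 0) (ζ : Idx d m → ℝ) :
    tau y c (proj y ζ) =
      ∑ z ∈ Finset.univ.erase y, pr (c z) ζ / c z (Sum.inr z) - pr (one d m) ζ := by
  classical
  rw [pr_one, ← Finset.add_sum_erase Finset.univ (fun z => ζ (Sum.inr z)) (Finset.mem_univ y)]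
  have h1 : ∑ z ∈ Finset.univ.erase y, pr (c z) ζ / c z (Sum.inr z) =
      ∑ z ∈ Finset.univ.erase y, rp (c z) (fun i => ζ (Sum.inl i)) / c z (Sum.inr z) +
      ∑ z ∈ Finset.univ.erase y, ζ (Sum.inr z) := by
    rw [← Finset.sum_add_distrib]
    refine Finset.sum_congr rfl fun z hz => ?_
    have hz' := Finset.ne_of_mem_erase hz
    rw [V4a_pr_c hc ζ hz']
    have := (V4a_ne hc hz').ne'
    field_simp
  rw [h1]
  unfold tau proj
  simp only
  ring

/-- (c) The piece is contained in the simplex.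

Proof. `⟨𝟙, ζ⟩ = 0` and `⟨c z, ζ⟩ ≥ 0` give `τ ≥ 0` (b). For `e ∈ C` in the block `z ≠ y`, `p'_e = ⟨e, ζ⟩ - (e_z/(c z)_z) ⟨c z, ζ⟩ ≥ 0` by the condition on `c z` (`e_z > 0`); for rays and in the block `y`, `p'_e = ⟨e, ζ⟩ ≥ 0`
(a). `p'_(c z) = 0`. Sum: `∑_C β_e ⟨e, ζ⟩ = ∑_C β_e p'_e + ∑_{z ≠ y} (∑_C β_e e_z) ⟨c z, ζ⟩/(c z)_z = ∑_C β_e p'_e + D τ`, and the chosen `e` contribute `0`. -/
theorem piece_subset (y : Fin m) (C : Finset (Idx d m → ℤ)) (hel : ∀ e ∈ C, IsElt e)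
    (c : Fin m → (Idx d m → ℤ)) (hc : ∀ z ≠ y, c z ∈ C ∧ c z (Sum.inr z) ≠ 0)
    (β : (Idx d m → ℤ) → ℝ) (D : ℝ) (hδ : ∀ z ≠ y, ∑ e ∈ C, β e * e (Sum.inr z) = D) (t : ℝ)
    (ζ : Idx d m → ℝ) (hζ : ζ ∈ coneP C) (hsum : ∑ e ∈ C, β e * pr e ζ ≤ t)
    (hmin : ∀ z ≠ y, ∀ e ∈ C, e (Sum.inr z) ≠ 0 →
      pr (c z) ζ / c z (Sum.inr z) ≤ pr e ζ / e (Sum.inr z)) :
    proj y ζ ∈ QSet C y c β D t := by
  classical
  have hc' : ∀ z ≠ y, 1 ≤ c z (Sum.inr z) ∧ ∀ z' ≠ z, c z (Sum.inr z') = 0 := by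
    intro z hz
    obtain ⟨h1, h2⟩ := hc z hz
    rcases hel (c z) h1 with h3 | ⟨z', h3, h4⟩
    · exact absurd (h3 z) h2
    · have h5 : z' = z := by
        by_contra h5
        exact h2 (h4 z (Ne.symm h5))
      subst h5
      exact ⟨h3, h4⟩
  obtain ⟨hone, hpos⟩ := hζ
  have hτ : tau y c (proj y ζ) = ∑ z ∈ Finset.univ.erase y, pr (c z) ζ / c z (Sum.inr z) := by
    rw [tau_proj y c hc', hone, sub_zero]
  have hsing : ∀ (e : Idx d m → ℤ) (z0 : Fin m), z0 ≠ y → (∀ z ≠ z0, e (Sum.inr z) = 0) →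
      ∑ z ∈ Finset.univ.erase y, (e (Sum.inr z) : ℝ) / c z (Sum.inr z) * pr (c z) ζ =
        (e (Sum.inr z0) : ℝ) / c z0 (Sum.inr z0) * pr (c z0) ζ := by
    intro e z0 hz0 he
    apply Finset.sum_eq_single z0
    · intro z _ hz
      rw [he z hz]
      simp
    · intro h
      exact absurd (Finset.mem_erase.2 ⟨hz0, Finset.mem_univ _⟩) h
  have hzero : ∀ z0 ≠ y, pp y c (c z0) (proj y ζ) = 0 := by
    intro z0 hz0
    rw [pp_proj y c hc', hsing (c z0) z0 hz0 (hc' z0 hz0).2, div_self (V4a_ne hc' hz0).ne',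
      one_mul, sub_self]
  refine ⟨?_, ?_, ?_⟩
  · intro e he
    have heC : e ∈ C := (Finset.mem_sdiff.1 he).1
    rw [pp_proj y c hc']
    have hpe := hpos e heC
    rcases hel e heC with h3 | ⟨z0, h3, h4⟩
    · have h5 : ∑ z ∈ Finset.univ.erase y, (e (Sum.inr z) : ℝ) / c z (Sum.inr z) *
          pr (c z) ζ = 0 := by
        apply Finset.sum_eq_zero
        intro z _
        rw [h3 z]
        simp
      rw [h5, sub_zero]
      exact hpe
    · by_cases hz0 : z0 = y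
      · have h5 : ∑ z ∈ Finset.univ.erase y, (e (Sum.inr z) : ℝ) / c z (Sum.inr z) *
            pr (c z) ζ = 0 := by
          apply Finset.sum_eq_zero
          intro z hz
          rw [h4 z (by rw [hz0]; exact Finset.ne_of_mem_erase hz)]
          simp
        rw [h5, sub_zero]
        exact hpe
      · rw [hsing e z0 hz0 h4]
        have h6 := hmin z0 hz0 e heC (by omega)
        have h7 : (0 : ℝ) < (e (Sum.inr z0) : ℝ) := by
          have : (1 : ℝ) ≤ (e (Sum.inr z0) : ℝ) := by exact_mod_cast h3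
          linarith
        rw [le_div_iff₀ h7] at h6
        have h8 : (e (Sum.inr z0) : ℝ) / c z0 (Sum.inr z0) * pr (c z0) ζ =
            pr (c z0) ζ / c z0 (Sum.inr z0) * e (Sum.inr z0) := by ring
        rw [h8]
        linarith
  · rw [hτ]
    apply Finset.sum_nonneg
    intro z hz
    have hz' := Finset.ne_of_mem_erase hz
    exact div_nonneg (hpos _ (hc z hz').1) (V4a_ne hc' hz').le
  · have h1 : ∑ e ∈ unchosen C y c, β e * pp y c e (proj y ζ) =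
        ∑ e ∈ C, β e * pp y c e (proj y ζ) := by
      apply Finset.sum_subset Finset.sdiff_subset
      intro e he hne
      have h2 : e ∈ (Finset.univ.erase y).image c := by
        by_contra h2
        exact hne (Finset.mem_sdiff.2 ⟨he, h2⟩)
      obtain ⟨z0, hz0, rfl⟩ := Finset.mem_image.1 h2
      rw [hzero z0 (Finset.ne_of_mem_erase hz0), mul_zero]
    have h2 : ∑ e ∈ C, β e * pp y c e (proj y ζ) = ∑ e ∈ C, β e * pr e ζ -
        D * ∑ z ∈ Finset.univ.erase y, pr (c z) ζ / c z (Sum.inr z) := by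
      have h3 : ∀ e ∈ C, β e * pp y c e (proj y ζ) = β e * pr e ζ -
          ∑ z ∈ Finset.univ.erase y, β e * e (Sum.inr z) * (pr (c z) ζ / c z (Sum.inr z)) := by
        intro e _
        rw [pp_proj y c hc', mul_sub, Finset.mul_sum]
        congr 1
        refine Finset.sum_congr rfl fun z _ => ?_
        ring
      rw [Finset.sum_congr rfl h3, Finset.sum_sub_distrib, Finset.sum_comm, Finset.mul_sum]
      congr 1
      refine Finset.sum_congr rfl fun z hz => ?_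
      rw [← Finset.sum_mul, hδ z (Finset.ne_of_mem_erase hz)]
    rw [h1, h2, hτ]
    linarith

end Pool.Agent.Lib.H45DA
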