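import Pool.Agent.Lib.H45DA.A2
import Pool.Agent.Lib.H45DA.T4
import Pool.Agent.Lib.H45DA.V2
import Pool.Agent.Lib.H45DA.V3
import Pool.Agent.Lib.H45DA.V4a

/-!
# Project H45DA, chunk V4b: the volume of the simplex of a piece
-/

open MeasureTheory
open scoped Nat

namespace Pool.Agent.Lib.H45DA

variable {d m : ℕ}

/-- The function `p'_e ∘ proj y` (for `e = -𝟙` it is `τ ∘ proj y`). -/
private noncomputable def V4bG (y : Fin m) (c : Fin m → (Idx d m → ℤ)) (e : Idx d m → ℤ)
    (ζ : Idx d m → ℝ) : ℝ :=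
  pr e ζ - ∑ z ∈ Finset.univ.erase y, (e (Sum.inr z) : ℝ) / c z (Sum.inr z) * pr (c z) ζ

private theorem V4b_elt {C : Finset (Idx d m → ℤ)} (hel : ∀ e ∈ C, IsElt e) {y : Fin m}
    {c : Fin m → (Idx d m → ℤ)} (hc : ∀ z ≠ y, c z ∈ C ∧ c z (Sum.inr z) ≠ 0) :
    ∀ z ≠ y, 1 ≤ c z (Sum.inr z) ∧ ∀ z' ≠ z, c z (Sum.inr z') = 0 := by
  intro z hz
  obtain ⟨h1, h2⟩ := hc z hz
  rcases hel _ h1 with h3 | ⟨y0, h3, h4⟩
  · exact absurd (h3 z) h2
  · have h5 : z = y0 := by
      by_contra h6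
      exact h2 (h4 z h6)
    subst h5
    exact ⟨h3, h4⟩

private theorem V4b_notMem {C : Finset (Idx d m → ℤ)} (hel : ∀ e ∈ C, IsElt e) (y : Fin m) :
    -one d m ∉ C := by
  intro h
  have h1 : ∀ z : Fin m, (-one d m) (Sum.inr z) = -1 := fun z => by simp [one]
  rcases hel _ h with h2 | ⟨y0, h2, _⟩
  · have h3 := h2 y
    rw [h1] at h3
    norm_num at h3
  · rw [h1] at h2
    norm_num at h2

private theorem V4b_enum {C : Finset (Idx d m → ℤ)} (h1 : -one d m ∉ C)
    (hcard : C.card + 1 = d + m) :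
    ∃ b : Idx d m → (Idx d m → ℤ), Function.Injective b ∧
      Finset.univ.image b = insert (-one d m) C := by
  classical
  have h2 : Fintype.card (Idx d m) = Fintype.card (insert (-one d m) C : Finset (Idx d m → ℤ)) := by
    rw [Fintype.card_coe, Finset.card_insert_of_notMem h1, hcard]
    simp
  let b₀ := Fintype.equivOfCardEq h2
  refine ⟨fun k => (b₀ k : Idx d m → ℤ), fun k k' h => b₀.injective (Subtype.ext h), ?_⟩
  ext e
  simp only [Finset.mem_image, Finset.mem_univ, true_and]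
  constructor
  · rintro ⟨k, rfl⟩
    exact (b₀ k).2
  · intro he
    exact ⟨b₀.symm ⟨e, he⟩, by simp⟩

private theorem V4b_det {C : Finset (Idx d m → ℤ)} (hspan : Spans C)
    (b : Idx d m → (Idx d m → ℤ)) (hb : Finset.univ.image b = insert (-one d m) C) :
    (Matrix.of b).det ≠ 0 := by
  intro h
  have h1 : ((Matrix.of b).map (Int.castRingHom ℝ)).det = 0 := by
    rw [← RingHom.mapMatrix_apply, ← RingHom.map_det, h, map_zero]
  obtain ⟨v, hv, hv0⟩ := Matrix.exists_mulVec_eq_zero_iff.2 h1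
  refine hv ?_
  have h2 : ∀ k, pr (b k) v = 0 := by
    intro k
    have h3 := congrFun hv0 k
    simpa [Matrix.mulVec, dotProduct, pr] using h3
  have h3 : ∀ e ∈ insert (-one d m) C, pr e v = 0 := by
    intro e he
    rw [← hb] at he
    obtain ⟨k, _, rfl⟩ := Finset.mem_image.1 he
    exact h2 k
  refine hspan v ?_ fun e he => h3 e (Finset.mem_insert_of_mem he)
  have h4 := h3 _ (Finset.mem_insert_self _ _)
  rw [pr_neg] at h4
  linarith

private theorem V4b_tau {y : Fin m} {c : Fin m → (Idx d m → ℤ)}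
    (hc : ∀ z ≠ y, 1 ≤ c z (Sum.inr z) ∧ ∀ z' ≠ z, c z (Sum.inr z') = 0) (ζ : Idx d m → ℝ) :
    tau y c (proj y ζ) = V4bG y c (-one d m) ζ := by
  rw [tau_proj y c hc ζ]
  unfold V4bG
  rw [pr_neg]
  have h1 : ∀ z : Fin m, (((-one d m) (Sum.inr z) : ℤ) : ℝ) = -1 := fun z => by simp [one]
  have h2 : ∑ z ∈ Finset.univ.erase y,
      (((-one d m) (Sum.inr z) : ℤ) : ℝ) / c z (Sum.inr z) * pr (c z) ζ =
      -∑ z ∈ Finset.univ.erase y, pr (c z) ζ / c z (Sum.inr z) := by
    rw [← Finset.sum_neg_distrib]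
    refine Finset.sum_congr rfl fun z _ => ?_
    rw [h1]
    ring
  rw [h2]
  ring

/-- **Chunk V4b** (M/L). The volume of the simplex.

Proof. Enumerate `C ∪ {-𝟙}` by a bijection `b` with `Idx d m` (`hcard`; `-𝟙 ∉ C` as it is not `IsElt`); `det b ≠ 0` by `hspan` (`Matrix.exists_mulVec_eq_zero_iff`), so `|det b| ≥ 1`. `K` = the indices of the `c z`, `z ≠ y`: `m - 1` elements, as the
blocks are disjoint; `Kᶜ` has `d + 1` elements, the indices of the `e ∈ unchosen` and of `-𝟙`. In the coordinates `q_k = ⟨b k, ζ⟩`, V4a (a), (b) say `p'_e(proj y ζ) = q_e - ∑_{z≠y} (e_z/(c z)_z) q_(c z)` and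
`τ(proj y ζ) = q_(-𝟙) + ∑_{z≠y} q_(c z)/(c z)_z`. So `volume Q = ∏ (c z)_z · volume {ζ : proj y ζ ∈ Q, ⟨c z, ζ⟩ ∈ [0,1]}` (V2) is at most `∏ (c z)_z` times (A2, `1/|det b| ≤ 1`) the volume in V3 for `K`, with
`β_k = β(b k)`, and `β_k = D` at the index of `-𝟙`: `t^(d+1)/((d+1)! D ∏_{unchosen} β)`. -/
theorem volume_QSet (hm : 3 ≤ m) (C : Finset (Idx d m → ℤ)) (hel : ∀ e ∈ C, IsElt e)
    (hcard : C.card + 1 = d + m) (hspan : Spans C) (y : Fin m) (c : Fin m → (Idx d m → ℤ))
    (hc : ∀ z ≠ y, c z ∈ C ∧ c z (Sum.inr z) ≠ 0) (β : (Idx d m → ℤ) → ℝ) (hβ : ∀ e ∈ C, 0 < β e)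
    (D : ℝ) (hD : 0 < D) (t : ℝ) (ht : 0 ≤ t) :
    volume (QSet C y c β D t) ≤
      ENNReal.ofReal ((∏ z ∈ Finset.univ.erase y, (c z (Sum.inr z) : ℝ)) * t ^ (d + 1) /
        ((d + 1)! * D * ∏ e ∈ unchosen C y c, β e)) := by
  classical
  have hc' := V4b_elt hel hc
  have hnm : -one d m ∉ C := V4b_notMem hel y
  obtain ⟨b, hbi, hb⟩ := V4b_enum hnm hcard
  have hdet := V4b_det hspan b hb
  have hmemC : ∀ k, b k ∈ insert (-one d m) C := fun k =>
    hb ▸ Finset.mem_image_of_mem b (Finset.mem_univ k)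
  have hcinj : Set.InjOn c (Finset.univ.erase y : Finset (Fin m)) := by
    intro z hz z' hz' h
    by_contra hne
    have h1 : z ≠ y := Finset.ne_of_mem_erase hz
    have h2 : z' ≠ y := Finset.ne_of_mem_erase hz'
    have h3 := (hc' z' h2).2 z hne
    rw [← h] at h3
    exact (hc z h1).2 h3
  have hsub : (Finset.univ.erase y).image c ⊆ C := by
    intro e he
    obtain ⟨z, hz, rfl⟩ := Finset.mem_image.1 he
    exact (hc z (Finset.ne_of_mem_erase hz)).1
  have hcimg : ((Finset.univ.erase y).image c).card = m - 1 := by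
    rw [Finset.card_image_of_injOn hcinj, Finset.card_erase_of_mem (Finset.mem_univ y),
      Finset.card_univ, Fintype.card_fin]
  -- the indices of the chosen elements
  set K : Finset (Idx d m) :=
    Finset.univ.filter fun k => b k ∈ (Finset.univ.erase y).image c with hK
  have hKmem : ∀ k, k ∈ K ↔ b k ∈ (Finset.univ.erase y).image c := fun k => by simp [hK]
  have hKimg : K.image b = (Finset.univ.erase y).image c := by
    ext e
    constructor
    · intro he
      obtain ⟨k, hk, rfl⟩ := Finset.mem_image.1 he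
      exact (hKmem k).1 hk
    · intro he
      have h1 : e ∈ Finset.univ.image b := by
        rw [hb]
        exact Finset.mem_insert_of_mem (hsub he)
      obtain ⟨k, _, rfl⟩ := Finset.mem_image.1 h1
      exact Finset.mem_image_of_mem b ((hKmem k).2 he)
  have hKcimg : Kᶜ.image b = insert (-one d m) (unchosen C y c) := by
    ext e
    constructor
    · intro he
      obtain ⟨k, hk, rfl⟩ := Finset.mem_image.1 he
      rw [Finset.mem_compl, hKmem] at hk
      rcases Finset.mem_insert.1 (hmemC k) with h1 | h1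
      · rw [h1]
        exact Finset.mem_insert_self _ _
      · exact Finset.mem_insert_of_mem (Finset.mem_sdiff.2 ⟨h1, hk⟩)
    · intro he
      have h1 : e ∈ Finset.univ.image b := by
        rw [hb]
        rcases Finset.mem_insert.1 he with h1 | h1
        · rw [h1]
          exact Finset.mem_insert_self _ _
        · exact Finset.mem_insert_of_mem (Finset.mem_sdiff.1 h1).1
      obtain ⟨k, _, rfl⟩ := Finset.mem_image.1 h1
      refine Finset.mem_image_of_mem b ?_
      rw [Finset.mem_compl, hKmem]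
      rcases Finset.mem_insert.1 he with h2 | h2
      · rw [h2]
        exact fun h3 => hnm (hsub h3)
      · exact (Finset.mem_sdiff.1 h2).2
  have hnu : -one d m ∉ unchosen C y c := fun h => hnm (Finset.mem_sdiff.1 h).1
  have hucard : (unchosen C y c).card = d := by
    unfold unchosen
    rw [Finset.card_sdiff_of_subset hsub, hcimg]
    omega
  have hKccard : Kᶜ.card = d + 1 := by
    rw [← Finset.card_image_of_injective Kᶜ hbi, hKcimg, Finset.card_insert_of_notMem hnu, hucard]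
  -- the weights
  set β'' : (Idx d m → ℤ) → ℝ := fun e => if e = -one d m then D else β e with hβ''
  have hβu : ∀ e ∈ unchosen C y c, β'' e = β e := by
    intro e he
    rw [hβ'']
    dsimp only
    rw [if_neg]
    intro h
    exact hnu (h ▸ he)
  have hβn : β'' (-one d m) = D := by
    rw [hβ'']
    dsimp only
    rw [if_pos rfl]
  have hβpos : ∀ k ∉ K, 0 < β'' (b k) := by
    intro k _
    rcases Finset.mem_insert.1 (hmemC k) with h1 | h1
    · rw [h1, hβn]
      exact hD
    · rw [hβ'']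
      dsimp only
      rw [if_neg]
      · exact hβ _ h1
      · intro h
        exact hnm (h ▸ h1)
  have hprod : ∏ k ∈ Kᶜ, β'' (b k) = D * ∏ e ∈ unchosen C y c, β e := by
    rw [← Finset.prod_image (f := β'') fun _ _ _ _ h => hbi h, hKcimg,
      Finset.prod_insert hnu, hβn, Finset.prod_congr rfl hβu]
  -- the shear
  set L : Idx d m → Idx d m → ℝ := fun k j =>
    -∑ z ∈ Finset.univ.erase y, (b k (Sum.inr z) : ℝ) / c z (Sum.inr z) *
      (if b j = c z then 1 else 0) with hL
  have hLsum : ∀ (k : Idx d m) (ζ : Idx d m → ℝ),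
      pr (b k) ζ + ∑ j ∈ K, L k j * pr (b j) ζ = V4bG y c (b k) ζ := by
    intro k ζ
    unfold V4bG
    have h1 : ∑ j ∈ K, L k j * pr (b j) ζ =
        -∑ z ∈ Finset.univ.erase y, (b k (Sum.inr z) : ℝ) / c z (Sum.inr z) * pr (c z) ζ := by
      rw [hL]
      dsimp only
      have h2 : ∀ j, (-∑ z ∈ Finset.univ.erase y, (b k (Sum.inr z) : ℝ) / c z (Sum.inr z) *
          (if b j = c z then 1 else 0)) * pr (b j) ζ =
          -∑ z ∈ Finset.univ.erase y, ((b k (Sum.inr z) : ℝ) / c z (Sum.inr z) *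
            (if b j = c z then 1 else 0)) * pr (b j) ζ := by
        intro j
        rw [neg_mul, Finset.sum_mul]
      rw [Finset.sum_congr rfl fun j _ => h2 j, Finset.sum_neg_distrib, Finset.sum_comm]
      congr 1
      refine Finset.sum_congr rfl fun z hz => ?_
      have h3 : c z ∈ K.image b := by
        rw [hKimg]
        exact Finset.mem_image_of_mem c hz
      obtain ⟨j0, hj0, hj0c⟩ := Finset.mem_image.1 h3
      rw [Finset.sum_eq_single j0]
      · rw [hj0c, if_pos rfl, mul_one]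
      · intro j _ hj
        rw [if_neg, mul_zero, zero_mul]
        intro h
        exact hj (hbi (h.trans hj0c.symm))
      · intro h
        exact absurd hj0 h
    rw [h1]
    ring
  have hGpp : ∀ (e : Idx d m → ℤ) (ζ : Idx d m → ℝ), pp y c e (proj y ζ) = V4bG y c e ζ :=
    fun e ζ => pp_proj y c hc' e ζ
  -- the set of V2 is a preimage of the set of V3
  have hset : {ζ : Idx d m → ℝ | proj y ζ ∈ QSet C y c β D t ∧
      ∀ z ≠ y, pr (c z) ζ ∈ Set.Icc (0 : ℝ) 1} =
      (fun (ζ : Idx d m → ℝ) k => pr (b k) ζ) ⁻¹'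
        {q : Idx d m → ℝ | (∀ k ∈ K, q k ∈ Set.Icc (0 : ℝ) 1) ∧
          (∀ k ∉ K, 0 ≤ q k + ∑ j ∈ K, L k j * q j) ∧
          ∑ k ∈ Kᶜ, β'' (b k) * (q k + ∑ j ∈ K, L k j * q j) ≤ t} := by
    ext ζ
    simp only [Set.mem_ofPred_eq, Set.mem_preimage, QSet]
    simp only [hLsum, hGpp, V4b_tau hc']
    have hsum : ∑ k ∈ Kᶜ, β'' (b k) * V4bG y c (b k) ζ =
        ∑ e ∈ unchosen C y c, β e * V4bG y c e ζ + D * V4bG y c (-one d m) ζ := by
      rw [← Finset.sum_image (f := fun e => β'' e * V4bG y c e ζ) fun _ _ _ _ h => hbi h, hKcimg,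
        Finset.sum_insert hnu, hβn, add_comm]
      congr 1
      exact Finset.sum_congr rfl fun e he => by rw [hβu e he]
    rw [hsum]
    constructor
    · rintro ⟨⟨h1, h2, h3⟩, h4⟩
      refine ⟨?_, ?_, h3⟩
      · intro k hk
        obtain ⟨z, hz, hz'⟩ := Finset.mem_image.1 ((hKmem k).1 hk)
        rw [← hz']
        exact h4 z (Finset.ne_of_mem_erase hz)
      · intro k hk
        have h5 : b k ∈ insert (-one d m) (unchosen C y c) := by
          rw [← hKcimg]
          exact Finset.mem_image_of_mem b (Finset.mem_compl.2 hk)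
        rcases Finset.mem_insert.1 h5 with h6 | h6
        · rw [h6]
          exact h2
        · exact h1 _ h6
    · rintro ⟨h1, h2, h3⟩
      have h7 : ∀ e ∈ insert (-one d m) (unchosen C y c), 0 ≤ V4bG y c e ζ := by
        intro e he
        rw [← hKcimg] at he
        obtain ⟨k, hk, rfl⟩ := Finset.mem_image.1 he
        exact h2 k (Finset.mem_compl.1 hk)
      refine ⟨⟨fun e he => h7 e (Finset.mem_insert_of_mem he),
        h7 _ (Finset.mem_insert_self _ _), h3⟩, ?_⟩
      intro z hz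
      have h8 : c z ∈ K.image b := by
        rw [hKimg]
        exact Finset.mem_image_of_mem c (Finset.mem_erase.2 ⟨hz, Finset.mem_univ z⟩)
      obtain ⟨k, hk, hk'⟩ := Finset.mem_image.1 h8
      rw [← hk']
      exact h1 k hk
  rw [volume_thick y c hc' _ (measurableSet_QSet C y c β D t), hset,
    volume_preimage_basis b hdet, volume_shear K L (fun k => β'' (b k)) hβpos t ht, hKccard, hprod]
  have hP : 0 ≤ ∏ z ∈ Finset.univ.erase y, (c z (Sum.inr z) : ℝ) := by
    refine Finset.prod_nonneg fun z hz => ?_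
    have h1 := (hc' z (Finset.ne_of_mem_erase hz)).1
    have h2 : (1 : ℝ) ≤ (c z (Sum.inr z) : ℝ) := by exact_mod_cast h1
    linarith
  have hβp : 0 < ∏ e ∈ unchosen C y c, β e :=
    Finset.prod_pos fun e he => hβ e (Finset.mem_sdiff.1 he).1
  have hQ : 0 ≤ t ^ (d + 1) / (((d + 1)! : ℕ) * (D * ∏ e ∈ unchosen C y c, β e)) := by
    positivity
  have hdet1 : 1 / |((Matrix.of b).det : ℝ)| ≤ 1 := by
    have h1 : (1 : ℤ) ≤ |(Matrix.of b).det| := Int.one_le_abs hdet
    have h2 : (1 : ℝ) ≤ |((Matrix.of b).det : ℝ)| := by exact_mod_cast h1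
    rw [div_le_one (by linarith)]
    exact h2
  rw [← ENNReal.ofReal_mul (by positivity), ← ENNReal.ofReal_mul hP]
  refine ENNReal.ofReal_le_ofReal ?_
  have h9 : 1 / |((Matrix.of b).det : ℝ)| *
      (t ^ (d + 1) / (((d + 1)! : ℕ) * (D * ∏ e ∈ unchosen C y c, β e))) ≤
      t ^ (d + 1) / (((d + 1)! : ℕ) * (D * ∏ e ∈ unchosen C y c, β e)) := by
    calc _ ≤ 1 * (t ^ (d + 1) / (((d + 1)! : ℕ) * (D * ∏ e ∈ unchosen C y c, β e))) :=
          mul_le_mul_of_nonneg_right hdet1 hQ
      _ = _ := one_mul _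
  calc _ ≤ (∏ z ∈ Finset.univ.erase y, (c z (Sum.inr z) : ℝ)) *
        (t ^ (d + 1) / (((d + 1)! : ℕ) * (D * ∏ e ∈ unchosen C y c, β e))) :=
        mul_le_mul_of_nonneg_left h9 hP
    _ = _ := by rw [mul_div_assoc, mul_assoc]

end Pool.Agent.Lib.H45DA
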