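import Pool.Agent.Lib.H45DA.V4b

/-!
# Project H45DA, chunk V5: the volume for a basis
-/

open MeasureTheory
open scoped Nat

namespace Pool.Agent.Lib.H45DA

variable {d m : ℕ}

private theorem V5_elt {C : Finset (Idx d m → ℤ)} (hel : ∀ e ∈ C, IsElt e) {z : Fin m}
    {e : Idx d m → ℤ} (he : e ∈ C) (h0 : e (Sum.inr z) ≠ 0) :
    1 ≤ e (Sum.inr z) ∧ ∀ z' ≠ z, e (Sum.inr z') = 0 := by
  rcases hel e he with h3 | ⟨z', h3, h4⟩
  · exact absurd (h3 z) h0
  · have h5 : z = z' := by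
      by_contra h5
      exact h0 (h4 z h5)
    subst h5
    exact ⟨h3, h4⟩

/-- **Chunk V5** (M). The volume for a full basis.

Proof. The choices are `c ∈ Fintype.piFinset B` with `B z = C.filter (fun e => e (inr z) ≠ 0)` for `z ≠ y` and
`B y = {0}`. For each `ζ` in the cone some choice has the least `⟨e, ζ⟩/e_z` in each block (`Finset.exists_min_image`,
`hfull`), so the set is contained in the union of the `QSet C y c β D t` (V4a (c); `measure_biUnion_finset_le`), with the volumes of V4b. The blocks are disjoint, so the `c z` (`z ≠ y`) are different and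
`∏_{e ∈ C ∖ image} β e = ∏_C β / ∏_{z≠y} β(c z)`: the bound of a piece is
`(∏_{z≠y} (c z)_z β(c z)) t^(d+1)/((d+1)! D ∏_C β)`. The sum over all `c` of `∏_{z≠y} β(c z) (c z)_z` is
`∏_{z≠y} ∑_{e ∈ B z} β e e_z = D^(m-1)` (`Finset.prod_univ_sum` with the factor `1` at `y`). -/
theorem volume_basis (hm : 3 ≤ m) (C : Finset (Idx d m → ℤ)) (hel : ∀ e ∈ C, IsElt e)
    (hfull : Full C) (hcard : C.card + 1 = d + m) (hspan : Spans C) (y : Fin m)
    (β : (Idx d m → ℤ) → ℝ) (hβ : ∀ e ∈ C, 0 < β e) (D : ℝ) (hD : 0 < D)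
    (hδ : ∀ z ≠ y, ∑ e ∈ C, β e * e (Sum.inr z) = D) (t : ℝ) (ht : 0 ≤ t) :
    volume (proj y '' {ζ | ζ ∈ coneP C ∧ ∑ e ∈ C, β e * pr e ζ ≤ t}) ≤
      ENNReal.ofReal (D ^ (m - 2) * t ^ (d + 1) / ((d + 1)! * ∏ e ∈ C, β e)) := by
  classical
  set B : Fin m → Finset (Idx d m → ℤ) := fun z =>
    if z = y then {0} else C.filter (fun e => e (Sum.inr z) ≠ 0) with hB
  have hBy : B y = {0} := by simp [hB]
  have hBz : ∀ z, z ≠ y → B z = C.filter (fun e => e (Sum.inr z) ≠ 0) := by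
    intro z hz
    simp [hB, hz]
  set P : Finset (Fin m → (Idx d m → ℤ)) := Fintype.piFinset B with hP
  have hPc : ∀ c ∈ P, ∀ z ≠ y, c z ∈ C ∧ c z (Sum.inr z) ≠ 0 := by
    intro c hc z hz
    have h1 := Fintype.mem_piFinset.1 hc z
    rw [hBz z hz] at h1
    exact Finset.mem_filter.1 h1
  have hcover : proj y '' {ζ | ζ ∈ coneP C ∧ ∑ e ∈ C, β e * pr e ζ ≤ t} ⊆
      ⋃ c ∈ P, QSet C y c β D t := by
    rintro v ⟨ζ, ⟨hζ, hsum⟩, rfl⟩
    have h1 : ∀ z : Fin m, ∃ e ∈ B z, z ≠ y → ∀ e' ∈ C, e' (Sum.inr z) ≠ 0 →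
        pr e ζ / e (Sum.inr z) ≤ pr e' ζ / e' (Sum.inr z) := by
      intro z
      by_cases hz : z = y
      · refine ⟨0, ?_, fun h => absurd hz h⟩
        rw [hz, hBy]
        exact Finset.mem_singleton_self _
      · have h2 : (C.filter (fun e => e (Sum.inr z) ≠ 0)).Nonempty := by
          obtain ⟨e, he, he'⟩ := hfull z
          exact ⟨e, Finset.mem_filter.2 ⟨he, he'⟩⟩
        obtain ⟨e, he, hmin⟩ := Finset.exists_min_image _
          (fun e : Idx d m → ℤ => pr e ζ / e (Sum.inr z)) h2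
        refine ⟨e, ?_, fun _ e' he' he0 => hmin e' (Finset.mem_filter.2 ⟨he', he0⟩)⟩
        rw [hBz z hz]
        exact he
    choose c hc1 hc2 using h1
    have hcP : c ∈ P := Fintype.mem_piFinset.2 hc1
    refine Set.mem_biUnion hcP ?_
    exact piece_subset y C hel c (hPc c hcP) β D hδ t ζ hζ hsum fun z hz => hc2 z hz
  have hpos : ∀ c ∈ P, 0 ≤ (∏ z ∈ Finset.univ.erase y, (c z (Sum.inr z) : ℝ)) * t ^ (d + 1) /
        ((d + 1)! * D * ∏ e ∈ unchosen C y c, β e) := by
    intro c hc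
    have h1 : 0 ≤ ∏ z ∈ Finset.univ.erase y, (c z (Sum.inr z) : ℝ) := by
      refine Finset.prod_nonneg fun z hz => ?_
      have hz' := Finset.ne_of_mem_erase hz
      have h2 := (V5_elt hel (hPc c hc z hz').1 (hPc c hc z hz').2).1
      have h3 : (1 : ℝ) ≤ (c z (Sum.inr z) : ℝ) := by exact_mod_cast h2
      linarith
    have h2 : 0 < ∏ e ∈ unchosen C y c, β e :=
      Finset.prod_pos fun e he => hβ e (Finset.mem_sdiff.1 he).1
    positivity
  have hβC : 0 < ∏ e ∈ C, β e := Finset.prod_pos hβ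
  have hterm : ∀ c ∈ P, (∏ z ∈ Finset.univ.erase y, (c z (Sum.inr z) : ℝ)) * t ^ (d + 1) /
        ((d + 1)! * D * ∏ e ∈ unchosen C y c, β e) =
      (∏ z, (if z = y then (1 : ℝ) else β (c z) * c z (Sum.inr z))) *
        (t ^ (d + 1) / ((d + 1)! * D * ∏ e ∈ C, β e)) := by
    intro c hc
    have hinj : Set.InjOn c (Finset.univ.erase y : Finset (Fin m)) := by
      intro z hz z' hz' h
      by_contra hne
      have h1 : z ≠ y := Finset.ne_of_mem_erase hz
      have h2 : z' ≠ y := Finset.ne_of_mem_erase hz'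
      have h3 := (V5_elt hel (hPc c hc z' h2).1 (hPc c hc z' h2).2).2 z hne
      rw [← h] at h3
      exact (hPc c hc z h1).2 h3
    have hsub : (Finset.univ.erase y).image c ⊆ C := by
      intro e he
      obtain ⟨z, hz, rfl⟩ := Finset.mem_image.1 he
      exact (hPc c hc z (Finset.ne_of_mem_erase hz)).1
    have h1 : ∏ e ∈ C, β e = (∏ e ∈ unchosen C y c, β e) *
        ∏ z ∈ Finset.univ.erase y, β (c z) := by
      rw [← Finset.prod_sdiff hsub, Finset.prod_image hinj]
      rfl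
    have h2 : ∏ z, (if z = y then (1 : ℝ) else β (c z) * c z (Sum.inr z)) =
        (∏ z ∈ Finset.univ.erase y, β (c z)) *
          ∏ z ∈ Finset.univ.erase y, (c z (Sum.inr z) : ℝ) := by
      rw [← Finset.mul_prod_erase Finset.univ _ (Finset.mem_univ y), if_pos rfl, one_mul,
        ← Finset.prod_mul_distrib]
      refine Finset.prod_congr rfl fun z hz => ?_
      rw [if_neg (Finset.ne_of_mem_erase hz)]
    have h3 : 0 < ∏ e ∈ unchosen C y c, β e :=
      Finset.prod_pos fun e he => hβ e (Finset.mem_sdiff.1 he).1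
    have h4 : 0 < ∏ z ∈ Finset.univ.erase y, β (c z) :=
      Finset.prod_pos fun z hz => hβ _ (hPc c hc z (Finset.ne_of_mem_erase hz)).1
    rw [h2, h1]
    have h5 : ((d + 1)! : ℝ) ≠ 0 := by positivity
    field_simp
  have hsumP : ∑ c ∈ P, ∏ z, (if z = y then (1 : ℝ) else β (c z) * c z (Sum.inr z)) =
      D ^ (m - 1) := by
    have h1 := Finset.prod_univ_sum B (fun (z : Fin m) (e : Idx d m → ℤ) =>
      (if z = y then (1 : ℝ) else β e * e (Sum.inr z)))
    rw [← h1, ← Finset.mul_prod_erase Finset.univ _ (Finset.mem_univ y)]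
    have h2 : ∑ e ∈ B y, (if y = y then (1 : ℝ) else β e * e (Sum.inr y)) = 1 := by
      rw [hBy]
      simp
    rw [h2, one_mul]
    have h3 : ∀ z ∈ Finset.univ.erase y,
        ∑ e ∈ B z, (if z = y then (1 : ℝ) else β e * e (Sum.inr z)) = D := by
      intro z hz
      have hz' := Finset.ne_of_mem_erase hz
      rw [hBz z hz', ← hδ z hz', Finset.sum_filter]
      refine Finset.sum_congr rfl fun e _ => ?_
      rw [if_neg hz']
      by_cases h0 : e (Sum.inr z) = 0
      · simp [h0]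
      · rw [if_pos h0]
    rw [Finset.prod_congr rfl h3, Finset.prod_const, Finset.card_erase_of_mem (Finset.mem_univ y)]
    simp
  calc volume (proj y '' {ζ | ζ ∈ coneP C ∧ ∑ e ∈ C, β e * pr e ζ ≤ t})
      ≤ volume (⋃ c ∈ P, QSet C y c β D t) := measure_mono hcover
    _ ≤ ∑ c ∈ P, volume (QSet C y c β D t) := measure_biUnion_finset_le _ _
    _ ≤ ∑ c ∈ P, ENNReal.ofReal ((∏ z ∈ Finset.univ.erase y, (c z (Sum.inr z) : ℝ)) *
          t ^ (d + 1) / ((d + 1)! * D * ∏ e ∈ unchosen C y c, β e)) :=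
        Finset.sum_le_sum fun c hc =>
          volume_QSet hm C hel hcard hspan y c (hPc c hc) β hβ D hD t ht
    _ = ENNReal.ofReal (∑ c ∈ P, (∏ z ∈ Finset.univ.erase y, (c z (Sum.inr z) : ℝ)) *
          t ^ (d + 1) / ((d + 1)! * D * ∏ e ∈ unchosen C y c, β e)) :=
        (ENNReal.ofReal_sum_of_nonneg hpos).symm
    _ = ENNReal.ofReal (D ^ (m - 2) * t ^ (d + 1) / ((d + 1)! * ∏ e ∈ C, β e)) := by
        congr 1
        rw [Finset.sum_congr rfl hterm, ← Finset.sum_mul, hsumP]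
        have h1 : D ^ (m - 1) = D ^ (m - 2) * D := by
          rw [← pow_succ]
          congr 1
          omega
        rw [h1]
        have h5 : ((d + 1)! : ℝ) ≠ 0 := by positivity
        field_simp

end Pool.Agent.Lib.H45DA
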