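import Pool.Agent.Lib.H45DA.T3

/-!
# Project H45DA, chunk X1: a full basis exists
-/

namespace Pool.Agent.Lib.H45DA

variable {d m : ℕ}

private lemma X1_elt {E : Finset (Idx d m → ℤ)} {a : Idx d m → ℝ} (hE : Loc E a) {e : Idx d m → ℤ} (he : e ∈ E)
    {y : Fin m} (hy : e (Sum.inr y) ≠ 0) : 1 ≤ e (Sum.inr y) ∧ ∀ y' ≠ y, e (Sum.inr y') = 0 := by
  rcases hE.elt e he with h | ⟨y₀, h1, h2⟩
  · exact absurd (h y) hy
  · have h3 : y = y₀ := by
      by_contra hne
      exact hy (h2 y hne)
    rw [h3]
    exact ⟨h1, h2⟩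

private lemma X1_ind {E : Finset (Idx d m → ℤ)} {a : Idx d m → ℝ} (hE : Loc E a) (v : Fin m → Idx d m → ℤ)
    (hv : ∀ y, v y ∈ E ∧ v y (Sum.inr y) ≠ 0) :
    LinearIndependent ℝ (fun (o : Option (Fin m)) (i : Idx d m) => ((o.elim (one d m) v) i : ℝ)) := by
  classical
  rw [Fintype.linearIndependent_iff]
  intro g hg
  rw [Fintype.sum_option] at hg
  simp only [Option.elim_none, Option.elim_some] at hg
  have hco : ∀ i : Idx d m, g none * (one d m i : ℝ) + ∑ y, g (some y) * (v y i : ℝ) = 0 := by
    intro i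
    have h1 := congrFun hg i
    simp only [Pi.add_apply, Pi.smul_apply, smul_eq_mul, Finset.sum_apply, Pi.zero_apply] at h1
    exact h1
  have hμ : ∀ y, (1 : ℝ) ≤ (v y (Sum.inr y) : ℝ) := fun y => by
    exact_mod_cast (X1_elt hE (hv y).1 (hv y).2).1
  have hy : ∀ y, g (some y) = -(g none * (1 / (v y (Sum.inr y) : ℝ))) := by
    intro y
    have h1 := hco (Sum.inr y)
    have h2 : ∑ y', g (some y') * (v y' (Sum.inr y) : ℝ) = g (some y) * (v y (Sum.inr y) : ℝ) := by
      refine Finset.sum_eq_single y (fun y' _ hne => ?_) (fun h => absurd (Finset.mem_univ y) h)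
      rw [(X1_elt hE (hv y').1 (hv y').2).2 y (Ne.symm hne), Int.cast_zero, mul_zero]
    have h3 : (one d m (Sum.inr y) : ℝ) = 1 := by simp [one]
    rw [h2, h3, mul_one] at h1
    have h4 := hμ y
    have h5 : (v y (Sum.inr y) : ℝ) ≠ 0 := by linarith
    field_simp
    linarith
  have hpair : g none * ((m : ℝ) - 2) + ∑ y, g (some y) = 0 := by
    have h1 : ∑ i, (g none * (one d m i : ℝ) + ∑ y, g (some y) * (v y i : ℝ)) * a i = 0 :=
      Finset.sum_eq_zero fun i _ => by rw [hco i, zero_mul]
    have h2 : ∑ i, (g none * (one d m i : ℝ) + ∑ y, g (some y) * (v y i : ℝ)) * a i =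
        g none * pr (one d m) a + ∑ y, g (some y) * pr (v y) a := by
      simp only [add_mul, Finset.sum_add_distrib, pr, Finset.mul_sum, Finset.sum_mul]
      congr 1
      · exact Finset.sum_congr rfl fun i _ => by ring
      · rw [Finset.sum_comm]
        exact Finset.sum_congr rfl fun i _ => Finset.sum_congr rfl fun y _ => by ring
    rw [h2, hE.height_one] at h1
    rw [← h1]
    congr 1
    exact Finset.sum_congr rfl fun y _ => by rw [hE.height _ (hv y).1, mul_one]
  have hn : g none = 0 := by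
    have h1 : ∑ y, g (some y) = -(g none * ∑ y, 1 / (v y (Sum.inr y) : ℝ)) := by
      rw [Finset.mul_sum, ← Finset.sum_neg_distrib]
      exact Finset.sum_congr rfl fun y _ => hy y
    rw [h1] at hpair
    have h2 : g none * (((m : ℝ) - 2) - ∑ y, 1 / (v y (Sum.inr y) : ℝ)) = 0 := by linarith
    rcases mul_eq_zero.1 h2 with h | h
    · exact h
    · have h3 := hE.klt v hv
      linarith
  intro o
  cases o with
  | none => exact hn
  | some y => rw [hy y, hn, zero_mul, neg_zero]

/-- **Chunk X1** (M). Some subset of `E` is a full basis.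

Proof. Choose `v y ∈ E` in each block (`hE.full`); by `hE.elt` the other block coordinates of `v y` are `0` and
`μ_y = (v y)_y ≥ 1`. `S = {𝟙} ∪ {v y}` is linearly independent: if `∑ t_y v y = t 𝟙` (real coefficients), then the
coordinate `inr y` gives `t_y μ_y = t`, and pairing with `a` gives `∑ t_y = t (m - 2)`, so
`t (∑ 1/μ_y - (m-2)) = 0`, `t = 0` by `hE.klt`, and all `t_y = 0`. `𝟙 ∉ E` (`m ≥ 3`, `IsElt`). Apply
`exists_basis_extend` with `G = insert 𝟙 E` and this `S`: `b`, injective (`det ≠ 0`), and `B` = range of `b`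
without `𝟙`. `Spans B`: T4d, or `Matrix.eq_zero_of_mulVec_eq_zero`. -/
theorem exists_full_basis (hm : 3 ≤ m) {E : Finset (Idx d m → ℤ)} {a : Idx d m → ℝ} (hE : Loc E a) :
    ∃ B ⊆ E, Full B ∧ Spans B ∧ B.card + 1 = d + m := by
  classical
  choose v hv using hE.full
  have hone : ∀ y, v y ≠ one d m := by
    intro y h
    obtain ⟨y', hy'⟩ : ∃ y' : Fin m, y' ≠ y := by
      haveI : Nontrivial (Fin m) := Fin.nontrivial_iff_two_le.2 (by omega)
      exact exists_ne y
    have h1 := (X1_elt hE (hv y).1 (hv y).2).2 y' hy'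
    rw [h] at h1
    simp [one] at h1
  set S : Finset (Idx d m → ℤ) := insert (one d m) (Finset.univ.image v) with hS
  have hSG : S ⊆ insert (one d m) E := by
    intro g hg
    rcases Finset.mem_insert.1 hg with h | h
    · rw [h]
      exact Finset.mem_insert_self _ _
    · obtain ⟨y, _, rfl⟩ := Finset.mem_image.1 h
      exact Finset.mem_insert_of_mem (hv y).1
  have hidx : ∀ g : S, ∃ o : Option (Fin m), o.elim (one d m) v = (g : Idx d m → ℤ) := by
    intro g
    rcases Finset.mem_insert.1 g.2 with h | h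
    · exact ⟨none, h.symm⟩
    · obtain ⟨y, _, hy⟩ := Finset.mem_image.1 h
      exact ⟨some y, hy⟩
  choose idx hidx' using hidx
  have hinj : Function.Injective idx := by
    intro g g' h
    apply Subtype.ext
    rw [← hidx' g, ← hidx' g', h]
  have hind : LinearIndependent ℝ (fun g : S => fun i => ((g : Idx d m → ℤ) i : ℝ)) := by
    have h1 := (X1_ind hE v hv).comp idx hinj
    have h2 : ((fun (o : Option (Fin m)) (i : Idx d m) => ((o.elim (one d m) v) i : ℝ)) ∘ idx) =
        fun g : S => fun i => ((g : Idx d m → ℤ) i : ℝ) := by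
      funext g i
      simp only [Function.comp_apply, hidx' g]
    rw [h2] at h1
    exact h1
  obtain ⟨b, hbG, hdet, hbS⟩ := exists_basis_extend (insert (one d m) E) S hSG hind fun z hz =>
    hE.span z (hz _ (Finset.mem_insert_self _ _)) fun e he => hz e (Finset.mem_insert_of_mem he)
  have hbinj : Function.Injective b := by
    intro k k' h
    by_contra hne
    exact hdet (Matrix.det_zero_of_row_eq hne h)
  have hmem1 : one d m ∈ Finset.univ.image b := by
    obtain ⟨k, hk⟩ := hbS (one d m) (Finset.mem_insert_self _ _)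
    exact Finset.mem_image.2 ⟨k, Finset.mem_univ k, hk⟩
  refine ⟨(Finset.univ.image b).erase (one d m), ?_, ?_, ?_, ?_⟩
  · intro e he
    obtain ⟨h1, h2⟩ := Finset.mem_erase.1 he
    obtain ⟨k, _, hk⟩ := Finset.mem_image.1 h2
    rw [← hk] at h1 ⊢
    exact (Finset.mem_insert.1 (hbG k)).resolve_left h1
  · intro y
    obtain ⟨k, hk⟩ := hbS (v y) (Finset.mem_insert_of_mem (Finset.mem_image_of_mem v (Finset.mem_univ y)))
    exact ⟨v y, Finset.mem_erase.2 ⟨hone y, Finset.mem_image.2 ⟨k, Finset.mem_univ k, hk⟩⟩, (hv y).2⟩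
  · intro z h1 h2
    have hz : ∀ k, pr (b k) z = 0 := by
      intro k
      by_cases hk : b k = one d m
      · rw [hk]
        exact h1
      · exact h2 _ (Finset.mem_erase.2 ⟨hk, Finset.mem_image_of_mem b (Finset.mem_univ k)⟩)
    have h3 : ((Matrix.of b).map (Int.castRingHom ℝ)).det ≠ 0 := by
      rw [← RingHom.mapMatrix_apply, ← RingHom.map_det]
      simpa using hdet
    refine Matrix.eq_zero_of_mulVec_eq_zero h3 ?_
    funext k
    have h4 := hz k
    simp only [pr] at h4
    simpa [Matrix.mulVec, dotProduct] using h4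
  · rw [Finset.card_erase_add_one hmem1, Finset.card_image_of_injective _ hbinj, Finset.card_univ,
      Fintype.card_sum, Fintype.card_fin, Fintype.card_fin]

end Pool.Agent.Lib.H45DA
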