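import Pool.Agent.Lib.H45DA.T4

/-!
# Project H45DA, chunk X2: exchange
-/

namespace Pool.Agent.Lib.H45DA

variable {d m : ℕ}

private theorem X2_not_elt (hm : 3 ≤ m) : ¬ IsElt (one d m) := by
  rintro (h | ⟨y, _, h⟩)
  · have := h ⟨0, by omega⟩
    simp [one] at this
  · rcases Nat.eq_zero_or_pos (y : ℕ) with hy | hy
    · have h1 := h ⟨1, by omega⟩ (by
        intro hh
        rw [← hh] at hy
        simp at hy)
      simp [one] at h1
    · have h1 := h ⟨0, by omega⟩ (by
        intro hh
        rw [← hh] at hy
        simp at hy)
      simp [one] at h1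

private theorem X2_reindex {κ : Type} [Fintype κ] [DecidableEq κ] (b' : κ → κ → ℤ)
    (hinj : Function.Injective b') (b'' : Module.Basis κ ℤ (κ → ℤ))
    (hr : Set.range b' ⊆ Set.range b'') : |(Matrix.of b').det| = 1 := by
  choose σ hσ using fun k => hr (Set.mem_range_self k)
  have hσi : Function.Injective σ := by
    intro k k' h
    apply hinj
    rw [← hσ k, ← hσ k', h]
  have hσb : Function.Bijective σ := Finite.injective_iff_bijective.mp hσi
  have h1 := det_of_basis (b''.reindex (Equiv.ofBijective σ hσb).symm)
  have h2 : (fun k => (b''.reindex (Equiv.ofBijective σ hσb).symm) k) = b' := by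
    funext k
    rw [Module.Basis.reindex_apply]
    exact hσ k
  rw [h2] at h1
  exact h1

/-- **Chunk X2** (M). Let `B ∪ {𝟙}` be a `ℤ`-basis and `x ∉ B` another vector. Then `x = ∑ w_e e + δ 𝟙` with
integers, and if `w_e ≠ 0`, then `B - e + x` spans, and if it is a `ℤ`-basis as well (with `𝟙`), then
`w_e = ± 1`.

Proof. Let `b` be the basis with the range `B ∪ {𝟙}`; the coefficients are `b.repr x`, and `𝟙 = b k₁`, `e = b k₀`. `det b = ± 1`
(T4c). `Function.update b k₀ x` has the determinant `w_e det b` (T4a), so `± w_e`, and its range is
`(B - e + x) ∪ {𝟙}`; T4d gives `Spans`. If `B'` is a basis with the same range, then it is the same family up to a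
permutation, and `|det| = 1` (T4c, `Matrix.det_permute`), or: the vectors `Function.update b k₀ x`
are then a `ℤ`-basis (reindex), so T4c applies to the reindexed basis. (`𝟙 ∉ B`, `x ≠ 𝟙` by `hel`, `hx` and `m ≥ 3`;
`𝟙` is not `IsElt`.) -/
theorem exchange (hm : 3 ≤ m) (B : Finset (Idx d m → ℤ)) (hel : ∀ e ∈ B, IsElt e) (hB : IsZBasis B)
    (x : Idx d m → ℤ) (hx : IsElt x) (hxB : x ∉ B) :
    ∃ (w : (Idx d m → ℤ) → ℤ) (δ : ℤ), x = ∑ e ∈ B, w e • e + δ • one d m ∧
      ∀ e ∈ B, w e ≠ 0 → Spans (insert x (B.erase e)) ∧
        (IsZBasis (insert x (B.erase e)) → w e = 1 ∨ w e = -1) := by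
  classical
  obtain ⟨b, hb⟩ := hB
  have hone : one d m ∉ B := fun h => X2_not_elt hm (hel _ h)
  have hx1 : x ≠ one d m := fun h => X2_not_elt hm (h ▸ hx)
  haveI : Nonempty (Idx d m) := ⟨Sum.inr ⟨0, by omega⟩⟩
  have hinj : Function.Injective b := b.injective
  have himg : Finset.univ.image b = insert (one d m) B := by
    apply Finset.coe_injective
    rw [Finset.coe_image, Finset.coe_univ, Set.image_univ, Finset.coe_insert]
    exact hb
  have hinv : ∀ k, Function.invFun b (b k) = k := Function.leftInverse_invFun hinj
  have hsum : x = ∑ k, b.repr x k • b k := (b.sum_repr x).symm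
  refine ⟨fun v => b.repr x (Function.invFun b v), b.repr x (Function.invFun b (one d m)), ?_, ?_⟩
  · have h1 : ∑ v ∈ insert (one d m) B, b.repr x (Function.invFun b v) • v = x := by
      rw [← himg, Finset.sum_image fun k _ k' _ h => hinj h]
      simp only [hinv]
      exact hsum.symm
    rw [Finset.sum_insert hone] at h1
    rw [add_comm]
    exact h1.symm
  · intro e he hwe
    obtain ⟨k₀, hk₀⟩ : ∃ k, b k = e := by
      have : e ∈ Set.range b := by
        rw [hb]
        exact Set.mem_insert_of_mem _ he
      exact this
    have hw : b.repr x (Function.invFun b e) = b.repr x k₀ := by rw [← hk₀, hinv]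
    have hdet : (Matrix.of (Function.update (fun k => b k) k₀ x)).det =
        b.repr x k₀ * (Matrix.of fun k => b k).det := by
      have h1 := det_update (fun k => b k) (fun k => b.repr x k) k₀
      rw [← hsum] at h1
      exact h1
    have hdb : |(Matrix.of fun k => b k).det| = 1 := det_of_basis b
    have hmem : ∀ k, k ≠ k₀ → b k = one d m ∨ b k ∈ B.erase e := by
      intro k hk
      have h1 : b k ∈ insert (one d m) (B : Set (Idx d m → ℤ)) := by
        rw [← hb]
        exact Set.mem_range_self k
      rcases h1 with h1 | h1
      · exact Or.inl h1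
      · refine Or.inr (Finset.mem_erase.mpr ⟨?_, h1⟩)
        intro h2
        exact hk (hinj (h2.trans hk₀.symm))
    simp only [hw] at hwe ⊢
    refine ⟨?_, ?_⟩
    · intro z hz1 hz
      refine eq_zero_of_det (Function.update (fun k => b k) k₀ x) ?_ z ?_
      · rw [hdet]
        refine mul_ne_zero hwe fun h0 => ?_
        rw [h0] at hdb
        simp at hdb
      · intro k
        by_cases hk : k = k₀
        · subst hk
          rw [Function.update_self]
          exact hz x (Finset.mem_insert_self _ _)
        · rw [Function.update_of_ne hk]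
          rcases hmem k hk with h1 | h1
          · rw [h1]
            exact hz1
          · exact hz _ (Finset.mem_insert_of_mem h1)
    · rintro ⟨b'', hb''⟩
      have hxr : ∀ k, b k ≠ x := by
        intro k hk
        have h1 : b k ∈ insert (one d m) (B : Set (Idx d m → ℤ)) := by
          rw [← hb]
          exact Set.mem_range_self k
        rcases h1 with h1 | h1
        · exact hx1 (hk ▸ h1)
        · exact hxB (hk ▸ h1)
      have hinj' : Function.Injective (Function.update (fun k => b k) k₀ x) := by
        intro k k' h
        by_cases hk : k = k₀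
        · by_cases hk' : k' = k₀
          · rw [hk, hk']
          · rw [hk, Function.update_self, Function.update_of_ne hk'] at h
            exact absurd h.symm (hxr k')
        · by_cases hk' : k' = k₀
          · rw [hk', Function.update_self, Function.update_of_ne hk] at h
            exact absurd h (hxr k)
          · rw [Function.update_of_ne hk, Function.update_of_ne hk'] at h
            exact hinj h
      have hrange : Set.range (Function.update (fun k => b k) k₀ x) ⊆ Set.range b'' := by
        rw [hb'']
        rintro _ ⟨k, rfl⟩
        by_cases hk : k = k₀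
        · rw [hk, Function.update_self]
          exact Set.mem_insert_of_mem _ (Finset.mem_insert_self _ _)
        · rw [Function.update_of_ne hk]
          rcases hmem k hk with h1 | h1
          · rw [h1]
            exact Set.mem_insert _ _
          · exact Set.mem_insert_of_mem _ (Finset.mem_insert_of_mem h1)
      have h1 := X2_reindex _ hinj' b'' hrange
      rw [hdet, abs_mul, hdb, mul_one] at h1
      rcases abs_eq (by norm_num : (0 : ℤ) ≤ 1) |>.mp h1 with h2 | h2
      · exact Or.inl h2
      · exact Or.inr h2

end Pool.Agent.Lib.H45DA
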