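import Pool.Agent.Lib.H45DA.XDefs

/-!
# Project H45DA, chunk X3: the classification of the circuits with three non-trivial blocks
-/

namespace Pool.Agent.Lib.H45DA

variable {d m : ℕ}

private theorem X3_pos {e : Idx d m → ℤ} (he : IsElt e) {z : Fin m} (hz : e (Sum.inr z) ≠ 0) :
    1 ≤ e (Sum.inr z) ∧ ∀ z' ≠ z, e (Sum.inr z') = 0 := by
  rcases he with h | ⟨y, h1, h2⟩
  · exact absurd (h z) hz
  · by_cases hzy : z = y
    · subst hzy
      exact ⟨h1, h2⟩
    · exact absurd (h2 z hzy) hz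

/-- removable elements -/
private theorem X3_full {C : Finset (Idx d m → ℤ)} (hfull : Full C)
    {e : Idx d m → ℤ}
    (h : ∀ z, e (Sum.inr z) ≠ 0 → ∃ f ∈ C, f ≠ e ∧ f (Sum.inr z) ≠ 0) : Full (C.erase e) := by
  intro z
  by_cases hz : e (Sum.inr z) = 0
  · obtain ⟨g, hg, hgz⟩ := hfull z
    refine ⟨g, Finset.mem_erase.2 ⟨?_, hg⟩, hgz⟩
    rintro rfl
    exact hgz hz
  · obtain ⟨f, hf, hfe, hfz⟩ := h z hz
    exact ⟨f, Finset.mem_erase.2 ⟨hfe, hf⟩, hfz⟩

/-- the key consequence of `hrem` -/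
private theorem X3_key {C : Finset (Idx d m → ℤ)} (hel : ∀ e ∈ C, IsElt e)
    (h3 : 3 ≤ {y : Fin m | ¬ Triv C y}.ncard)
    {e : Idx d m → ℤ} (he : e ∈ C) (h2 : {y : Fin m | ¬ Triv (C.erase e) y}.ncard ≤ 2) :
    {y : Fin m | ¬ Triv C y}.ncard = 3 ∧ ∃ z, e (Sum.inr z) ≠ 0 ∧ ¬ Triv C z ∧
      ∃ e' ∈ C, e' ≠ e ∧ e' (Sum.inr z) = 1 ∧ ∀ f ∈ C, f (Sum.inr z) ≠ 0 → f = e ∨ f = e' := by
  classical
  have hex : ∃ y, ¬ Triv C y ∧ Triv (C.erase e) y := by
    by_contra hcon
    push Not at hcon
    have hsub : {y : Fin m | ¬ Triv C y} ⊆ {y : Fin m | ¬ Triv (C.erase e) y} := fun y hy => hcon y hy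
    have := Set.ncard_le_ncard hsub (Set.toFinite _)
    omega
  have hloc : ∀ y, ¬ Triv C y → Triv (C.erase e) y → e (Sum.inr y) ≠ 0 ∧
      ∃ e' ∈ C, e' ≠ e ∧ e' (Sum.inr y) = 1 ∧ ∀ f ∈ C, f (Sum.inr y) ≠ 0 → f = e ∨ f = e' := by
    intro y hy1 hy2
    obtain ⟨e', he', h1, h2⟩ := hy2
    rw [Finset.mem_erase] at he'
    have hex2 : ∃ f ∈ C, f (Sum.inr y) ≠ 0 ∧ f ≠ e' := by
      by_contra hcon
      push Not at hcon
      exact hy1 ⟨e', he'.2, h1, hcon⟩
    obtain ⟨f, hf, hfy, hfe⟩ := hex2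
    have hfe2 : f = e := by
      by_contra hne
      exact hfe (h2 f (Finset.mem_erase.2 ⟨hne, hf⟩) hfy)
    subst hfe2
    refine ⟨hfy, e', he'.2, he'.1, h1, fun g hg hgy => ?_⟩
    by_cases hgf : g = f
    · exact Or.inl hgf
    · exact Or.inr (h2 g (Finset.mem_erase.2 ⟨hgf, hg⟩) hgy)
  obtain ⟨y, hy1, hy2⟩ := hex
  obtain ⟨hey, he'⟩ := hloc y hy1 hy2
  refine ⟨le_antisymm ?_ h3, y, hey, hy1, he'⟩
  have hsub : {y : Fin m | ¬ Triv C y} ⊆ insert y {y : Fin m | ¬ Triv (C.erase e) y} := by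
    intro z hz
    by_cases hzz : Triv (C.erase e) z
    · left
      by_contra hne
      exact (hloc z hz hzz).1 ((X3_pos (hel e he) hey).2 z hne)
    · right
      exact hzz
  have h4 := Set.ncard_le_ncard hsub (Set.toFinite _)
  have h5 := Set.ncard_insert_le y {y : Fin m | ¬ Triv (C.erase e) y}
  omega

/-- `δ > 0` is impossible -/
private theorem X3_delta {C : Finset (Idx d m → ℤ)} {a : Idx d m → ℝ} (hC : Loc C a)
    (h3 : 3 ≤ {y : Fin m | ¬ Triv C y}.ncard)
    (w : (Idx d m → ℤ) → ℤ) (δ : ℤ) (hrel : ∑ e ∈ C, w e • e = δ • one d m)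
    (hrem : ∀ e ∈ C, w e ≠ 0 → Full (C.erase e) →
      (w e = 1 ∨ w e = -1) ∧ {y : Fin m | ¬ Triv (C.erase e) y}.ncard ≤ 2) (hδ : 0 < δ) : False := by
  classical
  have hcoord : ∀ z : Fin m, ∑ e ∈ C, w e * e (Sum.inr z) = δ := by
    intro z
    have h := congrFun hrel (Sum.inr z)
    simpa [one, Finset.sum_apply] using h
  -- w is nonnegative
  have hnn : ∀ e ∈ C, 0 ≤ w e := by
    intro e he
    by_contra hneg
    push Not at hneg
    have hne : w e ≠ 0 := hneg.ne
    by_cases hF : Full (C.erase e)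
    · obtain ⟨hw1, hw2⟩ := hrem e he hne hF
      obtain ⟨-, z, hez, -, e', he', hee', hz1, hblock⟩ := X3_key hC.elt h3 he hw2
      have hpos := X3_pos (hC.elt e he) hez
      have hsum : ∑ f ∈ C, w f * f (Sum.inr z) = w e * e (Sum.inr z) + w e' := by
        have hsub : ({e, e'} : Finset (Idx d m → ℤ)) ⊆ C := by
          intro f hf
          rw [Finset.mem_insert, Finset.mem_singleton] at hf
          rcases hf with rfl | rfl
          · exact he
          · exact he'
        rw [← Finset.sum_subset hsub, Finset.sum_pair (Ne.symm hee'), hz1, mul_one]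
        intro f hf hf2
        have : f (Sum.inr z) = 0 := by
          by_contra hfz
          apply hf2
          rw [Finset.mem_insert, Finset.mem_singleton]
          exact hblock f hf hfz
        rw [this, mul_zero]
      rw [hcoord z] at hsum
      have hw1' : w e = -1 := by
        rcases hw1 with h | h
        · omega
        · exact h
      rw [hw1'] at hsum
      have hwe' : 0 < w e' := by linarith [hpos.1]
      have hF' : Full (C.erase e') := by
        refine X3_full hC.full fun y hy => ⟨e, he, Ne.symm hee', ?_⟩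
        have hyz : y = z := by
          by_contra hne'
          have hz1' : e' (Sum.inr z) ≠ 0 := by rw [hz1]; exact one_ne_zero
          exact hy ((X3_pos (hC.elt e' he') hz1').2 y hne')
        rw [hyz]
        exact hez
      obtain ⟨hw3, -⟩ := hrem e' he' hwe'.ne' hF'
      have hw3' : w e' = 1 := by
        rcases hw3 with h | h
        · exact h
        · omega
      rw [hw3'] at hsum
      linarith [hpos.1]
    · -- the block of e is {e}
      have hex : ∃ z, e (Sum.inr z) ≠ 0 ∧ ∀ f ∈ C, f ≠ e → f (Sum.inr z) = 0 := by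
        by_contra hcon
        push Not at hcon
        exact hF (X3_full hC.full hcon)
      obtain ⟨z, hez, hblock⟩ := hex
      have hpos := X3_pos (hC.elt e he) hez
      have hsum : ∑ f ∈ C, w f * f (Sum.inr z) = w e * e (Sum.inr z) := by
        refine Finset.sum_eq_single_of_mem e he fun f hf hfe => ?_
        rw [hblock f hf hfe, mul_zero]
      rw [hcoord z] at hsum
      have : w e * e (Sum.inr z) ≤ 0 := mul_nonpos_of_nonpos_of_nonneg hneg.le (by linarith [hpos.1])
      omega
  -- pairing with a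
  have hA : (∑ e ∈ C, (w e : ℝ)) = δ * ((m : ℝ) - 2) := by
    have h1 : pr (∑ e ∈ C, w e • e) a = pr (δ • one d m) a := by rw [hrel]
    rw [pr_sum, pr_zsmul, hC.height_one] at h1
    rw [← h1]
    refine Finset.sum_congr rfl fun e he => ?_
    rw [pr_zsmul, hC.height e he, mul_one]
  -- choice of maximal elements
  have hmax : ∀ z : Fin m, ∃ e ∈ C, e (Sum.inr z) ≠ 0 ∧ ∀ f ∈ C, f (Sum.inr z) ≤ e (Sum.inr z) := by
    intro z
    obtain ⟨e0, he0, hz0⟩ := hC.full z
    obtain ⟨e, he, hmx⟩ := Finset.exists_max_image C (fun f => f (Sum.inr z)) ⟨e0, he0⟩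
    refine ⟨e, he, ?_, hmx⟩
    have h1 := (X3_pos (hC.elt e0 he0) hz0).1
    have h2 := hmx e0 he0
    intro h
    simp only [h] at h2
    omega
  choose c hcC hcz hcmax using hmax
  have hklt := hC.klt c fun y => ⟨hcC y, hcz y⟩
  have hblock : ∀ z : Fin m, (δ : ℝ) * (1 / (c z (Sum.inr z) : ℝ)) ≤
      ∑ e ∈ C, if e (Sum.inr z) ≠ 0 then (w e : ℝ) else 0 := by
    intro z
    have hcp : (0 : ℝ) < (c z (Sum.inr z) : ℝ) := by
      have := (X3_pos (hC.elt _ (hcC z)) (hcz z)).1
      exact_mod_cast (by omega : 0 < c z (Sum.inr z))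
    rw [mul_one_div, div_le_iff₀ hcp, Finset.sum_mul]
    have h1 : (δ : ℝ) = ∑ e ∈ C, (w e : ℝ) * (e (Sum.inr z) : ℝ) := by
      rw [← hcoord z]
      push_cast
      rfl
    rw [h1]
    refine Finset.sum_le_sum fun e he => ?_
    by_cases hz : e (Sum.inr z) = 0
    · simp [hz]
    · rw [if_pos hz]
      have h2 : (e (Sum.inr z) : ℝ) ≤ (c z (Sum.inr z) : ℝ) := by exact_mod_cast hcmax z e he
      have h3 : (0 : ℝ) ≤ (w e : ℝ) := by exact_mod_cast hnn e he
      exact mul_le_mul_of_nonneg_left h2 h3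
  have hsum : ∑ z : Fin m, ∑ e ∈ C, (if e (Sum.inr z) ≠ 0 then (w e : ℝ) else 0) ≤
      ∑ e ∈ C, (w e : ℝ) := by
    rw [Finset.sum_comm]
    refine Finset.sum_le_sum fun e he => ?_
    have hw0 : (0 : ℝ) ≤ (w e : ℝ) := by exact_mod_cast hnn e he
    by_cases hray : ∀ z, e (Sum.inr z) = 0
    · simp [hray, hw0]
    · push Not at hray
      obtain ⟨z, hz⟩ := hray
      rw [Finset.sum_eq_single z]
      · rw [if_pos hz]
      · intro z' _ hz'
        rw [if_neg]
        push Not
        exact (X3_pos (hC.elt e he) hz).2 z' hz'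
      · intro h
        exact absurd (Finset.mem_univ z) h
  have hfin : (δ : ℝ) * ∑ z : Fin m, 1 / (c z (Sum.inr z) : ℝ) ≤ δ * ((m : ℝ) - 2) := by
    rw [Finset.mul_sum, ← hA]
    exact (Finset.sum_le_sum fun z _ => hblock z).trans hsum
  have hδ' : (0 : ℝ) < δ := by exact_mod_cast hδ
  have := le_of_mul_le_mul_left hfin hδ'
  linarith

/-- **Chunk X3** (L). Combinatorics of one circuit. `C` is a full spanning set with `d + m` elements and at least three
non-trivial blocks, and with the relation `∑ w_e e = δ 𝟙`, `w ≠ 0`. Hypothesis `hrem`: if `w_e ≠ 0` and `C - e` is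
full, then `w_e = ± 1` and `C - e` has at most two non-trivial blocks. Then `C` is one of the two special circuits.

Proof. Let `w_e ≠ 0` and `e` removable (`C - e` full, that is `e` is a ray or the block of `e` has another element). Removing `e`
changes only the block of `e`, so this block becomes trivial: `e` is not a ray, its block `y` is `{e, e'}` with
`e'_y = 1`, and `C` has exactly three non-trivial blocks, one of which is `y`. So: rays have `w = 0`; a block with at
least three elements has all `w = 0`. The coordinate `inr z` of the relation is `∑_{block z} w_e e_z = δ`.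
Claim `δ = 0`. Let `δ ≠ 0`; we may take `δ > 0` (otherwise `-w`). No block has `w = 0`. A block with one element has
`w > 0`. A block with two elements `{e, e'}`, both removable: if both `w ≠ 0`, then `e_z = e'_z = 1` and
`w_e + w_e' = δ > 0` with `w = ± 1`, so both are `1`; if `w_e' = 0`, then `w_e e_z = δ`, `w_e > 0`. So `w ≥ 0` everywhere, and
pairing the relation with `a` gives `∑ w_e = δ (m-2)`. But `∑_{block z} w_e e_z = δ`, so `∑_{block z} w_e ≥ δ/μ_z` with `μ_z` the
greatest `e_z` with `w_e ≠ 0` in the block, and `∑ δ/μ_z > δ (m-2)` by `klt`. Contradiction.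
`δ = 0`: a block with one element has `w = 0` (`w_e e_z = 0`, `e_z ≠ 0`); in a block `{e, e'}` not both `w = 0`: both are
not `0` (as `w_e e_z + w_e' e'_z = 0`), so `e_z = e'_z = 1`, `w_e = ± 1`, `w_e' = - w_e`: it is a pair in the sense of `IsPair`
(name the elements so that `w_e = 1`), and it is one of the three non-trivial blocks. One pair only would give
`e = e'`, none gives `w = 0`. Two pairs: `CircuitTwo` (`y₃` = the third non-trivial block); three: `CircuitThree`. -/
theorem circuit_cases (hm : 3 ≤ m) {C : Finset (Idx d m → ℤ)} {a : Idx d m → ℝ} (hC : Loc C a)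
    (hcard : C.card = d + m) (h3 : 3 ≤ {y : Fin m | ¬ Triv C y}.ncard)
    (w : (Idx d m → ℤ) → ℤ) (δ : ℤ) (hw : ∃ e ∈ C, w e ≠ 0) (hrel : ∑ e ∈ C, w e • e = δ • one d m)
    (hrem : ∀ e ∈ C, w e ≠ 0 → Full (C.erase e) →
      (w e = 1 ∨ w e = -1) ∧ {y : Fin m | ¬ Triv (C.erase e) y}.ncard ≤ 2) :
    CircuitTwo C ∨ CircuitThree C := by
  classical
  -- δ = 0
  have hδ : δ = 0 := by
    rcases lt_trichotomy δ 0 with h | h | h
    · exfalso
      refine X3_delta hC h3 (fun e => -w e) (-δ) ?_ ?_ (by omega)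
      · simp only [neg_smul, Finset.sum_neg_distrib, hrel]
      · intro e he hne hF
        obtain ⟨h1, h2⟩ := hrem e he (by simpa using hne) hF
        refine ⟨?_, h2⟩
        rcases h1 with h1 | h1
        · right
          show -w e = -1
          omega
        · left
          show -w e = 1
          omega
    · exact h
    · exact (X3_delta hC h3 w δ hrel hrem h).elim
  subst hδ
  rw [zero_smul] at hrel
  have hcoord : ∀ z : Fin m, ∑ e ∈ C, w e * e (Sum.inr z) = 0 := by
    intro z
    have h := congrFun hrel (Sum.inr z)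
    simpa [Finset.sum_apply] using h
  -- elements with w ≠ 0 come in pairs
  have hrm : ∀ e ∈ C, w e ≠ 0 → Full (C.erase e) := by
    intro e he hne
    by_contra hF
    have hex : ∃ z, e (Sum.inr z) ≠ 0 ∧ ∀ f ∈ C, f ≠ e → f (Sum.inr z) = 0 := by
      by_contra hcon
      push Not at hcon
      exact hF (X3_full hC.full hcon)
    obtain ⟨z, hez, hblock⟩ := hex
    have hsum : ∑ f ∈ C, w f * f (Sum.inr z) = w e * e (Sum.inr z) := by
      refine Finset.sum_eq_single_of_mem e he fun f hf hfe => ?_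
      rw [hblock f hf hfe, mul_zero]
    rw [hcoord z] at hsum
    exact (mul_ne_zero hne hez) hsum.symm
  have hpair0 : ∀ e ∈ C, w e ≠ 0 → ∃ z, e (Sum.inr z) ≠ 0 ∧ ¬ Triv C z ∧
      ∃ e' ∈ C, e' ≠ e ∧ e' (Sum.inr z) = 1 ∧ (∀ f ∈ C, f (Sum.inr z) ≠ 0 → f = e ∨ f = e') ∧
      w e * e (Sum.inr z) + w e' = 0 := by
    intro e he hne
    obtain ⟨-, hw2⟩ := hrem e he hne (hrm e he hne)
    obtain ⟨-, z, hez, hnt, e', he', hee', hz1, hblock⟩ := X3_key hC.elt h3 he hw2
    refine ⟨z, hez, hnt, e', he', hee', hz1, hblock, ?_⟩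
    have hsub : ({e, e'} : Finset (Idx d m → ℤ)) ⊆ C := by
      intro f hf
      rw [Finset.mem_insert, Finset.mem_singleton] at hf
      rcases hf with rfl | rfl
      · exact he
      · exact he'
    have hsum : ∑ f ∈ C, w f * f (Sum.inr z) = w e * e (Sum.inr z) + w e' := by
      rw [← Finset.sum_subset hsub, Finset.sum_pair (Ne.symm hee'), hz1, mul_one]
      intro f hf hf2
      have : f (Sum.inr z) = 0 := by
        by_contra hfz
        apply hf2
        rw [Finset.mem_insert, Finset.mem_singleton]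
        exact hblock f hf hfz
      rw [this, mul_zero]
    rw [← hsum, hcoord z]
  have hpair : ∀ e ∈ C, w e ≠ 0 → ∃ z, ¬ Triv C z ∧ ∃ e', IsPair C z e e' ∧ w e' = - w e ∧
      (w e = 1 ∨ w e = -1) := by
    intro e he hne
    obtain ⟨z, hez, hnt, e', he', hee', hz1, hblock, hs⟩ := hpair0 e he hne
    have hne' : w e' ≠ 0 := by
      intro h
      rw [h, add_zero] at hs
      exact (mul_ne_zero hne hez) hs
    obtain ⟨z', hez', -, e'', he'', hee'', hz1', hblock', -⟩ := hpair0 e' he' hne'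
    have hz1ne : e' (Sum.inr z) ≠ 0 := by rw [hz1]; exact one_ne_zero
    have hzz : z' = z := by
      by_contra hne2
      exact hez' ((X3_pos (hC.elt e' he') hz1ne).2 z' hne2)
    subst hzz
    have hee : e'' = e := by
      have hne3 : e'' (Sum.inr z') ≠ 0 := by rw [hz1']; exact one_ne_zero
      rcases hblock e'' he'' hne3 with h | h
      · exact h
      · exact absurd h hee''
    subst hee
    rw [hz1', mul_one] at hs
    refine ⟨z', hnt, e', ⟨he, he', Ne.symm hee', hz1', hz1, hblock⟩, by omega, ?_⟩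
    exact (hrem e'' he hne (hrm e'' he hne)).1
  -- the set of pairs
  obtain ⟨e₀, he₀, hw₀⟩ := hw
  have hNT3 : {y : Fin m | ¬ Triv C y}.ncard = 3 :=
    (X3_key hC.elt h3 he₀ (hrem e₀ he₀ hw₀ (hrm e₀ he₀ hw₀)).2).1
  set NT : Finset (Fin m) := Finset.univ.filter fun y => ¬ Triv C y with hNT
  have hNTc : NT.card = 3 := by
    rw [← hNT3, ← Set.ncard_coe_finset]
    congr 1
    ext y
    simp [hNT]
  set P : Finset (Fin m) := Finset.univ.filter fun z => ∃ e ∈ C, w e ≠ 0 ∧ e (Sum.inr z) ≠ 0 with hP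
  have hPpair : ∀ z ∈ P, ∃ p q, IsPair C z p q ∧ w p = 1 ∧ w q = -1 ∧ z ∈ NT := by
    intro z hz
    rw [hP, Finset.mem_filter] at hz
    obtain ⟨-, e, he, hne, hez⟩ := hz
    obtain ⟨z', hnt, e', hpr, hw', hpm⟩ := hpair e he hne
    have hzz : z' = z := by
      by_contra hne2
      have hz'1 : e (Sum.inr z') ≠ 0 := by rw [hpr.2.2.2.1]; exact one_ne_zero
      exact hez ((X3_pos (hC.elt e he) hz'1).2 z (Ne.symm hne2))
    subst hzz
    have hmem : z' ∈ NT := by
      rw [hNT, Finset.mem_filter]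
      exact ⟨Finset.mem_univ _, hnt⟩
    rcases hpm with h | h
    · exact ⟨e, e', hpr, h, by omega, hmem⟩
    · obtain ⟨h1, h2, h3', h4, h5, h6⟩ := hpr
      refine ⟨e', e, ⟨h2, h1, Ne.symm h3', h5, h4, fun f hf hfz => (h6 f hf hfz).symm⟩, by omega, h,
        hmem⟩
  choose! p q hpq hwp hwq hPNT using hPpair
  have hsupp : ∀ e ∈ C, w e ≠ 0 → ∃ z ∈ P, e = p z ∨ e = q z := by
    intro e he hne
    obtain ⟨z, -, e', hpr, -, -⟩ := hpair e he hne
    have hez : e (Sum.inr z) ≠ 0 := by rw [hpr.2.2.2.1]; exact one_ne_zero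
    have hzP : z ∈ P := by
      rw [hP, Finset.mem_filter]
      exact ⟨Finset.mem_univ _, e, he, hne, hez⟩
    exact ⟨z, hzP, (hpq z hzP).2.2.2.2.2 e he hez⟩
  -- the relation
  have hrel2 : ∑ z ∈ P, (p z - q z) = 0 := by
    rw [← hrel]
    have hdisj : Set.PairwiseDisjoint (P : Set (Fin m))
        (fun z => ({p z, q z} : Finset (Idx d m → ℤ))) := by
      intro z hz z' hz' hzz'
      rw [Function.onFun, Finset.disjoint_left]
      intro f hf hf'
      have h1 : f (Sum.inr z) = 1 := by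
        rw [Finset.mem_insert, Finset.mem_singleton] at hf
        rcases hf with rfl | rfl
        · exact (hpq z hz).2.2.2.1
        · exact (hpq z hz).2.2.2.2.1
      have h2 : f (Sum.inr z') = 1 := by
        rw [Finset.mem_insert, Finset.mem_singleton] at hf'
        rcases hf' with rfl | rfl
        · exact (hpq z' hz').2.2.2.1
        · exact (hpq z' hz').2.2.2.2.1
      have hfC : f ∈ C := by
        rw [Finset.mem_insert, Finset.mem_singleton] at hf
        rcases hf with rfl | rfl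
        · exact (hpq z hz).1
        · exact (hpq z hz).2.1
      have h3' := (X3_pos (hC.elt f hfC) (z := z) (by rw [h1]; exact one_ne_zero)).2 z'
        (Ne.symm hzz')
      omega
    have hsub : P.biUnion (fun z => ({p z, q z} : Finset (Idx d m → ℤ))) ⊆ C := by
      intro f hf
      rw [Finset.mem_biUnion] at hf
      obtain ⟨z, hz, hf⟩ := hf
      rw [Finset.mem_insert, Finset.mem_singleton] at hf
      rcases hf with rfl | rfl
      · exact (hpq z hz).1
      · exact (hpq z hz).2.1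
    rw [← Finset.sum_subset hsub, Finset.sum_biUnion hdisj]
    · refine Finset.sum_congr rfl fun z hz => ?_
      rw [Finset.sum_pair (hpq z hz).2.2.1, hwp z hz, hwq z hz, one_smul, neg_smul, one_smul,
        sub_eq_add_neg]
    · intro f hf hf2
      have : w f = 0 := by
        by_contra hne
        obtain ⟨z, hz, hfz⟩ := hsupp f hf hne
        apply hf2
        rw [Finset.mem_biUnion]
        refine ⟨z, hz, ?_⟩
        rw [Finset.mem_insert, Finset.mem_singleton]
        exact hfz
      rw [this, zero_smul]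
  have hPsub : P ⊆ NT := fun z hz => hPNT z hz
  have hPcard : P.card ≤ 3 := hNTc ▸ Finset.card_le_card hPsub
  have hPne : P.Nonempty := by
    obtain ⟨z, hz, -⟩ := hsupp e₀ he₀ hw₀
    exact ⟨z, hz⟩
  have htr : ∀ z, z ∉ NT → Triv C z := by
    intro z hz
    by_contra h
    apply hz
    rw [hNT, Finset.mem_filter]
    exact ⟨Finset.mem_univ _, h⟩
  have hspans : Spans C := hC.span
  have hcase : P.card = 1 ∨ P.card = 2 ∨ P.card = 3 := by
    have := hPne.card_pos
    omega
  rcases hcase with h1 | h2 | h3'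
  · exfalso
    obtain ⟨z, hz⟩ := Finset.card_eq_one.1 h1
    rw [hz, Finset.sum_singleton, sub_eq_zero] at hrel2
    exact (hpq z (by rw [hz]; exact Finset.mem_singleton_self z)).2.2.1 hrel2
  · left
    obtain ⟨z₁, z₂, h12, hz⟩ := Finset.card_eq_two.1 h2
    have hz₁ : z₁ ∈ P := by rw [hz]; simp
    have hz₂ : z₂ ∈ P := by rw [hz]; simp
    rw [hz, Finset.sum_pair h12] at hrel2
    have hex : ∃ y₃ ∈ NT, y₃ ∉ P := by
      by_contra hcon
      push Not at hcon
      have := Finset.card_le_card (show NT ⊆ P from hcon)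
      omega
    obtain ⟨y₃, hy₃, hy₃P⟩ := hex
    have h13 : z₁ ≠ y₃ := fun h => hy₃P (h ▸ hz₁)
    have h23 : z₂ ≠ y₃ := fun h => hy₃P (h ▸ hz₂)
    have hNTeq : ({z₁, z₂, y₃} : Finset (Fin m)) = NT := by
      refine Finset.eq_of_subset_of_card_le ?_ ?_
      · intro z hz'
        simp only [Finset.mem_insert, Finset.mem_singleton] at hz'
        rcases hz' with rfl | rfl | rfl
        · exact hPsub hz₁
        · exact hPsub hz₂
        · exact hy₃
      · rw [hNTc, Finset.card_eq_three.2 ⟨z₁, z₂, y₃, h12, h13, h23, rfl⟩]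
    refine ⟨hC.full, hspans, hcard, z₁, z₂, y₃, p z₁, q z₁, p z₂, q z₂, h12, h13, h23, hpq z₁ hz₁,
      hpq z₂ hz₂, ?_, ?_⟩
    · intro z ha hb hc
      apply htr
      rw [← hNTeq]
      simp [ha, hb, hc]
    · have h := hrel2
      rw [← sub_eq_zero]
      rw [← h]
      abel
  · right
    have hPNTeq : P = NT := Finset.eq_of_subset_of_card_le hPsub (by omega)
    obtain ⟨z₁, z₂, z₃, h12, h13, h23, hz⟩ := Finset.card_eq_three.1 h3'
    have hz₁ : z₁ ∈ P := by rw [hz]; simp
    have hz₂ : z₂ ∈ P := by rw [hz]; simp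
    have hz₃ : z₃ ∈ P := by rw [hz]; simp
    refine ⟨hC.full, hspans, hcard, z₁, z₂, z₃, p z₁, q z₁, p z₂, q z₂, p z₃, q z₃, h12, h13, h23,
      hpq z₁ hz₁, hpq z₂ hz₂, hpq z₃ hz₃, ?_, ?_⟩
    · intro z ha hb hc
      apply htr
      rw [← hPNTeq, hz]
      simp [ha, hb, hc]
    · rw [hz, Finset.sum_insert (by simp [h12, h13]), Finset.sum_pair h23] at hrel2
      rw [← sub_eq_zero, ← hrel2]
      abel

end Pool.Agent.Lib.H45DA
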