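import Pool.Agent.Lib.H45DA.X1
import Pool.Agent.Lib.H45DA.X2
import Pool.Agent.Lib.H45DA.X3

/-!
# Project H45DA, chunk X4: the cases at a singular elliptic point
-/

namespace Pool.Agent.Lib.H45DA

variable {d m : ℕ}

private theorem X4_one_not_elt (hm : 3 ≤ m) : ¬ IsElt (one d m) := by
  have h1 : ∀ y : Fin m, one d m (Sum.inr y) = 1 := fun y => rfl
  rintro (h | ⟨y, _, h⟩)
  · have h2 := h ⟨0, by omega⟩
    rw [h1] at h2
    exact one_ne_zero h2
  · by_cases hy : (y : ℕ) = 0
    · have h2 := h ⟨1, by omega⟩ (by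
        intro h3
        have h4 := congrArg Fin.val h3
        simp only at h4
        omega)
      rw [h1] at h2
      exact one_ne_zero h2
    · have h2 := h ⟨0, by omega⟩ (by
        intro h3
        have h4 := congrArg Fin.val h3
        simp only at h4
        omega)
      rw [h1] at h2
      exact one_ne_zero h2

private theorem X4_card {C : Finset (Idx d m → ℤ)} (h1 : one d m ∉ C) (hC : IsZBasis C) :
    C.card + 1 = d + m := by
  obtain ⟨b, hb⟩ := hC
  have h2 : (Set.range b).ncard = d + m := by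
    rw [← Set.image_univ, Set.ncard_image_of_injective _ b.injective, Set.ncard_univ,
      Nat.card_eq_fintype_card]
    simp
  rw [hb, Set.ncard_insert_of_notMem (by exact_mod_cast h1), Set.ncard_coe_finset] at h2
  exact h2

/-- **Chunk X4** (M). The cases at a singular elliptic point.

Proof. Suppose that the first two cases do not hold. Then every full basis `B ⊆ E` (`Full`, `Spans`,
`card + 1 = d + m`) has at most two non-trivial blocks (not case 1) and is a `ℤ`-basis (not case 2). Take `B` from X1.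
`E ≠ B` by `hns`, so let `x ∈ E`, `x ∉ B`, and `C = insert x B`: full, spanning, `d + m` elements, not a `ℤ`-basis (the range of
a basis indexed by `Idx d m` has `d + m` elements, but `C ∪ {𝟙}` has `d + m + 1`; `𝟙 ∉ C`), so (not case 2) it has
at least three non-trivial blocks. X2 gives `x = ∑ w_e e + δ 𝟙`. Apply X3 to `C` with `w_x = -1` and `-δ`: for `e = x`,
`C - x = B`; for `e ∈ B` with `w_e ≠ 0`, `C - e = insert x (B.erase e)` spans by X2, and if it is full, it is a full
basis, so it is a `ℤ`-basis with at most two non-trivial blocks, and `w_e = ± 1` by X2. (`Loc C a`: `elt`, `height`,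
`klt` are inherited from `E`.) -/
theorem elliptic_cases (hm : 3 ≤ m) {E : Finset (Idx d m → ℤ)} {a : Idx d m → ℝ} (hE : Loc E a)
    (hns : ¬ ({y : Fin m | ¬ Triv E y}.ncard ≤ 2 ∧ IsZBasis E)) :
    (∃ B ⊆ E, Full B ∧ Spans B ∧ B.card + 1 = d + m ∧ 3 ≤ {y : Fin m | ¬ Triv B y}.ncard) ∨
    (∃ C ⊆ E, Full C ∧ Spans C ∧ {y : Fin m | ¬ Triv C y}.ncard ≤ 2 ∧ ¬ IsZBasis C) ∨
    ∃ C ⊆ E, CircuitTwo C ∨ CircuitThree C := by
  by_contra hcon
  rw [not_or, not_or] at hcon
  obtain ⟨hn1, hn2, hn3⟩ := hcon
  have h1 : ∀ B ⊆ E, Full B → Spans B → B.card + 1 = d + m →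
      {y : Fin m | ¬ Triv B y}.ncard ≤ 2 := by
    intro B hBE hf hsp hc
    by_contra hlt
    exact hn1 ⟨B, hBE, hf, hsp, hc, by omega⟩
  have h2 : ∀ C ⊆ E, Full C → Spans C → {y : Fin m | ¬ Triv C y}.ncard ≤ 2 → IsZBasis C := by
    intro C hCE hf hsp hc
    by_contra hz
    exact hn2 ⟨C, hCE, hf, hsp, hc, hz⟩
  obtain ⟨B, hBE, hfB, hspB, hcB⟩ := exists_full_basis hm hE
  have hncB := h1 B hBE hfB hspB hcB
  have hzB := h2 B hBE hfB hspB hncB
  have hne : B ≠ E := by
    intro h
    rw [h] at hncB hzB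
    exact hns ⟨hncB, hzB⟩
  obtain ⟨x, hxE, hxB⟩ := Finset.exists_of_ssubset (lt_of_le_of_ne hBE hne)
  have hCE : insert x B ⊆ E := Finset.insert_subset hxE hBE
  have hfC : Full (insert x B) := by
    intro y
    obtain ⟨e, he, hey⟩ := hfB y
    exact ⟨e, Finset.mem_insert_of_mem he, hey⟩
  have hspC : Spans (insert x B) := fun z hz hz2 =>
    hspB z hz fun e he => hz2 e (Finset.mem_insert_of_mem he)
  have hcC : (insert x B).card = d + m := by
    rw [Finset.card_insert_of_notMem hxB, hcB]
  have h1C : one d m ∉ insert x B := fun h => X4_one_not_elt hm (hE.elt _ (hCE h))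
  have hzC : ¬ IsZBasis (insert x B) := by
    intro h
    have := X4_card h1C h
    omega
  have h3 : 3 ≤ {y : Fin m | ¬ Triv (insert x B) y}.ncard := by
    by_contra hlt
    exact hzC (h2 _ hCE hfC hspC (by omega))
  obtain ⟨w, δ, hx, hw⟩ := exchange hm B (fun e he => hE.elt e (hBE he)) hzB x (hE.elt x hxE) hxB
  have hwB : ∀ e ∈ B, (if e = x then (-1 : ℤ) else w e) = w e := by
    intro e he
    rw [if_neg]
    intro hex
    rw [hex] at he
    exact hxB he
  have hrel : ∑ e ∈ insert x B, (if e = x then (-1 : ℤ) else w e) • e = (-δ) • one d m := by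
    rw [Finset.sum_insert hxB, if_pos rfl, Finset.sum_congr rfl fun e he => by rw [hwB e he]]
    have h4 : ∑ e ∈ B, w e • e = x - δ • one d m := by
      rw [eq_sub_iff_add_eq]
      exact hx.symm
    rw [h4, neg_smul, neg_smul, one_smul]
    abel
  refine hn3 ⟨insert x B, hCE, circuit_cases hm (hE.mono hCE hfC hspC) hcC h3
    (fun e => if e = x then (-1 : ℤ) else w e) (-δ)
    ⟨x, Finset.mem_insert_self x B, by rw [if_pos rfl]; norm_num⟩ hrel ?_⟩
  intro e he hwe hfull
  by_cases hex : e = x
  · rw [if_pos hex]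
    refine ⟨Or.inr rfl, ?_⟩
    rw [hex, Finset.erase_insert hxB]
    exact hncB
  · rw [if_neg hex] at hwe ⊢
    have heB : e ∈ B := by
      rcases Finset.mem_insert.1 he with h | h
      · exact absurd h hex
      · exact h
    have hCe : (insert x B).erase e = insert x (B.erase e) :=
      Finset.erase_insert_of_ne fun h => hex h.symm
    rw [hCe] at hfull ⊢
    obtain ⟨hsp', hz'⟩ := hw e heB hwe
    have hsub : insert x (B.erase e) ⊆ E :=
      Finset.insert_subset hxE ((Finset.erase_subset e B).trans hBE)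
    have hxe : x ∉ B.erase e := fun h => hxB (Finset.mem_of_mem_erase h)
    have hcard : (insert x (B.erase e)).card + 1 = d + m := by
      rw [Finset.card_insert_of_notMem hxe, Finset.card_erase_of_mem heB]
      have := Finset.card_pos.2 ⟨e, heB⟩
      omega
    have hnc := h1 _ hsub hfull hsp' hcard
    exact ⟨hz' (h2 _ hsub hfull hsp' hnc), hnc⟩

end Pool.Agent.Lib.H45DA
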