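import Pool.Agent.Lib.H45DA.Loc

/-!
# Project H45DA: the two special circuits
-/

namespace Pool.Agent.Lib.H45DA

variable {d m : ℕ}

/-- The block of `y` in `C` is `{e, e'}`, `e ≠ e'`, both with `μ = 1`. -/
def IsPair (C : Finset (Idx d m → ℤ)) (y : Fin m) (e e' : Idx d m → ℤ) : Prop :=
  e ∈ C ∧ e' ∈ C ∧ e ≠ e' ∧ e (Sum.inr y) = 1 ∧ e' (Sum.inr y) = 1 ∧
    ∀ f ∈ C, f (Sum.inr y) ≠ 0 → f = e ∨ f = e'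

/-- The circuit `e₁ - e₁' + e₂ - e₂' = 0`: the blocks of `y₁`, `y₂` are pairs, and all other blocks but that of
`y₃` are trivial. -/
def CircuitTwo (C : Finset (Idx d m → ℤ)) : Prop :=
  Full C ∧ Spans C ∧ C.card = d + m ∧ ∃ (y₁ y₂ y₃ : Fin m) (e₁ e₁' e₂ e₂' : Idx d m → ℤ),
    y₁ ≠ y₂ ∧ y₁ ≠ y₃ ∧ y₂ ≠ y₃ ∧ IsPair C y₁ e₁ e₁' ∧ IsPair C y₂ e₂ e₂' ∧
    (∀ z, z ≠ y₁ → z ≠ y₂ → z ≠ y₃ → Triv C z) ∧ e₁ + e₂ = e₁' + e₂'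

/-- The circuit `e₁ - e₁' + e₂ - e₂' + e₃ - e₃' = 0`: the blocks of `y₁`, `y₂`, `y₃` are pairs, and all other
blocks are trivial. -/
def CircuitThree (C : Finset (Idx d m → ℤ)) : Prop :=
  Full C ∧ Spans C ∧ C.card = d + m ∧ ∃ (y₁ y₂ y₃ : Fin m) (e₁ e₁' e₂ e₂' e₃ e₃' : Idx d m → ℤ),
    y₁ ≠ y₂ ∧ y₁ ≠ y₃ ∧ y₂ ≠ y₃ ∧ IsPair C y₁ e₁ e₁' ∧ IsPair C y₂ e₂ e₂' ∧ IsPair C y₃ e₃ e₃' ∧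
    (∀ z, z ≠ y₁ → z ≠ y₂ → z ≠ y₃ → Triv C z) ∧ e₁ + e₂ + e₃ = e₁' + e₂' + e₃'

end Pool.Agent.Lib.H45DA
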