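import Pool.Agent.Lib.H45DA.Loc

/-!
# Project H45DA, chunk Y0: log discrepancies are nonnegative
-/

namespace Pool.Agent.Lib.H45DA

variable {d m : ℕ}

/-- **Chunk Y0** (S/M). Log discrepancies are nonnegative.

Proof. In the block of `z` let `μ_z` be the greatest `e (inr z)` (`hC.full`), attained at `c z`. Then `D ≤ ∑_{block z} β_e e_z ≤ μ_z ∑_{block z} β_e`, so
`∑ β ≥ ∑_z ∑_{block z} β_e ≥ D ∑_z 1/μ_z ≥ D (m - 2)` by `hC.klt c`. (The blocks are disjoint, `hC.elt`.) -/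
theorem weight_nonneg {C : Finset (Idx d m → ℤ)} {a : Idx d m → ℝ} (hC : Loc C a)
    (β : (Idx d m → ℤ) → ℝ) (hβ : ∀ e ∈ C, 0 ≤ β e) (D : ℝ) (hD : 0 ≤ D)
    (hδ : ∀ z, D ≤ ∑ e ∈ C, β e * e (Sum.inr z)) :
    0 ≤ ∑ e ∈ C, β e - ((m : ℝ) - 2) * D := by
  have hpos : ∀ e ∈ C, ∀ y, 0 ≤ e (Sum.inr y) := by
    intro e he y
    rcases hC.elt e he with h | ⟨z, hz, hz'⟩
    · rw [h y]
    · by_cases hyz : y = z
      · rw [hyz]; omega
      · rw [hz' y hyz]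
  have hex : ∀ y : Fin m, ∃ c ∈ C, c (Sum.inr y) ≠ 0 ∧
      ∀ e ∈ C, e (Sum.inr y) ≤ c (Sum.inr y) := by
    intro y
    obtain ⟨e₀, he₀, hne⟩ := hC.full y
    obtain ⟨c, hc, hmax⟩ := Finset.exists_max_image C (fun e => e (Sum.inr y)) ⟨e₀, he₀⟩
    refine ⟨c, hc, ?_, hmax⟩
    have h1 := hmax e₀ he₀
    have h2 := hpos e₀ he₀ y
    have h3 : e₀ (Sum.inr y) ≤ c (Sum.inr y) := h1
    omega
  choose c hcC hcne hcmax using hex
  have hcpos : ∀ y, (0 : ℝ) < (c y (Sum.inr y) : ℝ) := by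
    intro y
    have h1 := hpos (c y) (hcC y) y
    have h2 := hcne y
    have h3 : 0 < c y (Sum.inr y) := by omega
    exact_mod_cast h3
  have hklt := hC.klt c (fun y => ⟨hcC y, hcne y⟩)
  -- each element has total weight at most one
  have hone : ∀ e ∈ C, ∑ y : Fin m, (e (Sum.inr y) : ℝ) * (1 / (c y (Sum.inr y) : ℝ)) ≤ 1 := by
    intro e he
    rcases hC.elt e he with h | ⟨z, hz, hz'⟩
    · have : ∑ y : Fin m, (e (Sum.inr y) : ℝ) * (1 / (c y (Sum.inr y) : ℝ)) = 0 := by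
        refine Finset.sum_eq_zero fun y _ => ?_
        rw [h y]; simp
      rw [this]; exact zero_le_one
    · rw [Finset.sum_eq_single z]
      · rw [mul_one_div, div_le_one (hcpos z)]
        exact_mod_cast hcmax z e he
      · intro y _ hy
        rw [hz' y hy]; simp
      · intro h; exact absurd (Finset.mem_univ z) h
  have h1 : ∑ e ∈ C, β e * ∑ y : Fin m, (e (Sum.inr y) : ℝ) * (1 / (c y (Sum.inr y) : ℝ)) ≤
      ∑ e ∈ C, β e := by
    refine Finset.sum_le_sum fun e he => ?_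
    calc β e * ∑ y : Fin m, (e (Sum.inr y) : ℝ) * (1 / (c y (Sum.inr y) : ℝ))
        ≤ β e * 1 := mul_le_mul_of_nonneg_left (hone e he) (hβ e he)
      _ = β e := mul_one _
  have h2 : ∑ e ∈ C, β e * ∑ y : Fin m, (e (Sum.inr y) : ℝ) * (1 / (c y (Sum.inr y) : ℝ)) =
      ∑ y : Fin m, (∑ e ∈ C, β e * e (Sum.inr y)) * (1 / (c y (Sum.inr y) : ℝ)) := by
    simp only [Finset.mul_sum, Finset.sum_mul]
    rw [Finset.sum_comm]
    exact Finset.sum_congr rfl fun y _ => Finset.sum_congr rfl fun e _ => by ring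
  have h3 : D * ∑ y : Fin m, (1 / (c y (Sum.inr y) : ℝ)) ≤
      ∑ y : Fin m, (∑ e ∈ C, β e * e (Sum.inr y)) * (1 / (c y (Sum.inr y) : ℝ)) := by
    rw [Finset.mul_sum]
    refine Finset.sum_le_sum fun y _ => ?_
    exact mul_le_mul_of_nonneg_right (hδ y) (one_div_nonneg.2 (hcpos y).le)
  have h4 : D * ((m : ℝ) - 2) ≤ D * ∑ y : Fin m, (1 / (c y (Sum.inr y) : ℝ)) :=
    mul_le_mul_of_nonneg_left hklt.le hD
  rw [h2] at h1
  linarith

end Pool.Agent.Lib.H45DA
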