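import Pool.Agent.Lib.H45DA.V5
import Pool.Agent.Lib.H45DA.N6
import Pool.Agent.Lib.H45DA.Y0

/-!
# Project H45DA, chunk Y1: bases with three non-trivial blocks
-/

open MeasureTheory
open scoped Nat

namespace Pool.Agent.Lib.H45DA

variable {d m : ℕ}

open scoped Classical in
private theorem Y1_blk {B : Finset (Idx d m → ℤ)} {a : Idx d m → ℝ} (hB : Loc B a)
    {e : Idx d m → ℤ} (he : e ∈ B) {z : Fin m} (hz : e (Sum.inr z) ≠ 0) :
    1 ≤ e (Sum.inr z) ∧ ∀ z', z' ≠ z → e (Sum.inr z') = 0 := by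
  rcases hB.elt e he with h | ⟨y, h1, h2⟩
  · exact absurd (h z) hz
  · have h3 : z = y := by
      by_contra h4
      exact hz (h2 z h4)
    subst h3
    exact ⟨h1, h2⟩

open scoped Classical in
private theorem Y1_card {B : Finset (Idx d m → ℤ)} {a : Idx d m → ℝ} (hB : Loc B a) :
    ∑ z : Fin m, (B.filter fun e => e (Sum.inr z) ≠ 0).card ≤ B.card := by
  have h1 : ∀ z : Fin m, (B.filter fun e => e (Sum.inr z) ≠ 0).card =
      ∑ e ∈ B, if e (Sum.inr z) ≠ 0 then 1 else 0 := fun z => by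
    rw [Finset.card_filter]
  rw [Finset.sum_congr rfl fun z _ => h1 z, Finset.sum_comm, Finset.card_eq_sum_ones]
  refine Finset.sum_le_sum fun e he => ?_
  rw [← Finset.card_filter]
  refine Finset.card_le_one.2 fun z hz z' hz' => ?_
  rw [Finset.mem_filter] at hz hz'
  by_contra h
  exact hz.2 ((Y1_blk hB he hz'.2).2 z h)

open scoped Classical in
private theorem Y1_prod {B : Finset (Idx d m → ℤ)} {a : Idx d m → ℝ} (hB : Loc B a)
    (w : Fin m → ℝ) (F : ℝ → ℝ) (hF : F 1 = 1) :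
    ∏ e ∈ B, F (∏ z : Fin m, if e (Sum.inr z) ≠ 0 then w z else 1) =
      ∏ z : Fin m, F (w z) ^ (B.filter fun e => e (Sum.inr z) ≠ 0).card := by
  have h1 : ∀ e ∈ B, F (∏ z : Fin m, if e (Sum.inr z) ≠ 0 then w z else 1) =
      ∏ z : Fin m, if e (Sum.inr z) ≠ 0 then F (w z) else 1 := by
    intro e he
    by_cases hz : ∃ z, e (Sum.inr z) ≠ 0
    · obtain ⟨z, hz⟩ := hz
      have h2 := (Y1_blk hB he hz).2
      rw [Finset.prod_eq_single z, if_pos hz, Finset.prod_eq_single z, if_pos hz]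
      · intro z' _ hz'
        rw [if_neg (not_not.2 (h2 z' hz'))]
      · intro h
        exact absurd (Finset.mem_univ z) h
      · intro z' _ hz'
        rw [if_neg (not_not.2 (h2 z' hz'))]
      · intro h
        exact absurd (Finset.mem_univ z) h
    · push Not at hz
      rw [Finset.prod_eq_one fun z _ => if_neg (not_not.2 (hz z)),
        Finset.prod_eq_one fun z _ => if_neg (not_not.2 (hz z)), hF]
  rw [Finset.prod_congr rfl h1, Finset.prod_comm]
  refine Finset.prod_congr rfl fun z _ => ?_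
  rw [← Finset.prod_filter, Finset.prod_const]

private theorem Y1_pow_le (n : ℕ) (hn : 1 ≤ n) (A : ℝ) (hA : 0 ≤ A) :
    A ^ n ≤ (n : ℝ) ^ n * Real.exp (A - n) := by
  have hn0 : (0 : ℝ) < n := by exact_mod_cast hn
  have h1 : A / n ≤ Real.exp (A / n - 1) := by
    have := Real.add_one_le_exp (A / n - 1)
    linarith
  have h2 : (A / n) ^ n ≤ Real.exp (A / n - 1) ^ n :=
    pow_le_pow_left₀ (div_nonneg hA hn0.le) h1 n
  have h3 : Real.exp (A / n - 1) ^ n = Real.exp (A - n) := by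
    rw [← Real.exp_nat_mul]
    congr 1
    field_simp
  rw [h3, div_pow, div_le_iff₀ (pow_pos hn0 n)] at h2
  linarith

/-- **Chunk Y1** (L). The bound for a full basis with at least three non-trivial blocks.

Proof. `n = d + 1`. `T` = the non-trivial `z`, `N z` = number of elements of the block of `z`, `δ z = ∑_{e ∈ B} e (inr z)` (a natural number; `toNat`).
Then `1 ≤ N z ≤ δ z`, `δ z ≥ 2` for `z ∈ T` (one element: `μ ≥ 2`; otherwise at least two elements), `N z = δ z = 1` for the trivial `z`. With `r` rays: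
`r + ∑_z N z = d + m - 1`, so `r + ∑_T N z = n + T.card - 2`. If `T.card ≥ 4`, then `n ≥ 3`: for `d = 1` we would have `r = 0` and `N z = 1` for all
`z` (`∑_z N z ≤ m`), so for the elements `c z` of the blocks `∑ 1/μ_z ≤ 4/2 + (m - 4) = m - 2`, against `hB.klt`.
Take `y`, `D`, `η` from N6. `β e = 1` for rays, `D/δ z` in the blocks `z ≠ y` (also the trivial ones), `η` in the block of `y`. Block degrees: `D` for `z ≠ y`,
`η δ y ≥ D`. `c = D^(m-2)/((d+1)! ∏_B β)` by V5. Let `A = ∑ β - (m-2) D ≥ 0` by Y0. `A/n ≤ exp((A-n)/n)`, so `Aⁿ ≤ nⁿ exp(A-n)`, and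
`exp(A-n) D^(m-2)/∏ β = ∏_B E(β e) / E(D)^(m-2)` as `A - n = ∑_B (β e - 1) + (m-2)(1 - D)` (`B.card = n + m - 2`). Rays: `E(1) = 1`. The `m - T.card` trivial
blocks give `E(D)^(m - T.card)`. So this is `∏_{T.erase y} E(D/δ z)^(N z) E(η)^(N y)/E(D)^(T.card - 2) ≤ 2((n-1)/n)ⁿ`, and `(n-1)ⁿ = dⁿ`. -/
theorem bound_basis (hd : 1 ≤ d) (hm : 3 ≤ m) {B : Finset (Idx d m → ℤ)} {a : Idx d m → ℝ}
    (hB : Loc B a) (hcard : B.card + 1 = d + m) (h3 : 3 ≤ {y : Fin m | ¬ Triv B y}.ncard) :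
    HasBound B := by
  classical
  obtain ⟨N, hN⟩ : ∃ N : Fin m → ℕ, N = fun z => (B.filter fun e => e (Sum.inr z) ≠ 0).card := ⟨_, rfl⟩
  obtain ⟨S, hS⟩ : ∃ S : Fin m → ℤ, S = fun z => ∑ e ∈ B.filter (fun e => e (Sum.inr z) ≠ 0),
    e (Sum.inr z) := ⟨_, rfl⟩
  have hNS : ∀ z, (N z : ℤ) ≤ S z := by
    intro z
    rw [hN, hS]
    have h1 : ((B.filter fun e => e (Sum.inr z) ≠ 0).card : ℤ) =
        ∑ _e ∈ B.filter (fun e => e (Sum.inr z) ≠ 0), (1 : ℤ) := by simp
    dsimp only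
    rw [h1]
    refine Finset.sum_le_sum fun e he => ?_
    rw [Finset.mem_filter] at he
    exact (Y1_blk hB he.1 he.2).1
  have hN1 : ∀ z, 1 ≤ N z := by
    intro z
    obtain ⟨e, he, hez⟩ := hB.full z
    rw [hN]
    exact Finset.card_pos.2 ⟨e, Finset.mem_filter.2 ⟨he, hez⟩⟩
  obtain ⟨δ, hδ⟩ : ∃ δ : Fin m → ℕ, ∀ z, (δ z : ℤ) = S z := by
    refine ⟨fun z => (S z).toNat, fun z => Int.toNat_of_nonneg ?_⟩
    have := hNS z
    omega
  have hNδ : ∀ z, N z ≤ δ z := by
    intro z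
    have h1 := hNS z
    rw [← hδ z] at h1
    exact_mod_cast h1
  have hδ1 : ∀ z, 1 ≤ δ z := fun z => (hN1 z).trans (hNδ z)
  -- trivial blocks
  have htriv : ∀ z, Triv B z → N z = 1 ∧ δ z = 1 := by
    rintro z ⟨e, he, he1, he2⟩
    have h1 : B.filter (fun e => e (Sum.inr z) ≠ 0) = {e} := by
      ext e'
      rw [Finset.mem_filter, Finset.mem_singleton]
      constructor
      · rintro ⟨h2, h3⟩
        exact he2 e' h2 h3
      · rintro rfl
        exact ⟨he, by rw [he1]; exact one_ne_zero⟩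
    have h2 : N z = 1 := by
      rw [hN]
      dsimp only
      rw [h1, Finset.card_singleton]
    have h3 : S z = 1 := by
      rw [hS]
      dsimp only
      rw [h1, Finset.sum_singleton, he1]
    have h4 := hδ z
    rw [h3] at h4
    exact ⟨h2, by exact_mod_cast h4⟩
  have hnon : ∀ z, ¬ Triv B z → 2 ≤ δ z := by
    intro z hz
    by_contra hcon
    have h1 : δ z = 1 := by
      have := hδ1 z
      omega
    have h2 : N z = 1 := by
      have h3 := hN1 z
      have h4 := hNδ z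
      omega
    apply hz
    rw [hN] at h2
    obtain ⟨e, he⟩ := Finset.card_eq_one.1 h2
    have he0 : e ∈ B.filter (fun e => e (Sum.inr z) ≠ 0) := by rw [he]; exact Finset.mem_singleton_self e
    have h3 : S z = e (Sum.inr z) := by
      rw [hS]
      dsimp only
      rw [he, Finset.sum_singleton]
    refine ⟨e, (Finset.mem_filter.1 he0).1, ?_, fun e' he' h4 => ?_⟩
    · rw [← h3, ← hδ z, h1]
      rfl
    · have h5 : e' ∈ B.filter (fun e => e (Sum.inr z) ≠ 0) := Finset.mem_filter.2 ⟨he', h4⟩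
      rw [he] at h5
      exact Finset.mem_singleton.1 h5
  obtain ⟨T, hT⟩ : ∃ T : Finset (Fin m), T = Finset.univ.filter fun z => ¬ Triv B z := ⟨_, rfl⟩
  have hTmem : ∀ z, z ∈ T ↔ ¬ Triv B z := by
    intro z
    rw [hT, Finset.mem_filter]
    exact ⟨fun h => h.2, fun h => ⟨Finset.mem_univ z, h⟩⟩
  have hT3 : 3 ≤ T.card := by
    have h1 : {y : Fin m | ¬ Triv B y} = (T : Set (Fin m)) := by
      ext z
      rw [Finset.mem_coe, hTmem]
      exact Iff.rfl
    rw [h1, Set.ncard_coe_finset] at h3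
    exact h3
  have hTm : T.card ≤ m := by
    have := Finset.card_le_univ T
    rwa [Fintype.card_fin] at this
  have hcardN : ∑ z, N z ≤ B.card := by
    rw [hN]
    exact Y1_card hB
  have hsplit : ∑ z, N z = ∑ z ∈ T, N z + (m - T.card) := by
    rw [← Finset.sum_add_sum_compl T N]
    congr 1
    rw [Finset.sum_congr rfl (g := fun _ => 1) fun z hz => by
      rw [Finset.mem_compl, hTmem, not_not] at hz
      exact (htriv z hz).1]
    rw [← Finset.card_eq_sum_ones, Finset.card_compl, Fintype.card_fin]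
  have htot : ∑ z ∈ T, N z + 2 ≤ (d + 1) + T.card := by omega
  have hc4 : 4 ≤ T.card → 3 ≤ d + 1 := by
    intro h4
    by_contra hcon
    have hd1 : d = 1 := by omega
    have hNle : ∑ z, N z ≤ m := by omega
    have hNall : ∀ z, N z = 1 := by
      intro z
      by_contra hne
      have h5 : 2 ≤ N z := by
        have := hN1 z
        omega
      have h6 : ∑ z' ∈ Finset.univ.erase z, N z' + N z = ∑ z', N z' :=
        Finset.sum_erase_add _ _ (Finset.mem_univ z)
      have h7 : (Finset.univ.erase z).card ≤ ∑ z' ∈ Finset.univ.erase z, N z' := by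
        rw [Finset.card_eq_sum_ones]
        exact Finset.sum_le_sum fun z' _ => hN1 z'
      rw [Finset.card_erase_of_mem (Finset.mem_univ z), Finset.card_univ, Fintype.card_fin] at h7
      omega
    choose c hc using fun z => hB.full z
    have hcS : ∀ z, c z (Sum.inr z) = δ z := by
      intro z
      have h5 := hNall z
      rw [hN] at h5
      obtain ⟨e, he⟩ := Finset.card_eq_one.1 h5
      have h6 : c z ∈ B.filter (fun e => e (Sum.inr z) ≠ 0) := Finset.mem_filter.2 ⟨(hc z).1, (hc z).2⟩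
      rw [he, Finset.mem_singleton] at h6
      rw [hδ z, hS]
      dsimp only
      rw [he, Finset.sum_singleton, h6]
    have h8 := hB.klt c hc
    have h9 : ∑ z, 1 / (c z (Sum.inr z) : ℝ) ≤ ∑ z : Fin m, (1 - if z ∈ T then 1 / 2 else 0 : ℝ) := by
      refine Finset.sum_le_sum fun z _ => ?_
      rw [hcS z]
      by_cases hz : z ∈ T
      · rw [if_pos hz]
        have h10 : (2 : ℝ) ≤ ((δ z : ℤ) : ℝ) := by
          have := hnon z ((hTmem z).1 hz)
          exact_mod_cast this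
        have h11 : 1 / ((δ z : ℤ) : ℝ) ≤ 1 / 2 := one_div_le_one_div_of_le (by norm_num) h10
        linarith
      · rw [if_neg hz, sub_zero]
        have h10 : (1 : ℝ) ≤ ((δ z : ℤ) : ℝ) := by
          have := hδ1 z
          exact_mod_cast this
        have h11 : 1 / ((δ z : ℤ) : ℝ) ≤ 1 / 1 := one_div_le_one_div_of_le (by norm_num) h10
        linarith
    rw [Finset.sum_sub_distrib, Finset.sum_const, Finset.card_univ, Fintype.card_fin,
      ← Finset.sum_filter, Finset.sum_const, nsmul_eq_mul, nsmul_eq_mul] at h9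
    have h12 : (Finset.univ.filter fun z => z ∈ T) = T := by
      ext z
      simp
    rw [h12] at h9
    have h13 : (4 : ℝ) ≤ T.card := by exact_mod_cast h4
    linarith
  obtain ⟨y, hy, D, η, hD, hη, hDη, hprod⟩ := numeric_choice (d + 1) (by omega) T hT3 N δ
    (fun z hz => hnon z ((hTmem z).1 hz)) (fun z _ => hNδ z) htot hc4
  obtain ⟨w, hw⟩ : ∃ w : Fin m → ℝ, w = fun z => if z = y then η else D / δ z := ⟨_, rfl⟩
  have hwy : w y = η := by rw [hw]; exact if_pos rfl
  have hwz : ∀ z, z ≠ y → w z = D / δ z := fun z hz => by rw [hw]; exact if_neg hz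
  have hδpos : ∀ z, (0 : ℝ) < δ z := fun z => by exact_mod_cast hδ1 z
  have hwpos : ∀ z, 0 < w z := by
    intro z
    by_cases hz : z = y
    · rw [hz, hwy]
      exact hη
    · rw [hwz z hz]
      exact div_pos hD (hδpos z)
  obtain ⟨β, hβ⟩ : ∃ β : (Idx d m → ℤ) → ℝ, β = fun e => ∏ z : Fin m,
    if e (Sum.inr z) ≠ 0 then w z else 1 := ⟨_, rfl⟩
  have hβpos : ∀ e, 0 < β e := by
    intro e
    rw [hβ]
    refine Finset.prod_pos fun z _ => ?_
    by_cases hz : e (Sum.inr z) ≠ 0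
    · rw [if_pos hz]
      exact hwpos z
    · rw [if_neg hz]
      exact one_pos
  have hβz : ∀ e ∈ B, ∀ z, e (Sum.inr z) ≠ 0 → β e = w z := by
    intro e he z hz
    rw [hβ]
    dsimp only
    rw [Finset.prod_eq_single z, if_pos hz]
    · intro z' _ hz'
      rw [if_neg (not_not.2 ((Y1_blk hB he hz).2 z' hz'))]
    · intro h
      exact absurd (Finset.mem_univ z) h
  have hdeg : ∀ z, ∑ e ∈ B, β e * e (Sum.inr z) = w z * δ z := by
    intro z
    have h1 : ((δ z : ℤ) : ℝ) = ((S z : ℤ) : ℝ) := by rw [hδ z]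
    rw [Int.cast_natCast] at h1
    rw [h1, hS]
    dsimp only
    rw [Int.cast_sum, Finset.mul_sum, Finset.sum_filter]
    refine Finset.sum_congr rfl fun e he => ?_
    by_cases hz : e (Sum.inr z) = 0
    · rw [if_neg (not_not.2 hz), hz, Int.cast_zero, mul_zero]
    · rw [if_pos hz, hβz e he z hz]
  have hdeg1 : ∀ z, z ≠ y → ∑ e ∈ B, β e * e (Sum.inr z) = D := by
    intro z hz
    rw [hdeg z, hwz z hz, div_mul_cancel₀ _ (hδpos z).ne']
  have hdeg2 : D ≤ ∑ e ∈ B, β e * e (Sum.inr y) := by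
    rw [hdeg y, hwy]
    exact hDη
  have hP : 0 < ∏ e ∈ B, β e := Finset.prod_pos fun e _ => hβpos e
  have hfac : (0 : ℝ) < (d + 1)! := by exact_mod_cast Nat.factorial_pos (d + 1)
  refine ⟨y, β, D, D ^ (m - 2) / ((d + 1)! * ∏ e ∈ B, β e), fun e _ => (hβpos e).le, hdeg1, hdeg2,
    by positivity, fun t ht => ?_, ?_⟩
  · refine (volume_basis hm B hB.elt hB.full hcard hB.span y β (fun e _ => hβpos e) D hD hdeg1 t
      ht).trans (le_of_eq ?_)
    congr 1
    ring
  · have hA : 0 ≤ ∑ e ∈ B, β e - ((m : ℝ) - 2) * D := by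
      refine weight_nonneg hB β (fun e _ => (hβpos e).le) D hD.le fun z => ?_
      by_cases hz : z = y
      · rw [hz]
        exact hdeg2
      · exact (hdeg1 z hz).ge
    obtain ⟨A, hAdef⟩ : ∃ A, A = ∑ e ∈ B, β e - ((m : ℝ) - 2) * D := ⟨_, rfl⟩
    rw [← hAdef] at hA ⊢
    have h1 := Y1_pow_le (d + 1) (by omega) A hA
    have h2 : ((d + 1)! : ℝ) * (D ^ (m - 2) / ((d + 1)! * ∏ e ∈ B, β e)) =
        D ^ (m - 2) / ∏ e ∈ B, β e := by
      field_simp
    rw [h2]
    have hEE1 : EE 1 = 1 := by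
      unfold EE
      rw [sub_self, Real.exp_zero, div_one]
    have hEpos : ∀ t, 0 < t → 0 < EE t := fun t ht => div_pos (Real.exp_pos _) ht
    -- the product over all elements
    have h3 : ∏ e ∈ B, EE (β e) = ∏ z, EE (w z) ^ N z := by
      rw [hβ, hN]
      exact Y1_prod hB w EE hEE1
    have h4 : ∏ e ∈ B, EE (β e) ≤
        2 * ((((d + 1 : ℕ) : ℝ) - 1) / ((d + 1 : ℕ) : ℝ)) ^ (d + 1) * EE D ^ (m - 2) := by
      have h5 : ∏ z, EE (w z) ^ N z = (∏ z ∈ T, EE (w z) ^ N z) * EE D ^ (m - T.card) := by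
        rw [← Finset.prod_mul_prod_compl T]
        congr 1
        rw [Finset.prod_congr rfl (g := fun _ => EE D) fun z hz => by
          rw [Finset.mem_compl, hTmem, not_not] at hz
          have hzy : z ≠ y := by
            rintro rfl
            exact (hTmem z).1 hy hz
          rw [hwz z hzy, (htriv z hz).1, (htriv z hz).2, Nat.cast_one, div_one, pow_one]]
        rw [Finset.prod_const, Finset.card_compl, Fintype.card_fin]
      have h6 : ∏ z ∈ T, EE (w z) ^ N z =
          (∏ z ∈ T.erase y, EE (D / δ z) ^ N z) * EE η ^ N y := by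
        rw [← Finset.prod_erase_mul _ _ hy, hwy]
        congr 1
        refine Finset.prod_congr rfl fun z hz => ?_
        rw [hwz z (Finset.ne_of_mem_erase hz)]
      rw [h3, h5, h6]
      refine (mul_le_mul_of_nonneg_right hprod (pow_nonneg (hEpos D hD).le _)).trans (le_of_eq ?_)
      rw [mul_assoc, ← pow_add]
      congr 2
      omega
    have h7 : ∏ e ∈ B, EE (β e) = Real.exp (∑ e ∈ B, β e - B.card) / ∏ e ∈ B, β e := by
      unfold EE
      rw [Finset.prod_div_distrib, ← Real.exp_sum, Finset.sum_sub_distrib, Finset.sum_const,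
        nsmul_eq_mul, mul_one]
    have h8 : EE D ^ (m - 2) = Real.exp (((m : ℝ) - 2) * (D - 1)) / D ^ (m - 2) := by
      unfold EE
      rw [div_pow, ← Real.exp_nat_mul, Nat.cast_sub (by omega)]
      norm_num
    have hcardR : (B.card : ℝ) = (d : ℝ) + m - 1 := by
      have : ((B.card + 1 : ℕ) : ℝ) = ((d + m : ℕ) : ℝ) := by rw [hcard]
      push_cast at this
      linarith
    have h9 : Real.exp (A - ((d + 1 : ℕ) : ℝ)) * (D ^ (m - 2) / ∏ e ∈ B, β e) * EE D ^ (m - 2) =
        ∏ e ∈ B, EE (β e) := by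
      rw [h7, h8]
      have h10 : Real.exp (∑ e ∈ B, β e - B.card) = Real.exp (A - ((d + 1 : ℕ) : ℝ)) *
          Real.exp (((m : ℝ) - 2) * (D - 1)) := by
        rw [← Real.exp_add]
        congr 1
        rw [hAdef, hcardR]
        push_cast
        ring
      rw [h10]
      have h11 : D ^ (m - 2) ≠ 0 := (pow_pos hD _).ne'
      field_simp
    have h12 : Real.exp (A - ((d + 1 : ℕ) : ℝ)) * (D ^ (m - 2) / ∏ e ∈ B, β e) ≤
        2 * ((((d + 1 : ℕ) : ℝ) - 1) / ((d + 1 : ℕ) : ℝ)) ^ (d + 1) := by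
      have h13 : 0 < EE D ^ (m - 2) := pow_pos (hEpos D hD) _
      rw [← h9] at h4
      exact le_of_mul_le_mul_right h4 h13
    have h14 : 0 ≤ D ^ (m - 2) / ∏ e ∈ B, β e := by positivity
    calc A ^ (d + 1) * (D ^ (m - 2) / ∏ e ∈ B, β e)
        ≤ (((d + 1 : ℕ) : ℝ) ^ (d + 1) * Real.exp (A - ((d + 1 : ℕ) : ℝ))) *
          (D ^ (m - 2) / ∏ e ∈ B, β e) := mul_le_mul_of_nonneg_right h1 h14
      _ = ((d + 1 : ℕ) : ℝ) ^ (d + 1) * (Real.exp (A - ((d + 1 : ℕ) : ℝ)) *
          (D ^ (m - 2) / ∏ e ∈ B, β e)) := by ring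
      _ ≤ ((d + 1 : ℕ) : ℝ) ^ (d + 1) *
          (2 * ((((d + 1 : ℕ) : ℝ) - 1) / ((d + 1 : ℕ) : ℝ)) ^ (d + 1)) :=
          mul_le_mul_of_nonneg_left h12 (by positivity)
      _ = 2 * (d : ℝ) ^ (d + 1) := by
          rw [div_pow]
          push_cast
          have h15 : ((d : ℝ) + 1) ^ (d + 1) ≠ 0 := by positivity
          field_simp
          ring

end Pool.Agent.Lib.H45DA
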