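import Pool.Agent.Lib.H45DA.Theta

/-!
# Project H45DA, chunk Y2a
-/

namespace Pool.Agent.Lib.H45DA

variable {d m : ℕ}

/-- **Chunk Y2a** (S/M). `θ` is injective on the elements other than the `f z`.
Proof. Let `e, e'` be such elements with `θ e = θ e'`. The last coordinate of `θ e` is positive, `0`, negative for `e` in the block of `y₁`, a ray, in the block of `y₂`
(`IsElt`; other block coordinates `0`), and is `± μ`: so `e`, `e'` have the same block and the same `μ`; then the first `d` coordinates agree too. -/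
theorem theta_injOn {C : Finset (Idx d m → ℤ)} (hel : ∀ e ∈ C, IsElt e) (y₁ y₂ : Fin m) (hy : y₁ ≠ y₂)
    (f : Fin m → (Idx d m → ℤ)) : Set.InjOn (theta y₁ y₂ f) (toricPart C y₁ y₂ : Set (Idx d m → ℤ)) := by
  classical
  have hnn : ∀ e ∈ C, 0 ≤ e (Sum.inr y₁) ∧ 0 ≤ e (Sum.inr y₂) ∧
      (e (Sum.inr y₁) = 0 ∨ e (Sum.inr y₂) = 0) := by
    intro e he
    rcases hel e he with h | ⟨y, h1, h2⟩
    · exact ⟨(h y₁).ge, (h y₂).ge, Or.inl (h y₁)⟩
    · by_cases h3 : y₁ = y
      · subst h3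
        have h4 := h2 y₂ hy.symm
        exact ⟨by omega, by omega, Or.inr h4⟩
      · have h4 := h2 y₁ h3
        by_cases h5 : y₂ = y
        · subst h5
          exact ⟨by omega, by omega, Or.inl h4⟩
        · have h6 := h2 y₂ h5
          exact ⟨by omega, by omega, Or.inl h4⟩
  intro e he e' he' hθ
  have he1 := Finset.mem_filter.1 (Finset.mem_coe.1 he)
  have he1' := Finset.mem_filter.1 (Finset.mem_coe.1 he')
  have hA := hnn e he1.1
  have hA' := hnn e' he1'.1
  have h0 : e (Sum.inr y₁) - e (Sum.inr y₂) = e' (Sum.inr y₁) - e' (Sum.inr y₂) :=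
    congrFun hθ (Sum.inr ())
  have h1 : e (Sum.inr y₁) = e' (Sum.inr y₁) := by omega
  have h2 : e (Sum.inr y₂) = e' (Sum.inr y₂) := by omega
  funext x
  rcases x with i | z
  · have h3 : e (Sum.inl i) - ∑ z ∈ rest y₁ y₂, (e (Sum.inr z) - e (Sum.inr y₂)) * f z (Sum.inl i) =
        e' (Sum.inl i) -
          ∑ z ∈ rest y₁ y₂, (e' (Sum.inr z) - e' (Sum.inr y₂)) * f z (Sum.inl i) :=
      congrFun hθ (Sum.inl i)
    have h4 : ∑ z ∈ rest y₁ y₂, (e (Sum.inr z) - e (Sum.inr y₂)) * f z (Sum.inl i) =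
        ∑ z ∈ rest y₁ y₂, (e' (Sum.inr z) - e' (Sum.inr y₂)) * f z (Sum.inl i) := by
      refine Finset.sum_congr rfl fun z hz => ?_
      rw [he1.2 z hz, he1'.2 z hz, h2]
    rw [h4] at h3
    exact sub_left_injective h3
  · by_cases hz1 : z = y₁
    · rw [hz1]
      exact h1
    · by_cases hz2 : z = y₂
      · rw [hz2]
        exact h2
      · have hz : z ∈ rest y₁ y₂ :=
          Finset.mem_erase.2 ⟨hz2, Finset.mem_erase.2 ⟨hz1, Finset.mem_univ _⟩⟩
        rw [he1.2 z hz, he1'.2 z hz]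

end Pool.Agent.Lib.H45DA
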