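import Pool.Agent.Lib.H45DA.T4
import Pool.Agent.Lib.H45DA.Y2a

/-!
# Project H45DA, chunk Y2b
-/

namespace Pool.Agent.Lib.H45DA

variable {d m : ℕ}

/-- **Chunk Y2b** (M). If the generators of the toric cone are a basis, then so is `C ∪ {𝟙}`.
Proof. Let `b'` be a basis with the range `toricGen`. `C ∪ {𝟙}` consists of the `d + 1` elements `e_j ∈ toricPart` with `θ e_j = b'_j` (by Y2a), of the `f z`, `z ∈ rest` (`m - 2`
elements, `y₁ ≠ y₂`), and `𝟙`, `d + m` elements in all. They generate `ℤᵈ × ℤᵐ`: for `e` let `θ e = ∑ c_j b'_j`; then `e - ∑ c_j e_j` is in the kernel of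
`θ`, and `g` with `θ g = 0` has `g = ∑_{z ∈ rest} (g_z - g_(y₂)) f z + g_(y₂) 𝟙` (the block coordinates of `f z` are `1` at `z` and `0` elsewhere, `IsElt`). A generating
family of `d + m` elements is a basis (`basisOfTopLeSpanOfCardEqFinrank` needs a field; over `ℤ`: `is_basis` by
`LinearIndependent` from the surjectivity of an endomorphism of a Noetherian module, `OrzechProperty`/`Module.Basis.ofSplitExact`, or
check linear independence by applying `θ`). -/
theorem isZBasis_of_theta {C : Finset (Idx d m → ℤ)} (hel : ∀ e ∈ C, IsElt e) (y₁ y₂ : Fin m)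
    (hy : y₁ ≠ y₂) (f : Fin m → (Idx d m → ℤ)) (hf : IsRest C y₁ y₂ f)
    (hb : ∃ b : Module.Basis (Fin d ⊕ Unit) ℤ (Fin d ⊕ Unit → ℤ),
      Set.range b = (toricGen C y₁ y₂ f : Set (Fin d ⊕ Unit → ℤ))) : IsZBasis C := by
  classical
  obtain ⟨b', hb'⟩ := hb
  have hy₂ : y₂ ∈ (Finset.univ.erase y₁ : Finset (Fin m)) :=
    Finset.mem_erase.2 ⟨fun h => hy h.symm, Finset.mem_univ _⟩
  have hinj := theta_injOn hel y₁ y₂ hy f
  have hblock : ∀ e ∈ C, ∀ y z : Fin m, e (Sum.inr y) ≠ 0 → z ≠ y → e (Sum.inr z) = 0 := by
    intro e he y z h1 hzy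
    rcases hel e he with h | ⟨y0, _, h2⟩
    · exact absurd (h y) h1
    · have : y = y0 := by
        by_contra hne
        exact h1 (h2 y hne)
      subst this
      exact h2 z hzy
  have hfne : ∀ z ∈ rest y₁ y₂, f z (Sum.inr z) ≠ 0 := by
    intro z hz
    rw [(hf z hz).2.1]
    norm_num
  have hrest : ∀ z ∈ rest y₁ y₂, z ≠ y₁ ∧ z ≠ y₂ := by
    intro z hz
    have h2 := Finset.mem_erase.1 hz
    exact ⟨(Finset.mem_erase.1 h2.2).1, h2.1⟩
  -- the map theta is linear
  let θ : (Idx d m → ℤ) →ₗ[ℤ] (Fin d ⊕ Unit → ℤ) :=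
    { toFun := theta y₁ y₂ f
      map_add' := by
        intro u v
        funext o
        rcases o with i | o
        · have h1 : ∑ z ∈ rest y₁ y₂, ((u + v) (Sum.inr z) - (u + v) (Sum.inr y₂)) *
              f z (Sum.inl i) =
              ∑ z ∈ rest y₁ y₂, (u (Sum.inr z) - u (Sum.inr y₂)) * f z (Sum.inl i) +
              ∑ z ∈ rest y₁ y₂, (v (Sum.inr z) - v (Sum.inr y₂)) * f z (Sum.inl i) := by
            rw [← Finset.sum_add_distrib]
            refine Finset.sum_congr rfl fun z _ => ?_
            simp only [Pi.add_apply]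
            ring
          simp only [theta, Sum.elim_inl, Pi.add_apply] at h1 ⊢
          rw [h1]
          ring
        · simp only [theta, Sum.elim_inr, Pi.add_apply]
          ring
      map_smul' := by
        intro r u
        funext o
        rcases o with i | o
        · have h1 : ∑ z ∈ rest y₁ y₂, ((r • u) (Sum.inr z) - (r • u) (Sum.inr y₂)) *
              f z (Sum.inl i) =
              r * ∑ z ∈ rest y₁ y₂, (u (Sum.inr z) - u (Sum.inr y₂)) * f z (Sum.inl i) := by
            rw [Finset.mul_sum]
            refine Finset.sum_congr rfl fun z _ => ?_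
            simp only [Pi.smul_apply, smul_eq_mul]
            ring
          simp only [theta, Sum.elim_inl, Pi.smul_apply, smul_eq_mul, RingHom.id_apply] at h1 ⊢
          rw [h1]
          ring
        · simp only [theta, Sum.elim_inr, Pi.smul_apply, smul_eq_mul, RingHom.id_apply]
          ring }
  have hker : ∀ g : Idx d m → ℤ, θ g = 0 →
      g = ∑ z ∈ rest y₁ y₂, (g (Sum.inr z) - g (Sum.inr y₂)) • f z + g (Sum.inr y₂) • one d m := by
    intro g hg
    funext o
    rcases o with i | y
    · have h1 := congrFun hg (Sum.inl i)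
      have h2 : g (Sum.inl i) - ∑ z ∈ rest y₁ y₂,
          (g (Sum.inr z) - g (Sum.inr y₂)) * f z (Sum.inl i) = 0 := h1
      simp only [Pi.add_apply, Finset.sum_apply, Pi.smul_apply, smul_eq_mul, one, Sum.elim_inl,
        Pi.zero_apply, mul_zero, add_zero]
      linarith
    · have h1 := congrFun hg (Sum.inr ())
      have h2 : g (Sum.inr y₁) - g (Sum.inr y₂) = 0 := h1
      simp only [Pi.add_apply, Finset.sum_apply, Pi.smul_apply, smul_eq_mul, one, Sum.elim_inr,
        Pi.one_apply, mul_one]
      by_cases hyr : y ∈ rest y₁ y₂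
      · rw [Finset.sum_eq_single_of_mem y hyr]
        · rw [(hf y hyr).2.1]
          ring
        · intro z hz hzy
          rw [hblock _ (hf z hz).1 z y (hfne z hz) (Ne.symm hzy)]
          ring
      · have h0 : ∑ z ∈ rest y₁ y₂, (g (Sum.inr z) - g (Sum.inr y₂)) * f z (Sum.inr y) = 0 := by
          refine Finset.sum_eq_zero fun z hz => ?_
          rw [hblock _ (hf z hz).1 z y (hfne z hz) (fun h => hyr (h ▸ hz))]
          ring
        rw [h0, zero_add]
        have : y = y₁ ∨ y = y₂ := by
          by_contra hcon
          push Not at hcon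
          exact hyr (Finset.mem_erase.2 ⟨hcon.2, Finset.mem_erase.2 ⟨hcon.1, Finset.mem_univ _⟩⟩)
        rcases this with rfl | rfl
        · linarith
        · rfl
  -- the span
  have hspan : (⊤ : Submodule ℤ (Idx d m → ℤ)) ≤
      Submodule.span ℤ (insert (one d m) (C : Set (Idx d m → ℤ))) := by
    intro e _
    have h1 : θ e ∈ Submodule.map θ (Submodule.span ℤ (toricPart C y₁ y₂ : Set (Idx d m → ℤ))) := by
      rw [Submodule.map_span]
      have h2 : (θ '' (toricPart C y₁ y₂ : Set (Idx d m → ℤ))) = Set.range b' := by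
        rw [hb']
        unfold toricGen
        rw [Finset.coe_image]
        rfl
      rw [h2, b'.span_eq]
      trivial
    obtain ⟨e', he', hee⟩ := h1
    have h3 : θ (e - e') = 0 := by
      rw [map_sub, hee, sub_self]
    have h4 := hker _ h3
    have h5 : e' ∈ Submodule.span ℤ (insert (one d m) (C : Set (Idx d m → ℤ))) := by
      refine Submodule.span_mono ?_ he'
      intro x hx
      refine Set.mem_insert_of_mem _ ?_
      have hx' : x ∈ toricPart C y₁ y₂ := hx
      unfold toricPart at hx'
      exact (Finset.mem_filter.1 hx').1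
    have h6 : e - e' ∈ Submodule.span ℤ (insert (one d m) (C : Set (Idx d m → ℤ))) := by
      rw [h4]
      refine Submodule.add_mem _ (Submodule.sum_mem _ fun z hz => Submodule.smul_mem _ _ ?_)
        (Submodule.smul_mem _ _ ?_)
      · exact Submodule.subset_span (Set.mem_insert_of_mem _ (hf z hz).1)
      · exact Submodule.subset_span (Set.mem_insert _ _)
    have h7 := Submodule.add_mem _ h6 h5
    rwa [sub_add_cancel] at h7
  -- the number of elements
  have hone : one d m ∉ C := by
    intro h
    have h1 : (one d m) (Sum.inr y₁) = 1 := rfl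
    have h2 : (one d m) (Sum.inr y₂) = 1 := rfl
    have h3 := hblock _ h y₁ y₂ (by rw [h1]; norm_num) (Ne.symm hy)
    rw [h2] at h3
    exact absurd h3 (by norm_num)
  have hfinj : Set.InjOn f (rest y₁ y₂ : Set (Fin m)) := by
    intro z hz z' hz' hzz
    by_contra hne
    have h1 := hblock _ (hf z hz).1 z z' (hfne z hz) (fun h => hne h.symm)
    rw [hzz] at h1
    exact hfne z' hz' h1
  have hCeq : C = toricPart C y₁ y₂ ∪ (rest y₁ y₂).image f := by
    ext e
    constructor
    · intro he
      by_cases het : ∀ z ∈ rest y₁ y₂, e (Sum.inr z) = 0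
      · refine Finset.mem_union_left _ ?_
        unfold toricPart
        exact Finset.mem_filter.2 ⟨he, het⟩
      · push Not at het
        obtain ⟨z, hz, hne⟩ := het
        refine Finset.mem_union_right _ (Finset.mem_image.2 ⟨z, hz, ((hf z hz).2.2 e he hne).symm⟩)
    · intro he
      rcases Finset.mem_union.1 he with h | h
      · unfold toricPart at h
        exact (Finset.mem_filter.1 h).1
      · obtain ⟨z, hz, rfl⟩ := Finset.mem_image.1 h
        exact (hf z hz).1
  have hdisj : Disjoint (toricPart C y₁ y₂) ((rest y₁ y₂).image f) := by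
    rw [Finset.disjoint_left]
    intro e he he'
    obtain ⟨z, hz, rfl⟩ := Finset.mem_image.1 he'
    unfold toricPart at he
    exact hfne z hz ((Finset.mem_filter.1 he).2 z hz)
  have hcardT : (toricPart C y₁ y₂).card = d + 1 := by
    have h1 : (toricGen C y₁ y₂ f).card = (toricPart C y₁ y₂).card := by
      unfold toricGen
      exact Finset.card_image_of_injOn hinj
    have h2 : (toricGen C y₁ y₂ f).card = Fintype.card (Fin d ⊕ Unit) := by
      have h3 : (toricGen C y₁ y₂ f) = Finset.univ.image b' := by
        rw [← Finset.coe_inj, Finset.coe_image, Finset.coe_univ, Set.image_univ, hb']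
      rw [h3, Finset.card_image_of_injective _ b'.injective, Finset.card_univ]
    rw [← h1, h2]
    simp
  have hcardR : (rest y₁ y₂).card + 2 = m := by
    have h1 : (Finset.univ.erase y₁ : Finset (Fin m)).card + 1 = m := by
      rw [Finset.card_erase_add_one (Finset.mem_univ y₁)]
      simp
    have h2 : (rest y₁ y₂).card + 1 = (Finset.univ.erase y₁ : Finset (Fin m)).card := by
      unfold rest
      exact Finset.card_erase_add_one hy₂
    omega
  have hcard : (insert (one d m) C).card = Fintype.card (Idx d m) := by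
    have h0 : C.card = (toricPart C y₁ y₂).card + ((rest y₁ y₂).image f).card := by
      conv_lhs => rw [hCeq]
      exact Finset.card_union_of_disjoint hdisj
    have h1 : ((rest y₁ y₂).image f).card = (rest y₁ y₂).card := Finset.card_image_of_injOn hfinj
    rw [Finset.card_insert_of_notMem hone, h0, h1, hcardT]
    have h2 : Fintype.card (Idx d m) = d + m := by simp
    omega
  let E : Idx d m ≃ (insert (one d m) C : Finset (Idx d m → ℤ)) :=
    (Fintype.equivFin (Idx d m)).trans
      ((finCongr hcard.symm).trans (Finset.equivFin (insert (one d m) C)).symm)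
  let v : Idx d m → (Idx d m → ℤ) := fun i => (E i : Idx d m → ℤ)
  have hrange : Set.range v = insert (one d m) (C : Set (Idx d m → ℤ)) := by
    ext x
    constructor
    · rintro ⟨i, rfl⟩
      have := (E i).2
      rw [Finset.mem_insert] at this
      rcases this with h | h
      · exact Or.inl h
      · exact Or.inr h
    · intro hx
      have hx' : x ∈ insert (one d m) C := by
        rcases hx with h | h
        · exact Finset.mem_insert.2 (Or.inl h)
        · exact Finset.mem_insert.2 (Or.inr h)
      exact ⟨E.symm ⟨x, hx'⟩, by simp [v]⟩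
  let φ : (Idx d m → ℤ) →ₗ[ℤ] (Idx d m → ℤ) := Fintype.linearCombination ℤ v
  have hsurj : Function.Surjective φ := by
    rw [← LinearMap.range_eq_top]
    have : LinearMap.range φ = Submodule.span ℤ (Set.range v) :=
      Fintype.range_linearCombination ℤ v
    rw [this, hrange]
    exact top_le_iff.1 hspan
  have hinj' : Function.Injective φ := OrzechProperty.injective_of_surjective_endomorphism φ hsurj
  let Eq := LinearEquiv.ofBijective φ ⟨hinj', hsurj⟩
  refine ⟨(Pi.basisFun ℤ (Idx d m)).map Eq, ?_⟩
  rw [← hrange]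
  congr 1
  funext i
  rw [Module.Basis.map_apply]
  change φ ((Pi.basisFun ℤ (Idx d m)) i) = v i
  rw [Pi.basisFun_apply]
  simp [φ, Fintype.linearCombination_apply_single]

end Pool.Agent.Lib.H45DA
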