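import Pool.Agent.Lib.H45DA.Theta

/-!
# Project H45DA, chunk Y2c
-/

namespace Pool.Agent.Lib.H45DA

variable {d m : ℕ}

/-- **Chunk Y2c** (S/M). The pairings. For `ζ = (u, ξ)` with `∑ ξ = 0`, `z' = (u, x)`, and `e` in `toricPart`:
`⟨θ e, z'⟩ = ⟨e|_d, u⟩ + e_(y₂) ∑_{z ∈ rest} ⟨f z|_d, u⟩ + (e_(y₁) - e_(y₂)) x`. For `x = ξ_(y₁)` this is `⟨e, ζ⟩ + e_(y₂) ∑_{z ∈ rest} ⟨f z, ζ⟩`, and for
`x = ∑_{z ∈ rest} ⟨f z|_d, u⟩ - ξ_(y₂)` it is `⟨e, ζ⟩ + e_(y₁) ∑_{z ∈ rest} ⟨f z, ζ⟩` (`⟨f z, ζ⟩ = ⟨f z|_d, u⟩ + ξ_z`, `∑_{rest} ξ_z = - ξ_(y₁) - ξ_(y₂)`). -/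
theorem pr_theta {C : Finset (Idx d m → ℤ)} (hel : ∀ e ∈ C, IsElt e) (y₁ y₂ : Fin m)
    (hy : y₁ ≠ y₂) (f : Fin m → (Idx d m → ℤ)) (hf : IsRest C y₁ y₂ f) (ζ : Idx d m → ℝ)
    (hζ : pr (one d m) ζ = 0) (e : Idx d m → ℤ) (he : e ∈ toricPart C y₁ y₂) :
    pr (theta y₁ y₂ f e) (Sum.elim (fun i => ζ (Sum.inl i)) (fun _ => ζ (Sum.inr y₁))) =
      pr e ζ + e (Sum.inr y₂) * ∑ z ∈ rest y₁ y₂, pr (f z) ζ ∧
    pr (theta y₁ y₂ f e) (Sum.elim (fun i => ζ (Sum.inl i))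
        (fun _ => ∑ z ∈ rest y₁ y₂, pr (fun i => f z (Sum.inl i)) (fun i => ζ (Sum.inl i)) -
          ζ (Sum.inr y₂))) =
      pr e ζ + e (Sum.inr y₁) * ∑ z ∈ rest y₁ y₂, pr (f z) ζ := by
  classical
  have hy₂ : y₂ ∈ (Finset.univ.erase y₁ : Finset (Fin m)) :=
    Finset.mem_erase.2 ⟨fun h => hy h.symm, Finset.mem_univ _⟩
  have hsplit : ∀ F : Fin m → ℝ, ∑ y, F y = F y₁ + F y₂ + ∑ z ∈ rest y₁ y₂, F z := by
    intro F
    rw [← Finset.add_sum_erase _ _ (Finset.mem_univ y₁), ← Finset.add_sum_erase _ _ hy₂]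
    unfold rest
    ring
  have he' : e ∈ C ∧ ∀ z ∈ rest y₁ y₂, e (Sum.inr z) = 0 := by
    simpa [toricPart] using he
  have hζ' : ζ (Sum.inr y₁) + ζ (Sum.inr y₂) + ∑ z ∈ rest y₁ y₂, ζ (Sum.inr z) = 0 := by
    rw [← hsplit (fun y => ζ (Sum.inr y)), ← pr_one]
    exact hζ
  have hpe : pr e ζ = pr (fun i => e (Sum.inl i)) (fun i => ζ (Sum.inl i)) +
      (e (Sum.inr y₁) : ℝ) * ζ (Sum.inr y₁) + (e (Sum.inr y₂) : ℝ) * ζ (Sum.inr y₂) := by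
    have h1 : pr e ζ = pr (fun i => e (Sum.inl i)) (fun i => ζ (Sum.inl i)) +
        ∑ y, (e (Sum.inr y) : ℝ) * ζ (Sum.inr y) := by
      simp [pr]
    rw [h1, hsplit]
    have h2 : ∑ z ∈ rest y₁ y₂, (e (Sum.inr z) : ℝ) * ζ (Sum.inr z) = 0 := by
      refine Finset.sum_eq_zero fun z hz => ?_
      rw [he'.2 z hz]
      simp
    rw [h2]
    ring
  have hfz : ∀ z ∈ rest y₁ y₂, pr (f z) ζ =
      pr (fun i => f z (Sum.inl i)) (fun i => ζ (Sum.inl i)) + ζ (Sum.inr z) := by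
    intro z hz
    obtain ⟨hfC, hf1, hfu⟩ := hf z hz
    have h1 : pr (f z) ζ = pr (fun i => f z (Sum.inl i)) (fun i => ζ (Sum.inl i)) +
        ∑ y, (f z (Sum.inr y) : ℝ) * ζ (Sum.inr y) := by
      simp [pr]
    have h0 : ∀ y, y ≠ z → f z (Sum.inr y) = 0 := by
      rcases hel _ hfC with h | ⟨y0, h1, h2⟩
      · rw [h z] at hf1
        exact absurd hf1 (by norm_num)
      · have : z = y0 := by
          by_contra hne
          have h3 := h2 z hne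
          rw [h3] at hf1
          exact absurd hf1 (by norm_num)
        subst this
        exact h2
    rw [h1, Finset.sum_eq_single z]
    · rw [hf1]
      simp
    · intro y _ hyz
      rw [h0 y hyz]
      simp
    · intro h
      exact absurd (Finset.mem_univ z) h
  have hsum : ∑ z ∈ rest y₁ y₂, pr (f z) ζ =
      ∑ z ∈ rest y₁ y₂, pr (fun i => f z (Sum.inl i)) (fun i => ζ (Sum.inl i)) +
        ∑ z ∈ rest y₁ y₂, ζ (Sum.inr z) := by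
    rw [← Finset.sum_add_distrib]
    exact Finset.sum_congr rfl hfz
  have hth : ∀ x : ℝ, pr (theta y₁ y₂ f e) (Sum.elim (fun i => ζ (Sum.inl i)) (fun _ => x)) =
      pr (fun i => e (Sum.inl i)) (fun i => ζ (Sum.inl i)) +
        (e (Sum.inr y₂) : ℝ) * ∑ z ∈ rest y₁ y₂,
          pr (fun i => f z (Sum.inl i)) (fun i => ζ (Sum.inl i)) +
        ((e (Sum.inr y₁) : ℝ) - e (Sum.inr y₂)) * x := by
    intro x
    have h1 : ∀ i : Fin d, theta y₁ y₂ f e (Sum.inl i) =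
        e (Sum.inl i) + e (Sum.inr y₂) * ∑ z ∈ rest y₁ y₂, f z (Sum.inl i) := by
      intro i
      have h2 : ∑ z ∈ rest y₁ y₂, (e (Sum.inr z) - e (Sum.inr y₂)) * f z (Sum.inl i) =
          -(e (Sum.inr y₂) * ∑ z ∈ rest y₁ y₂, f z (Sum.inl i)) := by
        rw [Finset.mul_sum, ← Finset.sum_neg_distrib]
        refine Finset.sum_congr rfl fun z hz => ?_
        rw [he'.2 z hz]
        ring
      simp only [theta, Sum.elim_inl, h2]
      ring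
    have h3 : pr (theta y₁ y₂ f e) (Sum.elim (fun i => ζ (Sum.inl i)) (fun _ => x)) =
        ∑ i : Fin d, (theta y₁ y₂ f e (Sum.inl i) : ℝ) * ζ (Sum.inl i) +
          (theta y₁ y₂ f e (Sum.inr ()) : ℝ) * x := by
      simp [pr]
    rw [h3]
    have h4 : theta y₁ y₂ f e (Sum.inr ()) = e (Sum.inr y₁) - e (Sum.inr y₂) := rfl
    rw [h4]
    have h5 : ∑ i : Fin d, (theta y₁ y₂ f e (Sum.inl i) : ℝ) * ζ (Sum.inl i) =
        pr (fun i => e (Sum.inl i)) (fun i => ζ (Sum.inl i)) +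
          (e (Sum.inr y₂) : ℝ) * ∑ z ∈ rest y₁ y₂,
            pr (fun i => f z (Sum.inl i)) (fun i => ζ (Sum.inl i)) := by
      simp only [pr, h1]
      rw [Finset.sum_comm, Finset.mul_sum, ← Finset.sum_add_distrib]
      refine Finset.sum_congr rfl fun i _ => ?_
      push_cast
      rw [← Finset.sum_mul]
      ring
    rw [h5]
    push_cast
    ring
  constructor
  · rw [hth, hpe, hsum]
    linear_combination (-(e (Sum.inr y₂) : ℝ)) * hζ'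
  · rw [hth, hpe, hsum]
    linear_combination (-(e (Sum.inr y₁) : ℝ)) * hζ'

end Pool.Agent.Lib.H45DA
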