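import Pool.Agent.Lib.H45DA.Y2c

/-!
# Project H45DA, chunk Y2d
-/

namespace Pool.Agent.Lib.H45DA

variable {d m : ℕ}

/-- **Chunk Y2d** (M). The generators span, and have height one for `a' = (a|_d, a_(y₁))`.
Proof. Spanning: let `z' = (u, x)` be orthogonal to all `θ e`, `e ∈ toricPart`. Let `ζ = (u, ξ)` with `ξ_(y₁) = x`, `ξ_z = - ⟨f z|_d, u⟩` for `z ∈ rest`, and `ξ_(y₂) = - ∑` of the others.
Then `⟨𝟙, ζ⟩ = 0`, `⟨f z, ζ⟩ = 0`, and `⟨e, ζ⟩ = ⟨θ e, z'⟩ = 0` for `e ∈ toricPart` by Y2c. So `ζ = 0` (every element of `C` is in `toricPart` or an `f z`).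
Height: `⟨e, a⟩ = 1`, and `∑_{z ∈ rest} ⟨f z, a⟩ = m - 2 = ⟨𝟙, a⟩`. By the definition of `θ` and `IsElt` (direct computation: `θ` is linear, kills `f z` and `𝟙`;
`⟨θ e, a'⟩ = ⟨e, a⟩ - ∑_{z ∈ rest} (…)`): `⟨θ e, a'⟩ = ⟨e|_d, a⟩ + e_(y₂) ∑_{rest} ⟨f z|_d, a⟩ + (e_(y₁) - e_(y₂)) a_(y₁)`, `∑_{rest} ⟨f z|_d, a⟩ = ∑_{rest} (1 - a_z)
= (m - 2) - ((m - 2) - a_(y₁) - a_(y₂)) = a_(y₁) + a_(y₂)`. -/
theorem theta_span_height {C : Finset (Idx d m → ℤ)} {a : Idx d m → ℝ} (hC : Loc C a) (y₁ y₂ : Fin m)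
    (hy : y₁ ≠ y₂) (f : Fin m → (Idx d m → ℤ)) (hf : IsRest C y₁ y₂ f) :
    (∀ z : Fin d ⊕ Unit → ℝ, (∀ g ∈ toricGen C y₁ y₂ f, pr g z = 0) → z = 0) ∧
    ∀ g ∈ toricGen C y₁ y₂ f,
      pr g (Sum.elim (fun i => a (Sum.inl i)) (fun _ => a (Sum.inr y₁))) = 1 := by
  classical
  have hy₂ : y₂ ∈ (Finset.univ.erase y₁ : Finset (Fin m)) :=
    Finset.mem_erase.2 ⟨fun h => hy h.symm, Finset.mem_univ _⟩
  have hsplit : ∀ F : Fin m → ℝ, ∑ y, F y = F y₁ + F y₂ + ∑ z ∈ rest y₁ y₂, F z := by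
    intro F
    rw [← Finset.add_sum_erase _ _ (Finset.mem_univ y₁), ← Finset.add_sum_erase _ _ hy₂]
    unfold rest
    ring
  have hblock : ∀ e ∈ C, ∀ y z : Fin m, e (Sum.inr y) ≠ 0 → z ≠ y → e (Sum.inr z) = 0 := by
    intro e he y z h1 hzy
    rcases hC.elt e he with h | ⟨y0, _, h2⟩
    · exact absurd (h y) h1
    · have : y = y0 := by
        by_contra hne
        exact h1 (h2 y hne)
      subst this
      exact h2 z hzy
  have hcard : ((rest y₁ y₂).card : ℝ) = (m : ℝ) - 2 := by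
    have h := hsplit (fun _ => (1 : ℝ))
    simp only [Finset.sum_const, Finset.card_univ, Fintype.card_fin, nsmul_eq_mul, mul_one] at h
    linarith
  have hmemrest : ∀ y, y ≠ y₁ → y ≠ y₂ → y ∈ rest y₁ y₂ := by
    intro y h1 h2
    exact Finset.mem_erase.2 ⟨h2, Finset.mem_erase.2 ⟨h1, Finset.mem_univ _⟩⟩
  constructor
  · intro z' hz'
    let ζ : Idx d m → ℝ := Sum.elim (fun i => z' (Sum.inl i)) (fun y =>
      if y = y₁ then z' (Sum.inr ()) else if y = y₂ then
        -(z' (Sum.inr ())) + ∑ z ∈ rest y₁ y₂,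
          pr (fun i => f z (Sum.inl i)) (fun i => z' (Sum.inl i))
      else -(pr (fun i => f y (Sum.inl i)) (fun i => z' (Sum.inl i))))
    have hζ1 : ζ (Sum.inr y₁) = z' (Sum.inr ()) := by simp [ζ]
    have hζ2 : ζ (Sum.inr y₂) = -(z' (Sum.inr ())) + ∑ z ∈ rest y₁ y₂,
        pr (fun i => f z (Sum.inl i)) (fun i => z' (Sum.inl i)) := by
      simp [ζ, Ne.symm hy]
    have hζz : ∀ z ∈ rest y₁ y₂, ζ (Sum.inr z) =
        -(pr (fun i => f z (Sum.inl i)) (fun i => z' (Sum.inl i))) := by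
      intro z hz
      have h2 := Finset.mem_erase.1 hz
      have h1 := Finset.mem_erase.1 h2.2
      simp [ζ, h2.1, h1.1]
    have hone : pr (one d m) ζ = 0 := by
      rw [pr_one, hsplit, hζ1, hζ2, Finset.sum_congr rfl hζz, Finset.sum_neg_distrib]
      ring
    have hfz : ∀ z ∈ rest y₁ y₂, pr (f z) ζ = 0 := by
      intro z hz
      obtain ⟨hfC, hf1, _⟩ := hf z hz
      have h1 : pr (f z) ζ = pr (fun i => f z (Sum.inl i)) (fun i => ζ (Sum.inl i)) +
          ∑ y, (f z (Sum.inr y) : ℝ) * ζ (Sum.inr y) := by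
        simp [pr]
      rw [h1, Finset.sum_eq_single z]
      · rw [hf1, hζz z hz]
        simp [ζ]
      · intro y _ hyz
        rw [hblock _ hfC z y (by rw [hf1]; norm_num) hyz]
        simp
      · intro h
        exact absurd (Finset.mem_univ z) h
    have hall : ∀ e ∈ C, pr e ζ = 0 := by
      intro e he
      by_cases het : ∀ z ∈ rest y₁ y₂, e (Sum.inr z) = 0
      · have het' : e ∈ toricPart C y₁ y₂ := by
          unfold toricPart
          exact Finset.mem_filter.2 ⟨he, het⟩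
        have h1 := (pr_theta hC.elt y₁ y₂ hy f hf ζ hone e het').1
        have h2 : pr (theta y₁ y₂ f e) (Sum.elim (fun i => ζ (Sum.inl i))
            (fun _ => ζ (Sum.inr y₁))) = 0 := by
          have h3 : (Sum.elim (fun i => ζ (Sum.inl i)) (fun _ => ζ (Sum.inr y₁)) :
              Fin d ⊕ Unit → ℝ) = z' := by
            funext o
            rcases o with i | u
            · rfl
            · simp only [Sum.elim_inr]
              rw [hζ1]
          rw [h3]
          refine hz' _ ?_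
          unfold toricGen
          exact Finset.mem_image_of_mem _ het'
        rw [h2, Finset.sum_eq_zero hfz] at h1
        linarith
      · push Not at het
        obtain ⟨z, hz, hne⟩ := het
        rw [(hf z hz).2.2 e he hne]
        exact hfz z hz
    have hζ0 := hC.span ζ hone hall
    funext o
    rcases o with i | u
    · have := congrFun hζ0 (Sum.inl i)
      simpa [ζ] using this
    · have := congrFun hζ0 (Sum.inr y₁)
      rw [hζ1] at this
      simpa using this
  · intro g hg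
    unfold toricGen at hg
    obtain ⟨e, he, rfl⟩ := Finset.mem_image.1 hg
    have he' : e ∈ C ∧ ∀ z ∈ rest y₁ y₂, e (Sum.inr z) = 0 := by
      simpa [toricPart] using he
    have hh := hC.height e he'.1
    have hpe : pr e a = pr (fun i => e (Sum.inl i)) (fun i => a (Sum.inl i)) +
        (e (Sum.inr y₁) : ℝ) * a (Sum.inr y₁) + (e (Sum.inr y₂) : ℝ) * a (Sum.inr y₂) := by
      have h1 : pr e a = pr (fun i => e (Sum.inl i)) (fun i => a (Sum.inl i)) +
          ∑ y, (e (Sum.inr y) : ℝ) * a (Sum.inr y) := by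
        simp [pr]
      rw [h1, hsplit]
      have h2 : ∑ z ∈ rest y₁ y₂, (e (Sum.inr z) : ℝ) * a (Sum.inr z) = 0 := by
        refine Finset.sum_eq_zero fun z hz => ?_
        rw [he'.2 z hz]
        simp
      rw [h2]
      ring
    have hfz : ∀ z ∈ rest y₁ y₂, pr (fun i => f z (Sum.inl i)) (fun i => a (Sum.inl i)) =
        1 - a (Sum.inr z) := by
      intro z hz
      obtain ⟨hfC, hf1, _⟩ := hf z hz
      have h0 := hC.height _ hfC
      have h1 : pr (f z) a = pr (fun i => f z (Sum.inl i)) (fun i => a (Sum.inl i)) +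
          ∑ y, (f z (Sum.inr y) : ℝ) * a (Sum.inr y) := by
        simp [pr]
      rw [h1, Finset.sum_eq_single z] at h0
      · rw [hf1] at h0
        push_cast at h0
        linarith
      · intro y _ hyz
        rw [hblock _ hfC z y (by rw [hf1]; norm_num) hyz]
        simp
      · intro h
        exact absurd (Finset.mem_univ z) h
    have hsumf : ∑ z ∈ rest y₁ y₂, pr (fun i => f z (Sum.inl i)) (fun i => a (Sum.inl i)) =
        a (Sum.inr y₁) + a (Sum.inr y₂) := by
      rw [Finset.sum_congr rfl hfz, Finset.sum_sub_distrib, Finset.sum_const, nsmul_eq_mul,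
        mul_one, hcard]
      have h1 := hC.height_one
      rw [pr_one, hsplit] at h1
      linarith
    have hth : pr (theta y₁ y₂ f e) (Sum.elim (fun i => a (Sum.inl i)) (fun _ => a (Sum.inr y₁))) =
        pr (fun i => e (Sum.inl i)) (fun i => a (Sum.inl i)) +
          (e (Sum.inr y₂) : ℝ) * ∑ z ∈ rest y₁ y₂,
            pr (fun i => f z (Sum.inl i)) (fun i => a (Sum.inl i)) +
          ((e (Sum.inr y₁) : ℝ) - e (Sum.inr y₂)) * a (Sum.inr y₁) := by
      have h1 : ∀ i : Fin d, theta y₁ y₂ f e (Sum.inl i) =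
          e (Sum.inl i) + e (Sum.inr y₂) * ∑ z ∈ rest y₁ y₂, f z (Sum.inl i) := by
        intro i
        have h2 : ∑ z ∈ rest y₁ y₂, (e (Sum.inr z) - e (Sum.inr y₂)) * f z (Sum.inl i) =
            -(e (Sum.inr y₂) * ∑ z ∈ rest y₁ y₂, f z (Sum.inl i)) := by
          rw [Finset.mul_sum, ← Finset.sum_neg_distrib]
          refine Finset.sum_congr rfl fun z hz => ?_
          rw [he'.2 z hz]
          ring
        simp only [theta, Sum.elim_inl, h2]
        ring
      have h3 : pr (theta y₁ y₂ f e) (Sum.elim (fun i => a (Sum.inl i))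
          (fun _ => a (Sum.inr y₁))) =
          ∑ i : Fin d, (theta y₁ y₂ f e (Sum.inl i) : ℝ) * a (Sum.inl i) +
            (theta y₁ y₂ f e (Sum.inr ()) : ℝ) * a (Sum.inr y₁) := by
        simp [pr]
      rw [h3]
      have h4 : theta y₁ y₂ f e (Sum.inr ()) = e (Sum.inr y₁) - e (Sum.inr y₂) := rfl
      rw [h4]
      have h5 : ∑ i : Fin d, (theta y₁ y₂ f e (Sum.inl i) : ℝ) * a (Sum.inl i) =
          pr (fun i => e (Sum.inl i)) (fun i => a (Sum.inl i)) +
            (e (Sum.inr y₂) : ℝ) * ∑ z ∈ rest y₁ y₂,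
              pr (fun i => f z (Sum.inl i)) (fun i => a (Sum.inl i)) := by
        simp only [pr, h1]
        rw [Finset.sum_comm, Finset.mul_sum, ← Finset.sum_add_distrib]
        refine Finset.sum_congr rfl fun i _ => ?_
        push_cast
        rw [← Finset.sum_mul]
        ring
      rw [h5]
      push_cast
      ring
    rw [hth, hsumf]
    rw [hpe] at hh
    linarith

end Pool.Agent.Lib.H45DA
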