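import Pool.Agent.Lib.H45DA.Y2b
import Pool.Agent.Lib.H45DA.Y2d
import Pool.Agent.Lib.H45DA.MP
import Pool.Agent.Lib.H45DA.T5

/-!
# Project H45DA, chunk Y3: at most two non-trivial blocks
-/

open MeasureTheory
open scoped Nat

namespace Pool.Agent.Lib.H45DA

variable {d m : ℕ}

private theorem Y3_nonneg {e : Idx d m → ℤ} (he : IsElt e) (y : Fin m) : 0 ≤ e (Sum.inr y) := by
  rcases he with h | ⟨y', h1, h2⟩
  · rw [h y]
  · by_cases hy : y = y'
    · rw [hy]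
      omega
    · rw [h2 y hy]

private theorem Y3_other {e : Idx d m → ℤ} (he : IsElt e) {y z : Fin m}
    (hy : e (Sum.inr y) ≠ 0) (hz : z ≠ y) : e (Sum.inr z) = 0 := by
  rcases he with h | ⟨y', h1, h2⟩
  · exact h z
  · have h3 : y = y' := by
      by_contra h
      exact hy (h2 y h)
    rw [h3] at hz
    exact h2 z hz

private theorem Y3_rest_mem {y₁ y₂ z : Fin m} : z ∈ rest y₁ y₂ ↔ z ≠ y₂ ∧ z ≠ y₁ := by
  unfold rest
  rw [Finset.mem_erase, Finset.mem_erase]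
  simp

private theorem Y3_rest_card {y₁ y₂ : Fin m} (hy : y₁ ≠ y₂) :
    ((rest y₁ y₂).card : ℝ) = (m : ℝ) - 2 := by
  unfold rest
  have h1 : y₂ ∈ (Finset.univ.erase y₁ : Finset (Fin m)) :=
    Finset.mem_erase.2 ⟨hy.symm, Finset.mem_univ _⟩
  have h2 : (((Finset.univ : Finset (Fin m)).erase y₁).erase y₂).card + 1 =
      (Finset.univ.erase y₁ : Finset (Fin m)).card := Finset.card_erase_add_one h1
  have h3 : (Finset.univ.erase y₁ : Finset (Fin m)).card + 1 = (Finset.univ : Finset (Fin m)).card :=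
    Finset.card_erase_add_one (Finset.mem_univ _)
  rw [Finset.card_univ, Fintype.card_fin] at h3
  have h4 : (((Finset.univ : Finset (Fin m)).erase y₁).erase y₂).card + 2 = m := by omega
  have h5 : (((((Finset.univ : Finset (Fin m)).erase y₁).erase y₂).card + 2 : ℕ) : ℝ) = (m : ℝ) := by
    rw [h4]
  rw [Nat.cast_add, Nat.cast_ofNat] at h5
  linarith

/-- Two points containing all non-trivial blocks. -/
private theorem Y3_pair (hm : 3 ≤ m) {C : Finset (Idx d m → ℤ)}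
    (h2 : {y : Fin m | ¬ Triv C y}.ncard ≤ 2) :
    ∃ y₁ y₂ : Fin m, y₁ ≠ y₂ ∧ ∀ z ∈ rest y₁ y₂, Triv C z := by
  classical
  rw [Set.ncard_eq_toFinset_card'] at h2
  obtain ⟨T, hT, hc⟩ := Finset.exists_superset_card_eq h2 (by rw [Fintype.card_fin]; omega)
  obtain ⟨y₁, y₂, hy, rfl⟩ := Finset.card_eq_two.1 hc
  refine ⟨y₁, y₂, hy, ?_⟩
  intro z hz
  rw [Y3_rest_mem] at hz
  by_contra h
  have h1 : z ∈ {y : Fin m | ¬ Triv C y}.toFinset := by
    rw [Set.mem_toFinset]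
    exact h
  have h3 := hT h1
  rw [Finset.mem_insert, Finset.mem_singleton] at h3
  rcases h3 with h3 | h3
  · exact hz.2 h3
  · exact hz.1 h3

/-- Splitting a sum over `C` into the toric part and the trivial blocks. -/
private theorem Y3_split {C : Finset (Idx d m → ℤ)} (hel : ∀ e ∈ C, IsElt e) (y₁ y₂ : Fin m)
    (f : Fin m → (Idx d m → ℤ)) (hf : IsRest C y₁ y₂ f) (g : (Idx d m → ℤ) → ℝ) :
    ∑ e ∈ C, g e = ∑ e ∈ toricPart C y₁ y₂, g e + ∑ z ∈ rest y₁ y₂, g (f z) := by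
  classical
  have h1 := Finset.sum_filter_add_sum_filter_not C (fun e => ∀ z ∈ rest y₁ y₂, e (Sum.inr z) = 0) g
  have h2 : C.filter (fun e => ¬ ∀ z ∈ rest y₁ y₂, e (Sum.inr z) = 0) = (rest y₁ y₂).image f := by
    ext e
    rw [Finset.mem_filter, Finset.mem_image]
    constructor
    · rintro ⟨he, h⟩
      push Not at h
      obtain ⟨z, hz, hez⟩ := h
      exact ⟨z, hz, ((hf z hz).2.2 e he hez).symm⟩
    · rintro ⟨z, hz, rfl⟩
      refine ⟨(hf z hz).1, fun h => ?_⟩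
      have h3 := h z hz
      rw [(hf z hz).2.1] at h3
      exact one_ne_zero h3
  have h3 : ∑ e ∈ (rest y₁ y₂).image f, g e = ∑ z ∈ rest y₁ y₂, g (f z) := by
    refine Finset.sum_image ?_
    intro z hz z' hz' h
    by_contra hne
    have hz0 : z' ∈ rest y₁ y₂ := hz'
    have hz1 : z ∈ rest y₁ y₂ := hz
    have h4 : f z' (Sum.inr z) = 1 := by
      rw [← h]
      exact (hf z hz1).2.1
    have h5 : f z' (Sum.inr z) = 0 := by
      refine Y3_other (hel _ (hf z' hz0).1) (y := z') ?_ hne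
      rw [(hf z' hz0).2.1]
      exact one_ne_zero
    rw [h4] at h5
    exact one_ne_zero h5
  rw [← h1, h2, h3]
  unfold toricPart
  congr 1

/-- **Chunk Y3** (L). The bound if at most two blocks are non-trivial and `C ∪ {𝟙}` is not a basis.

Proof. Choose `y₁ ≠ y₂` such that all other blocks are trivial (`m ≥ 3`), `f z` their elements. `G = toricGen C y₁ y₂ f` satisfies the hypotheses of `toric_bound` (T5) by Y2b, Y2d
(`card (Fin d ⊕ Unit) = d + 1`): `β'`, `c`. Let `β e = β' (θ e)` for `e ∈ toricPart`, `δ_i = ∑_{toricPart} β e e_(y_i) ≥ 0`, `D = min δ_1 δ_2`, `β (f z) = D`. Sums over `C`: `toricPart` and the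
`f z`, `z ∈ rest` (`m - 2` of them). Block degrees: `δ_1`, `δ_2` and `D`. `∑_C β - (m-2) D = ∑_G β'` (Y2a).
If `δ_1 ≥ δ_2`, take `y = y₁`: for `ζ ∈ coneP C` with `∑ β ⟨e, ζ⟩ ≤ t` let `z' = (u, ξ_(y₁))`; by Y2c `⟨θ e, z'⟩ = ⟨e, ζ⟩ + e_(y₂) ∑ ⟨f z, ζ⟩ ≥ 0` and
`∑_G β' ⟨g, z'⟩ = ∑_{toricPart} β ⟨e, ζ⟩ + δ_2 ∑ ⟨f z, ζ⟩ = ∑_C β ⟨e, ζ⟩ ≤ t` as `D = δ_2`. So the set is the preimage of (a subset of) the set of T5 under the measure preserving
`(Fin d → ℝ) × ℝ ≃ (Fin d ⊕ Unit → ℝ)` (chunk MP (a)).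
If `δ_1 < δ_2`, take `y = y₂` and `z' = (u, ∑_{rest} ⟨f z|_d, u⟩ - ξ_(y₂))`, second formula of Y2c, `D = δ_1`; the map `(u, x) ↦ (u, ∑ ⟨f z|_d, u⟩ - x)` of
`(Fin d → ℝ) × ℝ` preserves the measure (chunk MP (b)). -/
theorem bound_toric_type (hd : 1 ≤ d) (hm : 3 ≤ m) {C : Finset (Idx d m → ℤ)} {a : Idx d m → ℝ}
    (hC : Loc C a) (h2 : {y : Fin m | ¬ Triv C y}.ncard ≤ 2) (hnb : ¬ IsZBasis C) : HasBound C := by
  classical
  obtain ⟨y₁, y₂, hy, htriv⟩ := Y3_pair hm h2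
  have hex : ∀ z : Fin m, ∃ e : Idx d m → ℤ, z ∈ rest y₁ y₂ → (e ∈ C ∧ e (Sum.inr z) = 1 ∧
      ∀ e' ∈ C, e' (Sum.inr z) ≠ 0 → e' = e) := by
    intro z
    by_cases hz : z ∈ rest y₁ y₂
    · obtain ⟨e, h1, h2, h3⟩ := htriv z hz
      exact ⟨e, fun _ => ⟨h1, h2, h3⟩⟩
    · exact ⟨0, fun h => absurd h hz⟩
  choose f hf using hex
  have hf' : IsRest C y₁ y₂ f := hf
  have hel := hC.elt
  have hcard : Fintype.card (Fin d ⊕ Unit) = d + 1 := by
    rw [Fintype.card_sum, Fintype.card_fin, Fintype.card_unit]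
  obtain ⟨hspan, hheight⟩ := theta_span_height hC y₁ y₂ hy f hf'
  have hbound : ToricBound (toricGen C y₁ y₂ f) :=
    toric_bound (toricGen C y₁ y₂ f) _ hheight hspan (by rw [hcard]; omega)
      (fun hb => hnb (isZBasis_of_theta hel y₁ y₂ hy f hf' hb))
  obtain ⟨β', c, hβ', hc0, hvol, hA⟩ := hbound
  have hP : ∀ e ∈ toricPart C y₁ y₂, e ∈ C ∧ ∀ z ∈ rest y₁ y₂, e (Sum.inr z) = 0 := by
    intro e he
    unfold toricPart at he
    exact Finset.mem_filter.1 he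
  have hG : ∀ g : (Fin d ⊕ Unit → ℤ) → ℝ, ∑ x ∈ toricGen C y₁ y₂ f, g x =
      ∑ e ∈ toricPart C y₁ y₂, g (theta y₁ y₂ f e) := by
    intro g
    unfold toricGen
    rw [Finset.sum_image]
    · intro e he e' he' h
      exact theta_injOn hel y₁ y₂ hy f he he' h
  have hGm : ∀ e ∈ toricPart C y₁ y₂, theta y₁ y₂ f e ∈ toricGen C y₁ y₂ f := by
    intro e he
    unfold toricGen
    exact Finset.mem_image_of_mem _ he
  have hfP : ∀ z ∈ rest y₁ y₂, f z ∉ toricPart C y₁ y₂ := by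
    intro z hz h
    have h1 := (hP _ h).2 z hz
    rw [(hf z hz).2.1] at h1
    exact one_ne_zero h1
  have hfo : ∀ z ∈ rest y₁ y₂, ∀ z' : Fin m, z' ≠ z → f z (Sum.inr z') = 0 := by
    intro z hz z' hz'
    refine Y3_other (hel _ (hf z hz).1) (y := z) ?_ hz'
    rw [(hf z hz).2.1]
    exact one_ne_zero
  obtain ⟨δ₁, hδ₁⟩ : ∃ δ : ℝ, δ = ∑ e ∈ toricPart C y₁ y₂, β' (theta y₁ y₂ f e) * e (Sum.inr y₁) :=
    ⟨_, rfl⟩
  obtain ⟨δ₂, hδ₂⟩ : ∃ δ : ℝ, δ = ∑ e ∈ toricPart C y₁ y₂, β' (theta y₁ y₂ f e) * e (Sum.inr y₂) :=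
    ⟨_, rfl⟩
  have hδpos : ∀ y : Fin m,
      0 ≤ ∑ e ∈ toricPart C y₁ y₂, β' (theta y₁ y₂ f e) * e (Sum.inr y) := by
    intro y
    refine Finset.sum_nonneg fun e he => mul_nonneg (hβ' _ (hGm e he)) ?_
    exact_mod_cast Y3_nonneg (hel e (hP e he).1) y
  have hδ₁0 : 0 ≤ δ₁ := by rw [hδ₁]; exact hδpos y₁
  have hδ₂0 : 0 ≤ δ₂ := by rw [hδ₂]; exact hδpos y₂
  obtain ⟨D, hD⟩ : ∃ D : ℝ, D = min δ₁ δ₂ := ⟨_, rfl⟩
  have hD0 : 0 ≤ D := by rw [hD]; exact le_min hδ₁0 hδ₂0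
  obtain ⟨β, hβdef⟩ : ∃ β : (Idx d m → ℤ) → ℝ, ∀ e, β e =
      if e ∈ toricPart C y₁ y₂ then β' (theta y₁ y₂ f e) else D := ⟨_, fun _ => rfl⟩
  have hβP : ∀ e ∈ toricPart C y₁ y₂, β e = β' (theta y₁ y₂ f e) := by
    intro e he
    rw [hβdef, if_pos he]
  have hβf : ∀ z ∈ rest y₁ y₂, β (f z) = D := by
    intro z hz
    rw [hβdef, if_neg (hfP z hz)]
  have hsum : ∀ g : (Idx d m → ℤ) → ℝ, ∑ e ∈ C, β e * g e =
      ∑ e ∈ toricPart C y₁ y₂, β' (theta y₁ y₂ f e) * g e + D * ∑ z ∈ rest y₁ y₂, g (f z) := by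
    intro g
    rw [Y3_split hel y₁ y₂ f hf' (fun e => β e * g e), Finset.mul_sum]
    congr 1
    · exact Finset.sum_congr rfl fun e he => by rw [hβP e he]
    · exact Finset.sum_congr rfl fun z hz => by rw [hβf z hz]
  have hβ0 : ∀ e ∈ C, 0 ≤ β e := by
    intro e _
    rw [hβdef]
    split_ifs with h
    · exact hβ' _ (hGm e h)
    · exact hD0
  have hblock_rest : ∀ z ∈ rest y₁ y₂, ∑ e ∈ C, β e * e (Sum.inr z) = D := by
    intro z hz
    rw [hsum fun e => (e (Sum.inr z) : ℝ)]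
    have h1 : ∑ e ∈ toricPart C y₁ y₂, β' (theta y₁ y₂ f e) * (e (Sum.inr z) : ℝ) = 0 := by
      refine Finset.sum_eq_zero fun e he => ?_
      rw [(hP e he).2 z hz, Int.cast_zero, mul_zero]
    have h2 : ∑ z' ∈ rest y₁ y₂, (f z' (Sum.inr z) : ℝ) = 1 := by
      rw [Finset.sum_eq_single z]
      · rw [(hf z hz).2.1, Int.cast_one]
      · intro z' hz' hne
        rw [hfo z' hz' z (Ne.symm hne), Int.cast_zero]
      · intro h
        exact absurd hz h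
    rw [h1, h2, zero_add, mul_one]
  have hblock : ∀ y : Fin m, y ∉ rest y₁ y₂ → ∑ e ∈ C, β e * e (Sum.inr y) =
      ∑ e ∈ toricPart C y₁ y₂, β' (theta y₁ y₂ f e) * e (Sum.inr y) := by
    intro y hy'
    rw [hsum fun e => (e (Sum.inr y) : ℝ)]
    have h2 : ∑ z' ∈ rest y₁ y₂, (f z' (Sum.inr y) : ℝ) = 0 := by
      refine Finset.sum_eq_zero fun z' hz' => ?_
      have h3 : y ≠ z' := fun h => hy' (h ▸ hz')
      rw [hfo z' hz' y h3, Int.cast_zero]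
    rw [h2, mul_zero, add_zero]
  have hn1 : y₁ ∉ rest y₁ y₂ := fun h => (Y3_rest_mem.1 h).2 rfl
  have hn2 : y₂ ∉ rest y₁ y₂ := fun h => (Y3_rest_mem.1 h).1 rfl
  have hb1 : ∑ e ∈ C, β e * e (Sum.inr y₁) = δ₁ := by rw [hblock y₁ hn1, hδ₁]
  have hb2 : ∑ e ∈ C, β e * e (Sum.inr y₂) = δ₂ := by rw [hblock y₂ hn2, hδ₂]
  have htot : ∑ e ∈ C, β e - ((m : ℝ) - 2) * D = ∑ g ∈ toricGen C y₁ y₂ f, β' g := by
    have h1 := hsum fun _ => (1 : ℝ)
    simp only [mul_one] at h1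
    rw [h1, hG β', Finset.sum_const, nsmul_eq_mul, mul_one, Y3_rest_card hy]
    ring
  have hfin : (∑ e ∈ C, β e - ((m : ℝ) - 2) * D) ^ (d + 1) * ((d + 1)! * c) ≤
      2 * (d : ℝ) ^ (d + 1) := by
    rw [htot]
    rw [hcard] at hA
    have h1 : (((d + 1 : ℕ) : ℝ) - 1) = (d : ℝ) := by
      rw [Nat.cast_add, Nat.cast_one]
      ring
    rw [h1] at hA
    exact hA
  have hvol' : ∀ t : ℝ, 0 ≤ t → volume {z : Fin d ⊕ Unit → ℝ |
      (∀ g ∈ toricGen C y₁ y₂ f, 0 ≤ pr g z) ∧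
        ∑ g ∈ toricGen C y₁ y₂ f, β' g * pr g z ≤ t} ≤ ENNReal.ofReal (c * t ^ (d + 1)) := by
    intro t ht
    have h := hvol t ht
    rw [hcard] at h
    exact h
  have hmemG : ∀ g ∈ toricGen C y₁ y₂ f, ∃ e ∈ toricPart C y₁ y₂, theta y₁ y₂ f e = g := by
    intro g hg
    unfold toricGen at hg
    exact Finset.mem_image.1 hg
  have hS0 : ∀ ζ ∈ coneP C, 0 ≤ ∑ z ∈ rest y₁ y₂, pr (f z) ζ :=
    fun ζ hζ => Finset.sum_nonneg fun z hz => hζ.2 (f z) (hf z hz).1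
  rcases le_total δ₂ δ₁ with hle | hle
  · have hDe : D = δ₂ := by rw [hD, min_eq_right hle]
    refine ⟨y₁, β, D, c, hβ0, ?_, ?_, hc0, ?_, hfin⟩
    · intro z hz
      by_cases hz2 : z = y₂
      · rw [hz2, hb2, hDe]
      · exact hblock_rest z (Y3_rest_mem.2 ⟨hz2, hz⟩)
    · rw [hb1, hDe]
      exact hle
    · intro t ht
      refine le_trans ?_ (hvol' t ht)
      rw [← volume_preimage_toFunR]
      refine measure_mono ?_
      rintro _ ⟨ζ, ⟨hζ, hζt⟩, rfl⟩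
      have hpr : ∀ e ∈ toricPart C y₁ y₂, pr (theta y₁ y₂ f e) (toFunR (proj y₁ ζ)) =
          pr e ζ + e (Sum.inr y₂) * ∑ z ∈ rest y₁ y₂, pr (f z) ζ :=
        fun e he => (pr_theta hel y₁ y₂ hy f hf' ζ hζ.1 e he).1
      rw [Set.mem_preimage, Set.mem_setOf_eq]
      constructor
      · intro g hg
        obtain ⟨e, he, rfl⟩ := hmemG g hg
        rw [hpr e he]
        refine add_nonneg (hζ.2 e (hP e he).1) (mul_nonneg ?_ (hS0 ζ hζ))
        exact_mod_cast Y3_nonneg (hel e (hP e he).1) y₂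
      · rw [hG fun g => β' g * pr g (toFunR (proj y₁ ζ))]
        have h1 : ∑ e ∈ toricPart C y₁ y₂,
            β' (theta y₁ y₂ f e) * pr (theta y₁ y₂ f e) (toFunR (proj y₁ ζ)) =
            ∑ e ∈ toricPart C y₁ y₂, β' (theta y₁ y₂ f e) * pr e ζ +
              δ₂ * ∑ z ∈ rest y₁ y₂, pr (f z) ζ := by
          rw [hδ₂, Finset.sum_mul, ← Finset.sum_add_distrib]
          refine Finset.sum_congr rfl fun e he => ?_
          rw [hpr e he]
          ring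
        rw [h1, ← hDe, ← hsum fun e => pr e ζ]
        exact hζt
  · have hDe : D = δ₁ := by rw [hD, min_eq_left hle]
    refine ⟨y₂, β, D, c, hβ0, ?_, ?_, hc0, ?_, hfin⟩
    · intro z hz
      by_cases hz2 : z = y₁
      · rw [hz2, hb1, hDe]
      · exact hblock_rest z (Y3_rest_mem.2 ⟨hz, hz2⟩)
    · rw [hb2, hDe]
      exact hle
    · intro t ht
      refine le_trans ?_ (hvol' t ht)
      rw [← volume_preimage_toFunR]
      refine le_trans ?_
        (volume_preimage_reflect (∑ z ∈ rest y₁ y₂, fun i => f z (Sum.inl i)) _).le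
      refine measure_mono ?_
      rintro _ ⟨ζ, ⟨hζ, hζt⟩, rfl⟩
      have hpr : ∀ e ∈ toricPart C y₁ y₂, pr (theta y₁ y₂ f e)
          (toFunR ((proj y₂ ζ).1, pr (∑ z ∈ rest y₁ y₂, fun i => f z (Sum.inl i)) (proj y₂ ζ).1 -
            (proj y₂ ζ).2)) =
          pr e ζ + e (Sum.inr y₁) * ∑ z ∈ rest y₁ y₂, pr (f z) ζ := by
        intro e he
        rw [pr_sum]
        exact (pr_theta hel y₁ y₂ hy f hf' ζ hζ.1 e he).2
      rw [Set.mem_preimage, Set.mem_preimage, Set.mem_setOf_eq]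
      constructor
      · intro g hg
        obtain ⟨e, he, rfl⟩ := hmemG g hg
        rw [hpr e he]
        refine add_nonneg (hζ.2 e (hP e he).1) (mul_nonneg ?_ (hS0 ζ hζ))
        exact_mod_cast Y3_nonneg (hel e (hP e he).1) y₁
      · rw [hG fun g => β' g * pr g (toFunR ((proj y₂ ζ).1,
          pr (∑ z ∈ rest y₁ y₂, fun i => f z (Sum.inl i)) (proj y₂ ζ).1 - (proj y₂ ζ).2))]
        have h1 : ∑ e ∈ toricPart C y₁ y₂,
            β' (theta y₁ y₂ f e) * pr (theta y₁ y₂ f e) (toFunR ((proj y₂ ζ).1,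
              pr (∑ z ∈ rest y₁ y₂, fun i => f z (Sum.inl i)) (proj y₂ ζ).1 - (proj y₂ ζ).2)) =
            ∑ e ∈ toricPart C y₁ y₂, β' (theta y₁ y₂ f e) * pr e ζ +
              δ₁ * ∑ z ∈ rest y₁ y₂, pr (f z) ζ := by
          rw [hδ₁, Finset.sum_mul, ← Finset.sum_add_distrib]
          refine Finset.sum_congr rfl fun e he => ?_
          rw [hpr e he]
          ring
        rw [h1, ← hDe, ← hsum fun e => pr e ζ]
        exact hζt

end Pool.Agent.Lib.H45DA
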