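import Pool.Agent.Lib.H45DA.V5
import Pool.Agent.Lib.H45DA.K0
import Pool.Agent.Lib.H45DA.XDefs
import Pool.Agent.Lib.H45DA.N1

/-!
# Project H45DA, chunk Y4: the circuit `e₁ + e₂ = e₁' + e₂'`
-/

open MeasureTheory
open scoped Nat

namespace Pool.Agent.Lib.H45DA

variable {d m : ℕ}

/-- The other block coordinates of an element vanish. -/
private theorem Y4_other {e : Idx d m → ℤ} (he : IsElt e) {y : Fin m} (hy : e (Sum.inr y) ≠ 0) :
    ∀ z, z ≠ y → e (Sum.inr z) = 0 := by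
  rcases he with h | ⟨y', h1, h2⟩
  · exact absurd (h y) hy
  · intro z hz
    by_cases hyy : y = y'
    · subst hyy
      exact h2 z hz
    · exact absurd (h2 y hyy) hy

private theorem Y4_nonneg {e : Idx d m → ℤ} (he : IsElt e) (y : Fin m) : 0 ≤ e (Sum.inr y) := by
  rcases he with h | ⟨y', h1, h2⟩
  · exact (h y).ge
  · by_cases hyy : y = y'
    · subst hyy
      linarith
    · exact (h2 y hyy).ge

private theorem Y4_ne {e e' : Idx d m → ℤ} (he : IsElt e) {y y' : Fin m} (hyy : y' ≠ y)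
    (h1 : e (Sum.inr y) = 1) (h2 : e' (Sum.inr y') = 1) : e ≠ e' := by
  intro h
  have h3 := Y4_other he (y := y) (by rw [h1]; exact one_ne_zero) y' hyy
  rw [h, h2] at h3
  exact one_ne_zero h3

/-- One piece. -/
private theorem Y4_piece (hm : 3 ≤ m) {C : Finset (Idx d m → ℤ)} (hel : ∀ e ∈ C, IsElt e)
    (hfull : Full C) (hspan : Spans C) (hcard : C.card = d + m) (y₁ y₂ y₃ : Fin m)
    (e₁ e₁' e₂ e₂' : Idx d m → ℤ) (h12 : y₁ ≠ y₂) (hp1 : IsPair C y₁ e₁ e₁') (hp2 : IsPair C y₂ e₂ e₂')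
    (htriv : ∀ z, z ≠ y₁ → z ≠ y₂ → z ≠ y₃ → Triv C z) (hrel : e₁ + e₂ = e₁' + e₂')
    (β : (Idx d m → ℤ) → ℝ) (b1 : β e₁ = 1 / 2) (b1' : β e₁' = 1 / 2) (b2 : β e₂ = 1 / 2) (b2' : β e₂' = 1 / 2)
    (bo : ∀ e ∈ C, e ≠ e₁ → e ≠ e₁' → e ≠ e₂ → e ≠ e₂' → β e = 1) (t : ℝ) (ht : 0 ≤ t) :
    volume (proj y₃ '' {ζ | ζ ∈ coneP C ∧ ∑ e ∈ C, β e * pr e ζ ≤ t ∧ 0 ≤ pr (e₁ - e₁') ζ}) ≤
      ENNReal.ofReal (t ^ (d + 1) / (d + 1)!) := by
  classical
  obtain ⟨m1, m1', n1, v1, v1', o1⟩ := hp1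
  obtain ⟨m2, m2', n2, v2, v2', o2⟩ := hp2
  -- the four elements are different
  have n12 : e₁ ≠ e₂ := Y4_ne (hel _ m1) h12.symm v1 v2
  have n12' : e₁ ≠ e₂' := Y4_ne (hel _ m1) h12.symm v1 v2'
  have n1'2 : e₁' ≠ e₂ := Y4_ne (hel _ m1') h12.symm v1' v2
  have n1'2' : e₁' ≠ e₂' := Y4_ne (hel _ m1') h12.symm v1' v2'
  set r := e₁ - e₁' with hr
  set S := (C.erase e₁).erase e₂' with hS
  set C₁ := insert r S with hC₁
  have memS : ∀ e, e ∈ S ↔ e ≠ e₂' ∧ e ≠ e₁ ∧ e ∈ C := by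
    intro e
    rw [hS, Finset.mem_erase, Finset.mem_erase]
  have mS1' : e₁' ∈ S := (memS _).2 ⟨n1'2', n1.symm, m1'⟩
  have mS2 : e₂ ∈ S := (memS _).2 ⟨n2, n12.symm, m2⟩
  have rz : ∀ z : Fin m, r (Sum.inr z) = 0 := by
    intro z
    have h0 : r (Sum.inr z) = e₁ (Sum.inr z) - e₁' (Sum.inr z) := rfl
    rw [h0]
    by_cases hz : z = y₁
    · rw [hz, v1, v1', sub_self]
    · rw [Y4_other (hel _ m1) (by rw [v1]; exact one_ne_zero) z hz,
        Y4_other (hel _ m1') (by rw [v1']; exact one_ne_zero) z hz, sub_self]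
  have hel₁ : ∀ e ∈ C₁, IsElt e := by
    intro e he
    rw [hC₁, Finset.mem_insert] at he
    rcases he with rfl | he
    · exact Or.inl rz
    · exact hel e ((memS e).1 he).2.2
  have hfull₁ : Full C₁ := by
    intro z
    obtain ⟨e, he, hez⟩ := hfull z
    by_cases h1 : e = e₁
    · have hz : z = y₁ := by
        by_contra hz
        rw [h1] at hez
        exact hez (Y4_other (hel _ m1) (by rw [v1]; exact one_ne_zero) z hz)
      refine ⟨e₁', Finset.mem_insert_of_mem mS1', ?_⟩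
      rw [hz, v1']
      exact one_ne_zero
    · by_cases h2 : e = e₂'
      · have hz : z = y₂ := by
          by_contra hz
          rw [h2] at hez
          exact hez (Y4_other (hel _ m2') (by rw [v2']; exact one_ne_zero) z hz)
        refine ⟨e₂, Finset.mem_insert_of_mem mS2, ?_⟩
        rw [hz, v2]
        exact one_ne_zero
      · exact ⟨e, Finset.mem_insert_of_mem ((memS e).2 ⟨h2, h1, he⟩), hez⟩
  have hrelz : ∀ ζ : Idx d m → ℝ, pr e₁ ζ + pr e₂ ζ = pr e₁' ζ + pr e₂' ζ := by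
    intro ζ
    rw [← pr_add, ← pr_add, hrel]
  have hspan₁ : Spans C₁ := by
    intro z hz hz1
    refine hspan z hz fun e he => ?_
    have a1' := hz1 e₁' (Finset.mem_insert_of_mem mS1')
    have a2 := hz1 e₂ (Finset.mem_insert_of_mem mS2)
    have ar := hz1 r (Finset.mem_insert_self _ _)
    rw [hr, pr_sub] at ar
    have a1 : pr e₁ z = 0 := by linarith
    have a2' : pr e₂' z = 0 := by
      have := hrelz z
      linarith
    by_cases h1 : e = e₁
    · rw [h1, a1]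
    · by_cases h2 : e = e₂'
      · rw [h2, a2']
      · exact hz1 e (Finset.mem_insert_of_mem ((memS e).2 ⟨h2, h1, he⟩))
  have hScard : S.card + 2 = d + m := by
    have c1 : (C.erase e₁).card + 1 = C.card := Finset.card_erase_add_one m1
    have c2 : S.card + 1 = (C.erase e₁).card :=
      Finset.card_erase_add_one (Finset.mem_erase.2 ⟨n12'.symm, m2'⟩)
    omega
  have hrS : r ∉ S := by
    intro h
    have h1 : C₁ = S := Finset.insert_eq_of_mem h
    have h2 := card_of_spans hspan₁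
    rw [h1] at h2
    omega
  have hcard₁ : C₁.card + 1 = d + m := by
    rw [hC₁, Finset.card_insert_of_notMem hrS]
    omega
  -- the block degrees
  have huniq : ∀ z, z ≠ y₃ → ∃ g ∈ C₁, g (Sum.inr z) = 1 ∧ ∀ e ∈ C₁, e ≠ g → e (Sum.inr z) = 0 := by
    intro z hz
    by_cases h1 : z = y₁
    · refine ⟨e₁', Finset.mem_insert_of_mem mS1', by rw [h1, v1'], ?_⟩
      intro e he hne
      rw [hC₁, Finset.mem_insert] at he
      rcases he with rfl | he
      · exact rz z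
      · by_contra h0
        have h2 := (memS e).1 he
        rw [h1] at h0
        rcases o1 e h2.2.2 h0 with h3 | h3
        · exact h2.2.1 h3
        · exact hne h3
    · by_cases h2 : z = y₂
      · refine ⟨e₂, Finset.mem_insert_of_mem mS2, by rw [h2, v2], ?_⟩
        intro e he hne
        rw [hC₁, Finset.mem_insert] at he
        rcases he with rfl | he
        · exact rz z
        · by_contra h0
          have h3 := (memS e).1 he
          rw [h2] at h0
          rcases o2 e h3.2.2 h0 with h4 | h4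
          · exact hne h4
          · exact h3.1 h4
      · obtain ⟨g, hg, hgz, hgo⟩ := htriv z h1 h2 hz
        have g1 : g ≠ e₁ := (Y4_ne (hel _ hg) (y := z) (y' := y₁) (Ne.symm h1) hgz v1)
        have g2 : g ≠ e₂' := (Y4_ne (hel _ hg) (y := z) (y' := y₂) (Ne.symm h2) hgz v2')
        refine ⟨g, Finset.mem_insert_of_mem ((memS g).2 ⟨g2, g1, hg⟩), hgz, ?_⟩
        intro e he hne
        rw [hC₁, Finset.mem_insert] at he
        rcases he with rfl | he
        · exact rz z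
        · by_contra h0
          exact hne (hgo e ((memS e).1 he).2.2 h0)
  have hδ : ∀ z ≠ y₃, ∑ e ∈ C₁, (fun _ => (1 : ℝ)) e * (e (Sum.inr z) : ℝ) = 1 := by
    intro z hz
    obtain ⟨g, hg, hgz, hgo⟩ := huniq z hz
    rw [Finset.sum_eq_single g]
    · simp only [hgz, Int.cast_one, mul_one]
    · intro e he hne
      rw [hgo e he hne, Int.cast_zero, mul_zero]
    · intro h
      exact absurd hg h
  have hV := volume_basis hm C₁ hel₁ hfull₁ hcard₁ hspan₁ y₃ (fun _ => (1 : ℝ)) (fun _ _ => one_pos) 1 one_pos hδ t ht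
  have hval : (1 : ℝ) ^ (m - 2) * t ^ (d + 1) / ((d + 1)! * ∏ e ∈ C₁, (fun _ => (1 : ℝ)) e) =
      t ^ (d + 1) / (d + 1)! := by
    rw [one_pow, one_mul, Finset.prod_const_one, mul_one]
  rw [hval] at hV
  refine le_trans (measure_mono (Set.image_mono ?_)) hV
  rintro ζ ⟨⟨hζ0, hζ⟩, hζt, hζr⟩
  refine ⟨⟨hζ0, ?_⟩, ?_⟩
  · intro e he
    rw [hC₁, Finset.mem_insert] at he
    rcases he with rfl | he
    · exact hζr
    · exact hζ e ((memS e).1 he).2.2
  · -- the sums agree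
    have s1 : ∑ e ∈ C, β e * pr e ζ = β e₁ * pr e₁ ζ + (β e₂' * pr e₂' ζ + ∑ e ∈ S, β e * pr e ζ) := by
      rw [← Finset.add_sum_erase C (fun e => β e * pr e ζ) m1,
        ← Finset.add_sum_erase (C.erase e₁) (fun e => β e * pr e ζ) (Finset.mem_erase.2 ⟨n12'.symm, m2'⟩)]
    have mS2' : e₂ ∈ S.erase e₁' := Finset.mem_erase.2 ⟨n1'2.symm, mS2⟩
    have s2 : ∑ e ∈ S, β e * pr e ζ = β e₁' * pr e₁' ζ + (β e₂ * pr e₂ ζ +
        ∑ e ∈ (S.erase e₁').erase e₂, β e * pr e ζ) := by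
      rw [← Finset.add_sum_erase S (fun e => β e * pr e ζ) mS1',
        ← Finset.add_sum_erase (S.erase e₁') (fun e => β e * pr e ζ) mS2']
    have s3 : ∑ e ∈ S, 1 * pr e ζ = 1 * pr e₁' ζ + (1 * pr e₂ ζ +
        ∑ e ∈ (S.erase e₁').erase e₂, 1 * pr e ζ) := by
      rw [← Finset.add_sum_erase S (fun e => 1 * pr e ζ) mS1',
        ← Finset.add_sum_erase (S.erase e₁') (fun e => 1 * pr e ζ) mS2']
    have s4 : ∑ e ∈ (S.erase e₁').erase e₂, β e * pr e ζ = ∑ e ∈ (S.erase e₁').erase e₂, 1 * pr e ζ := by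
      refine Finset.sum_congr rfl fun e he => ?_
      rw [Finset.mem_erase, Finset.mem_erase, memS] at he
      rw [bo e he.2.2.2.2 he.2.2.2.1 he.2.1 he.1 he.2.2.1]
    have s5 : ∑ e ∈ C₁, 1 * pr e ζ = 1 * pr r ζ + ∑ e ∈ S, 1 * pr e ζ := by
      rw [hC₁, Finset.sum_insert hrS]
    have s6 : pr r ζ = pr e₁ ζ - pr e₁' ζ := by rw [hr, pr_sub]
    have h7 := hrelz ζ
    show ∑ e ∈ C₁, 1 * pr e ζ ≤ t
    rw [s1, s2, s4, b1, b1', b2, b2'] at hζt
    rw [s5, s3, s6]
    linarith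

/-- **Chunk Y4** (M/L). The bound for `CircuitTwo`.

Proof. `β = 1/2` on `e₁, e₁', e₂, e₂'` (four different elements, in two blocks), `β = 1` on the other `d + m - 4` elements, `D = 1`, `y = y₃`: the block degrees of `y₁`, `y₂` and of the trivial blocks are `1`,
that of `y₃` is `∑ e (inr y₃) ≥ 1` (full, `IsElt`). `∑ β - (m-2) = 2 + (d + m - 4) - (m - 2) = d`. `c = 2/(d+1)!`, so `dⁿ · 2 ≤ 2 dⁿ`.
Volume: let `r = e₁ - e₁' = e₂' - e₂`, a ray (all block coordinates are `0`). If `⟨r, ζ⟩ ≥ 0`, then `ζ` is in the cone of `C₁ = (C ∖ {e₁, e₂'}) ∪ {r}`, and `∑_C β ⟨e, ζ⟩ = ∑_(C₁) ⟨e, ζ⟩` (weights `1`; `e₁ = e₁' + r`,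
`e₂' = e₂ + r`). If `⟨r, ζ⟩ ≤ 0`, the same for `C₂ = (C ∖ {e₁', e₂}) ∪ {-r}`. `C₁`, `C₂` are full (`e₁'`, `e₂` resp. `e₁`, `e₂'` remain), they span (they generate `C`), `r ∉ C ∖ {e₁, e₂'}` (otherwise this set of
`d + m - 2` elements would span, against `card_of_spans`), so they have `d + m - 1` elements: V5 with `β = 1`, `D = 1`, `y = y₃` gives `≤ tⁿ/n!` for each. -/
theorem bound_circuitTwo (hd : 1 ≤ d) (hm : 3 ≤ m) {C : Finset (Idx d m → ℤ)} (hel : ∀ e ∈ C, IsElt e)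
    (hC : CircuitTwo C) : HasBound C := by
  classical
  obtain ⟨hfull, hspan, hcard, y₁, y₂, y₃, e₁, e₁', e₂, e₂', h12, h13, h23, hp1, hp2, htriv, hrel⟩ := hC
  obtain ⟨m1, m1', n1, v1, v1', o1⟩ := hp1
  obtain ⟨m2, m2', n2, v2, v2', o2⟩ := hp2
  have n12 : e₁ ≠ e₂ := Y4_ne (hel _ m1) h12.symm v1 v2
  have n12' : e₁ ≠ e₂' := Y4_ne (hel _ m1) h12.symm v1 v2'
  have n1'2 : e₁' ≠ e₂ := Y4_ne (hel _ m1') h12.symm v1' v2
  have n1'2' : e₁' ≠ e₂' := Y4_ne (hel _ m1') h12.symm v1' v2'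
  set F : Finset (Idx d m → ℤ) := {e₁, e₁', e₂, e₂'} with hF
  have memF : ∀ e, e ∈ F ↔ e = e₁ ∨ e = e₁' ∨ e = e₂ ∨ e = e₂' := by
    intro e
    simp only [hF, Finset.mem_insert, Finset.mem_singleton]
  have hFC : F ⊆ C := by
    intro e he
    rcases (memF e).1 he with rfl | rfl | rfl | rfl
    · exact m1
    · exact m1'
    · exact m2
    · exact m2'
  have hFcard : F.card = 4 := by
    rw [hF, Finset.card_insert_of_notMem, Finset.card_insert_of_notMem, Finset.card_insert_of_notMem,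
      Finset.card_singleton]
    · rw [Finset.mem_singleton]
      exact n2
    · rw [Finset.mem_insert, Finset.mem_singleton]
      push Not
      exact ⟨n1'2, n1'2'⟩
    · rw [Finset.mem_insert, Finset.mem_insert, Finset.mem_singleton]
      push Not
      exact ⟨n1, n12, n12'⟩
  set β : (Idx d m → ℤ) → ℝ := fun e => if e ∈ F then 1 / 2 else 1 with hβ
  have bF : ∀ e ∈ F, β e = 1 / 2 := fun e he => by rw [hβ]; exact if_pos he
  have bN : ∀ e, e ∉ F → β e = 1 := fun e he => by rw [hβ]; exact if_neg he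
  have b1 : β e₁ = 1 / 2 := bF _ ((memF _).2 (Or.inl rfl))
  have b1' : β e₁' = 1 / 2 := bF _ ((memF _).2 (Or.inr (Or.inl rfl)))
  have b2 : β e₂ = 1 / 2 := bF _ ((memF _).2 (Or.inr (Or.inr (Or.inl rfl))))
  have b2' : β e₂' = 1 / 2 := bF _ ((memF _).2 (Or.inr (Or.inr (Or.inr rfl))))
  have bo : ∀ e ∈ C, e ≠ e₁ → e ≠ e₁' → e ≠ e₂ → e ≠ e₂' → β e = 1 := by
    intro e _ a1 a2 a3 a4
    refine bN e fun h => ?_
    rcases (memF e).1 h with h | h | h | h
    · exact a1 h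
    · exact a2 h
    · exact a3 h
    · exact a4 h
  have hβ0 : ∀ e, 0 ≤ β e := by
    intro e
    by_cases h : e ∈ F
    · rw [bF e h]
      norm_num
    · rw [bN e h]
      exact zero_le_one
  have hfact : (0 : ℝ) < (d + 1)! := by exact_mod_cast Nat.factorial_pos _
  refine ⟨y₃, β, 1, 2 / (d + 1)!, fun e _ => hβ0 e, ?_, ?_, by positivity, ?_, ?_⟩
  · -- the block degrees
    intro z hz
    by_cases h1 : z = y₁
    · rw [h1, Finset.sum_eq_add e₁ e₁' n1]
      · rw [b1, b1', v1, v1']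
        norm_num
      · intro e he hne
        by_cases h0 : e (Sum.inr y₁) = 0
        · rw [h0, Int.cast_zero, mul_zero]
        · rcases o1 e he h0 with h | h
          · exact absurd h hne.1
          · exact absurd h hne.2
      · intro h
        exact absurd m1 h
      · intro h
        exact absurd m1' h
    · by_cases h2 : z = y₂
      · rw [h2, Finset.sum_eq_add e₂ e₂' n2]
        · rw [b2, b2', v2, v2']
          norm_num
        · intro e he hne
          by_cases h0 : e (Sum.inr y₂) = 0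
          · rw [h0, Int.cast_zero, mul_zero]
          · rcases o2 e he h0 with h | h
            · exact absurd h hne.1
            · exact absurd h hne.2
        · intro h
          exact absurd m2 h
        · intro h
          exact absurd m2' h
      · obtain ⟨g, hg, hgz, hgo⟩ := htriv z h1 h2 hz
        rw [Finset.sum_eq_single g]
        · have g1 : β g = 1 := by
            refine bo g hg ?_ ?_ ?_ ?_
            · exact Y4_ne (hel _ hg) (y := z) (y' := y₁) (Ne.symm h1) hgz v1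
            · exact Y4_ne (hel _ hg) (y := z) (y' := y₁) (Ne.symm h1) hgz v1'
            · exact Y4_ne (hel _ hg) (y := z) (y' := y₂) (Ne.symm h2) hgz v2
            · exact Y4_ne (hel _ hg) (y := z) (y' := y₂) (Ne.symm h2) hgz v2'
          rw [g1, hgz, Int.cast_one, mul_one]
        · intro e he hne
          by_cases h0 : e (Sum.inr z) = 0
          · rw [h0, Int.cast_zero, mul_zero]
          · exact absurd (hgo e he h0) hne
        · intro h
          exact absurd hg h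
  · -- the degree of `y₃`
    obtain ⟨g, hg, hgz⟩ := hfull y₃
    have g0 : 1 ≤ g (Sum.inr y₃) := by
      have := Y4_nonneg (hel g hg) y₃
      omega
    have g1 : β g = 1 := by
      refine bN g fun h => ?_
      rcases (memF g).1 h with rfl | rfl | rfl | rfl
      · exact hgz (Y4_other (hel _ m1) (by rw [v1]; exact one_ne_zero) y₃ h13.symm)
      · exact hgz (Y4_other (hel _ m1') (by rw [v1']; exact one_ne_zero) y₃ h13.symm)
      · exact hgz (Y4_other (hel _ m2) (by rw [v2]; exact one_ne_zero) y₃ h23.symm)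
      · exact hgz (Y4_other (hel _ m2') (by rw [v2']; exact one_ne_zero) y₃ h23.symm)
    have h1 : β g * (g (Sum.inr y₃) : ℝ) ≤ ∑ e ∈ C, β e * (e (Sum.inr y₃) : ℝ) := by
      refine Finset.single_le_sum (f := fun e : Idx d m → ℤ => β e * (e (Sum.inr y₃) : ℝ)) ?_ hg
      intro e he
      have h2 : (0 : ℝ) ≤ (e (Sum.inr y₃) : ℝ) := by exact_mod_cast Y4_nonneg (hel e he) y₃
      exact mul_nonneg (hβ0 e) h2
    refine le_trans ?_ h1
    rw [g1, one_mul]
    exact_mod_cast g0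
  · -- the volume
    intro t ht
    have p1 := Y4_piece hm hel hfull hspan hcard y₁ y₂ y₃ e₁ e₁' e₂ e₂' h12 ⟨m1, m1', n1, v1, v1', o1⟩
      ⟨m2, m2', n2, v2, v2', o2⟩ htriv hrel β b1 b1' b2 b2' bo t ht
    have p2 := Y4_piece hm hel hfull hspan hcard y₁ y₂ y₃ e₁' e₁ e₂' e₂ h12
      ⟨m1', m1, n1.symm, v1', v1, fun f hf h => (o1 f hf h).symm⟩
      ⟨m2', m2, n2.symm, v2', v2, fun f hf h => (o2 f hf h).symm⟩ htriv hrel.symm β b1' b1 b2' b2
      (fun e he a1 a2 a3 a4 => bo e he a2 a1 a4 a3) t ht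
    have hsub : proj y₃ '' {ζ | ζ ∈ coneP C ∧ ∑ e ∈ C, β e * pr e ζ ≤ t} ⊆
        (proj y₃ '' {ζ | ζ ∈ coneP C ∧ ∑ e ∈ C, β e * pr e ζ ≤ t ∧ 0 ≤ pr (e₁ - e₁') ζ}) ∪
        (proj y₃ '' {ζ | ζ ∈ coneP C ∧ ∑ e ∈ C, β e * pr e ζ ≤ t ∧ 0 ≤ pr (e₁' - e₁) ζ}) := by
      rintro v ⟨ζ, ⟨h1, h2⟩, rfl⟩
      rcases le_total 0 (pr (e₁ - e₁') ζ) with h | h
      · exact Or.inl ⟨ζ, ⟨h1, h2, h⟩, rfl⟩
      · refine Or.inr ⟨ζ, ⟨h1, h2, ?_⟩, rfl⟩
        rw [pr_sub] at h ⊢
        linarith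
    refine (measure_mono hsub).trans ((measure_union_le _ _).trans ((add_le_add p1 p2).trans ?_))
    rw [← ENNReal.ofReal_add (by positivity) (by positivity)]
    refine ENNReal.ofReal_le_ofReal (le_of_eq ?_)
    ring
  · -- the product
    have h1 : ∑ e ∈ C, β e = (d : ℝ) + m - 2 := by
      rw [← Finset.sum_sdiff hFC]
      have h2 : ∑ e ∈ C \ F, β e = ∑ e ∈ C \ F, (1 : ℝ) :=
        Finset.sum_congr rfl fun e he => bN e (Finset.mem_sdiff.1 he).2
      have h3 : ∑ e ∈ F, β e = ∑ e ∈ F, (1 / 2 : ℝ) := Finset.sum_congr rfl fun e he => bF e he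
      rw [h2, h3, Finset.sum_const, Finset.sum_const, hFcard]
      have h4 : (C \ F).card + 4 = d + m := by
        rw [Finset.card_sdiff_of_subset hFC, hFcard, hcard]
        have : F.card ≤ C.card := Finset.card_le_card hFC
        omega
      have h5 : ((C \ F).card : ℝ) + 4 = d + m := by exact_mod_cast h4
      simp only [nsmul_eq_mul, mul_one]
      push_cast
      linarith
    rw [h1]
    have h2 : (d : ℝ) + m - 2 - ((m : ℝ) - 2) * 1 = d := by ring
    have h3 : ((d + 1)! : ℝ) * (2 / (d + 1)!) = 2 := by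
      field_simp
    rw [h2, h3, mul_comm]

end Pool.Agent.Lib.H45DA
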