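import Pool.Agent.Lib.H45DA.Y5a
import Pool.Agent.Lib.H45DA.N1

/-!
# Project H45DA, chunk Y5: the circuit `e₁ + e₂ + e₃ = e₁' + e₂' + e₃'`
-/

open MeasureTheory
open scoped Nat

namespace Pool.Agent.Lib.H45DA

variable {d m : ℕ}

private theorem Y5_other {e : Idx d m → ℤ} (he : IsElt e) {z z' : Fin m}
    (hz : e (Sum.inr z) ≠ 0) (h : z' ≠ z) : e (Sum.inr z') = 0 := by
  rcases he with h0 | ⟨y, _, hy⟩
  · exact absurd (h0 z) hz
  · have hzy : z = y := by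
      by_contra hne
      exact hz (hy z hne)
    subst hzy
    exact hy z' h

open Classical in
private noncomputable def Y5_beta (y₁ y₂ y₃ : Fin m) (e : Idx d m → ℤ) : ℝ :=
  if ∃ z, z ≠ y₁ ∧ z ≠ y₂ ∧ z ≠ y₃ ∧ e (Sum.inr z) ≠ 0 then 2 else 1

private theorem Y5_beta_two {y₁ y₂ y₃ : Fin m} {e : Idx d m → ℤ}
    (h : ∃ z, z ≠ y₁ ∧ z ≠ y₂ ∧ z ≠ y₃ ∧ e (Sum.inr z) ≠ 0) : Y5_beta y₁ y₂ y₃ e = 2 := if_pos h

private theorem Y5_beta_one {y₁ y₂ y₃ : Fin m} {e : Idx d m → ℤ}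
    (h : ¬ ∃ z, z ≠ y₁ ∧ z ≠ y₂ ∧ z ≠ y₃ ∧ e (Sum.inr z) ≠ 0) : Y5_beta y₁ y₂ y₃ e = 1 := if_neg h

private theorem Y5_beta_pair {y₁ y₂ y₃ : Fin m} {e : Idx d m → ℤ} (he : IsElt e) {z : Fin m}
    (hz : z = y₁ ∨ z = y₂ ∨ z = y₃) (h : e (Sum.inr z) ≠ 0) : Y5_beta y₁ y₂ y₃ e = 1 := by
  apply Y5_beta_one
  rintro ⟨w, h1, h2, h3, h4⟩
  have hwz : w ≠ z := by
    rintro rfl
    rcases hz with h5 | h5 | h5
    · exact h1 h5
    · exact h2 h5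
    · exact h3 h5
  exact h4 (Y5_other he h hwz)

private theorem Y5_piece (hm : 3 ≤ m) {C : Finset (Idx d m → ℤ)} (hel : ∀ e ∈ C, IsElt e)
    (hfull : Full C) (hspan : Spans C) (hcard : C.card = d + m) (y₁ y₂ y₃ a b c : Fin m)
    (habc : ∀ z, (z = a ∨ z = b ∨ z = c) ↔ (z = y₁ ∨ z = y₂ ∨ z = y₃))
    (hab : a ≠ b) (hac : a ≠ c) (hbc : b ≠ c)
    (f₁ f₁' f₂ f₂' f₃ f₃' : Idx d m → ℤ)
    (h1 : IsPair C a f₁ f₁') (h2 : IsPair C b f₂ f₂') (h3 : IsPair C c f₃ f₃')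
    (htriv : ∀ z, z ≠ y₁ → z ≠ y₂ → z ≠ y₃ → Triv C z)
    (hrel : f₁ + f₂ + f₃ = f₁' + f₂' + f₃') (y : Fin m) (t : ℝ) (ht : 0 ≤ t) :
    volume (proj y '' {ζ | ζ ∈ coneP C ∧ ∑ e ∈ C, Y5_beta y₁ y₂ y₃ e * pr e ζ ≤ t ∧
      0 ≤ pr (f₁ - f₁') ζ ∧ 0 ≤ pr (f₂ - f₂') ζ}) ≤
        ENNReal.ofReal (t ^ (d + 1) / (16 * (d + 1)!)) := by
  have hne : ∀ z, z ≠ a → z ≠ b → z ≠ c → z ≠ y₁ ∧ z ≠ y₂ ∧ z ≠ y₃ := by
    intro z h4 h5 h6
    have h7 : ¬ (z = y₁ ∨ z = y₂ ∨ z = y₃) := by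
      rw [← habc z]
      rintro (h8 | h8 | h8)
      · exact h4 h8
      · exact h5 h8
      · exact h6 h8
    exact ⟨fun h => h7 (Or.inl h), fun h => h7 (Or.inr (Or.inl h)), fun h => h7 (Or.inr (Or.inr h))⟩
  refine volume_piece_three hm hel hfull hspan hcard a b c f₁ f₁' f₂ f₂' f₃ f₃' hab hac hbc h1 h2 h3
    ?_ hrel (Y5_beta y₁ y₂ y₃) ?_ ?_ ?_ y t ht
  · intro z h4 h5 h6
    obtain ⟨h7, h8, h9⟩ := hne z h4 h5 h6
    exact htriv z h7 h8 h9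
  · intro e _ he0
    apply Y5_beta_one
    rintro ⟨w, _, _, _, h4⟩
    exact h4 (he0 w)
  · rintro e he ⟨z, hz, hz0⟩
    exact Y5_beta_pair (hel e he) ((habc z).mp hz) hz0
  · rintro e _ ⟨z, h4, h5, h6, hz0⟩
    obtain ⟨h7, h8, h9⟩ := hne z h4 h5 h6
    exact Y5_beta_two ⟨z, h7, h8, h9, hz0⟩

private theorem Y5_symm {C : Finset (Idx d m → ℤ)} {y : Fin m} {e e' : Idx d m → ℤ}
    (h : IsPair C y e e') : IsPair C y e' e :=
  ⟨h.2.1, h.1, h.2.2.1.symm, h.2.2.2.2.1, h.2.2.2.1, fun f hf h0 => (h.2.2.2.2.2 f hf h0).symm⟩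

private theorem Y5_sum_pair {C : Finset (Idx d m → ℤ)} {y : Fin m} {e e' : Idx d m → ℤ}
    (h : IsPair C y e e') (β : (Idx d m → ℤ) → ℝ) (h1 : β e = 1) (h2 : β e' = 1) :
    ∑ f ∈ C, β f * f (Sum.inr y) = 2 := by
  classical
  obtain ⟨he, he', hne, hv, hv', hall⟩ := h
  have hsub : ({e, e'} : Finset (Idx d m → ℤ)) ⊆ C := by
    intro f hf
    rw [Finset.mem_insert, Finset.mem_singleton] at hf
    rcases hf with rfl | rfl
    · exact he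
    · exact he'
  rw [← Finset.sum_subset hsub]
  · rw [Finset.sum_pair hne, h1, h2, hv, hv']
    norm_num
  · intro f hf hf'
    have h0 : f (Sum.inr y) = 0 := by
      by_contra h0
      apply hf'
      rw [Finset.mem_insert, Finset.mem_singleton]
      exact hall f hf h0
    rw [h0]
    simp

private theorem Y5_sum_triv {C : Finset (Idx d m → ℤ)} {y : Fin m} (h : Triv C y)
    (β : (Idx d m → ℤ) → ℝ) (b : ℝ) (hb : ∀ e ∈ C, e (Sum.inr y) ≠ 0 → β e = b) :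
    ∑ f ∈ C, β f * f (Sum.inr y) = b := by
  obtain ⟨e, he, hv, hall⟩ := h
  rw [Finset.sum_eq_single_of_mem e he]
  · rw [hv, hb e he (by rw [hv]; exact one_ne_zero)]
    simp
  · intro f hf hfe
    have h0 : f (Sum.inr y) = 0 := by
      by_contra h0
      exact hfe (hall f hf h0)
    rw [h0]
    simp

private theorem Y5_total {C : Finset (Idx d m → ℤ)} (hel : ∀ e ∈ C, IsElt e)
    (hcard : C.card = d + m) {y₁ y₂ y₃ : Fin m} (h12 : y₁ ≠ y₂) (h13 : y₁ ≠ y₃) (h23 : y₂ ≠ y₃)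
    (htriv : ∀ z, z ≠ y₁ → z ≠ y₂ → z ≠ y₃ → Triv C z) :
    ∑ e ∈ C, Y5_beta y₁ y₂ y₃ e - ((m : ℝ) - 2) * 2 = d + 1 := by
  classical
  have hS : ({y₁, y₂, y₃} : Finset (Fin m)).card = 3 :=
    Finset.card_eq_three.mpr ⟨y₁, y₂, y₃, h12, h13, h23, rfl⟩
  have hT : (Finset.univ \ ({y₁, y₂, y₃} : Finset (Fin m))).card + 3 = m := by
    have h := Finset.card_sdiff_add_card_eq_card (Finset.subset_univ ({y₁, y₂, y₃} : Finset (Fin m)))
    rw [hS, Finset.card_univ, Fintype.card_fin] at h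
    exact h
  have hmem : ∀ z, z ∈ Finset.univ \ ({y₁, y₂, y₃} : Finset (Fin m)) ↔ z ≠ y₁ ∧ z ≠ y₂ ∧ z ≠ y₃ := by
    intro z
    simp only [Finset.mem_sdiff, Finset.mem_univ, true_and, Finset.mem_insert, Finset.mem_singleton,
      not_or]
  have hβ : ∀ e ∈ C, Y5_beta y₁ y₂ y₃ e =
      1 + ∑ z ∈ Finset.univ \ ({y₁, y₂, y₃} : Finset (Fin m)), 1 * (e (Sum.inr z) : ℝ) := by
    intro e he
    by_cases h : ∃ z, z ≠ y₁ ∧ z ≠ y₂ ∧ z ≠ y₃ ∧ e (Sum.inr z) ≠ 0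
    · rw [Y5_beta_two h]
      obtain ⟨z, h1, h2, h3, h4⟩ := h
      obtain ⟨e', he', hv, hall⟩ := htriv z h1 h2 h3
      have hee : e = e' := hall e he h4
      subst hee
      rw [Finset.sum_eq_single_of_mem z ((hmem z).mpr ⟨h1, h2, h3⟩)]
      · rw [hv]
        norm_num
      · intro w _ hw
        rw [Y5_other (hel e he) h4 hw]
        simp
    · rw [Y5_beta_one h, Finset.sum_eq_zero, add_zero]
      intro z hz
      obtain ⟨h1, h2, h3⟩ := (hmem z).mp hz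
      have h0 : e (Sum.inr z) = 0 := by
        by_contra h0
        exact h ⟨z, h1, h2, h3, h0⟩
      rw [h0]
      simp
  rw [Finset.sum_congr rfl hβ, Finset.sum_add_distrib, Finset.sum_comm]
  have h1 : ∀ z ∈ Finset.univ \ ({y₁, y₂, y₃} : Finset (Fin m)),
      ∑ e ∈ C, 1 * (e (Sum.inr z) : ℝ) = 1 := by
    intro z hz
    obtain ⟨h1, h2, h3⟩ := (hmem z).mp hz
    exact Y5_sum_triv (htriv z h1 h2 h3) (fun _ => 1) 1 (fun _ _ _ => rfl)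
  rw [Finset.sum_congr rfl h1, Finset.sum_const, Finset.sum_const, hcard, nsmul_eq_mul, nsmul_eq_mul]
  have h2 : (((Finset.univ \ ({y₁, y₂, y₃} : Finset (Fin m))).card + 3 : ℕ) : ℝ) = (m : ℝ) := by
    rw [hT]
  push_cast at h2 ⊢
  linarith

private theorem Y5_union {A S₁ S₂ S₃ S₄ S₅ S₆ : Set (Idx d m → ℝ)} (y : Fin m) {v : ℝ} (hv : 0 ≤ v)
    (hA : A ⊆ S₁ ∪ (S₂ ∪ (S₃ ∪ (S₄ ∪ (S₅ ∪ S₆)))))
    (h₁ : volume (proj y '' S₁) ≤ ENNReal.ofReal v) (h₂ : volume (proj y '' S₂) ≤ ENNReal.ofReal v)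
    (h₃ : volume (proj y '' S₃) ≤ ENNReal.ofReal v) (h₄ : volume (proj y '' S₄) ≤ ENNReal.ofReal v)
    (h₅ : volume (proj y '' S₅) ≤ ENNReal.ofReal v) (h₆ : volume (proj y '' S₆) ≤ ENNReal.ofReal v) :
    volume (proj y '' A) ≤ ENNReal.ofReal (6 * v) := by
  have h0 : volume (proj y '' A) ≤ volume (proj y '' (S₁ ∪ (S₂ ∪ (S₃ ∪ (S₄ ∪ (S₅ ∪ S₆)))))) :=
    measure_mono (Set.image_mono hA)
  refine h0.trans ?_
  rw [Set.image_union, Set.image_union, Set.image_union, Set.image_union, Set.image_union]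
  have e : ENNReal.ofReal (6 * v) = ENNReal.ofReal v + (ENNReal.ofReal v + (ENNReal.ofReal v +
      (ENNReal.ofReal v + (ENNReal.ofReal v + ENNReal.ofReal v)))) := by
    rw [← ENNReal.ofReal_add hv hv, ← ENNReal.ofReal_add hv (by positivity),
      ← ENNReal.ofReal_add hv (by positivity), ← ENNReal.ofReal_add hv (by positivity),
      ← ENNReal.ofReal_add hv (by positivity)]
    ring_nf
  rw [e]
  refine (measure_union_le _ _).trans (add_le_add h₁ ?_)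
  refine (measure_union_le _ _).trans (add_le_add h₂ ?_)
  refine (measure_union_le _ _).trans (add_le_add h₃ ?_)
  refine (measure_union_le _ _).trans (add_le_add h₄ ?_)
  exact (measure_union_le _ _).trans (add_le_add h₅ h₆)

/-- **Chunk Y5** (M). The bound for `CircuitThree`.

Proof. `β` = `1` on the six elements and on the rays, `2` on the trivial blocks, `D = 2`, any `y`: all block degrees are `2`. The number of rays is `d + m - 6 - (m - 3) = d - 3`, so `d ≥ 3`, and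
`∑ β - 2(m-2) = 6 + 2(m-3) + (d - 3) - 2(m-2) = d + 1 = n`. With `r_i = e_i - e_i'`, `r₁ + r₂ + r₃ = 0`: two of the `⟨r_i, ζ⟩` are `≥ 0`, or two are `≤ 0`; so the set is the union of the six pieces of Y5a for
`(1,2,3)`, `(1,3,2)`, `(2,3,1)` and the same with `e_i` and `e_i'` exchanged: `c = 6/(16 n!)`, and `nⁿ (6/16) ≤ (16/27) nⁿ ≤ 2(n-1)ⁿ` (`num_third`, `n ≥ 4`). -/
theorem bound_circuitThree (hd : 1 ≤ d) (hm : 3 ≤ m) {C : Finset (Idx d m → ℤ)}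
    (hel : ∀ e ∈ C, IsElt e) (hC : CircuitThree C) : HasBound C := by
  obtain ⟨hfull, hspan, hcard, y₁, y₂, y₃, e₁, e₁', e₂, e₂', e₃, e₃', h12, h13, h23, p1, p2, p3,
    htriv, hrel⟩ := hC
  have hfac : (0 : ℝ) < ((d + 1)! : ℝ) := by exact_mod_cast Nat.factorial_pos _
  have hne1 : ∀ {y : Fin m} {e : Idx d m → ℤ}, e (Sum.inr y) = 1 → e (Sum.inr y) ≠ 0 := by
    intro y e h
    rw [h]
    exact one_ne_zero
  have hsum : ∀ z, ∑ e ∈ C, Y5_beta y₁ y₂ y₃ e * e (Sum.inr z) = 2 := by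
    intro z
    by_cases hz1 : z = y₁
    · subst hz1
      exact Y5_sum_pair p1 _ (Y5_beta_pair (hel _ p1.1) (Or.inl rfl) (hne1 p1.2.2.2.1))
        (Y5_beta_pair (hel _ p1.2.1) (Or.inl rfl) (hne1 p1.2.2.2.2.1))
    by_cases hz2 : z = y₂
    · subst hz2
      exact Y5_sum_pair p2 _ (Y5_beta_pair (hel _ p2.1) (Or.inr (Or.inl rfl)) (hne1 p2.2.2.2.1))
        (Y5_beta_pair (hel _ p2.2.1) (Or.inr (Or.inl rfl)) (hne1 p2.2.2.2.2.1))
    by_cases hz3 : z = y₃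
    · subst hz3
      exact Y5_sum_pair p3 _ (Y5_beta_pair (hel _ p3.1) (Or.inr (Or.inr rfl)) (hne1 p3.2.2.2.1))
        (Y5_beta_pair (hel _ p3.2.1) (Or.inr (Or.inr rfl)) (hne1 p3.2.2.2.2.1))
    exact Y5_sum_triv (htriv z hz1 hz2 hz3) _ 2
      (fun e _ he => Y5_beta_two ⟨z, hz1, hz2, hz3, he⟩)
  refine ⟨y₁, Y5_beta y₁ y₂ y₃, 2, 6 / (16 * ((d + 1)! : ℝ)), ?_, fun z _ => hsum z,
    (hsum y₁).ge, by positivity, ?_, ?_⟩
  · intro e _
    unfold Y5_beta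
    split_ifs <;> norm_num
  · intro t ht
    have hv : 0 ≤ t ^ (d + 1) / (16 * ((d + 1)! : ℝ)) := by positivity
    have hbound := Y5_union (d := d) (m := m)
      (A := {z | z ∈ coneP C ∧ ∑ e ∈ C, Y5_beta y₁ y₂ y₃ e * pr e z ≤ t}) y₁ hv ?_
      (Y5_piece hm hel hfull hspan hcard y₁ y₂ y₃ y₁ y₂ y₃ (fun z => Iff.rfl) h12 h13 h23
        e₁ e₁' e₂ e₂' e₃ e₃' p1 p2 p3 htriv hrel y₁ t ht)
      (Y5_piece hm hel hfull hspan hcard y₁ y₂ y₃ y₁ y₃ y₂ (fun z => by tauto) h13 h12 h23.symm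
        e₁ e₁' e₃ e₃' e₂ e₂' p1 p3 p2 htriv
        (by rw [add_right_comm e₁ e₃ e₂, add_right_comm e₁' e₃' e₂', hrel]) y₁ t ht)
      (Y5_piece hm hel hfull hspan hcard y₁ y₂ y₃ y₂ y₃ y₁ (fun z => by tauto) h23 h12.symm h13.symm
        e₂ e₂' e₃ e₃' e₁ e₁' p2 p3 p1 htriv
        (by rw [add_comm (e₂ + e₃) e₁, add_comm (e₂' + e₃') e₁', ← add_assoc, ← add_assoc, hrel])
        y₁ t ht)
      (Y5_piece hm hel hfull hspan hcard y₁ y₂ y₃ y₁ y₂ y₃ (fun z => Iff.rfl) h12 h13 h23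
        e₁' e₁ e₂' e₂ e₃' e₃ (Y5_symm p1) (Y5_symm p2) (Y5_symm p3) htriv hrel.symm y₁ t ht)
      (Y5_piece hm hel hfull hspan hcard y₁ y₂ y₃ y₁ y₃ y₂ (fun z => by tauto) h13 h12 h23.symm
        e₁' e₁ e₃' e₃ e₂' e₂ (Y5_symm p1) (Y5_symm p3) (Y5_symm p2) htriv
        (by rw [add_right_comm e₁ e₃ e₂, add_right_comm e₁' e₃' e₂', hrel]) y₁ t ht)
      (Y5_piece hm hel hfull hspan hcard y₁ y₂ y₃ y₂ y₃ y₁ (fun z => by tauto) h23 h12.symm h13.symm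
        e₂' e₂ e₃' e₃ e₁' e₁ (Y5_symm p2) (Y5_symm p3) (Y5_symm p1) htriv
        (by rw [add_comm (e₂ + e₃) e₁, add_comm (e₂' + e₃') e₁', ← add_assoc, ← add_assoc, hrel])
        y₁ t ht)
    · refine hbound.trans (le_of_eq ?_)
      congr 1
      field_simp
    · rintro ζ ⟨hζ1, hζ2⟩
      have hr : pr (e₁ - e₁') ζ + pr (e₂ - e₂') ζ + pr (e₃ - e₃') ζ = 0 := by
        rw [← pr_add, ← pr_add]
        have h0 : e₁ - e₁' + (e₂ - e₂') + (e₃ - e₃') = 0 := by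
          have h : e₁ - e₁' + (e₂ - e₂') + (e₃ - e₃') = (e₁ + e₂ + e₃) - (e₁' + e₂' + e₃') := by abel
          rw [h, hrel, sub_self]
        rw [h0]
        simp [pr]
      have n1 : pr (e₁' - e₁) ζ = -pr (e₁ - e₁') ζ := by
        rw [← pr_neg, neg_sub]
      have n2 : pr (e₂' - e₂) ζ = -pr (e₂ - e₂') ζ := by
        rw [← pr_neg, neg_sub]
      have n3 : pr (e₃' - e₃) ζ = -pr (e₃ - e₃') ζ := by
        rw [← pr_neg, neg_sub]
      rcases le_total 0 (pr (e₁ - e₁') ζ) with a1 | a1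
      · rcases le_total 0 (pr (e₂ - e₂') ζ) with a2 | a2
        · exact Or.inl ⟨hζ1, hζ2, a1, a2⟩
        · rcases le_total 0 (pr (e₃ - e₃') ζ) with a3 | a3
          · exact Or.inr (Or.inl ⟨hζ1, hζ2, a1, a3⟩)
          · refine Or.inr (Or.inr (Or.inr (Or.inr (Or.inr ⟨hζ1, hζ2, ?_, ?_⟩))))
            · rw [n2]; linarith
            · rw [n3]; linarith
      · rcases le_total 0 (pr (e₂ - e₂') ζ) with a2 | a2
        · rcases le_total 0 (pr (e₃ - e₃') ζ) with a3 | a3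
          · exact Or.inr (Or.inr (Or.inl ⟨hζ1, hζ2, a2, a3⟩))
          · refine Or.inr (Or.inr (Or.inr (Or.inr (Or.inl ⟨hζ1, hζ2, ?_, ?_⟩))))
            · rw [n1]; linarith
            · rw [n3]; linarith
        · refine Or.inr (Or.inr (Or.inr (Or.inl ⟨hζ1, hζ2, ?_, ?_⟩)))
          · rw [n1]; linarith
          · rw [n2]; linarith
  · rw [Y5_total hel hcard h12 h13 h23 htriv]
    have h1 := num_half (d + 1) (by omega)
    have h2 : ((d + 1 : ℕ) : ℝ) - 1 = d := by push_cast; ring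
    rw [h2] at h1
    have h3 : ((d + 1)! : ℝ) * (6 / (16 * ((d + 1)! : ℝ))) = 6 / 16 := by
      field_simp
    rw [h3]
    push_cast at h1
    have h4 : (0 : ℝ) ≤ (d : ℝ) ^ (d + 1) := by positivity
    linarith

end Pool.Agent.Lib.H45DA
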