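import Pool.Agent.Lib.H45DA.V5
import Pool.Agent.Lib.H45DA.K0
import Pool.Agent.Lib.H45DA.XDefs

/-!
# Project H45DA, chunk Y5a: a piece for the circuit `e₁ + e₂ + e₃ = e₁' + e₂' + e₃'`
-/

open MeasureTheory
open scoped Nat

namespace Pool.Agent.Lib.H45DA

variable {d m : ℕ}

private theorem Y5a_block {e : Idx d m → ℤ} (h : IsElt e) {y : Fin m}
    (hy : e (Sum.inr y) = 1) {z : Fin m} (hz : z ≠ y) : e (Sum.inr z) = 0 := by
  have hy' : e (Sum.inr y) ≠ 0 := by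
    rw [hy]
    exact one_ne_zero
  rcases h with h | ⟨y', _, h2⟩
  · exact absurd (h y) hy'
  · have hyy : y' = y := by
      by_contra hne
      exact hy' (h2 y (Ne.symm hne))
    exact h2 z (hyy ▸ hz)

private theorem Y5a_ne {a b : Idx d m → ℤ} {y : Fin m} (ha : a (Sum.inr y) = 1)
    (hb : b (Sum.inr y) = 0) : a ≠ b := by
  intro h
  rw [h, hb] at ha
  exact zero_ne_one ha

/-- **Chunk Y5a** (M). One of the six pieces, that with `⟨f₁ - f₁', ζ⟩ ≥ 0` and `⟨f₂ - f₂', ζ⟩ ≥ 0`.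

Proof. `r_i = f_i - f_i'`, rays; `f₁ = f₁' + r₁`, `f₂ = f₂' + r₂`, `f₃' = f₃ + r₁ + r₂`. `ζ` is in the cone of `C' = (C ∖ {f₁, f₂, f₃'}) ∪ {r₁, r₂}`; with `β' = 2` on `f₁', f₂', f₃, r₁, r₂` and on the trivial blocks, `1` on the rays of `C`:
`∑_(C') β' ⟨e, ζ⟩ = ∑_C β ⟨e, ζ⟩` for `β` = `1` on the six elements and on the rays, `2` on the trivial blocks. `C'` is full and spans; `r₁ ≠ r₂` and `r₁, r₂ ∉ C ∖ {f₁, f₂, f₃'}` because otherwise a set of at most `d + m - 2` elements would span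
(`card_of_spans`). So `C'` has `d + m - 1` elements, and V5 (`D = 2`, `y = y₁`) gives `2^(m-2) tⁿ/(n! 2⁵ 2^(m-3)) = tⁿ/(16 n!)`. -/
theorem volume_piece_three (hm : 3 ≤ m) {C : Finset (Idx d m → ℤ)} (hel : ∀ e ∈ C, IsElt e)
    (hfull : Full C) (hspan : Spans C) (hcard : C.card = d + m) (y₁ y₂ y₃ : Fin m)
    (f₁ f₁' f₂ f₂' f₃ f₃' : Idx d m → ℤ) (h12 : y₁ ≠ y₂) (h13 : y₁ ≠ y₃) (h23 : y₂ ≠ y₃)
    (h1 : IsPair C y₁ f₁ f₁') (h2 : IsPair C y₂ f₂ f₂') (h3 : IsPair C y₃ f₃ f₃')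
    (htriv : ∀ z, z ≠ y₁ → z ≠ y₂ → z ≠ y₃ → Triv C z) (hrel : f₁ + f₂ + f₃ = f₁' + f₂' + f₃')
    (β : (Idx d m → ℤ) → ℝ) (hβ₁ : ∀ e ∈ C, (∀ z, e (Sum.inr z) = 0) → β e = 1)
    (hβ₂ : ∀ e ∈ C, (∃ z, (z = y₁ ∨ z = y₂ ∨ z = y₃) ∧ e (Sum.inr z) ≠ 0) → β e = 1)
    (hβ₃ : ∀ e ∈ C, (∃ z, z ≠ y₁ ∧ z ≠ y₂ ∧ z ≠ y₃ ∧ e (Sum.inr z) ≠ 0) → β e = 2) (y : Fin m)
    (t : ℝ) (ht : 0 ≤ t) :
    volume (proj y '' {ζ | ζ ∈ coneP C ∧ ∑ e ∈ C, β e * pr e ζ ≤ t ∧
      0 ≤ pr (f₁ - f₁') ζ ∧ 0 ≤ pr (f₂ - f₂') ζ}) ≤ ENNReal.ofReal (t ^ (d + 1) / (16 * (d + 1)!)) := by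
  classical
  obtain ⟨m1, m1', n1, c1, c1', u1⟩ := h1
  obtain ⟨m2, m2', n2, c2, c2', u2⟩ := h2
  obtain ⟨m3, m3', n3, c3, c3', u3⟩ := h3
  have b1 : ∀ z, z ≠ y₁ → f₁ (Sum.inr z) = 0 := fun z hz => Y5a_block (hel _ m1) c1 hz
  have b1' : ∀ z, z ≠ y₁ → f₁' (Sum.inr z) = 0 := fun z hz => Y5a_block (hel _ m1') c1' hz
  have b2 : ∀ z, z ≠ y₂ → f₂ (Sum.inr z) = 0 := fun z hz => Y5a_block (hel _ m2) c2 hz
  have b2' : ∀ z, z ≠ y₂ → f₂' (Sum.inr z) = 0 := fun z hz => Y5a_block (hel _ m2') c2' hz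
  have b3 : ∀ z, z ≠ y₃ → f₃ (Sum.inr z) = 0 := fun z hz => Y5a_block (hel _ m3) c3 hz
  have b3' : ∀ z, z ≠ y₃ → f₃' (Sum.inr z) = 0 := fun z hz => Y5a_block (hel _ m3') c3' hz
  -- distinctness
  have d1 : f₁ ≠ f₂ := Y5a_ne c1 (b2 _ h12)
  have d2 : f₁ ≠ f₃' := Y5a_ne c1 (b3' _ h13)
  have d3 : f₁ ≠ f₂' := Y5a_ne c1 (b2' _ h12)
  have d4 : f₁ ≠ f₃ := Y5a_ne c1 (b3 _ h13)
  have d5 : f₂ ≠ f₃' := Y5a_ne c2 (b3' _ h23)
  have d6 : f₂ ≠ f₁' := Y5a_ne c2 (b1' _ h12.symm)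
  have d7 : f₂ ≠ f₃ := Y5a_ne c2 (b3 _ h23)
  have d8 : f₃' ≠ f₁' := Y5a_ne c3' (b1' _ h13.symm)
  have d9 : f₃' ≠ f₂' := Y5a_ne c3' (b2' _ h23.symm)
  have d10 : f₁' ≠ f₂' := Y5a_ne c1' (b2' _ h12)
  have d11 : f₁' ≠ f₃ := Y5a_ne c1' (b3 _ h13)
  have d12 : f₂' ≠ f₃ := Y5a_ne c2' (b3 _ h23)
  obtain ⟨r₁, hr1⟩ : ∃ r₁, r₁ = f₁ - f₁' := ⟨_, rfl⟩
  obtain ⟨r₂, hr2⟩ : ∃ r₂, r₂ = f₂ - f₂' := ⟨_, rfl⟩
  have r1b : ∀ z, r₁ (Sum.inr z) = 0 := by
    intro z
    rw [hr1, Pi.sub_apply]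
    by_cases hz : z = y₁
    · rw [hz, c1, c1', sub_self]
    · rw [b1 z hz, b1' z hz, sub_self]
  have r2b : ∀ z, r₂ (Sum.inr z) = 0 := by
    intro z
    rw [hr2, Pi.sub_apply]
    by_cases hz : z = y₂
    · rw [hz, c2, c2', sub_self]
    · rw [b2 z hz, b2' z hz, sub_self]
  obtain ⟨R, hR⟩ : ∃ R : Finset (Idx d m → ℤ), R = C \ {f₁, f₂, f₃', f₁', f₂', f₃} := ⟨_, rfl⟩
  have hRmem : ∀ e, e ∈ R ↔ e ∈ C ∧ e ≠ f₁ ∧ e ≠ f₂ ∧ e ≠ f₃' ∧ e ≠ f₁' ∧ e ≠ f₂' ∧ e ≠ f₃ := by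
    intro e
    rw [hR]
    simp only [Finset.mem_sdiff, Finset.mem_insert, Finset.mem_singleton, not_or]
  have q6 : f₃ ∉ R := fun h => ((hRmem _).1 h).2.2.2.2.2.2 rfl
  have q5 : f₂' ∉ insert f₃ R := by
    rw [Finset.mem_insert, not_or]
    exact ⟨d12, fun h => ((hRmem _).1 h).2.2.2.2.2.1 rfl⟩
  have q4 : f₁' ∉ insert f₂' (insert f₃ R) := by
    rw [Finset.mem_insert, Finset.mem_insert, not_or, not_or]
    exact ⟨d10, d11, fun h => ((hRmem _).1 h).2.2.2.2.1 rfl⟩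
  have q3 : f₃' ∉ insert f₁' (insert f₂' (insert f₃ R)) := by
    simp only [Finset.mem_insert, not_or]
    exact ⟨d8, d9, n3.symm, fun h => ((hRmem _).1 h).2.2.2.1 rfl⟩
  have q2 : f₂ ∉ insert f₃' (insert f₁' (insert f₂' (insert f₃ R))) := by
    simp only [Finset.mem_insert, not_or]
    exact ⟨d5, d6, n2, d7, fun h => ((hRmem _).1 h).2.2.1 rfl⟩
  have q1 : f₁ ∉ insert f₂ (insert f₃' (insert f₁' (insert f₂' (insert f₃ R)))) := by
    simp only [Finset.mem_insert, not_or]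
    exact ⟨d1, d2, n1, d3, d4, fun h => ((hRmem _).1 h).2.1 rfl⟩
  have hC : C = insert f₁ (insert f₂ (insert f₃' (insert f₁' (insert f₂' (insert f₃ R))))) := by
    ext e
    simp only [Finset.mem_insert, hRmem]
    constructor
    · intro he
      tauto
    · rintro (h | h | h | h | h | h | h)
      · rw [h]; exact m1
      · rw [h]; exact m2
      · rw [h]; exact m3'
      · rw [h]; exact m1'
      · rw [h]; exact m2'
      · rw [h]; exact m3
      · exact h.1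
  have hsumC : ∀ G : (Idx d m → ℤ) → ℝ, ∑ e ∈ C, G e =
      G f₁ + (G f₂ + (G f₃' + (G f₁' + (G f₂' + (G f₃ + ∑ e ∈ R, G e))))) := by
    intro G
    rw [hC, Finset.sum_insert q1, Finset.sum_insert q2, Finset.sum_insert q3,
      Finset.sum_insert q4, Finset.sum_insert q5, Finset.sum_insert q6]
  have hcardR : R.card + 6 = d + m := by
    rw [← hcard, hC, Finset.card_insert_of_notMem q1, Finset.card_insert_of_notMem q2,
      Finset.card_insert_of_notMem q3, Finset.card_insert_of_notMem q4,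
      Finset.card_insert_of_notMem q5, Finset.card_insert_of_notMem q6]
  have hR0card : (insert f₁' (insert f₂' (insert f₃ R))).card = R.card + 3 := by
    rw [Finset.card_insert_of_notMem q4, Finset.card_insert_of_notMem q5,
      Finset.card_insert_of_notMem q6]
  obtain ⟨R0, hR0⟩ : ∃ R0, R0 = insert f₁' (insert f₂' (insert f₃ R)) := ⟨_, rfl⟩
  obtain ⟨C', hC'⟩ : ∃ C', C' = insert r₁ (insert r₂ R0) := ⟨_, rfl⟩
  have hR0C : ∀ e ∈ R0, e ∈ C := by
    intro e he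
    rw [hR0, Finset.mem_insert, Finset.mem_insert, Finset.mem_insert] at he
    rcases he with h | h | h | h
    · rw [h]; exact m1'
    · rw [h]; exact m2'
    · rw [h]; exact m3
    · exact ((hRmem e).1 h).1
  have hmemC' : ∀ e, e ∈ C' ↔ e = r₁ ∨ e = r₂ ∨ e ∈ R0 := by
    intro e
    rw [hC', Finset.mem_insert, Finset.mem_insert]
  have hf1 : f₁' ∈ R0 := by rw [hR0]; exact Finset.mem_insert_self _ _
  have hf2 : f₂' ∈ R0 := by
    rw [hR0]
    exact Finset.mem_insert_of_mem (Finset.mem_insert_self _ _)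
  have hf3 : f₃ ∈ R0 := by
    rw [hR0]
    exact Finset.mem_insert_of_mem (Finset.mem_insert_of_mem (Finset.mem_insert_self _ _))
  have hRR0 : ∀ e ∈ R, e ∈ R0 := by
    intro e he
    rw [hR0]
    exact Finset.mem_insert_of_mem (Finset.mem_insert_of_mem (Finset.mem_insert_of_mem he))
  have e1 : f₁ = f₁' + r₁ := by rw [hr1]; abel
  have e2 : f₂ = f₂' + r₂ := by rw [hr2]; abel
  have e3 : f₃' = f₃ + (r₁ + r₂) := by
    have h := hrel
    rw [hr1, hr2]
    have h' : f₃' = f₁ + f₂ + f₃ - f₁' - f₂' := by rw [h]; abel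
    rw [h']
    abel
  -- the hypotheses of V5
  have hel' : ∀ e ∈ C', IsElt e := by
    intro e he
    rcases (hmemC' e).1 he with h | h | h
    · left
      rw [h]
      exact r1b
    · left
      rw [h]
      exact r2b
    · exact hel e (hR0C e h)
  have hfull' : Full C' := by
    intro z
    by_cases hz1 : z = y₁
    · refine ⟨f₁', (hmemC' _).2 (Or.inr (Or.inr hf1)), ?_⟩
      rw [hz1, c1']
      exact one_ne_zero
    by_cases hz2 : z = y₂
    · refine ⟨f₂', (hmemC' _).2 (Or.inr (Or.inr hf2)), ?_⟩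
      rw [hz2, c2']
      exact one_ne_zero
    by_cases hz3 : z = y₃
    · refine ⟨f₃, (hmemC' _).2 (Or.inr (Or.inr hf3)), ?_⟩
      rw [hz3, c3]
      exact one_ne_zero
    obtain ⟨e, he, hez, -⟩ := htriv z hz1 hz2 hz3
    refine ⟨e, (hmemC' _).2 (Or.inr (Or.inr (hRR0 e ((hRmem e).2 ⟨he, ?_, ?_, ?_, ?_, ?_, ?_⟩)))), ?_⟩
    · exact Y5a_ne hez (b1 z hz1)
    · exact Y5a_ne hez (b2 z hz2)
    · exact Y5a_ne hez (b3' z hz3)
    · exact Y5a_ne hez (b1' z hz1)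
    · exact Y5a_ne hez (b2' z hz2)
    · exact Y5a_ne hez (b3 z hz3)
    · rw [hez]
      exact one_ne_zero
  have hspan' : Spans C' := by
    intro z hz1 hz2
    apply hspan z hz1
    have k1 := hz2 r₁ ((hmemC' _).2 (Or.inl rfl))
    have k2 := hz2 r₂ ((hmemC' _).2 (Or.inr (Or.inl rfl)))
    have k3 := hz2 f₁' ((hmemC' _).2 (Or.inr (Or.inr hf1)))
    have k4 := hz2 f₂' ((hmemC' _).2 (Or.inr (Or.inr hf2)))
    have k5 := hz2 f₃ ((hmemC' _).2 (Or.inr (Or.inr hf3)))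
    intro e he
    rw [hC] at he
    simp only [Finset.mem_insert] at he
    rcases he with h | h | h | h | h | h | h
    · rw [h, e1, pr_add, k1, k3, add_zero]
    · rw [h, e2, pr_add, k2, k4, add_zero]
    · rw [h, e3, pr_add, pr_add, k1, k2, k5, add_zero, add_zero]
    · rw [h, k3]
    · rw [h, k4]
    · rw [h, k5]
    · exact hz2 e ((hmemC' _).2 (Or.inr (Or.inr (hRR0 e h))))
  have hcs := card_of_spans hspan'
  have hR0card' : R0.card = R.card + 3 := by rw [hR0]; exact hR0card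
  have hr2R : r₂ ∉ R0 := by
    intro h
    have h' : (insert r₁ (insert r₂ R0)).card ≤ R0.card + 1 := by
      rw [Finset.insert_eq_of_mem h]
      exact Finset.card_insert_le _ _
    rw [← hC'] at h'
    omega
  have hr1R : r₁ ∉ insert r₂ R0 := by
    intro h
    have h' : (insert r₁ (insert r₂ R0)).card ≤ R0.card + 1 := by
      rw [Finset.insert_eq_of_mem h]
      exact Finset.card_insert_le _ _
    rw [← hC'] at h'
    omega
  have hcard' : C'.card + 1 = d + m := by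
    rw [hC', Finset.card_insert_of_notMem hr1R, Finset.card_insert_of_notMem hr2R]
    omega
  have hr1R0 : r₁ ∉ R0 := fun h => hr1R (Finset.mem_insert_of_mem h)
  have hr12 : r₁ ≠ r₂ := fun h => hr1R (h ▸ Finset.mem_insert_self _ _)
  -- the weights
  obtain ⟨β', hβ'⟩ : ∃ β' : (Idx d m → ℤ) → ℝ, β' = fun e =>
      if e = r₁ ∨ e = r₂ ∨ e = f₁' ∨ e = f₂' ∨ e = f₃ then 2 else β e := ⟨_, rfl⟩
  have w1 : β' r₁ = 2 := by rw [hβ']; exact if_pos (by tauto)
  have w2 : β' r₂ = 2 := by rw [hβ']; exact if_pos (by tauto)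
  have w3 : β' f₁' = 2 := by rw [hβ']; exact if_pos (by tauto)
  have w4 : β' f₂' = 2 := by rw [hβ']; exact if_pos (by tauto)
  have w5 : β' f₃ = 2 := by rw [hβ']; exact if_pos (by tauto)
  have w6 : ∀ e ∈ R, β' e = β e := by
    intro e he
    rw [hβ']
    refine if_neg ?_
    have h := (hRmem e).1 he
    rintro (h' | h' | h' | h' | h')
    · exact hr1R0 (h' ▸ hRR0 e he)
    · exact hr2R (h' ▸ hRR0 e he)
    · exact h.2.2.2.2.1 h'
    · exact h.2.2.2.2.2.1 h'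
    · exact h.2.2.2.2.2.2 h'
  have hsumC' : ∀ G : (Idx d m → ℤ) → ℝ, ∑ e ∈ C', β' e * G e =
      2 * G r₁ + (2 * G r₂ + (2 * G f₁' + (2 * G f₂' + (2 * G f₃ + ∑ e ∈ R, β e * G e)))) := by
    intro G
    rw [hC', Finset.sum_insert hr1R, Finset.sum_insert hr2R, hR0, Finset.sum_insert q4,
      Finset.sum_insert q5, Finset.sum_insert q6, w1, w2, w3, w4, w5]
    rw [Finset.sum_congr rfl fun e he => by rw [w6 e he]]
  -- the elements of `R`
  have hRblock : ∀ e ∈ R, e (Sum.inr y₁) = 0 ∧ e (Sum.inr y₂) = 0 ∧ e (Sum.inr y₃) = 0 := by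
    intro e he
    have h := (hRmem e).1 he
    refine ⟨?_, ?_, ?_⟩
    · by_contra hne
      rcases u1 e h.1 hne with h' | h'
      · exact h.2.1 h'
      · exact h.2.2.2.2.1 h'
    · by_contra hne
      rcases u2 e h.1 hne with h' | h'
      · exact h.2.2.1 h'
      · exact h.2.2.2.2.2.1 h'
    · by_contra hne
      rcases u3 e h.1 hne with h' | h'
      · exact h.2.2.2.2.2.2 h'
      · exact h.2.2.2.1 h'
  -- the choice of the element of a trivial block
  have hg : ∀ z, z ≠ y₁ → z ≠ y₂ → z ≠ y₃ → ∃ e ∈ R, e (Sum.inr z) = 1 ∧ β e = 2 ∧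
      ∀ e' ∈ C, e' (Sum.inr z) ≠ 0 → e' = e := by
    intro z hz1 hz2 hz3
    obtain ⟨e, he, hez, hu⟩ := htriv z hz1 hz2 hz3
    refine ⟨e, (hRmem e).2 ⟨he, Y5a_ne hez (b1 z hz1), Y5a_ne hez (b2 z hz2),
      Y5a_ne hez (b3' z hz3), Y5a_ne hez (b1' z hz1), Y5a_ne hez (b2' z hz2),
      Y5a_ne hez (b3 z hz3)⟩, hez, ?_, hu⟩
    exact hβ₃ e he ⟨z, hz1, hz2, hz3, by rw [hez]; exact one_ne_zero⟩
  have hδ : ∀ z ≠ y, ∑ e ∈ C', β' e * e (Sum.inr z) = 2 := by
    intro z _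
    rw [hsumC' (fun e => (e (Sum.inr z) : ℝ))]
    simp only [r1b z, r2b z, Int.cast_zero, mul_zero, zero_add]
    have hz0 : (∀ e ∈ R, e (Sum.inr z) = 0) → ∑ e ∈ R, β e * (e (Sum.inr z) : ℝ) = 0 := by
      intro h
      refine Finset.sum_eq_zero fun e he => ?_
      rw [h e he, Int.cast_zero, mul_zero]
    by_cases hz1 : z = y₁
    · rw [hz0 fun e he => by rw [hz1]; exact (hRblock e he).1]
      rw [hz1, c1', b2' _ h12, b3 _ h13]
      norm_num
    by_cases hz2 : z = y₂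
    · rw [hz0 fun e he => by rw [hz2]; exact (hRblock e he).2.1]
      rw [hz2, c2', b1' _ h12.symm, b3 _ h23]
      norm_num
    by_cases hz3 : z = y₃
    · rw [hz0 fun e he => by rw [hz3]; exact (hRblock e he).2.2]
      rw [hz3, c3, b1' _ h13.symm, b2' _ h23.symm]
      norm_num
    obtain ⟨e, he, hez, hb, hu⟩ := hg z hz1 hz2 hz3
    rw [b1' z hz1, b2' z hz2, b3 z hz3, Finset.sum_eq_single e]
    · rw [hb, hez]
      norm_num
    · intro e' he' hne
      have h0 : e' (Sum.inr z) = 0 := by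
        by_contra h
        exact hne (hu e' ((hRmem e').1 he').1 h)
      rw [h0, Int.cast_zero, mul_zero]
    · intro h
      exact absurd he h
  -- the product of the weights
  have hβ2 : ∀ e ∈ R, (∃ z, e (Sum.inr z) ≠ 0) → β e = 2 := by
    rintro e he ⟨z, hz⟩
    have hb := hRblock e he
    refine hβ₃ e ((hRmem e).1 he).1 ⟨z, ?_, ?_, ?_, hz⟩
    · rintro rfl
      exact hz hb.1
    · rintro rfl
      exact hz hb.2.1
    · rintro rfl
      exact hz hb.2.2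
  have hprodR : ∏ e ∈ R, β e = 2 ^ (m - 3) := by
    rw [← Finset.prod_filter_mul_prod_filter_not R (fun e => ∃ z : Fin m, e (Sum.inr z) ≠ 0)]
    have hone : ∏ e ∈ R.filter (fun e => ¬ ∃ z : Fin m, e (Sum.inr z) ≠ 0), β e = 1 := by
      refine Finset.prod_eq_one fun e he => ?_
      rw [Finset.mem_filter] at he
      refine hβ₁ e ((hRmem e).1 he.1).1 fun z => ?_
      by_contra hz
      exact he.2 ⟨z, hz⟩
    have htwo : ∏ e ∈ R.filter (fun e => ∃ z : Fin m, e (Sum.inr z) ≠ 0), β e =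
        2 ^ (R.filter (fun e => ∃ z : Fin m, e (Sum.inr z) ≠ 0)).card := by
      rw [Finset.prod_congr rfl fun e he => hβ2 e (Finset.mem_filter.1 he).1
        (Finset.mem_filter.1 he).2, Finset.prod_const]
    have hcardf : (R.filter (fun e => ∃ z : Fin m, e (Sum.inr z) ≠ 0)).card = m - 3 := by
      have hT : ((Finset.univ : Finset (Fin m)).filter
          (fun z => z ≠ y₁ ∧ z ≠ y₂ ∧ z ≠ y₃)).card = m - 3 := by
        have h3c : ({y₁, y₂, y₃} : Finset (Fin m)).card = 3 := by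
          rw [Finset.card_insert_of_notMem, Finset.card_insert_of_notMem, Finset.card_singleton]
          · rw [Finset.mem_singleton]
            exact h23
          · simp only [Finset.mem_insert, Finset.mem_singleton, not_or]
            exact ⟨h12, h13⟩
        have heq : (Finset.univ : Finset (Fin m)).filter
            (fun z => z ≠ y₁ ∧ z ≠ y₂ ∧ z ≠ y₃) = ({y₁, y₂, y₃} : Finset (Fin m))ᶜ := by
          ext z
          simp only [Finset.mem_filter, Finset.mem_univ, true_and, Finset.mem_compl,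
            Finset.mem_insert, Finset.mem_singleton, not_or, ne_eq]
        rw [heq, Finset.card_compl, h3c, Fintype.card_fin]
      rw [← hT]
      symm
      refine Finset.card_bij (fun z hz => (hg z (Finset.mem_filter.1 hz).2.1
        (Finset.mem_filter.1 hz).2.2.1 (Finset.mem_filter.1 hz).2.2.2).choose) ?_ ?_ ?_
      · intro z hz
        have h := (hg z (Finset.mem_filter.1 hz).2.1
          (Finset.mem_filter.1 hz).2.2.1 (Finset.mem_filter.1 hz).2.2.2).choose_spec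
        rw [Finset.mem_filter]
        refine ⟨h.1, z, ?_⟩
        rw [h.2.1]
        exact one_ne_zero
      · intro z hz z' hz' heq
        have h := (hg z (Finset.mem_filter.1 hz).2.1
          (Finset.mem_filter.1 hz).2.2.1 (Finset.mem_filter.1 hz).2.2.2).choose_spec
        have h' := (hg z' (Finset.mem_filter.1 hz').2.1
          (Finset.mem_filter.1 hz').2.2.1 (Finset.mem_filter.1 hz').2.2.2).choose_spec
        rw [← heq] at h'
        by_contra hne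
        have h0 := Y5a_block (hel _ ((hRmem _).1 h.1).1) h.2.1 (z := z') (Ne.symm hne)
        rw [h'.2.1] at h0
        exact one_ne_zero h0
      · intro e he
        rw [Finset.mem_filter] at he
        obtain ⟨heR, z, hz⟩ := he
        have hb := hRblock e heR
        have hz1 : z ≠ y₁ := by
          rintro rfl
          exact hz hb.1
        have hz2 : z ≠ y₂ := by
          rintro rfl
          exact hz hb.2.1
        have hz3 : z ≠ y₃ := by
          rintro rfl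
          exact hz hb.2.2
        refine ⟨z, Finset.mem_filter.2 ⟨Finset.mem_univ z, hz1, hz2, hz3⟩, ?_⟩
        exact ((hg z hz1 hz2 hz3).choose_spec.2.2.2 e ((hRmem e).1 heR).1 hz).symm
    rw [hone, mul_one, htwo, hcardf]
  have hprod : ∏ e ∈ C', β' e = 2 ^ 5 * 2 ^ (m - 3) := by
    rw [hC', Finset.prod_insert hr1R, Finset.prod_insert hr2R, hR0, Finset.prod_insert q4,
      Finset.prod_insert q5, Finset.prod_insert q6, w1, w2, w3, w4, w5,
      Finset.prod_congr rfl w6, hprodR]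
    ring
  have hpos : ∀ e ∈ C', 0 < β' e := by
    intro e he
    rcases (hmemC' e).1 he with h | h | h
    · rw [h, w1]
      norm_num
    · rw [h, w2]
      norm_num
    · rw [hR0, Finset.mem_insert, Finset.mem_insert, Finset.mem_insert] at h
      rcases h with h | h | h | h
      · rw [h, w3]
        norm_num
      · rw [h, w4]
        norm_num
      · rw [h, w5]
        norm_num
      · rw [w6 e h]
        by_cases hz : ∃ z : Fin m, e (Sum.inr z) ≠ 0
        · rw [hβ2 e h hz]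
          norm_num
        · rw [hβ₁ e ((hRmem e).1 h).1 fun z => by
            by_contra hne
            exact hz ⟨z, hne⟩]
          norm_num
  have hV := volume_basis hm C' hel' hfull' hcard' hspan' y β' hpos 2 (by norm_num) hδ t ht
  refine (measure_mono (Set.image_mono ?_)).trans (hV.trans (le_of_eq ?_))
  · rintro ζ ⟨⟨hζ1, hζ2⟩, hζ3, hζ4, hζ5⟩
    rw [← hr1] at hζ4
    rw [← hr2] at hζ5
    refine ⟨⟨hζ1, ?_⟩, ?_⟩
    · intro e he
      rcases (hmemC' e).1 he with h | h | h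
      · rw [h]
        exact hζ4
      · rw [h]
        exact hζ5
      · exact hζ2 e (hR0C e h)
    · refine le_trans (le_of_eq ?_) hζ3
      have v1 : β f₁ = 1 := hβ₂ _ m1 ⟨y₁, Or.inl rfl, by rw [c1]; exact one_ne_zero⟩
      have v1' : β f₁' = 1 := hβ₂ _ m1' ⟨y₁, Or.inl rfl, by rw [c1']; exact one_ne_zero⟩
      have v2 : β f₂ = 1 :=
        hβ₂ _ m2 ⟨y₂, Or.inr (Or.inl rfl), by rw [c2]; exact one_ne_zero⟩
      have v2' : β f₂' = 1 :=
        hβ₂ _ m2' ⟨y₂, Or.inr (Or.inl rfl), by rw [c2']; exact one_ne_zero⟩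
      have v3 : β f₃ = 1 :=
        hβ₂ _ m3 ⟨y₃, Or.inr (Or.inr rfl), by rw [c3]; exact one_ne_zero⟩
      have v3' : β f₃' = 1 :=
        hβ₂ _ m3' ⟨y₃, Or.inr (Or.inr rfl), by rw [c3']; exact one_ne_zero⟩
      rw [hsumC' (fun e => pr e ζ), hsumC (fun e => β e * pr e ζ), v1, v1', v2, v2', v3, v3']
      have p1 : pr f₁ ζ = pr f₁' ζ + pr r₁ ζ := by rw [← pr_add, ← e1]
      have p2 : pr f₂ ζ = pr f₂' ζ + pr r₂ ζ := by rw [← pr_add, ← e2]
      have p3 : pr f₃' ζ = pr f₃ ζ + (pr r₁ ζ + pr r₂ ζ) := by rw [← pr_add, ← pr_add, ← e3]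
      rw [p1, p2, p3]
      ring
  · rw [hprod]
    congr 1
    obtain ⟨k, rfl⟩ : ∃ k, m = k + 3 := ⟨m - 3, by omega⟩
    have h1 : k + 3 - 2 = k + 1 := by omega
    have h2 : k + 3 - 3 = k := by omega
    rw [h1, h2]
    have hf : ((d + 1)! : ℝ) ≠ 0 := by positivity
    field_simp
    ring

end Pool.Agent.Lib.H45DA
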