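import Pool.Agent.Lib.H45DA.X4
import Pool.Agent.Lib.H45DA.Y1
import Pool.Agent.Lib.H45DA.Y3
import Pool.Agent.Lib.H45DA.Y4
import Pool.Agent.Lib.H45DA.Y5

/-!
# Project H45DA: the local bound at a singular elliptic point
-/

namespace Pool.Agent.Lib.H45DA

variable {d m : ℕ}

/-- The local bound (ODP gap) at a singular elliptic point. -/
theorem elliptic_bound (hd : 1 ≤ d) (hm : 3 ≤ m) {E : Finset (Idx d m → ℤ)} {a : Idx d m → ℝ}
    (hE : Loc E a) (hns : ¬ ({y : Fin m | ¬ Triv E y}.ncard ≤ 2 ∧ IsZBasis E)) : HasBound E := by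
  rcases elliptic_cases hm hE hns with ⟨B, hBE, h1, h2, h3, h4⟩ | ⟨C, hCE, h1, h2, h3, h4⟩ |
    ⟨C, hCE, hC | hC⟩
  · exact HasBound.mono hBE (bound_basis hd hm (hE.mono hBE h1 h2) h3 h4)
  · exact HasBound.mono hCE (bound_toric_type hd hm (hE.mono hCE h1 h2) h3 h4)
  · exact HasBound.mono hCE (bound_circuitTwo hd hm (fun e he => hE.elt e (hCE he)) hC)
  · exact HasBound.mono hCE (bound_circuitThree hd hm (fun e he => hE.elt e (hCE he)) hC)

end Pool.Agent.Lib.H45DA
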